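import Pool.Agent.Lib.MP_e1e491_gt.CH.Defs

/-! The atlas of frames. -/

namespace KCH

open Set Metric KP2 KCC MeasureTheory Filter Topology
open scoped Classical

variable {Z : Type} [MetricSpace Z] [CompactSpace Z]

/-- Squeeze the line into the unit interval. -/
noncomputable def sqz (s : ℝ) : ℝ := 1 / 2 + s / (2 * (1 + |s|))

theorem sqz_cont : Continuous sqz := by
  unfold sqz
  refine continuous_const.add (continuous_id.div (by fun_prop) fun s => ?_)
  positivity

theorem sqz_mono : StrictMono sqz := by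
  intro a b hab
  unfold sqz
  have ha : 0 < 2 * (1 + |a|) := by positivity
  have hb : 0 < 2 * (1 + |b|) := by positivity
  rw [add_lt_add_iff_left, div_lt_div_iff₀ ha hb]
  rcases abs_cases a with ⟨h1, h2⟩ | ⟨h1, h2⟩ <;> rcases abs_cases b with ⟨h3, h4⟩ | ⟨h3, h4⟩ <;>
    rw [h1, h3] <;> nlinarith

theorem sqz_mem (s : ℝ) : 0 < sqz s ∧ sqz s < 1 := by
  unfold sqz
  have ha : 0 < 2 * (1 + |s|) := by positivity
  have h1 : s / (2 * (1 + |s|)) < 1 / 2 := by
    rw [div_lt_iff₀ ha]
    linarith [le_abs_self s]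
  have h2 : -(1 / 2) < s / (2 * (1 + |s|)) := by
    rw [lt_div_iff₀ ha]
    linarith [neg_abs_le s]
  constructor <;> linarith

theorem sqz_one : sqz (-1) = 1 / 4 ∧ sqz 1 = 3 / 4 := by
  unfold sqz
  norm_num

theorem atl_sep {ι : Z → Pl} (hc : Continuous ι) (hi : Function.Injective ι) {d : ℝ}
    (hd : 0 < d) : ∃ m > 0, ∀ x y, d ≤ dist x y → m ≤ dist (ι x) (ι y) := by
  have hK : IsCompact {p : Z × Z | d ≤ dist p.1 p.2} :=
    (isClosed_le continuous_const continuous_dist).isCompact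
  obtain ⟨m, hm, h⟩ := hK.exists_forall_le' (f := fun p : Z × Z => dist (ι p.1) (ι p.2)) (a := 0)
    (by fun_prop) fun p hp => dist_pos.2 fun e => by
      have h1 : d ≤ dist p.1 p.2 := hp
      rw [hi e, dist_self] at h1
      linarith
  exact ⟨m, hm, fun x y hxy => h (x, y) hxy⟩

/-- The frame with coordinate `i` centred at `c`. -/
noncomputable def atl_fr (ι : Z → Pl) (m : ℝ) (i : Bool) (c : ℝ) (x : Z) : Pl := fun b =>
  cond b (1 / 2 + (sqz (ι x (!i)) - 1 / 2) / 10) (sqz ((ι x i - c) / (m / 4)))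

omit [CompactSpace Z] in
theorem atl_emb {ι : Z → Pl} (hc : Continuous ι) (hi : Function.Injective ι) {m : ℝ} (hm : 0 < m)
    (i : Bool) (c : ℝ) : Emb (atl_fr ι m i c) := by
  have hs := sqz_cont
  refine ⟨continuous_pi fun b => ?_, fun x y h => hi ?_, fun x => sqz_mem _, fun x => ?_⟩
  · cases b
    · exact hs.comp (by fun_prop)
    · exact continuous_const.add (((hs.comp (by fun_prop)).sub continuous_const).div_const _)
  · have h1 : sqz ((ι x i - c) / (m / 4)) = sqz ((ι y i - c) / (m / 4)) := congrFun h false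
    have h2 : 1 / 2 + (sqz (ι x (!i)) - 1 / 2) / 10 = 1 / 2 + (sqz (ι y (!i)) - 1 / 2) / 10 :=
      congrFun h true
    have h3 := (div_left_inj' (by positivity)).1 (sqz_mono.injective h1)
    have h4 : ι x (!i) = ι y (!i) := sqz_mono.injective (by linarith)
    have h5 : ι x i = ι y i := by linarith
    funext b
    cases b <;> cases i <;> assumption
  · have := sqz_mem (ι x (!i))
    show 9 / 20 < 1 / 2 + (sqz (ι x (!i)) - 1 / 2) / 10 ∧
      1 / 2 + (sqz (ι x (!i)) - 1 / 2) / 10 < 11 / 20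
    constructor <;> linarith [this.1, this.2]

theorem exists_atlasH {ι : Z → Pl} (hc : Continuous ι) (hi : Function.Injective ι) {B d : ℝ}
    (hd : 0 < d) (hg : ∀ j : Z → Pl, Emb j → Good (fun x => j x false) B) :
    ∃ δ > 0, AtlasH Z d B δ := by
  obtain ⟨m, hm, hmd⟩ := atl_sep hc hi hd
  obtain ⟨R, hR⟩ : ∃ R : ℝ, ∀ x i, ι x i ∈ Icc (-R) R := by
    obtain ⟨R, hR⟩ := (isCompact_range hc).isBounded.exists_norm_le
    exact ⟨R, fun x i => abs_le.1 ((norm_le_pi_norm (ι x) i).trans (hR _ ⟨x, rfl⟩))⟩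
  obtain ⟨T, -, hT, hcov⟩ := finite_cover_balls_of_compact (isCompact_Icc (a := -R) (b := R))
    (show 0 < m / 4 by positivity)
  have := hT.fintype
  let ξ : Bool × T → Z → ℝ := fun p x => atl_fr ι m p.1 p.2 x false
  have he : ∀ p : Bool × T, Emb (atl_fr ι m p.1 p.2) := fun p => atl_emb hc hi hm _ _
  have hξ : ∀ p, Continuous (ξ p) := fun p => (continuous_apply false).comp (he p).cont
  have hu : UniformContinuous fun x p => ξ p x :=
    CompactSpace.uniformContinuous_of_continuous (continuous_pi hξ)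
  obtain ⟨δ, hδ, hl⟩ := Metric.uniformContinuous_iff.1 hu (1 / 1000) (by norm_num)
  refine ⟨min (δ / 2) 1, by positivity, {p : Bool × T // ∃ E, Crs (ξ p) E}, inferInstance,
    fun p => ξ p.1, fun p => ⟨⟨by positivity, min_le_right _ _, hξ _, fun x y h => ?_, p.2⟩,
      hg _ (he p.1)⟩, fun S x y hj hxy => ?_⟩
  · have h1 := hl (a := x) (b := y) (by linarith [min_le_left (δ / 2) 1])
    exact (dist_le_pi_dist (fun p => ξ p x) (fun p => ξ p y) p.1).trans h1.le
  · obtain ⟨i, hi'⟩ : ∃ i, m ≤ |ι x i - ι y i| := by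
      by_contra h
      push Not at h
      exact absurd ((dist_pi_lt_iff hm).2 h) (not_lt.2 (hmd x y hxy))
    have key : ∀ x y : Z, JoinedIn S x y → m ≤ ι y i - ι x i →
        ∃ p : {p : Bool × T // ∃ E, Crs (ξ p) E}, ∃ E ⊆ S, Crs (ξ p.1) E := by
      intro x y hj h
      have hmid : (ι x i + ι y i) / 2 ∈ Icc (-R) R :=
        ⟨by linarith [(hR x i).1, (hR y i).1], by linarith [(hR x i).2, (hR y i).2]⟩
      obtain ⟨c, hcT, hc'⟩ := mem_iUnion₂.1 (hcov hmid)
      rw [mem_ball, Real.dist_eq, abs_lt] at hc'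
      obtain ⟨γ, hγ⟩ := hj
      have hcr : Crs (ξ (i, ⟨c, hcT⟩)) (range γ) := by
        refine ⟨isPreconnected_range γ.continuous, ⟨x, ⟨0, γ.source⟩, ?_⟩, y, ⟨1, γ.target⟩, ?_⟩
        · rw [← sqz_one.1]
          refine sqz_mono.monotone ?_
          rw [div_le_iff₀ (by positivity)]
          linarith [hc'.1, hc'.2]
        · rw [← sqz_one.2]
          refine sqz_mono.monotone ?_
          rw [le_div_iff₀ (by positivity)]
          linarith [hc'.1, hc'.2]
      exact ⟨⟨_, _, hcr⟩, _, range_subset_iff.2 hγ, hcr⟩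
    rcases le_abs'.1 hi' with h | h
    · exact key x y hj (by linarith)
    · exact key y x hj.symm h

end KCH
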