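import Pool.Agent.Lib.MP_e1e491_gt.CH.Three

/-! Counting nearly facial continua. -/

namespace KCH

open Set Metric KP2 KCC

variable {Z : Type} [MetricSpace Z] {lam : ℝ}

theorem kn_of_ll [CompactSpace Z] (hl : LL Z lam) (hD : Dbl Z) : KN Z := by
  classical
  intro T
  have h1 := hl.one_le
  obtain ⟨N, hN⟩ := hD.cover (100 * lam * (T + 1))
  refine ⟨N ^ 7 * 2, fun x r η S hr hη hηr hS => ?_⟩
  set ρ := r / (100 * lam) with hρ
  have hρ0 : 0 < ρ := by positivity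
  have e1 : lam * ρ = r / 100 := by rw [hρ]; field_simp
  have e2 : ρ ≤ r / 100 := by rw [← e1]; nlinarith
  obtain ⟨Q, hQ, -, hQ'⟩ := hN ρ x (closedBall x ((T + 1) * r)) hρ0
    (closedBall_subset_closedBall (le_of_eq (by rw [hρ]; field_simp)))
  have hcls : ∀ α : Set Z, ∃ y : Fin 7 → Z, α ∈ S → (∀ t, y t ∈ Q) ∧
      (∀ t, ∃ w ∈ α, dist w (y t) ≤ ρ) ∧
      ∀ t t', t ≠ t' → 2 * (lam * ρ + η) < dist (y t) (y t') := by
    intro α
    by_cases hα : α ∈ S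
    swap
    · exact ⟨fun _ => x, fun h => absurd h hα⟩
    obtain ⟨hnf, p, hp, q, hq, hpx, hpq⟩ := hS α hα
    have h2 : ∀ t : Fin 7, ∃ w ∈ α, dist w p = (t : ℕ) * (r / 6) := fun t => by
      have h3 : ((t : ℕ) : ℝ) ≤ 6 := by exact_mod_cast Nat.lt_succ_iff.1 t.2
      refine exists_dist_eq hnf.pre hp hq (by rw [dist_self]; positivity) ?_
      rw [dist_comm]
      nlinarith
    choose w hw hw' using h2
    have h3 : ∀ t, ∃ y ∈ Q, dist (w t) y ≤ ρ := fun t => hQ' _ (by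
      have h3 : ((t : ℕ) : ℝ) ≤ 6 := by exact_mod_cast Nat.lt_succ_iff.1 t.2
      have h4 := dist_triangle (w t) p x
      rw [mem_closedBall]
      nlinarith [hw' t])
    choose y hy hy' using h3
    have h4 : ∀ t t' : Fin 7, t < t' → 2 * (lam * ρ + η) < dist (y t) (y t') := fun t t' h => by
      have h5 : ((t : ℕ) : ℝ) + 1 ≤ (t' : ℕ) := by exact_mod_cast h
      have h6 := dist_triangle (w t') (w t) p
      have h7 := dist_triangle4 (w t') (y t') (y t) (w t)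
      rw [dist_comm (y t') (y t), dist_comm (y t) (w t)] at h7
      nlinarith [hw' t, hw' t', hy' t, hy' t']
    refine ⟨y, fun _ => ⟨hy, fun t => ⟨w t, hw t, hy' t⟩, fun t t' h => ?_⟩⟩
    rcases lt_or_gt_of_ne h with k | k
    · exact h4 t t' k
    · exact dist_comm (y t) (y t') ▸ h4 t' t k
  choose cls hcls using hcls
  have hb : ∀ Γ : Finset (Set Z), (Γ : Set (Set Z)) ⊆ S → (Γ : Set (Set Z)).Pairwise Disjoint →
      Γ.card ≤ N ^ 7 * 2 := by
    intro Γ hΓ hd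
    by_contra hlt
    obtain ⟨y, -, hy⟩ := Finset.exists_lt_card_fiber_of_mul_lt_card_of_maps_to (s := Γ)
      (t := Fintype.piFinset fun _ : Fin 7 => Q) (f := cls) (n := 2)
      (fun α hα => Fintype.mem_piFinset.2 (hcls α (hΓ hα)).1) (by
        rw [Fintype.card_piFinset_const]
        exact lt_of_le_of_lt (by gcongr) (not_le.1 hlt))
    obtain ⟨Γ', hΓ', hc⟩ := Finset.exists_subset_card_eq (show 3 ≤ _ from hy)
    set f := (Finset.equivFinOfCardEq hc).symm with hf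
    have h2 : ∀ i, (f i : Set Z) ∈ Γ ∧ cls (f i) = y := fun i => Finset.mem_filter.1 (hΓ' (f i).2)
    obtain ⟨i, j, hij, h3⟩ := three_meet hl (fun i => f i) (fun i => (hS _ (hΓ (h2 i).1)).1) y hρ0
      ((h2 0).2 ▸ (hcls _ (hΓ (h2 0).1)).2.2) fun i => (h2 i).2 ▸ (hcls _ (hΓ (h2 i).1)).2.1
    exact not_disjoint_iff_nonempty_inter.2 h3
      (hd (h2 i).1 (h2 j).1 fun e => hij (f.injective (Subtype.ext e)))
  have hbd : BddAbove {n | ∃ Γ : Finset (Set Z), (Γ : Set (Set Z)) ⊆ S ∧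
      (Γ : Set (Set Z)).Pairwise Disjoint ∧ Γ.card = n} :=
    ⟨_, fun n ⟨Γ, a, b, c⟩ => c ▸ hb Γ a b⟩
  obtain ⟨Γ, g1, g2, g3⟩ := Nat.sSup_mem ⟨0, by exact ⟨∅, by simp, by simp, rfl⟩⟩ hbd
  refine ⟨Γ, hb Γ g1 g2, g1, fun α hα => ?_⟩
  by_contra hn
  have hn' : ∀ β ∈ Γ, Disjoint α β := fun β hβ => by
    by_contra k
    exact hn ⟨β, hβ, not_disjoint_iff_nonempty_inter.1 k⟩
  obtain ⟨-, p, hp, -⟩ := hS α hα
  have hα' : α ∉ Γ := fun k => disjoint_left.1 (hn' α k) hp hp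
  have := le_csSup hbd ⟨insert α Γ, by rw [Finset.coe_insert]; exact insert_subset hα g1, by
    rw [Finset.coe_insert]
    exact g2.insert fun β hβ _ => ⟨hn' β hβ, (hn' β hβ).symm⟩, rfl⟩
  rw [Finset.card_insert_of_notMem hα', ← g3] at this
  omega

end KCH
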