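import Pool.Agent.Lib.MP_e1e491_gt.CC.Defs
import Pool.Agent.Lib.MP_e1e491_gt.CC.Met

/-! Definitions for planar boundaries with holes: flat sets, hole graphs, half tilings. -/

namespace KCH

open Set Metric KP2 KCC MeasureTheory Filter Topology

noncomputable section

/-- No three points of `A` are joined to two points by a weakly embedded `K_{2,3}`. -/
def Flat {Z : Type} [MetricSpace Z] (A : Set Z) : Prop :=
  ∀ (b : Fin 3 → Z) (a : Bool → Z) (e : Bool → Fin 3 → Set Z), (∀ t, b t ∈ A) →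
    (∀ s t, JoinedIn (e s t) (a s) (b t)) → (∀ t t', t ≠ t' → Disjoint (e false t) (e true t')) →
    (∀ s t t', t ≠ t' → b t ∉ e s t') → False

/-- A compact path connected set that runs along a flat set. -/
structure NF {Z : Type} [MetricSpace Z] (η : ℝ) (α : Set Z) : Prop where
  cpt : IsCompact α
  pc : ∀ x ∈ α, ∀ y ∈ α, JoinedIn α x y
  fl : ∃ A, Flat A ∧ ∀ x ∈ α, ∃ b ∈ A, JoinedIn (α ∩ closedBall x η) x b

/-- The boundary of a connected set towards a point outside is connected. -/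
def UC {V : Type} (G : SimpleGraph V) : Prop :=
  ∀ A o, Cn G A → o ∉ A → Cn G {v | Con G Aᶜ o v ∧ ∃ a ∈ A, G.Adj a v}

/-- Boundedly many members of a family of long nearly flat sets meet all members. -/
def KN (Z : Type) [MetricSpace Z] : Prop :=
  ∀ T : ℝ, ∃ N : ℕ, ∀ (x : Z) (r η : ℝ) (S : Set (Set Z)), 0 < r → 0 ≤ η → 100 * η ≤ r →
    (∀ α ∈ S, NF η α ∧ ∃ p ∈ α, ∃ q ∈ α, dist p x ≤ T * r ∧ r ≤ dist p q) →
    ∃ Γ : Finset (Set Z), Γ.card ≤ N ∧ ↑Γ ⊆ S ∧ ∀ α ∈ S, ∃ β ∈ Γ, (α ∩ β).Nonempty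

/-- Every ball contains a nearly flat set of comparable extent. -/
def NW (Z : Type) [MetricSpace Z] (c : ℝ) : Prop :=
  ∀ (η : ℝ) (z : Z) (r : ℝ), 0 < η → 0 < r → r ≤ 1 → ∃ α, NF η α ∧ α ⊆ closedBall z r ∧
    ∃ p ∈ α, ∃ q ∈ α, c * r ≤ dist p q

section

variable {Z : Type}

/-- The left and the right part. -/
def Sd (ξ : Z → ℝ) (b : Bool) (x : Z) : Prop := if b then 58 / 100 ≤ ξ x else ξ x ≤ 42 / 100

/-- The strips. -/
def St (ξ : Z → ℝ) (a : ℝ) : Set Z := {x | |ξ x - 1 / 2| < a / 100}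

/-- `E` crosses from left to right. -/
def Crs [TopologicalSpace Z] (ξ : Z → ℝ) (E : Set Z) : Prop :=
  IsPreconnected E ∧ (∃ x ∈ E, ξ x ≤ 1 / 4) ∧ ∃ x ∈ E, 3 / 4 ≤ ξ x

/-- A frame. -/
structure Fr [MetricSpace Z] (ξ : Z → ℝ) (δ : ℝ) : Prop where
  δ_pos : 0 < δ
  δ_le : δ ≤ 1
  cont : Continuous ξ
  lip : ∀ x y, dist x y ≤ δ → |ξ x - ξ y| ≤ 1 / 1000
  cross : ∃ E, Crs ξ E

/-- An embedding into a thin horizontal strip of the unit square. -/
structure Emb [TopologicalSpace Z] (ι : Z → Pl) : Prop where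
  cont : Continuous ι
  inj : Function.Injective ι
  fst : ∀ x, 0 < ι x false ∧ ι x false < 1
  snd : ∀ x, 9 / 20 < ι x true ∧ ι x true < 11 / 20

/-- Blobs, holes and zones. -/
abbrev Vx (P : Finset Z) (H : Type) : Type := (P ⊕ H) ⊕ Bool × Bool

/-- A blob. -/
abbrev bl {P : Finset Z} {H : Type} (v : P) : Vx P H := .inl (.inl v)

/-- A hole. -/
abbrev ho {P : Finset Z} {H : Type} (h : H) : Vx P H := .inl (.inr h)

/-- The path component of the centre in a closed ball. -/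
def pc [MetricSpace Z] (x : Z) (ρ : ℝ) : Set Z := {p | JoinedIn (closedBall x ρ) x p}

end

/-- The graph of blobs, holes and zones with mesh `s`. -/
structure HG {Z : Type} [MetricSpace Z] (ξ : Z → ℝ) (P : Finset Z) (H : Type) (s : ℝ) where
  Γ : SimpleGraph (Vx P H)
  β : Z → Vx P H
  S : Z → Set (Vx P H)
  hc : HC (free Γ) (nb Γ)
  uc : UC Γ
  nadj : ∀ i, ¬ Γ.Adj (.inr (i, false)) (.inr (i, true))
  zc : ∀ b c, Γ.Adj (.inr (true, b)) (.inr (false, c))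
  adj : ∀ v w : P, Γ.Adj (bl v) (bl w) → dist (v : Z) w ≤ s
  adjz : ∀ (v : P) b, Γ.Adj (bl v) (.inr (false, b)) → Sd ξ b v
  notT : ∀ (v : P) b, ¬ Γ.Adj (bl v) (.inr (true, b))
  hh : ∀ h h' : H, ¬ Γ.Adj (ho h) (ho h')
  flat : ∀ h : H, ∃ A, Flat A ∧ ∀ v : P, Γ.Adj (bl v) (ho h) → ∃ b ∈ A, dist (v : Z) b ≤ s
  flatB : ∃ A, Flat A ∧ ∀ (v : P) (h : H), Γ.Adj (bl v) (ho h) →
    Γ.Adj (ho h) (.inr (true, false)) → ∃ b ∈ A, dist (v : Z) b ≤ s
  β_mem : ∀ x, β x ∈ S x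
  β_left : ∀ x, ξ x ≤ 39 / 100 → β x = .inr (false, false)
  β_right : ∀ x, 61 / 100 ≤ ξ x → β x = .inr (false, true)
  S_cn : ∀ E, IsPreconnected E → Cn Γ {y | ∃ x ∈ E, y ∈ S x}
  S_sub : ∀ x, ∀ y ∈ S x,
    (∃ v : P, y = bl v ∧ dist x v ≤ s) ∨ ∃ b, y = .inr (false, b) ∧ Sd ξ b x
  surj : ∀ (v : P) y, Γ.Adj (bl v) y → ∃ x, bl v ∈ S x

namespace HG

variable {Z : Type} [MetricSpace Z] {ξ : Z → ℝ} {P : Finset Z} {H : Type} {s : ℝ}
  (A : HG ξ P H s)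

/-- The shadow of `E`. -/
def Sh (E : Set Z) : Set (Vx P H) := {y | ∃ x ∈ E, y ∈ A.S x}

/-- The blobs in the shadow of `E`. -/
def Sb (E : Set Z) : Set P := {v | ∃ x ∈ E, bl v ∈ A.S x}

/-- The blob lies in a shadow. -/
def Used (v : P) : Prop := ∃ x, bl v ∈ A.S x

/-- The graph on blobs and holes. -/
abbrev F : SimpleGraph (P ⊕ H) := free A.Γ

/-- The sides of the graph on blobs and holes. -/
abbrev sd : Bool → Bool → Set (P ⊕ H) := nb A.Γ

/-- The graph on blobs. -/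
def G : SimpleGraph P := A.Γ.comap bl

end HG

/-- There are hole graphs at all small scales. -/
def Good {Z : Type} [MetricSpace Z] (ξ : Z → ℝ) (B : ℝ) : Prop :=
  ∃ r₀ > 0, ∀ r, 0 < r → r ≤ r₀ → ∀ P, IsNet r P →
    ∃ (H : Type) (_ : Fintype H), Nonempty (HG ξ P H (B * r))

/-- Finitely many frames such that every long path crosses one of them. -/
def AtlasH (Z : Type) [MetricSpace Z] (d B δ : ℝ) : Prop :=
  ∃ (I : Type) (_ : Fintype I) (ξ : I → Z → ℝ), (∀ i, Fr (ξ i) δ ∧ Good (ξ i) B) ∧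
    ∀ (S : Set Z) (x y : Z), JoinedIn S x y → d ≤ dist x y → ∃ i, ∃ E ⊆ S, Crs (ξ i) E

/-- The vertices whose interval contains `t`. -/
abbrev Vl {V : Type} (n y : V → ℝ) (t : ℝ) : Set V := Vt n (fun _ => y) true t

/-- The vertices at height `t` form one walk from left to right. -/
def Lin {V : Type} (G : SimpleGraph V) (side : Bool → Bool → Set V) (n y : V → ℝ) (t : ℝ) :
    Prop :=
  (∀ v, t ≠ y v ∧ t ≠ y v + n v) ∧ Cn G (Vl n y t) ∧ Cr G side false (Vl n y t)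

/-- A half tiling: the weights vanish on `Hs`. -/
structure HT {V : Type} [Fintype V] (G : SimpleGraph V) (side : Bool → Bool → Set V) (Hs : Set V)
    (n y : V → ℝ) (E : ℝ) : Prop where
  n_nonneg : ∀ v, 0 ≤ n v
  n_hole : ∀ v ∈ Hs, n v = 0
  y_nonneg : ∀ v, 0 ≤ y v
  le_one : ∀ v, y v + n v ≤ 1
  E_pos : 0 < E
  area : ∑ v, n v ^ 2 = E
  cross : ∀ W, Disjoint W Hs → Cr G side false W → E ≤ wt n W
  adj : ∀ v w, G.Adj v w → y w ≤ y v + n v
  zero : ∀ v ∈ side true false, y v = 0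
  one : ∀ v ∈ side true true, 1 ≤ y v + n v
  down : ∀ v, y v < 1 → ∃ a ∈ side true false, Con G {w | y w ≤ y v} a v
  line : ∀ᵐ t : ℝ, t ∈ Ioo (0 : ℝ) 1 → Lin G side n y t

/-- A hole graph with its half tiling and thickened blobs. -/
structure TH {Z : Type} [MetricSpace Z] (ξ : Z → ℝ) (δ : ℝ) (P : Finset Z) (H : Type) [Fintype H]
    (B r lam : ℝ) extends HG ξ P H (B * r) where
  n : P ⊕ H → ℝ
  y : P ⊕ H → ℝ
  E : ℝ
  D : Z → Set Z
  ht : HT (free Γ) (nb Γ) (range Sum.inr) n y E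
  D_closed : ∀ x, IsClosed (D x)
  D_conn : ∀ x, IsPreconnected (D x)
  D_sup : ∀ x, closedBall x (B * r) ⊆ D x
  D_sub : ∀ x, D x ⊆ closedBall x (lam * (B * r))
  net : IsNet r P
  r_pos : 0 < r
  B_ge : 1 ≤ B
  fr : Fr ξ δ
  ll : LL Z lam
  small : 10 * lam ^ 2 * (B * r) ≤ δ

namespace TH

variable {Z : Type} [MetricSpace Z] {ξ : Z → ℝ} {δ : ℝ} {P : Finset Z} {H : Type} [Fintype H]
  {B r lam : ℝ} (T : TH ξ δ P H B r lam)

/-- The weight of a blob. -/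
def m (v : P) : ℝ := T.n (.inl v)

/-- The level of a blob. -/
def Y (v : P) : ℝ := T.y (.inl v)

/-- The level of a point. -/
def u (x : Z) : ℝ := Sum.elim T.y (fun _ => 0) (T.β x)

/-- The blobs at height `t`. -/
abbrev V (t : ℝ) : Set P := Vl T.m T.Y t

/-- The height `t` carries a line. -/
def Ln (t : ℝ) : Prop := t ∈ Ioo (0 : ℝ) 1 ∧ Lin T.F T.sd T.n T.y t

/-- The thickened line. -/
def cl (t : ℝ) : Set Z := ⋃ v ∈ T.V t, T.D v

/-- Shell gauges of mass `K / E` from the scale `r₁` on. -/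
def Ok (K r₁ : ℝ) : Prop := Shell T.G (K / T.E) r₁ ∧ T.E ≤ K ∧ B * r ≤ r₁

/-- Levels at distance `ε` differ by at most `a`. -/
structure Nr (ε a : ℝ) : Prop where
  n_le : ∀ v, T.n v ≤ a
  uu : ∀ x ∈ St ξ 7, ∀ x', dist x x' ≤ ε → |T.u x - T.u x'| ≤ a
  uY : ∀ x ∈ St ξ 7, ∀ v : P, T.Used v → dist x v ≤ ε → |T.u x - T.Y v| ≤ a

/-- The modulus of continuity `ε` holds down to the scale `r₁`. -/
def Mod (ε : ℝ → ℝ) (r₁ : ℝ) : Prop := ∀ a, 0 < a → r₁ ≤ ε a → T.Nr (ε a) a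

/-- The level is almost constant on connected sets near a flat set. -/
def FC (η η₁ : ℝ) : Prop :=
  ∀ α A : Set Z, Flat A → IsPreconnected α → α ⊆ St ξ 4 → (∀ x ∈ α, ∃ b ∈ A, dist x b ≤ η) →
    ∀ p ∈ α, ∀ q ∈ α, |T.u p - T.u q| ≤ η₁

/-- The levels of the lines that meet the image of the line `s` in the middle strip. -/
def Hit (f : Z → Z) (s : ℝ) : Set ℝ :=
  {t | T.Ln t ∧ ∃ x ∈ T.cl s, x ∈ St ξ 3 ∧ f x ∈ St ξ 3 ∧ f x ∈ T.cl t}

end TH

/-- A positive function. -/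
def Pos (ε : ℝ → ℝ) : Prop := ∀ a, 0 < a → 0 < ε a

/-- Both points lie on long nearly flat sets of the same level. -/
def Jmp {Z : Type} [MetricSpace Z] (u : Z → ℝ) (η : ℝ) (x x' : Z) : Prop :=
  ∃ t, ∀ p, p = x ∨ p = x' → ∃ α, NF η α ∧ p ∈ α ∧ (∃ q ∈ α, dist x x' ≤ 8 * dist p q) ∧
    ∀ w ∈ α, |u w - t| ≤ η

end

end KCH
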