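import Pool.Agent.Lib.MP_e1e491_gt.CH.TC

/-! Equicontinuity. -/

namespace KCH

open Set Metric KP2 KCC MeasureTheory Filter Topology
open scoped Classical

variable {Z : Type} [MetricSpace Z]

/-- Lines that meet a small ball cross many shells. -/
theorem th_equi {δ : ℝ} (hδ : 0 < δ) (K : ℝ) {a : ℝ} (ha : 0 < a) : ∃ R > 0, R ≤ δ ∧
    ∀ (ξ : Z → ℝ) (P : Finset Z) (H : Type) [Fintype H] (B r lam r₁ : ℝ)
      (T : TH ξ δ P H B r lam), T.Ok K r₁ → r₁ ≤ R → ∀ (x : Z) (S : Set P) (v w : P),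
        (∀ y ∈ S, dist x y ≤ R) → Con T.G S v w → T.Y w + T.m w ≤ T.Y v + a := by
  obtain ⟨J, hJ⟩ := exists_nat_gt (max K 1 / a ^ 2)
  have hM : 0 < max K 1 := lt_max_of_lt_right one_pos
  have hJ0 : (0 : ℝ) < J := lt_trans (by positivity) hJ
  rw [div_lt_iff₀ (by positivity)] at hJ
  have h8 : (1 : ℝ) ≤ 8 ^ J := one_le_pow₀ (by norm_num)
  refine ⟨δ / 2 / 8 ^ J, by positivity, (div_le_self (by positivity) h8).trans (by linarith),
    fun ξ P H _ B r lam r₁ T hT hr x S v w hx hc => ?_⟩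
  have h1 : δ ≤ 1 := T.fr.δ_le
  have h2 : (8 : ℝ) ^ J * (δ / 2 / 8 ^ J) = δ / 2 := by field_simp
  obtain ⟨W, hW, -, hs, hw⟩ := hT.1.multi x J (by positivity) hr (by rw [h2]; linarith)
  rw [h2] at hw
  by_contra hlt
  push Not at hlt
  have h3 := T.gap_le hW (c := J) (T.Y_nonneg v) (by linarith) (T.Y_add_le w) fun t ht hl => by
    obtain ⟨u, hu, hu'⟩ := T.meet (fun y => (T.ln_ne hl y).1) hc ht.1 ht.2
    obtain ⟨a₀, ha₀, h4⟩ := T.ln_far hl x
    exact hw _ u a₀ (T.ln_cn hl u hu' a₀ ha₀) (hx u hu) h4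
  have h4 := Finset.sum_mul_sq_le_sq_mul_sq Finset.univ W T.m
  rw [T.area] at h4
  have hE := T.ht.E_pos
  have h5 : (J * a) ^ 2 ≤ (∑ y, W y * T.m y) ^ 2 :=
    pow_le_pow_left₀ (by positivity) ((mul_le_mul_of_nonneg_left (by linarith) hJ0.le).trans h3) 2
  have h6 : (∑ y, W y ^ 2) * T.E ≤ J * max K 1 := by
    refine (mul_le_mul_of_nonneg_right hs hE.le).trans ?_
    rw [mul_assoc, div_mul_cancel₀ _ hE.ne']
    exact mul_le_mul_of_nonneg_left (le_max_left _ _) hJ0.le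
  nlinarith [mul_lt_mul_of_pos_left hJ hJ0]

theorem exists_mod {δ : ℝ} (hδ : 0 < δ) (lam K : ℝ) : ∃ ε : ℝ → ℝ, Pos ε ∧
    ∀ (ξ : Z → ℝ) (P : Finset Z) (H : Type) [Fintype H] (B r r₁ : ℝ) (T : TH ξ δ P H B r lam),
      T.Ok K r₁ → T.Mod ε r₁ := by
  choose R hR0 hRδ hR using fun (a : ℝ) (ha : 0 < a) => th_equi (Z := Z) hδ K ha
  have hl0 : 0 < 2 * max lam 1 + 1 := by positivity
  refine ⟨fun a => if ha : 0 < a then R a ha / (2 * max lam 1 + 1) else 1, fun a ha => ?_,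
    fun ξ P H _ B r r₁ T hT a ha hr => ?_⟩
  · simp only [dif_pos ha]
    exact div_pos (hR0 a ha) hl0
  simp only [dif_pos ha] at hr ⊢
  have hl := T.ll.one_le
  rw [max_eq_left hl] at hr hl0 ⊢
  have h0 : (2 * lam + 1) * (R a ha / (2 * lam + 1)) = R a ha := by field_simp
  have he : 0 < R a ha / (2 * lam + 1) := div_pos (hR0 a ha) hl0
  have h1 := hRδ a ha
  have h2 := hR a ha ξ P H B r lam r₁ T hT
    (hr.trans (div_le_self (hR0 a ha).le (by linarith)))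
  generalize R a ha / (2 * lam + 1) = e at *
  have hb : B * r ≤ e := hT.2.2.trans hr
  have h3 : e ≤ lam * e := le_mul_of_one_le_left he.le hl
  have key : ∀ x ∈ St ξ 7, ∀ x', dist x x' ≤ 2 * e → ∀ v w : P, bl v ∈ T.S x → bl w ∈ T.S x' →
      |T.Y v - T.Y w| ≤ a := by
    intro x hx x' hd v w hv hw
    obtain ⟨E, e1, e2, e3, e4⟩ := T.ll.three x x'
    have e5 : ∀ z ∈ E, dist x z ≤ lam * (2 * e) := fun z hz =>
      (e4 z hz).trans (mul_le_mul_of_nonneg_left hd (zero_le_one.trans hl))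
    have e6 : E ⊆ St ξ 8 := fun z hz =>
      St_mono (by norm_num) (T.fr.st hx (by linarith [e5 z hz]))
    have e7 : ∀ y ∈ T.Sb E, dist x y ≤ R a ha := fun y hy => by
      obtain ⟨z, hz, k⟩ := T.sb_near hy
      linarith [dist_triangle x z y, e5 z hz]
    have e8 := T.sb_cn e1 e6 v ⟨x, e2, hv⟩ w ⟨x', e3, hw⟩
    have k1 := h2 x _ v w e7 e8
    have k2 := h2 x _ w v e7 e8.symm
    rw [abs_le]
    constructor <;> linarith [T.m_nonneg v, T.m_nonneg w]
  refine ⟨?_, fun x hx x' hd => ?_, fun x hx v ⟨x', hv⟩ hd => ?_⟩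
  · rintro (v | h)
    · have k := h2 v {v} v v (fun y hy => by rw [hy, dist_self]; exact (hR0 a ha).le)
        (KP2.Con.refl rfl)
      change T.m v ≤ a
      linarith
    · rw [T.n_ho]
      exact ha.le
  · obtain ⟨v, k1, k2⟩ := T.β_blob (St_mono (by norm_num) hx)
    obtain ⟨w, k3, k4⟩ := T.β_blob (x := x') (St_mono (by norm_num) (T.fr.st hx (by linarith)))
    rw [T.u_blob k1, T.u_blob k3]
    exact key x hx x' (by linarith) v w k2 k4
  · obtain ⟨w, k1, k2⟩ := T.β_blob (St_mono (by norm_num) hx)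
    rw [T.u_blob k1]
    exact key x hx x' (by linarith [dist_triangle_right x x' v, T.near hv]) w v k2 hv

end KCH
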