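import Pool.Agent.Lib.MP_e1e491_gt.CH.FCb

/-! The level is almost constant along flat sets. -/

namespace KCH

open Set Metric KP2 KCC MeasureTheory Filter Topology
open scoped Classical

variable {Z : Type} [MetricSpace Z] {ξ : Z → ℝ} {δ : ℝ} {P : Finset Z} {H : Type} [Fintype H]
  {B r lam : ℝ}

/-- Three bridges between the same cells. -/
theorem three_bridges (hF : Fr ξ δ) (hL : LL Z lam) {u : Z → ℝ} {α A : Set Z} {ρ a η : ℝ}
    {c c' : Z} {t : Fin 3 → ℝ} (hA : Flat A) (hU : α ⊆ St ξ 4) (hη : 0 < η)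
    (hα : ∀ x ∈ α, ∃ b ∈ A, dist x b ≤ η) (h1 : lam * η ≤ δ) (h2 : ρ ≤ δ)
    (hu : ∀ x ∈ α, ∀ z, dist x z ≤ lam * η → |u x - u z| ≤ a) (hc : c ∉ St ξ 5)
    (hc' : c' ∉ St ξ 5) (hd : 2 * ρ < dist c c') (ht : ∀ i j, i ≠ j → 6 * a < |t i - t j|)
    (h : ∀ i, Br u α ρ (2 * a) (t i) c c') : False := by
  choose x hx e e' he he' hlev hd1 hd2 using h
  choose p hp hp' using he
  choose q hq hq' using he'
  choose b hb hb' using fun i => hα (x i) (hx i)
  have hj := fun i => hL.l1 (x i) η (x i) (b i) hη (by simpa using hη.le)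
    (by rw [dist_comm]; exact hb' i)
  set L : Fin 3 → Set Z := fun i => {z | |u z - t i| ≤ 3 * a} with hLd
  have hx0 : ∀ i, |u (x i) - t i| ≤ 2 * a := fun i => hlev i _ (Or.inl (hp' i).target_mem)
  have ha : 0 ≤ a := by linarith [abs_nonneg (u (x 0) - t 0), hx0 0]
  have hLL : ∀ i j, i ≠ j → Disjoint (L i) (L j) := fun i j hij => disjoint_left.2 fun z h3 h4 => by
    have h3' : |u z - t i| ≤ 3 * a := h3
    have h4' : |u z - t j| ≤ 3 * a := h4
    linarith [ht i j hij, abs_sub_le (t i) (u z) (t j), abs_sub_comm (t i) (u z)]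
  have s1 : ∀ i, ∀ z ∈ e i ∪ e' i, z ∈ L i := fun i z hz =>
    show |u z - t i| ≤ 3 * a by linarith [hlev i z hz]
  have s2 : ∀ i, closedBall (x i) (lam * η) ⊆ L i := fun i z hz => by
    have := hu (x i) (hx i) z (by rw [dist_comm]; exact hz)
    show |u z - t i| ≤ 3 * a
    linarith [hx0 i, abs_sub_le (u z) (u (x i)) (t i), abs_sub_comm (u z) (u (x i))]
  have s3 : ∀ c, c ∉ St ξ 5 → ∀ i, ∀ z ∈ closedBall (x i) (lam * η), z ∉ pc c ρ :=
    fun c hc i z hz k => hF.not_st hc (y := z) (by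
      rw [dist_comm]
      exact (mem_closedBall.1 (pc_sub _ _ k)).trans h2) (St_mono (by norm_num)
      (hF.st (hU (hx i)) (y := z) (by rw [dist_comm]; exact (mem_closedBall.1 hz).trans h1)))
  refine hA b (fun s => if s then c' else c)
    (fun s i => if s then pc c' ρ ∪ (L i \ pc c ρ) else pc c ρ ∪ (L i \ pc c' ρ)) hb
    (fun s i => ?_) (fun i j hij => ?_) fun s i j hij => ?_
  · cases s
    · show JoinedIn (pc c ρ ∪ (L i \ pc c' ρ)) c (b i)
      refine (((pc_joined (hp i)).mono subset_union_left).trans ((hp' i).mono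
        fun z hz => Or.inr ?_)).trans ((hj i).mono fun z hz => Or.inr ?_)
      · exact ⟨s1 i z (Or.inl hz), disjoint_left.1 (hd1 i) hz⟩
      · exact ⟨s2 i hz, s3 c' hc' i z hz⟩
    · show JoinedIn (pc c' ρ ∪ (L i \ pc c ρ)) c' (b i)
      refine (((pc_joined (hq i)).mono subset_union_left).trans ((hq' i).mono
        fun z hz => Or.inr ?_)).trans ((hj i).mono fun z hz => Or.inr ?_)
      · exact ⟨s1 i z (Or.inr hz), disjoint_left.1 (hd2 i) hz⟩
      · exact ⟨s2 i hz, s3 c hc i z hz⟩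
  · rw [disjoint_left]
    rintro z (k1 | k1) (k2 | k2)
    · linarith [mem_closedBall.1 (pc_sub _ _ k1), mem_closedBall.1 (pc_sub _ _ k2),
        dist_triangle_left c c' z]
    · exact k2.2 k1
    · exact k1.2 k2
    · exact disjoint_left.1 (hLL i j hij) k1.1 k2.1
  · have k1 := (hj i).target_mem
    have k2 : b i ∉ L j := disjoint_left.1 (hLL i j hij) (s2 i k1)
    cases s
    · exact fun k => k.elim (s3 c hc i _ k1) fun k => k2 k.1
    · exact fun k => k.elim (s3 c' hc' i _ k1) fun k => k2 k.1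

/-- Among `2 N + 1` indices three have the same class. -/
theorem fc_three {β : Type} (C : Finset β) (f : ℕ → β) (hf : ∀ i ≤ 2 * C.card, f i ∈ C) :
    ∃ k : Fin 3 → ℕ, Function.Injective k ∧ (∀ i, k i ≤ 2 * C.card) ∧ ∀ i, f (k i) = f (k 0) := by
  obtain ⟨y, -, hy⟩ := Finset.exists_lt_card_fiber_of_mul_lt_card_of_maps_to
    (s := Finset.range (2 * C.card + 1)) (t := C) (f := f) (n := 2)
    (fun i hi => hf i (Nat.lt_succ_iff.1 (Finset.mem_range.1 hi))) (by simp; omega)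
  have h := fun k => Finset.mem_filter.1 (Finset.orderEmbOfCardLe_mem _ (show 3 ≤ _ from hy) k)
  exact ⟨_, (Finset.orderEmbOfCardLe _ (show 3 ≤ _ from hy)).injective,
    fun i => Nat.lt_succ_iff.1 (Finset.mem_range.1 (h i).1), fun i => (h i).2.trans (h 0).2.symm⟩

theorem exists_fc [CompactSpace Z] (hδ : 0 < δ) (lam : ℝ) {ε : ℝ → ℝ} (hε : Pos ε) {η₁ : ℝ}
    (h₁ : 0 < η₁) : ∃ η > 0, ∀ (ξ : Z → ℝ) (P : Finset Z) (H : Type) [Fintype H] (B r r₁ : ℝ)
      (T : TH ξ δ P H B r lam), T.Mod ε r₁ → B * r ≤ r₁ → r₁ ≤ η → T.FC η η₁ := by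
  by_cases hl : 1 ≤ lam
  swap
  · exact ⟨1, one_pos, fun ξ P H _ B r r₁ T => absurd T.ll.one_le hl⟩
  have hl0 : 0 < lam := by linarith
  have ha : 0 < η₁ / 20 := by positivity
  have e1 := hε _ ha
  set σ := min (ε (η₁ / 20)) δ / (20 * lam ^ 2) with hσ
  have hσ0 : 0 < σ := by positivity
  have hσ1 : 20 * lam ^ 2 * σ = min (ε (η₁ / 20)) δ := by rw [hσ]; field_simp
  obtain ⟨C, -, -, hC⟩ := exists_net (univ : Set Z) hσ0
  set N := (C ×ˢ C).card with hN
  set a' := η₁ / (2 * (16 * N + 1)) with ha'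
  have ha0 : 0 < a' := by positivity
  have ha1 : (16 * N + 1) * a' = η₁ / 2 := by rw [ha']; field_simp
  have e2 := hε _ ha0
  refine ⟨min (min (ε (η₁ / 20)) (ε a' / lam ^ 2)) (min (σ / (2 * lam)) (δ / lam)), by positivity,
    fun ξ P H _ B r r₁ T hM hr hr₁ => ?_⟩
  set η := min (min (ε (η₁ / 20)) (ε a' / lam ^ 2)) (min (σ / (2 * lam)) (δ / lam)) with hη
  have η0 : 0 < η := by positivity
  have η1 : η ≤ ε (η₁ / 20) := (min_le_left _ _).trans (min_le_left _ _)
  have η2 : lam ^ 2 * η ≤ ε a' :=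
    (le_div_iff₀' (by positivity)).1 ((min_le_left _ _).trans (min_le_right _ _))
  have η3 : 2 * lam * η ≤ σ :=
    (le_div_iff₀' (by positivity)).1 ((min_le_right _ _).trans (min_le_left _ _))
  have η4 : lam * η ≤ δ :=
    (le_div_iff₀' (by positivity)).1 ((min_le_right _ _).trans (min_le_right _ _))
  have η5 : lam * η ≤ lam ^ 2 * η := by gcongr; nlinarith
  have η6 : η ≤ lam * η := le_mul_of_one_le_left η0.le hl
  have n1 := hM _ ha (hr₁.trans η1)
  have n2 := hM _ ha0 (by linarith)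
  have hB : B * r ≤ η := hr.trans hr₁
  intro α A hA hα hU hnear
  have key : ∀ p ∈ α, ∀ q ∈ α, T.u q - T.u p ≤ η₁ := by
    intro p hp q hq
    by_contra hlt
    rw [not_le] at hlt
    have p0 := (T.u_mem p).1
    have q1 := (T.u_mem q).2
    have h1 : ∀ i : ℕ, ∃ (t : ℝ) (c : Z × Z), i ≤ 2 * N →
        t ∈ Ioo (T.u p + η₁ / 5 + 8 * i * a') (T.u p + η₁ / 5 + 8 * i * a' + a') ∧ c ∈ C ×ˢ C ∧
        c.1 ∉ St ξ 5 ∧ c.2 ∉ St ξ 5 ∧ 3 * (lam * σ) < dist c.1 c.2 ∧
        Br T.u α (lam * σ) (2 * a') t c.1 c.2 := by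
      intro i
      by_cases hi : i ≤ 2 * N
      swap
      · exact ⟨0, (p, p), fun h => absurd h hi⟩
      have hi' : (i : ℝ) ≤ 2 * N := by exact_mod_cast hi
      have h2 : 8 * i * a' + a' ≤ η₁ / 2 := by nlinarith
      have h3 : 0 ≤ 8 * i * a' := by positivity
      obtain ⟨t, ht, hln⟩ := T.exists_ln (lo := T.u p + η₁ / 5 + 8 * i * a')
        (hi := T.u p + η₁ / 5 + 8 * i * a' + a') (by linarith) (by linarith) (by linarith)
      obtain ⟨c, hc, c', hc', k⟩ := T.bridge n1 ha n2 (le_trans (by gcongr) η2)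
        (fun x => hC x (mem_univ x)) (hσ1.trans_le (min_le_left _ _))
        (hσ1.trans_le (min_le_right _ _)) (le_trans (by gcongr) η3) hln hα hU hp hq
        (by linarith [ht.1]) (by linarith [ht.2])
      exact ⟨t, (c, c'), fun _ => ⟨ht, Finset.mem_product.2 ⟨hc, hc'⟩, k⟩⟩
    choose t c h1 using h1
    obtain ⟨k, k1, k2, k3⟩ := fc_three (C ×ˢ C) c fun i hi => (h1 i hi).2.1
    obtain ⟨-, -, c1, c2, c3, -⟩ := h1 (k 0) (k2 0)
    have hρ : lam * σ ≤ δ := by
      have : lam * σ ≤ 20 * lam ^ 2 * σ := by nlinarith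
      exact this.trans (hσ1.trans_le (min_le_right _ _))
    have h4 : ∀ i j, i ≤ 2 * N → j ≤ 2 * N → i < j → 6 * a' < t j - t i := fun i j hi hj h => by
      have h5 : (i : ℝ) + 1 ≤ j := by exact_mod_cast h
      nlinarith [(h1 i hi).1.2, (h1 j hj).1.1]
    refine three_bridges T.fr T.ll (t := fun i => t (k i)) (a := a') hA hU η0 hnear η4 hρ
      (fun x hx z hz => n2.uu x (St_mono (by norm_num) (hU hx)) z (by linarith)) c1 c2
      (by nlinarith [mul_pos hl0 hσ0]) (fun i j hij => ?_) fun i => k3 i ▸ (h1 _ (k2 i)).2.2.2.2.2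
    rcases lt_or_gt_of_ne (k1.ne hij) with h | h
    · exact lt_abs.2 (Or.inr (by linarith [h4 _ _ (k2 i) (k2 j) h]))
    · exact lt_abs.2 (Or.inl (h4 _ _ (k2 j) (k2 i) h))
  exact fun p hp q hq => abs_le.2 ⟨by linarith [key p hp q hq], key q hq p hp⟩

end KCH
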