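import Pool.Agent.Lib.MP_e1e491_gt.CH.TC

/-! A line that crosses a connected set joins two far cells. -/

namespace KCH

open Set Metric KP2 KCC MeasureTheory Filter Topology
open scoped Classical

variable {Z : Type} [MetricSpace Z] {ξ : Z → ℝ} {δ : ℝ} {P : Finset Z} {H : Type} [Fintype H]
  {B r lam : ℝ}

/-- A shortcut between close blobs. -/
theorem TH.short (T : TH ξ δ P H B r lam) {ε a D : ℝ} (hN : T.Nr ε a) {w w' : P} (hw : T.Used w)
    (hw' : T.Used w') (hD : dist (w : Z) w' ≤ D) (h1 : (lam + 1) * (D + 2 * (B * r)) ≤ ε)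
    (h2 : (lam + 1) * (D + 2 * (B * r)) ≤ δ) (hU : (w : Z) ∈ St ξ 6) :
    Con T.G {v | dist (w : Z) v ≤ δ ∧ |T.Y v - T.Y w| ≤ 2 * a} w w' := by
  have hs := T.s_pos
  have hl := T.ll.one_le
  have hD0 : 0 ≤ D := dist_nonneg.trans hD
  obtain ⟨x, hx⟩ := hw
  obtain ⟨x', hx'⟩ := hw'
  have h3 := T.near hx
  have h4 := T.near hx'
  obtain ⟨E, e1, e2, e3, e4⟩ := joined_set (T.ll.l1 w (D + B * r) x x' (by linarith) (by linarith)
    (by linarith [dist_triangle_right x' w w']))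
  have h5 : lam * (D + B * r) + B * r ≤ (lam + 1) * (D + 2 * (B * r)) := by nlinarith
  have h6 : E ⊆ St ξ 8 := fun y hy => St_mono (by norm_num) (T.fr.st hU (by
    have := mem_closedBall.1 (e1 hy)
    rw [dist_comm]
    linarith))
  refine (T.sb_cn e2 h6 w ⟨x, e3, hx⟩ w' ⟨x', e4, hx'⟩).mono fun v hv => ?_
  obtain ⟨y, hy, h7⟩ := T.sb_near hv
  have h8 : dist (w : Z) v ≤ (lam + 1) * (D + 2 * (B * r)) := by
    linarith [mem_closedBall.1 (e1 hy), dist_triangle_left (w : Z) v y]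
  have hw7 : (w : Z) ∈ St ξ 7 := St_mono (by norm_num) hU
  have h9 := abs_le.1 (hN.uY w hw7 v (T.sb_used hv) (h8.trans h1))
  have h10 := abs_le.1 (hN.uY w hw7 w ⟨x, hx⟩ (by
    rw [dist_self]
    exact dist_nonneg.trans (h8.trans h1)))
  exact ⟨h8.trans h2, abs_le.2 ⟨by linarith [h9.2, h10.1], by linarith [h9.1, h10.2]⟩⟩

/-- The blobs whose thickening misses the cells outside the strip. -/
def Inn (ξ : Z → ℝ) (P C : Finset Z) (ρ s : ℝ) : Set P :=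
  {v | ∀ c ∈ C, c ∉ St ξ 5 → ∀ p ∈ pc c ρ, s < dist p v}

theorem inn_st (hF : Fr ξ δ) (hL : LL Z lam) {C : Finset Z} {σ s : ℝ} (hσ : 0 < σ) (hσδ : σ ≤ δ)
    (hC : ∀ x, ∃ c ∈ C, dist c x < σ) (hs : 0 ≤ s) {v : P} (hv : v ∈ Inn ξ P C (lam * σ) s) :
    (v : Z) ∈ St ξ (51 / 10) := by
  obtain ⟨c, hc, h1⟩ := hC v
  by_cases h : c ∈ St ξ 5
  · exact St_mono (by norm_num) (hF.st h (h1.le.trans hσδ))
  · have := hv c hc h v (mem_pc hL hσ (by rw [dist_comm]; exact h1.le))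
    rw [dist_self] at this
    exact absurd hs (not_le.2 this)

/-- An inner piece of the line meets the shadow of `α` and ends at two far cells. -/
theorem TH.piece (T : TH ξ δ P H B r lam) {ε a σ t : ℝ} (hN : T.Nr ε a) (ha : 0 < a)
    {C : Finset Z} (hC : ∀ x, ∃ c ∈ C, dist c x < σ) (h1 : 20 * lam ^ 2 * σ ≤ ε)
    (h2 : 20 * lam ^ 2 * σ ≤ δ) (h3 : 2 * lam * (B * r) ≤ σ) (ht : T.Ln t) {α : Set Z}
    (hα : IsPreconnected α) (hU : α ⊆ St ξ 4) {p q : Z} (hp : p ∈ α) (hq : q ∈ α)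
    (h4 : T.u p + 4 * a ≤ t) (h5 : t + 5 * a < T.u q) :
    ∃ c ∈ C, ∃ c' ∈ C, c ∉ St ξ 5 ∧ c' ∉ St ξ 5 ∧ 3 * (lam * σ) < dist c c' ∧
      ∃ w ∈ T.V t, ∃ w' ∈ T.V t, (∃ x ∈ pc c (lam * σ), dist x w ≤ lam * (B * r)) ∧
        (∃ x ∈ pc c' (lam * σ), dist x w' ≤ lam * (B * r)) ∧ ∃ v v' : P, ∃ z ∈ T.Sb α,
          T.G.Adj w v ∧ T.G.Adj w' v' ∧
          Con T.G (T.V t ∩ Inn ξ P C (lam * σ) (lam * (B * r))) v z ∧
          Con T.G (T.V t ∩ Inn ξ P C (lam * σ) (lam * (B * r))) v' z := by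
  by_contra hn
  have hs := T.s_pos
  have hl := T.ll.one_le
  have hs1 := T.s_le_ls
  have hs2 := T.s_le
  have hσ : 0 < σ := by linarith
  have hρ : σ ≤ lam * σ := le_mul_of_one_le_left hσ.le hl
  have hρ' : lam * σ ≤ lam ^ 2 * σ := by nlinarith
  set I := Inn ξ P C (lam * σ) (lam * (B * r)) with hI
  set W : Set P := {v | |T.Y v - t| ≤ 3 * a ∧ v ∉ T.Sb α} with hW
  have hIs : ∀ v ∈ I, (v : Z) ∈ St ξ (51 / 10) := fun v hv =>
    inn_st T.fr T.ll hσ (by linarith) hC (by linarith) hv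
  have hout : ∀ v : P, v ∉ I → ∃ c ∈ C, c ∉ St ξ 5 ∧ ∃ x ∈ pc c (lam * σ),
      dist x v ≤ lam * (B * r) := fun v hv => by
    simpa [hI, Inn] using hv
  have hcv : ∀ (v : P) (c x : Z), x ∈ pc c (lam * σ) → dist x v ≤ lam * (B * r) →
      dist c v ≤ lam * σ + lam * (B * r) := fun v c x hx h => by
    linarith [mem_closedBall.1 (pc_sub _ _ hx), dist_triangle_left c v x]
  have hout' : ∀ v : P, v ∉ I → (v : Z) ∉ St ξ (5 - 1 / 10) := fun v hv => by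
    obtain ⟨c, -, h6, x, hx, h7⟩ := hout v hv
    exact T.fr.not_st h6 (by linarith [hcv v c x hx h7])
  have hSb : ∀ v ∈ T.Sb α, (v : Z) ∈ St ξ (4 + 1 / 10) := fun v hv => by
    obtain ⟨y, hy, h6⟩ := T.sb_near hv
    exact T.fr.st (hU hy) (by linarith)
  have hlev : ∀ v ∈ T.V t, |T.Y v - t| ≤ 3 * a := fun v hv => by linarith [hN.V_lev hv]
  have hVW : ∀ v ∈ T.V t, v ∉ I → v ∈ W := fun v hv h =>
    ⟨hlev v hv, fun k => hout' v h (St_mono (by norm_num) (hSb v k))⟩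
  obtain ⟨a₀, ha₀, b₀, hb₀, haL, hbR⟩ := T.ln_cr ht
  have ha₁ : a₀ ∉ I := fun k => (T.adjz _ _ haL).not_st (St_mono (by norm_num) (hIs _ k))
  have hb₁ : b₀ ∉ I := fun k => (T.adjz _ _ hbR).not_st (St_mono (by norm_num) (hIs _ k))
  have key := KP2.Con.induction (P := fun x => (x ∉ I ∧ Con T.G W a₀ x) ∨ (x ∈ I ∧ ∃ w ∈ T.V t,
      w ∉ I ∧ Con T.G W a₀ w ∧ ∃ v, T.G.Adj w v ∧ Con T.G (T.V t ∩ I) v x))
    (T.ln_cn ht a₀ ha₀ b₀ hb₀) (Or.inl ⟨ha₁, KP2.Con.refl (hVW _ ha₀ ha₁)⟩) (by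
      rintro x hx x' hx' hxx (⟨k1, k2⟩ | ⟨k1, w, hw, k2, k3, v, k4, k5⟩)
      · by_cases h : x' ∈ I
        · exact Or.inr ⟨h, x, hx, k1, k2, x', hxx, KP2.Con.refl ⟨hx', h⟩⟩
        · exact Or.inl ⟨h, k2.trans (KP2.Con.of_adj hxx k2.right_mem (hVW _ hx' h))⟩
      by_cases h : x' ∈ I
      · exact Or.inr ⟨h, w, hw, k2, k3, v, k4, k5.trans (KP2.Con.of_adj hxx ⟨hx, k1⟩ ⟨hx', h⟩)⟩
      refine Or.inl ⟨h, k3.trans ?_⟩
      by_cases hz : ∃ z ∈ T.Sb α, Con T.G (T.V t ∩ I) v z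
      · obtain ⟨z, hz, k6⟩ := hz
        obtain ⟨c, hc, c1, y, hy, c2⟩ := hout w k2
        obtain ⟨c', hc', c1', y', hy', c2'⟩ := hout x' h
        have hcc : dist c c' ≤ 3 * (lam * σ) := not_lt.1 fun k => hn ⟨c, hc, c', hc', c1, c1', k,
          w, hw, x', hx', ⟨y, hy, c2⟩, ⟨y', hy', c2'⟩, v, x, z, hz, k4, hxx.symm, k6,
          k5.symm.trans k6⟩
        have hD : dist (w : Z) x' ≤ 6 * (lam * σ) := by
          linarith [hcv w c y hy c2, hcv x' c' y' hy' c2', dist_triangle_left (w : Z) x' c,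
            dist_triangle c c' x']
        have hD' : (lam + 1) * (6 * (lam * σ) + 2 * (B * r)) ≤ 20 * lam ^ 2 * σ := by
          have : 6 * (lam * σ) + 2 * (B * r) ≤ 7 * (lam * σ) := by linarith
          calc _ ≤ (lam + lam) * (7 * (lam * σ)) := by gcongr
            _ ≤ _ := by nlinarith
        have hw6 : (w : Z) ∈ St ξ 6 := St_mono (by norm_num) (T.fr.st (hIs v k5.left_mem.2)
          (by linarith [T.adjG k4.symm]))
        refine (T.short hN (T.ln_used ht hw) (T.ln_used ht hx') hD (hD'.trans h1) (hD'.trans h2)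
          hw6).mono fun u hu => ⟨?_, fun k => T.fr.not_st (hout' w k2) hu.1
            (St_mono (by norm_num) (hSb u k))⟩
        linarith [abs_sub_le (T.Y u) (T.Y w) t, hu.2, hN.V_lev hw]
      · have k6 : Con T.G W v x := (con_reach k5).mono fun u hu =>
          ⟨hlev u (KP2.Con.right_mem hu).1, fun k => hz ⟨u, k, hu⟩⟩
        exact ((KP2.Con.of_adj k4 k3.right_mem k6.left_mem).trans k6).trans
          (KP2.Con.of_adj hxx k6.right_mem (hVW _ hx' h)))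
  have hc1 := T.cr_of_con haL hbR (key.resolve_right fun k => hb₁ k.1).2
  have hc2 := T.cr_near hN.n_le hα (hU.trans (St_mono (by norm_num))) hp hq (lo := t - 4 * a)
    (hi := t + 4 * a) (by linarith) (by linarith) (by linarith)
  obtain ⟨_, h6, v, hv, rfl⟩ := T.hc.meet hc2 hc1
  have h7 := abs_le.1 hv.1
  rcases h6 with (h6 | h6) | ⟨v', h6, e⟩
  · have : T.Y v ≤ t - 4 * a := h6
    linarith [h7.1]
  · have : t + 4 * a ≤ T.Y v := h6
    linarith [h7.2]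
  · exact hv.2 (Sum.inl_injective e ▸ h6)

end KCH
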