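import Pool.Agent.Lib.MP_e1e491_gt.CH.FCa

/-! Bridges. -/

namespace KCH

open Set Metric KP2 KCC MeasureTheory Filter Topology
open scoped Classical

variable {Z : Type} [MetricSpace Z] {ξ : Z → ℝ} {δ : ℝ} {P : Finset Z} {H : Type} [Fintype H]
  {B r lam : ℝ}

/-- A bridge of level `t` from the cell `c` over a point of `α` to the cell `c'`. -/
def Br (u : Z → ℝ) (α : Set Z) (ρ a t : ℝ) (c c' : Z) : Prop :=
  ∃ x ∈ α, ∃ e e' : Set Z, (∃ p ∈ pc c ρ, JoinedIn e p x) ∧ (∃ p ∈ pc c' ρ, JoinedIn e' p x) ∧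
    (∀ z ∈ e ∪ e', |u z - t| ≤ a) ∧ Disjoint e (pc c' ρ) ∧ Disjoint e' (pc c ρ)

theorem TH.bridge (T : TH ξ δ P H B r lam) {ε a ε' a' σ t : ℝ} (hN : T.Nr ε a) (ha : 0 < a)
    (hN' : T.Nr ε' a') (h0 : lam ^ 2 * (B * r) ≤ ε')
    {C : Finset Z} (hC : ∀ x, ∃ c ∈ C, dist c x < σ) (h1 : 20 * lam ^ 2 * σ ≤ ε)
    (h2 : 20 * lam ^ 2 * σ ≤ δ) (h3 : 2 * lam * (B * r) ≤ σ) (ht : T.Ln t) {α : Set Z}
    (hα : IsPreconnected α) (hU : α ⊆ St ξ 4) {p q : Z} (hp : p ∈ α) (hq : q ∈ α)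
    (h4 : T.u p + 4 * a ≤ t) (h5 : t + 5 * a < T.u q) :
    ∃ c ∈ C, ∃ c' ∈ C, c ∉ St ξ 5 ∧ c' ∉ St ξ 5 ∧ 3 * (lam * σ) < dist c c' ∧
      Br T.u α (lam * σ) (2 * a') t c c' := by
  have hs := T.s_pos
  have hl := T.ll.one_le
  have hs1 := T.s_le_ls
  have hs2 := T.s_le
  have hs3 := T.small
  have hσ : 0 < σ := by linarith
  have hρ : σ ≤ lam * σ := le_mul_of_one_le_left hσ.le hl
  have hρ' : lam * σ ≤ lam ^ 2 * σ := by nlinarith
  have e1 : lam * (lam * (B * r)) = lam ^ 2 * (B * r) := by ring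
  have e2 : lam * (B * r) ≤ lam ^ 2 * (B * r) := by nlinarith
  have e3 : 2 * (lam ^ 2 * (B * r)) ≤ lam * σ := by nlinarith
  obtain ⟨c, hc, c', hc', c1, c1', hd, w, hw, w', hw', ⟨x, hx, x1⟩, ⟨x', hx', x1'⟩, v, v', z,
    ⟨x₀, hx₀, hz⟩, a1, a1', k, k'⟩ := T.piece hN ha hC h1 h2 h3 ht hα hU hp hq h4 h5
  set I := Inn ξ P C (lam * σ) (lam * (B * r)) with hI
  have hIs : ∀ v ∈ I, (v : Z) ∈ St ξ (51 / 10) := fun v hv =>
    inn_st T.fr T.ll hσ (by linarith) hC (by linarith) hv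
  have aux : ∀ (c c' x : Z) (w v : P), c' ∈ C → c' ∉ St ξ 5 → 3 * (lam * σ) < dist c c' →
      w ∈ T.V t → x ∈ pc c (lam * σ) → dist x w ≤ lam * (B * r) → T.G.Adj w v →
      Con T.G (T.V t ∩ I) v z → ∃ e, JoinedIn e x x₀ ∧ (∀ y ∈ e, |T.u y - t| ≤ 2 * a') ∧
        Disjoint e (pc c' (lam * σ)) := by
    intro c c' x w v hc' c1' hd hw hx x1 a1 k
    have b1 := T.adjG a1
    refine ⟨closedBall (w : Z) (lam * (lam * (B * r))) ∪
      {y | ∃ u ∈ T.V t ∩ I, dist y (u : Z) ≤ lam * (B * r)}, ?_, ?_, ?_⟩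
    · refine ((((T.ll.l1 w _ x w (by linarith) x1 (by rw [dist_self]; linarith)).mono
        subset_union_left).trans ((T.ll.l1 v _ w v hs b1 (by rw [dist_self]; linarith)).mono
        fun y hy => Or.inr ?_)).trans ((T.ll.joined_of_con k Subtype.val hs
        fun _ _ _ _ h => T.adjG h).mono subset_union_right)).trans
        ((T.ll.l1 z _ z x₀ hs (by rw [dist_self]; linarith) (T.near hz)).mono
        fun y hy => Or.inr ?_)
      · exact ⟨v, k.left_mem, hy⟩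
      · exact ⟨z, k.right_mem, hy⟩
    · rintro y (hy | ⟨u, hu, hy⟩)
      · have hy' := mem_closedBall.1 hy
        have b2 := T.fr.st (hIs v k.left_mem.2) (y := w) (by rw [dist_comm]; linarith)
        exact hN'.near_V ht hw (St_mono (by norm_num)
          (T.fr.st b2 (y := y) (by rw [dist_comm]; linarith))) (by linarith)
      · exact hN'.near_V ht hu.1 (St_mono (by norm_num)
          (T.fr.st (hIs u hu.2) (y := y) (by rw [dist_comm]; linarith))) (by linarith)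
    · rw [disjoint_left]
      rintro y (hy | ⟨u, hu, hy⟩) hy'
      · have b2 := mem_closedBall.1 hy
        have b3 := mem_closedBall.1 (pc_sub _ _ hy')
        have b4 := mem_closedBall.1 (pc_sub _ _ hx)
        linarith [dist_triangle_left c c' x, dist_triangle x w c', dist_triangle_left (w : Z) c' y]
      · exact not_lt.2 hy (hu.2 c' hc' c1' y hy')
  obtain ⟨e, j1, j2, j3⟩ := aux c c' x w v hc' c1' hd hw hx x1 a1 k
  obtain ⟨e', j1', j2', j3'⟩ := aux c' c x' w' v' hc c1 (dist_comm c c' ▸ hd) hw' hx' x1' a1' k'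
  exact ⟨c, hc, c', hc', c1, c1', hd, x₀, hx₀, e, e', ⟨x, hx, j1⟩, ⟨x', hx', j1'⟩,
    fun y hy => hy.elim (j2 y) (j2' y), j3, j3'⟩

end KCH
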