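import Pool.Agent.Lib.MP_e1e491_gt.CH.TC
import Pool.Agent.Lib.MP_e1e491_gt.FnDefs

/-! Measure estimates for the fan. -/

namespace KCH

open Set Metric KP2 KCC MeasureTheory Filter Topology
open scoped Classical

variable {G Z : Type} [Group G] [MetricSpace Z] [MulAction G Z] {lam : ℝ}

/-- One ball in the middle carries many lines. -/
theorem fanc_pick [CompactSpace Z] {δ : ℝ} (hδ : 0 < δ) : ∃ c > 0, ∀ (ξ : Z → ℝ) (A : Set ℝ)
    (cl : ℝ → Set Z), Fr ξ δ → A ⊆ Icc 0 1 → volume.real (Icc 0 1 \ A) ≤ 1 / 2 →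
      (∀ t ∈ A, ∃ x ∈ cl t, ξ x = 1 / 2) →
      ∃ z₀ ∈ St ξ 1, c ≤ KFan.lines A cl (ball z₀ (δ / 10 / 2)) := by
  obtain ⟨N, -, -, hN⟩ := exists_net (univ : Set Z) (r := δ / 10 / 2) (by positivity)
  refine ⟨1 / (2 * ((N.card : ℝ) + 1)), by positivity, fun ξ A cl hF hA hv hm => ?_⟩
  by_contra hcon
  push Not at hcon
  have hfin : volume A ≠ ⊤ := ((measure_mono hA).trans_lt measure_Icc_lt_top).ne
  have h1 : volume.real (Icc (0 : ℝ) 1) ≤ volume.real A + volume.real (Icc 0 1 \ A) := by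
    refine le_trans (measureReal_mono (fun t ht => ?_) ?_) (measureReal_union_le _ _)
    · by_cases h : t ∈ A
      · exact Or.inl h
      · exact Or.inr ⟨ht, h⟩
    · exact ((measure_mono (union_subset hA sdiff_subset)).trans_lt measure_Icc_lt_top).ne
  rw [Real.volume_real_Icc_of_le zero_le_one] at h1
  have h2 : volume.real A ≤ ∑ z ∈ N.filter (· ∈ St ξ 1), KFan.lines A cl (ball z (δ / 10 / 2)) := by
    refine le_trans (measureReal_mono (fun t ht => ?_) ?_) (measureReal_biUnion_finset_le _ _)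
    · obtain ⟨x, hx, hξ⟩ := hm t ht
      obtain ⟨z, hz, hd⟩ := hN x (mem_univ x)
      refine mem_biUnion (x := z) (Finset.mem_filter.2 ⟨hz, ?_⟩) ⟨ht, x, hx, mem_ball'.2 hd⟩
      have := hF.lip z x (by linarith)
      rw [hξ] at this
      exact this.trans_lt (by norm_num)
    · refine ((measure_mono (iUnion₂_subset fun z _ t ht => ht.1)).trans_lt hfin.lt_top).ne
  have h3 := Finset.sum_le_card_nsmul (N.filter (· ∈ St ξ 1))
    (fun z => KFan.lines A cl (ball z (δ / 10 / 2))) _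
    fun z hz => (hcon z (Finset.mem_filter.1 hz).2).le
  have h4 : ((N.filter (· ∈ St ξ 1)).card : ℝ) ≤ N.card := by
    exact_mod_cast Finset.card_filter_le _ _
  rw [nsmul_eq_mul, mul_one_div, le_div_iff₀ (by positivity)] at h3
  have h5 : (0 : ℝ) ≤ N.card := Nat.cast_nonneg _
  nlinarith

/-- The good levels. -/
theorem fanc_good {ξ : Z → ℝ} {δ B r : ℝ} {P : Finset Z} {H : Type} [Fintype H]
    (T : TH ξ δ P H B r lam) (Φ : Finset G) {γ η : ℝ} (hγ : 0 ≤ γ) (h1 : Φ.card * γ ≤ η)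
    (h : ∀ g ∈ Φ, volume {s | T.Ln s ∧ ENNReal.ofReal γ < volume (T.Hit (fun x => g • x) s)} ≤
      ENNReal.ofReal γ) :
    volume.real (Icc 0 1 \ {s | T.Ln s ∧ ∀ g ∈ Φ,
      volume (T.Hit (fun x => g • x) s) ≤ ENNReal.ofReal γ}) ≤ η := by
  refine ENNReal.toReal_le_of_le_ofReal (le_trans (by positivity) h1) ?_
  have h0 : volume (({0, 1} : Set ℝ) ∪ {t | ¬ (t ∈ Ioo (0 : ℝ) 1 → T.Ln t)}) = 0 :=
    measure_union_null ((toFinite _).measure_zero _) (ae_iff.1 T.ae_ln)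
  calc _ ≤ volume ((({0, 1} : Set ℝ) ∪ {t | ¬ (t ∈ Ioo (0 : ℝ) 1 → T.Ln t)}) ∪ ⋃ g ∈ Φ,
        {s | T.Ln s ∧ ENNReal.ofReal γ < volume (T.Hit (fun x => g • x) s)}) := by
        refine measure_mono fun t ht => ?_
        by_contra hcon
        simp only [mem_union, mem_insert_iff, mem_singleton_iff, mem_ofPred_eq, mem_iUnion, not_or,
          not_not, not_exists, not_and, not_lt] at hcon
        have hl := hcon.1.2 ⟨lt_of_le_of_ne ht.1.1 (Ne.symm hcon.1.1.1),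
          lt_of_le_of_ne ht.1.2 hcon.1.1.2⟩
        exact ht.2 ⟨hl, fun g hg => hcon.2 g hg hl⟩
    _ ≤ _ := measure_union_le _ _
    _ ≤ 0 + ∑ g ∈ Φ, ENNReal.ofReal γ := by
        rw [h0]
        exact add_le_add le_rfl ((measure_biUnion_finset_le _ _).trans (Finset.sum_le_sum h))
    _ ≤ _ := by
        rw [zero_add, ← ENNReal.ofReal_sum_of_nonneg fun _ _ => hγ, Finset.sum_const, nsmul_eq_mul]
        exact ENNReal.ofReal_le_ofReal h1

/-- The energy bound for disjoint balls. -/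
theorem fanc_en {ξ : Z → ℝ} {δ B r K r₁ : ℝ} {P : Finset Z} {H : Type} [Fintype H]
    {T : TH ξ δ P H B r lam} (h : T.Ok K r₁) {A : Set ℝ} (hA : ∀ t ∈ A, T.Ln t)
    (I : Finset (Z × ℝ)) (h1 : ∀ i ∈ I, 10 * (lam * r₁) ≤ i.2 ∧ 6 * i.2 ≤ δ)
    (h2 : ∀ i ∈ I, ∀ j ∈ I, i ≠ j → 3 * i.2 + 3 * j.2 ≤ dist i.1 j.1) :
    ∑ i ∈ I, KFan.lines A T.cl (ball i.1 i.2) ^ 2 ≤ 4 * K := by
  have hK := h.pos
  have hE := T.ht.E_pos
  have e1 : ∑ i ∈ I, wt (fun v => T.m v ^ 2) {v : P | dist i.1 v < 3 * i.2} ≤ T.E := by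
    rw [← T.area]
    simp only [wt_eq_sum]
    rw [Finset.sum_comm]
    refine Finset.sum_le_sum fun v _ => ?_
    by_cases hv : ∃ i ∈ I, dist i.1 (v : Z) < 3 * i.2
    · obtain ⟨i, hi, hd⟩ := hv
      rw [Finset.sum_eq_single_of_mem i hi fun j hj hne => if_neg fun hj' => ?_]
      · exact (if_pos hd).le
      · have := h2 j hj i hi hne
        have h3 : dist j.1 (v : Z) < 3 * j.2 := hj'
        linarith [dist_triangle_right j.1 i.1 (v : Z)]
    · exact (Finset.sum_eq_zero fun i hi => if_neg fun hd => hv ⟨i, hi, hd⟩).trans_le (sq_nonneg _)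
  calc _ ≤ ∑ i ∈ I, 4 * K * (wt (fun v => T.m v ^ 2) {v : P | dist i.1 v < 3 * i.2} / T.E) :=
        Finset.sum_le_sum fun i hi =>
          h.lines_sq (h1 i hi).1 (h1 i hi).2 fun t ht => ⟨hA t ht.1, ht.2⟩
    _ = 4 * K * ((∑ i ∈ I, wt (fun v => T.m v ^ 2) {v : P | dist i.1 v < 3 * i.2}) / T.E) := by
        rw [← Finset.mul_sum, Finset.sum_div]
    _ ≤ 4 * K * 1 := by
        gcongr
        exact (div_le_one hE).2 e1
    _ = _ := mul_one _

end KCH
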