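import Pool.Agent.Lib.MP_e1e491_gt.CH.NcM

/-! Lines do not cross the images of lines. -/

namespace KCH

open Set Metric KP2 KCC MeasureTheory Filter Topology
open scoped Classical

variable {Z : Type} [MetricSpace Z] [CompactSpace Z]

theorem nc_vol0 (hD : Dbl Z) (hK : KN Z) {c : ℝ} (hc : 0 < c) (hN : NW Z c) {B δ lam K L : ℝ}
    (hδ : 0 < δ) (hl : 1 ≤ lam) (hK0 : 0 < K) (hL : 1 ≤ L) {ε φ : ℝ → ℝ} (hε : Pos ε) (hφ : Pos φ)
    {γ : ℝ} (hγ : 0 < γ) : ∃ r₁ > 0, ∀ (ξ : Z → ℝ) (P : Finset Z) (H : Type) [Fintype H]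
    (r r₂ : ℝ) (T : TH ξ δ P H B r lam) (f : Z ≃ₜ Z), r₂ ≤ r₁ → T.Ok K r₂ → T.Mod ε r₂ →
      (∀ a, 0 < a → r₂ ≤ φ a → T.FC (φ a) a) →
      (∀ x y, dist (f x) (f y) ≤ L * dist x y ∧ dist x y ≤ L * dist (f x) (f y)) →
      volume {s | T.Ln s ∧ ENNReal.ofReal γ < volume (T.Hit f s)} ≤ ENNReal.ofReal γ := by
  obtain ⟨e₁, he, r₁, hr, h⟩ := nc_area hD hK hc hN (B := B) hδ hl hK0 hL hε hφ (pow_pos hγ 2)
  have h3 : 0 < e₁ / 3 := by positivity
  have h4 := hε _ h3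
  refine ⟨min r₁ (ε (e₁ / 3) / lam), lt_min hr (by positivity),
    fun ξ P H _ r r₂ T f h1 hO hM hF hf => ?_⟩
  have hi : ∀ x y : Z, dist x y ≤ L * dist x y := fun x y => le_mul_of_one_le_left dist_nonneg hL
  let Q : Pr Z L := ⟨fun j => if j then f else Homeomorph.refl Z, hL,
    fun j => by cases j; exacts [hi, fun x y => (hf x y).1],
    fun j => by cases j; exacts [hi, fun x y => (hf x y).2]⟩
  have h2 : lam * r₂ ≤ ε (e₁ / 3) := by
    rw [← le_div_iff₀' (by positivity)]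
    exact h1.trans (min_le_right _ _)
  have hb := T.nc_b_pos
  have hr2 : 0 ≤ r₂ := hb.le.trans hO.2.2
  have hNr := hM _ h3 ((le_mul_of_one_le_left hr2 hl).trans h2)
  have key : ∀ {t x}, T.Ln t → x ∈ T.cl t → x ∈ St ξ 3 → dist t (T.u x) < e₁ := by
    intro t x ht hx hx'
    obtain ⟨v, hv, hd⟩ := TH.nc_cl_near hx
    have := TH.nc_lev hNr ht hv (St.mono (by norm_num) hx')
      (hd.trans ((mul_le_mul_of_nonneg_left hO.2.2 (by positivity)).trans h2))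
    rw [dist_comm, Real.dist_eq]
    linarith
  refine le_trans (measure_mono ?_) (vol_slice isOpen_thickening.measurableSet hγ
    (h ξ P H r r₂ T Q (h1.trans (min_le_left _ _)) hO hM hF))
  rintro s ⟨hs, h5⟩
  refine h5.trans_le (measure_mono ?_)
  rintro t ⟨ht, x, k1, k2, k3, k4⟩
  refine mem_thickening_iff.2 ⟨_, ⟨x, ⟨k2, fun j => by cases j; exacts [k2, k3]⟩, rfl⟩, ?_⟩
  rw [Prod.dist_eq]
  exact max_lt (key hs k1 k2) (key ht k4 k3)

end KCH
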