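import Pool.Agent.Lib.MP_e1e491_gt.CH.Defs

/-! Chains of blobs. -/

namespace KCH

open Set Metric KP2 KCC MeasureTheory Filter Topology
open scoped Classical

/-- A walk of blobs and holes gives a chain of blobs. -/
theorem sh_chain {V W : Type} {G : SimpleGraph (V ⊕ W)} (hh : ∀ h h', ¬ G.Adj (.inr h) (.inr h'))
    {y : V ⊕ W → ℝ} {a lo hi : ℝ} (hy : ∀ v w, G.Adj v w → |y v - y w| ≤ a) (ha : 0 ≤ a)
    (hl : lo + 2 * a < hi) {S : Set V} {p q : V ⊕ W}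
    (h : Con G ({v | y v ≤ lo} ∪ {v | hi ≤ y v} ∪ Sum.inl '' S ∪ range Sum.inr) p q)
    (hp : y p ≤ lo) (hq : hi ≤ y q) :
    ∃ (k : ℕ) (c : ℕ → V), (∀ j ≤ k, c j ∈ S ∧ ∃ w, G.Adj (.inl (c j)) w) ∧
      (∀ j < k, G.Adj (.inl (c j)) (.inl (c (j + 1))) ∨
        ∃ h, G.Adj (.inl (c j)) (.inr h) ∧ G.Adj (.inl (c (j + 1))) (.inr h)) ∧
      y (.inl (c 0)) ≤ lo + 2 * a ∧ hi - 2 * a ≤ y (.inl (c k)) := by
  obtain ⟨w, -, hw, rfl | ⟨u, huw, h1⟩⟩ := h.exists_first (P := fun v => hi ≤ y v) hq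
  · linarith
  have hu := abs_le.1 (hy u w huw)
  obtain ⟨w', -, hw', rfl | ⟨u', huw', h2⟩⟩ := h1.symm.exists_first (P := fun v => y v ≤ lo) hp
  · linarith [hu.1]
  have hu' := abs_le.1 (hy u' w' huw')
  set Gd : V → Prop := fun v => ∃ (k : ℕ) (c : ℕ → V),
    (∀ j ≤ k, c j ∈ S ∧ ∃ w, G.Adj (.inl (c j)) w) ∧
    (∀ j < k, G.Adj (.inl (c j)) (.inl (c (j + 1))) ∨
      ∃ h, G.Adj (.inl (c j)) (.inr h) ∧ G.Adj (.inl (c (j + 1))) (.inr h)) ∧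
    y (.inl (c 0)) ≤ lo + 2 * a ∧ c k = v with hGd
  have g0 : ∀ v ∈ S, ∀ w, G.Adj (.inl v) w → y (.inl v) ≤ lo + 2 * a → Gd v := fun v hv w k1 k2 =>
    ⟨0, fun _ => v, fun _ _ => ⟨hv, w, k1⟩, fun j hj => absurd hj (Nat.not_lt_zero j), k2, rfl⟩
  have g1 : ∀ v, Gd v → ∀ v' ∈ S, ∀ w, G.Adj (.inl v') w → (G.Adj (.inl v) (.inl v') ∨
      ∃ h, G.Adj (.inl v) (.inr h) ∧ G.Adj (.inl v') (.inr h)) → Gd v' := by
    rintro _ ⟨k, c, c1, c2, c3, rfl⟩ v' hv' w k1 k2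
    refine ⟨k + 1, fun j => if j ≤ k then c j else v', fun j hj => ?_, fun j hj => ?_,
      by simpa using c3, by simp⟩
    · by_cases e : j ≤ k
      · simpa only [if_pos e] using c1 j e
      · simpa only [if_neg e] using ⟨hv', w, k1⟩
    · by_cases e : j < k
      · simpa only [if_pos e.le, if_pos (Nat.succ_le_of_lt e)] using c2 j e
      · obtain rfl : j = k := by omega
        simpa only [if_pos le_rfl, if_neg (Nat.not_succ_le_self j)] using k2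
  have hS : ∀ v, Sum.inl v ∈ (({v | y v ≤ lo} ∪ {v | hi ≤ y v} ∪ Sum.inl '' S ∪ range Sum.inr) ∩
      {v | ¬ hi ≤ y v}) ∩ {v | ¬ y v ≤ lo} → v ∈ S := by
    rintro v ⟨⟨((k | k) | ⟨x, k, e⟩) | ⟨x, e⟩, k1⟩, k2⟩
    · exact absurd k k2
    · exact absurd k k1
    · exact Sum.inl_injective e ▸ k
    · cases e
  have key := KP2.Con.induction (P := fun x => (∃ v, x = .inl v ∧ Gd v) ∨
      ∃ h, x = .inr h ∧ (y x ≤ lo + a ∨ ∃ v, Gd v ∧ G.Adj (.inl v) x)) h2.symm (by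
      obtain v | v := u'
      · exact Or.inl ⟨v, rfl, g0 v (hS v h2.right_mem) _ huw' (by linarith [hu'.2])⟩
      · exact Or.inr ⟨v, rfl, Or.inl (by linarith [hu'.2])⟩) (by
      rintro _ - (x | x) hx k (⟨v, rfl, k1⟩ | ⟨h, rfl, k1 | ⟨v, k1, k2⟩⟩)
      · exact Or.inl ⟨x, rfl, g1 v k1 x (hS x hx) _ k.symm (Or.inl k)⟩
      · exact Or.inl ⟨x, rfl, g0 x (hS x hx) _ k.symm (by linarith [(abs_le.1 (hy _ _ k)).1])⟩
      · exact Or.inl ⟨x, rfl, g1 v k1 x (hS x hx) _ k.symm (Or.inr ⟨h, k2, k.symm⟩)⟩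
      · exact Or.inr ⟨x, rfl, Or.inr ⟨v, k1, k⟩⟩
      · exact absurd k (hh _ _)
      · exact absurd k (hh _ _))
  rcases key with ⟨v, rfl, k, c, c1, c2, c3, rfl⟩ | ⟨h, rfl, k | ⟨v, ⟨k, c, c1, c2, c3, rfl⟩, k2⟩⟩
  · exact ⟨k, c, c1, c2, c3, by linarith [hu.1]⟩
  · linarith [hu.1]
  · exact ⟨k, c, c1, c2, c3, by linarith [hu.1, (abs_le.1 (hy _ _ k2)).1]⟩

end KCH
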