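import Pool.Agent.Lib.MP_e1e491_gt.CH.SHa
import Pool.Agent.Lib.MP_e1e491_gt.CH.SHb

/-! Chains with jumps over holes. -/

namespace KCH

open Set Metric KP2 KCC MeasureTheory Filter Topology
open scoped Classical

variable {Z : Type} [MetricSpace Z] {ξ : Z → ℝ} {δ : ℝ} {P : Finset Z} {H : Type} [Fintype H]
  {B r lam : ℝ}

theorem TH.sh (T : TH ξ δ P H B r lam) {ε a η τ lo hi : ℝ} {z p q : Z} {κ : Set Z}
    (hN : T.Nr ε a) (ha : 0 < a) (h1 : lam * (B * r) ≤ ε) (h2 : 2 * lam * (B * r) ≤ η)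
    (h3 : 10 * a ≤ η) (hU : closedBall z (3 * (τ + η)) ⊆ St ξ 7) (hκ : IsPreconnected κ)
    (hκ' : κ ⊆ ball z (τ - η)) (hp : p ∈ κ) (hq : q ∈ κ) (hlo : T.u p ≤ lo + 2 * a)
    (hhi : hi - 2 * a ≤ T.u q) (hl : lo + η ≤ hi) :
    ∃ (k : ℕ) (x : ℕ → Z), (∀ j ≤ k, τ ≤ dist (x j) z ∧ dist (x j) z ≤ τ + η) ∧
      (∀ j < k, dist (x j) (x (j + 1)) ≤ η ∨ Jmp T.u η (x j) (x (j + 1))) ∧
      T.u (x 0) ≤ lo + η ∧ hi - η ≤ T.u (x k) := by
  have hs := T.s_pos
  have hs1 := T.s_le_ls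
  have hτ : η < τ := by linarith [mem_ball.1 (hκ' hp), dist_nonneg (x := p) (y := z)]
  have p0 := (T.u_mem p).1
  have q1 := (T.u_mem q).2
  set S : Set P := {v | τ ≤ dist (v : Z) z ∧ dist (v : Z) z ≤ τ + η} with hS
  set X : Set (P ⊕ H) := {v | T.y v ≤ lo + 2 * a} ∪ {v | hi - 4 * a ≤ T.y v} ∪ Sum.inl '' S ∪
    range Sum.inr with hX
  by_cases hc : Cr T.F T.sd true X
  · obtain ⟨a₀, ha₀, b₀, hb₀, hab⟩ := hc
    obtain ⟨k, c, c1, c2, c3, c4⟩ := sh_chain T.hh (fun v w h => hN.adj h) ha.le (by linarith) hab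
      (by rw [T.ht.zero _ ha₀]; linarith) (by linarith [T.ht.one _ hb₀, hN.n_le b₀])
    have hu : ∀ j ≤ k, |T.u (c j) - T.Y (c j)| ≤ a := fun j hj => by
      obtain ⟨k1, w, k2⟩ := c1 j hj
      exact hN.uY _ (hU (mem_closedBall.2 (by linarith [k1.2]))) _ (T.used_of_adj k2)
        (by rw [dist_self]; linarith)
    refine ⟨k, fun j => c j, fun j hj => (c1 j hj).1, fun j hj => ?_, ?_, ?_⟩
    · rcases c2 j hj with h | ⟨h, k1, k2⟩
      · exact Or.inl (by linarith [T.adj _ _ h])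
      refine or_iff_not_imp_left.2 fun h4 => ?_
      have d1 := (c1 j hj.le).1.2
      have d2 := (c1 (j + 1) hj).1.2
      have d3 := dist_triangle_right (c j : Z) (c (j + 1)) z
      exact T.jmp hN h1 h2 (by linarith) k1 k2 (by linarith [not_le.1 h4])
        ((closedBall_subset_closedBall' (by linarith)).trans hU)
        ((closedBall_subset_closedBall' (by linarith)).trans hU)
    · have : T.Y (c 0) ≤ lo + 2 * a + 2 * a := c3
      linarith [(abs_le.1 (hu 0 k.zero_le)).2]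
    · have : hi - 4 * a - 2 * a ≤ T.Y (c k) := c4
      linarith [(abs_le.1 (hu k le_rfl)).1]
  exfalso
  have hc' : Cr T.F T.sd false Xᶜ := T.hc.cr_of_not (i := true) (by rwa [compl_compl])
  obtain ⟨a₀, b₀, haL, hbR, hab⟩ := T.of_cr hc' fun h k => k (Or.inr ⟨h, rfl⟩)
  have hn := T.cr_near hN.n_le hκ (((hκ'.trans ball_subset_closedBall).trans
    ((closedBall_subset_closedBall (by linarith)).trans hU)).trans (St_mono (by norm_num))) hp hq
    hlo (hi := hi - 4 * a) (by linarith) (by linarith)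
  obtain ⟨_, h4, v, hv, rfl⟩ := T.hc.meet hn (T.cr_of_con haL hbR (con_reach hab))
  have hv' : Con T.G {x | Sum.inl x ∈ Xᶜ} a₀ v := hv
  have h5 : dist (v : Z) z < τ := by
    rcases h4 with h4 | ⟨v', h4, e⟩
    · exact absurd (Or.inl (Or.inl h4)) hv'.right_mem
    · obtain ⟨x, hx, k⟩ := T.sb_near (Sum.inl_injective e ▸ h4 : v ∈ T.Sb κ)
      linarith [mem_ball.1 (hκ' hx), dist_triangle_left (v : Z) z x]
  have h6 : τ ≤ dist (a₀ : Z) z := not_lt.1 fun k => (T.adjz _ _ haL).not_st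
    (St_mono (by norm_num) (hU (mem_closedBall.2 (by linarith))))
  obtain ⟨w, hw, h7, rfl | ⟨u, huw, hu⟩⟩ :=
    hv'.symm.exists_first (P := fun y : P => τ ≤ dist (y : Z) z) h6
  · linarith
  · have h8 : ¬ τ ≤ dist (u : Z) z := hu.right_mem.2
    exact hw (Or.inl (Or.inr ⟨w, ⟨h7, by
      linarith [not_le.1 h8, T.adjG huw, dist_triangle_left (w : Z) z u]⟩, rfl⟩))

end KCH
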