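import Pool.Agent.Lib.MP_e1e491_gt.CH.Equi
import Pool.Agent.Lib.MP_e1e491_gt.CH.FC
import Pool.Agent.Lib.MP_e1e491_gt.CH.SH
import Pool.Agent.Lib.MP_e1e491_gt.CH.NcV

/-! Non-crossing. -/

namespace KCH

open Set Metric KP2 KCC MeasureTheory Filter Topology
open scoped Classical

variable {Z : Type} [MetricSpace Z] [CompactSpace Z] {lam : ℝ}

theorem nc_vol (hL : LL Z lam) (hD : Dbl Z) (hK : KN Z) {c : ℝ} (hc : 0 < c) (hW : NW Z c)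
    {δ : ℝ} (hδ : 0 < δ) (B K : ℝ) (f : Z ≃ₜ Z) (hf : BiL f) {γ : ℝ} (hγ : 0 < γ) : ∃ r₁ > 0,
      ∀ (ξ : Z → ℝ) (P : Finset Z) (H : Type) [Fintype H] (r : ℝ) (T : TH ξ δ P H B r lam),
        T.Ok K r₁ → volume {s | T.Ln s ∧ ENNReal.ofReal γ < volume (T.Hit f s)} ≤
          ENNReal.ofReal γ := by
  rcases le_or_gt K 0 with hK0 | hK0
  · exact ⟨1, one_pos, fun ξ P H _ r T h => absurd h.pos hK0.not_gt⟩
  obtain ⟨L, hL1, hL2⟩ := hf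
  obtain ⟨ε, hε, hm⟩ := exists_mod (Z := Z) hδ lam K
  have h1 : ∀ a : ℝ, ∃ η : ℝ, 0 < a → 0 < η ∧ ∀ (ξ : Z → ℝ) (P : Finset Z) (H : Type) [Fintype H]
      (B r r₁ : ℝ) (T : TH ξ δ P H B r lam), T.Mod ε r₁ → B * r ≤ r₁ → r₁ ≤ η → T.FC η a := by
    intro a
    by_cases ha : 0 < a
    · obtain ⟨η, h2, h3⟩ := exists_fc (Z := Z) hδ lam hε ha
      exact ⟨η, fun _ => ⟨h2, h3⟩⟩
    · exact ⟨1, fun h => absurd h ha⟩
  choose φ hφ using h1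
  obtain ⟨r₁, hr, h⟩ := nc_vol0 hD hK hc hW (B := B) hδ hL.one_le hK0 hL1 hε
    (φ := φ) (fun a ha => (hφ a ha).1) hγ
  exact ⟨r₁, hr, fun ξ P H _ r T hT => h ξ P H r r₁ T f le_rfl hT (hm ξ P H B r r₁ T hT)
    (fun a ha h2 => (hφ a ha).2 ξ P H B r r₁ T (hm ξ P H B r r₁ T hT) hT.2.2 h2) hL2⟩

end KCH
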