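import Pool.Agent.Lib.MP_e1e491_gt.CH.NWa
import Pool.Agent.Lib.MP_e1e491_gt.CC.LLC
import Pool.Agent.Lib.MP_e1e491_gt.V2

/-! Nearly flat sets in all balls. -/

namespace KCH

open Set Metric KP2 KCC MeasureTheory Filter Topology
open scoped Classical

variable {Z : Type} [MetricSpace Z]

variable {G : Type} [Group G] [MulAction G Z]

/-- The action of a group element as a homeomorphism. -/
noncomputable def smulH (H : KKC.HB G Z) (g : G) : Z ≃ₜ Z where
  toFun x := g • x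
  invFun x := g⁻¹ • x
  left_inv x := inv_smul_smul g x
  right_inv x := smul_inv_smul g x
  continuous_toFun := (bil_smul H g).continuous
  continuous_invFun := (bil_smul H g⁻¹).continuous

theorem nw_out {d C ρ r a b e f : ℝ} (hC : 0 < C) (hρ : 0 < ρ) (hr : 0 < r) (hd : 0 < d)
    (hT : 2 * C * ρ ≤ d * r) (ha : r < a) (hb : r < b) (he : d ≤ e) (hf : f ≤ a + b)
    (h : e * max a ρ * max b ρ ≤ C * (ρ * f)) : False := by
  have h1 : d * a * b ≤ e * max a ρ * max b ρ :=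
    mul_le_mul (mul_le_mul he (le_max_left _ _) (by linarith) (by linarith)) (le_max_left _ _)
      (by linarith) (mul_nonneg (by linarith) ((le_max_right _ _).trans' hρ.le))
  have h2 : C * (ρ * f) ≤ C * ρ * (a + b) := by
    rw [← mul_assoc]
    exact mul_le_mul_of_nonneg_left hf (by positivity)
  have h3 : 2 * (C * ρ * (a + b)) ≤ d * r * (a + b) := by
    have := mul_le_mul_of_nonneg_right hT (show 0 ≤ a + b by linarith)
    linarith
  have h4 : d * (r * a) < d * (a * b) :=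
    mul_lt_mul_of_pos_left (by nlinarith) hd
  have h5 : d * (r * b) < d * (a * b) :=
    mul_lt_mul_of_pos_left (by nlinarith) hd
  nlinarith

theorem nw_low {d C ρ a b e f : ℝ} (hρ : 0 < ρ) (hd : 0 < d) (he : d ≤ e)
    (h : e * max a ρ * max b ρ ≤ C * (ρ * f)) : d * ρ ≤ C * f := by
  have h1 : d * ρ * ρ ≤ e * max a ρ * max b ρ :=
    mul_le_mul (mul_le_mul he (le_max_right _ _) hρ.le (by linarith)) (le_max_right _ _)
      hρ.le (mul_nonneg (by linarith) ((le_max_right _ _).trans' hρ.le))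
  refine le_of_mul_le_mul_right ?_ hρ
  linarith

theorem nw_of_hb (H : KKC.HB G Z) {d : ℝ} (hd : 0 < d)
    (h : ∀ η : ℝ, 0 < η → ∃ α α' : Set Z, NF η α ∧ NF η α' ∧
      (∃ p ∈ α, ∃ q ∈ α, d ≤ dist p q) ∧ (∃ p ∈ α', ∃ q ∈ α', d ≤ dist p q) ∧
      ∀ p ∈ α, ∀ q ∈ α', d ≤ dist p q) : ∃ c > 0, NW Z c := by
  obtain ⟨L, hL, hv⟩ := H.view_exists
  obtain ⟨C, hC, hf⟩ := H.view_formula L hL
  have hC0 : 0 < C := one_pos.trans_le hC
  obtain ⟨T, hT1, hT⟩ : ∃ T : ℝ, 1 ≤ T ∧ 2 * C ≤ d * T := by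
    refine ⟨1 + 2 * C / d, le_add_of_nonneg_right (by positivity), ?_⟩
    rw [mul_add, mul_div_cancel₀ _ hd.ne']
    linarith
  have hT0 : 0 < T := one_pos.trans_le hT1
  refine ⟨d / (C * T), by positivity, fun η z r hη hr hr1 => ?_⟩
  have hρ : 0 < r / T := by positivity
  obtain ⟨g, hg⟩ := hv z (r / T) hρ ((div_le_self hr.le hT1).trans hr1)
  obtain ⟨M, hM, hm⟩ := bil_smul H g
  have hM0 : 0 < M := one_pos.trans_le hM
  have hF : ∀ p q : Z, dist p q * max (dist (g • p) z) (r / T) * max (dist (g • q) z) (r / T) ≤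
      C * (r / T * dist (g • p) (g • q)) := fun p q => by
    have := (hf g z (r / T) hg (g • p) (g • q)).1
    rwa [inv_smul_smul, inv_smul_smul] at this
  have key : ∀ α : Set Z, NF (η / M) α → (∃ p ∈ α, ∃ q ∈ α, d ≤ dist p q) →
      (∀ p ∈ α, dist (g • p) z ≤ r) → ∃ β, NF η β ∧ β ⊆ closedBall z r ∧
        ∃ p ∈ β, ∃ q ∈ β, d / (C * T) * r ≤ dist p q := by
    rintro α h1 ⟨p, hp, q, hq, hpq⟩ h2
    have h3 := h1.image (smulH H g) hM0.le fun x y => (hm x y).1
    rw [mul_div_cancel₀ _ hM0.ne'] at h3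
    refine ⟨_, h3, ?_, g • p, ⟨p, hp, rfl⟩, g • q, ⟨q, hq, rfl⟩, ?_⟩
    · rintro _ ⟨x, hx, rfl⟩
      exact h2 x hx
    · have h4 := nw_low hρ hd hpq (hF p q)
      have h5 : d / (C * T) * r = d * (r / T) / C := by field_simp
      rw [h5, div_le_iff₀ hC0]
      linarith
  obtain ⟨α, α', h1, h2, h3, h4, h5⟩ := h (η / M) (by positivity)
  by_cases k1 : ∀ p ∈ α, dist (g • p) z ≤ r
  · exact key α h1 h3 k1
  by_cases k2 : ∀ p ∈ α', dist (g • p) z ≤ r
  · exact key α' h2 h4 k2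
  push Not at k1 k2
  obtain ⟨p, hp, k1⟩ := k1
  obtain ⟨q, hq, k2⟩ := k2
  refine (nw_out hC0 hρ hr hd ?_ k1 k2 (h5 p hp q hq) (dist_triangle_right _ _ z) (hF p q)).elim
  have h6 := mul_le_mul_of_nonneg_right hT hρ.le
  have h7 : d * T * (r / T) = d * r := by field_simp
  linarith

end KCH
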