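import Pool.Agent.Lib.MP_e1e491_gt.CH.FanA
import Pool.Agent.Lib.MP_e1e491_gt.CH.NC
import Pool.Agent.Lib.MP_e1e491_gt.CH.NW

/-! From a half tiling to a fan. -/

namespace KCH

open Set Metric KP2 KCC MeasureTheory Filter Topology
open scoped Classical

variable {G Z : Type} [Group G] [MetricSpace Z] [MulAction G Z] {lam : ℝ}

theorem fan_of_th (Hb : KKC.HB G Z) {ξ : Z → ℝ} {δ B r K r₁ ε η : ℝ} {P : Finset Z} {H : Type}
    [Fintype H] (T : TH ξ δ P H B r lam) (h : T.Ok K r₁) (hη : 0 < η) (hN : T.Nr ε (η / 10))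
    (h1 : lam * r₁ ≤ ε) (h2 : 10 * (lam * r₁) ≤ η) {N : ℕ} {A : Set ℝ} (hA : ∀ t ∈ A, T.Ln t)
    (hv : volume.real (Icc 0 1 \ A) ≤ η) (hn : ∀ g : G, Hb.len g ≤ N → ∀ s ∈ A,
      volume (T.Hit (fun x => g • x) s) ≤ ENNReal.ofReal η) {z₀ : Z} (hz : z₀ ∈ St ξ 1) :
    ∃ F : KFan.FanH Hb NF z₀ (δ / 10) (4 * K) η N, F.T = A ∧ F.c = T.cl := by
  have hδ := T.fr.δ_pos
  have hl : 0 ≤ lam := zero_le_one.trans T.ll.one_le
  have e1 : lam * (B * r) ≤ lam * r₁ := mul_le_mul_of_nonneg_left h.2.2 hl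
  have e2 : 0 ≤ lam * (B * r) := mul_nonneg hl T.s_pos.le
  have st : ∀ {a : ℝ}, 3 ≤ a → ∀ x, dist x z₀ ≤ δ → x ∈ St ξ a := fun ha x hx =>
    St_mono (by linarith) (T.fr.st hz (by rwa [dist_comm]))
  have lv : ∀ t ∈ A, ∀ x ∈ T.cl t, dist x z₀ ≤ δ → |T.u x - t| ≤ 2 * (η / 10) :=
    fun t ht x hx hd => hN.cl_lev (e1.trans h1) (hA t ht) hx (st (by norm_num) x hd)
  refine ⟨{ u := T.u
            c := T.cl
            T := A
            η_pos := hη
            T_sub := fun t ht => Ioo_subset_Icc_self (hA t ht).1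
            u_mem := T.u_mem
            full := hv
            closed := fun t _ => T.cl_closed t
            conn := fun t ht => T.cl_conn (hA t ht)
            leave := fun t ht => ?_
            lev := fun t ht x hx hd => by linarith [lv t ht x hx (by linarith)]
            sep := fun t ht κ k1 k2 k3 => ?_
            nc := fun f hf s hs => ?_
            sh := fun z τ κ lo hlo hi hhi k1 k2 k3 k4 k5 k6 => ?_
            en := fun I k1 k2 => fanc_en h hA I (fun i hi => ?_) k2 }, rfl, rfl⟩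
  · obtain ⟨x, hx, hs⟩ := T.cl_side (hA t ht) false
    refine ⟨x, hx, le_of_not_gt fun hd => hs.not_st (st (by norm_num) x (by linarith))⟩
  · by_contra hcon
    push Not at hcon
    obtain ⟨⟨y, hy, a1⟩, x, hx, a2⟩ := hcon
    refine (T.cl_sep (hA t ht) k1 (fun w hw => st (by norm_num) w ?_) hx hy a2 a1).ne_empty
      k3.inter_eq
    linarith [mem_ball.1 (k2 hw)]
  · refine ENNReal.toReal_le_of_le_ofReal hη.le ((measure_mono ?_).trans (hn f hf s hs))
    rintro t ⟨ht, x, hx, a1, a2, a3⟩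
    exact ⟨hA t ht, x, hx, st le_rfl _ (by linarith), st le_rfl _ (by linarith), a3⟩
  · obtain ⟨p, p1, p2⟩ := k3
    obtain ⟨q, q1, q2⟩ := k4
    have a1 := mem_ball.1 (k5 p2)
    have a2 := mem_ball.1 (k5 q2)
    have a3 := dist_nonneg (x := p) (y := z)
    have a4 := dist_nonneg (x := z) (y := z₀)
    have a5 := abs_le.1 (lv lo hlo p p1 (by linarith [dist_triangle p z z₀]))
    have a6 := abs_le.1 (lv hi hhi q q1 (by linarith [dist_triangle q z z₀]))
    refine T.sh hN (by linarith) (e1.trans h1) (by linarith) (by linarith)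
      (fun w hw => st (by norm_num) w ?_) k2 k5 p2 q2 (by linarith) (by linarith) k1
    linarith [mem_closedBall.1 hw, dist_triangle w z z₀]
  · have a1 := k1 i hi
    have a2 := dist_nonneg (x := i.1) (y := z₀)
    exact ⟨by linarith [a1.1], by linarith [a1.2]⟩

theorem fanc_ev {c t : ℝ} (ht : 0 < t) : ∀ᶠ e in 𝓝[>] (0 : ℝ), c * e < t := by
  refine Filter.Eventually.filter_mono nhdsWithin_le_nhds ?_
  have : Tendsto (fun e : ℝ => c * e) (𝓝 0) (𝓝 (c * 0)) := tendsto_const_nhds.mul tendsto_id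
  exact this.eventually (gt_mem_nhds (by simpa using ht))

theorem fans_of_ok [CompactSpace Z] (Hb : KKC.HB G Z) (hL : LL Z lam) (hD : Dbl Z) (hK : KN Z)
    {c₀ : ℝ} (hc : 0 < c₀) (hW : NW Z c₀) {δ : ℝ} (hδ : 0 < δ) (B K : ℝ) : ∃ c > 0, ∀ η > 0,
      ∀ N : ℕ, ∃ r₁ > 0, ∀ (ξ : Z → ℝ) (P : Finset Z) (H : Type) [Fintype H] (r : ℝ)
        (T : TH ξ δ P H B r lam), T.Ok K r₁ → ∃ (z₀ : Z)
          (F : KFan.FanH Hb NF z₀ (δ / 10) (4 * K) η N),
          c ≤ KFan.lines F.T F.c (ball z₀ (δ / 10 / 2)) := by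
  obtain ⟨c, c0, hp⟩ := fanc_pick (Z := Z) hδ
  obtain ⟨ε, hε, hm⟩ := exists_mod (Z := Z) hδ lam K
  refine ⟨c, c0, fun η hη N => ?_⟩
  set Φ := (Hb.fin N).toFinset with hΦ
  have m0 : 0 < min η (1 / 2) := lt_min hη (by norm_num)
  set γ := min η (1 / 2) / (Φ.card + 1) with hγ
  have γ0 : 0 < γ := by positivity
  have γ1 : (Φ.card + 1) * γ = min η (1 / 2) := mul_div_cancel₀ _ (by positivity)
  have γ2 : 0 ≤ Φ.card * γ := by positivity
  choose ρ ρ0 hρ using fun g : G =>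
    nc_vol hL hD hK hc hW hδ B K (smulH Hb g) (bil_smul Hb g) γ0
  have ε0 := hε (η / 10) (by linarith)
  obtain ⟨r₁, ⟨a1, a2, a3⟩, r0⟩ := ((((eventually_all_finset Φ).2 fun g _ =>
    fanc_ev (c := 1) (ρ0 g)).and ((fanc_ev (c := lam) ε0).and
      (fanc_ev (c := 10 * lam) hη))).and self_mem_nhdsWithin).exists
  refine ⟨r₁, r0, fun ξ P H _ r T hT => ?_⟩
  have b1 := fanc_good T Φ (η := min η (1 / 2)) γ0.le (by linarith) fun g hg =>
    hρ g ξ P H r T (hT.mono (by linarith [a1 g hg]))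
  obtain ⟨z₀, hz, hc'⟩ := hp ξ _ T.cl T.fr (fun t ht => Ioo_subset_Icc_self ht.1.1)
    (b1.trans (min_le_right _ _)) fun t ht => T.cl_mid ht.1
  have b2 : r₁ ≤ lam * r₁ := le_mul_of_one_le_left (le_of_lt r0) hL.one_le
  obtain ⟨F, f1, f2⟩ := fan_of_th Hb T hT hη (hm ξ P H B r r₁ T hT _ (by linarith) (by linarith))
    a2.le (by linarith) (N := N) (fun t ht => ht.1) (b1.trans (min_le_left _ _))
    (fun g hg s hs => (hs.2 g ((Hb.fin N).mem_toFinset.2 hg)).trans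
      (ENNReal.ofReal_le_ofReal (by linarith [min_le_left η (1 / 2)]))) hz
  exact ⟨z₀, F, by rwa [f1, f2]⟩

end KCH
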