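import Pool.Agent.Lib.MP_e1e491_gt.CH.Defs
import Pool.Agent.Lib.MP_e1e491_gt.PT

/-! Accessible points form a facial set. -/

namespace KCH

open Set Metric KP2 KCC

/-- `K₃,₃` in the plane `Pl`. -/
theorem k33_sets (a b : Fin 3 → Pl) (E : Fin 3 → Fin 3 → Set Pl)
    (hj : ∀ i j, JoinedIn (E i j) (a i) (b j))
    (h : ∀ i j k l, i ≠ k → j ≠ l → Disjoint (E i j) (E k l)) : False := by
  obtain ⟨φ⟩ : Nonempty (Pl ≃ₜ ℂ) :=
    ⟨(ContinuousLinearEquiv.ofFinrankEq (𝕜 := ℝ) (by simp)).toHomeomorph⟩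
  choose γ hγ using fun i j => (hj i j).map φ.continuous
  exact KKJS.k33_path _ _ γ fun i j k l hik hjl =>
    (disjoint_image_of_injective φ.injective (h i j k l hik hjl)).mono
      (range_subset_iff.2 (hγ i j)) (range_subset_iff.2 (hγ k l))

theorem flat_acc {Z : Type} [MetricSpace Z] {ι : Z → Pl} (hc : Continuous ι)
    (hi : Function.Injective ι) {w₀ : Pl} (_hw : w₀ ∉ range ι) :
    Flat {b | JoinedIn ((range ι)ᶜ ∪ {ι b}) w₀ (ι b)} := by
  intro b a e hb hj hd hn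
  have h1 : ∀ s t t', t ≠ t' → Disjoint (ι '' e s t) ((range ι)ᶜ ∪ {ι (b t')}) := by
    intro s t t' htt
    rw [disjoint_left]
    rintro _ ⟨x, hx, rfl⟩ (h | h)
    · exact h ⟨x, rfl⟩
    · exact hn s t' t htt.symm (hi h ▸ hx)
  refine k33_sets ![ι (a false), ι (a true), w₀] (fun t => ι (b t))
    (fun i t => ![ι '' e false t, ι '' e true t, (range ι)ᶜ ∪ {ι (b t)}] i) (fun i t => ?_)
    fun i t k t' hik htt => ?_
  · fin_cases i
    · exact (hj false t).map hc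
    · exact (hj true t).map hc
    · exact hb t
  · fin_cases i <;> fin_cases k
    · exact absurd rfl hik
    · exact disjoint_image_of_injective hi (hd t t' htt)
    · exact h1 false t t' htt
    · exact (disjoint_image_of_injective hi (hd t' t htt.symm)).symm
    · exact absurd rfl hik
    · exact h1 true t t' htt
    · exact (h1 false t' t htt.symm).symm
    · exact (h1 true t' t htt.symm).symm
    · exact absurd rfl hik

theorem Flat.mono {Z : Type} [MetricSpace Z] {A B : Set Z} (h : Flat A) (hB : B ⊆ A) :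
    Flat B := fun b a e hb => h b a e fun t => hB (hb t)

theorem Flat.image {Z Z' : Type} [MetricSpace Z] [MetricSpace Z'] {A : Set Z}
    (h : Flat A) (f : Z ≃ₜ Z') : Flat (f '' A) := by
  intro b a e hb hj hd hn
  refine h (fun t => f.symm (b t)) (fun s => f.symm (a s)) (fun s t => f.symm '' e s t)
    (fun t => ?_) (fun s t => (hj s t).map f.symm.continuous)
    (fun t t' k => disjoint_image_of_injective f.symm.injective (hd t t' k)) fun s t t' k hm => ?_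
  · obtain ⟨x, hx, e⟩ := hb t
    rwa [← e, f.symm_apply_apply]
  · exact hn s t t' k ((f.symm.injective.mem_set_image).1 hm)

variable {Z : Type} [MetricSpace Z] {η η' lam : ℝ} {α : Set Z}

theorem NF.image {Z' : Type} [MetricSpace Z'] (h : NF η α) (f : Z ≃ₜ Z') {L : ℝ} (hL : 0 ≤ L)
    (hf : ∀ x y, dist (f x) (f y) ≤ L * dist x y) : NF (L * η) (f '' α) := by
  obtain ⟨A, hA, h1⟩ := h.fl
  refine ⟨h.cpt.image f.continuous, ?_, f '' A, hA.image f, ?_⟩
  · rintro _ ⟨x, hx, rfl⟩ _ ⟨y, hy, rfl⟩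
    exact (h.pc x hx y hy).map f.continuous
  · rintro _ ⟨x, hx, rfl⟩
    obtain ⟨b, hb, h2⟩ := h1 x hx
    refine ⟨f b, ⟨b, hb, rfl⟩, (h2.map f.continuous).mono ?_⟩
    rintro _ ⟨y, hy, rfl⟩
    exact ⟨⟨y, hy.1, rfl⟩, (hf y x).trans (mul_le_mul_of_nonneg_left hy.2 hL)⟩

theorem NF.mono (h : NF η α) (hη : η ≤ η') : NF η' α := by
  obtain ⟨A, hA, h1⟩ := h.fl
  refine ⟨h.cpt, h.pc, A, hA, fun x hx => ?_⟩
  obtain ⟨b, hb, h2⟩ := h1 x hx
  exact ⟨b, hb, h2.mono (inter_subset_inter_right _ (closedBall_subset_closedBall hη))⟩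

theorem NF.pre (h : NF η α) : IsPreconnected α :=
  isPreconnected_of_forall_pair fun x hx y hy => by
    obtain ⟨E, h1, h2, h3, h4⟩ := joined_set (h.pc x hx y hy)
    exact ⟨E, h1, h3, h4, h2⟩

theorem joined_range {x y p q : Z} (γ : Path x y) (hp : p ∈ range γ) (hq : q ∈ range γ) :
    JoinedIn (range γ) p q :=
  (γ.extend_range ▸ isPathConnected_range γ.continuous_extend).joinedIn p hp q hq

theorem nf_of_con (hl : LL Z lam) {V : Type} {G : SimpleGraph V} {S : Set V} {a b : V}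
    (hc : Con G S a b) (l : V → Z) {s : ℝ} (hs : 0 < s)
    (he : ∀ v ∈ S, ∀ w ∈ S, G.Adj v w → dist (l v) (l w) ≤ s) {A : Set Z} (hA : Flat A)
    (hp : ∀ v ∈ S, ∃ p ∈ A, dist p (l v) ≤ s) :
    ∃ α, NF (2 * lam * s) α ∧ l a ∈ α ∧ l b ∈ α ∧ ∀ x ∈ α, ∃ v ∈ S, dist x (l v) ≤ lam * s := by
  have piece : ∀ w ∈ S, ∀ z, dist z (l w) ≤ s → ∃ β, IsCompact β ∧ z ∈ β ∧ l w ∈ β ∧
      (∀ x ∈ β, ∀ y ∈ β, JoinedIn β x y) ∧ β ⊆ closedBall (l w) (lam * s) ∧ ∃ p ∈ A, p ∈ β := by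
    intro w hw z hz
    obtain ⟨p, hpA, h1⟩ := hp w hw
    obtain ⟨τ, hτ⟩ := hl.l1 (l w) s z (l w) hs hz (by simpa using hs.le)
    obtain ⟨σ, hσ⟩ := hl.l1 (l w) s (l w) p hs (by simpa using hs.le) h1
    refine ⟨range (τ.trans σ), isCompact_range (τ.trans σ).continuous, ⟨0, (τ.trans σ).source⟩,
      ?_, fun x hx y hy => joined_range _ hx hy, ?_, p, hpA, ⟨1, (τ.trans σ).target⟩⟩
    · rw [Path.trans_range]
      exact Or.inl ⟨1, τ.target⟩
    · rw [Path.trans_range]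
      exact union_subset (range_subset_iff.2 hτ) (range_subset_iff.2 hσ)
  have key : ∃ α, IsCompact α ∧ (∀ x ∈ α, JoinedIn α (l a) x) ∧ l b ∈ α ∧
      ∀ x ∈ α, ∃ w ∈ S, ∃ p ∈ A, JoinedIn (α ∩ closedBall (l w) (lam * s)) x p := by
    refine Con.induction (P := fun v => ∃ α, IsCompact α ∧ (∀ x ∈ α, JoinedIn α (l a) x) ∧
      l v ∈ α ∧ ∀ x ∈ α, ∃ w ∈ S, ∃ p ∈ A, JoinedIn (α ∩ closedBall (l w) (lam * s)) x p) hc ?_ ?_
    · obtain ⟨β, b1, -, b3, b4, b5, p, hpA, b6⟩ := piece a hc.left_mem (l a) (by simpa using hs.le)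
      exact ⟨β, b1, fun x hx => b4 _ b3 x hx, b3, fun x hx => ⟨a, hc.left_mem, p, hpA,
        (b4 x hx p b6).mono (subset_inter subset_rfl b5)⟩⟩
    · rintro v hv w hw hvw ⟨α, a1, a2, a3, a4⟩
      obtain ⟨β, b1, b2, b3, b4, b5, p, hpA, b6⟩ := piece w hw (l v) (he v hv w hw hvw)
      refine ⟨α ∪ β, a1.union b1, ?_, Or.inr b3, ?_⟩
      · rintro x (hx | hx)
        · exact (a2 x hx).mono subset_union_left
        · exact ((a2 _ a3).mono subset_union_left).trans ((b4 _ b2 x hx).mono subset_union_right)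
      · rintro x (hx | hx)
        · obtain ⟨u, hu, q, hq, h1⟩ := a4 x hx
          exact ⟨u, hu, q, hq, h1.mono (inter_subset_inter_left _ subset_union_left)⟩
        · exact ⟨w, hw, p, hpA, (b4 x hx p b6).mono (subset_inter subset_union_right b5)⟩
  obtain ⟨α, a1, a2, a3, a4⟩ := key
  refine ⟨α, ⟨a1, fun x hx y hy => (a2 x hx).symm.trans (a2 y hy), A, hA, fun x hx => ?_⟩,
    (a2 _ a3).source_mem, a3, fun x hx => ?_⟩
  · obtain ⟨w, -, p, hpA, h1⟩ := a4 x hx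
    refine ⟨p, hpA, h1.mono (inter_subset_inter_right _ fun y hy => ?_)⟩
    have h2 := mem_closedBall.1 h1.source_mem.2
    have h3 := mem_closedBall.1 hy
    rw [mem_closedBall]
    linarith [dist_triangle_right y x (l w)]
  · obtain ⟨w, hw, p, -, h1⟩ := a4 x hx
    exact ⟨w, hw, h1.source_mem.2⟩

end KCH
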