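import Pool.Agent.Lib.MP_e1e491_gt.CH.Defs
import Pool.Agent.Lib.MP_e1e491_gt.CH.Flat
import Pool.Agent.Lib.MP_e1e491_gt.CC.ForestZ

/-! Tools for the hole graph: components, segments, accessible points. -/

namespace KCH

open Set Metric KP2 KCC
open scoped Classical

theorem con_comp {V : Type} {G : SimpleGraph V} {R : Set V} {u a : V} (h : Con G R u a) :
    Con G {w | Con G R u w} u a :=
  h.induction (P := fun y => Con G {w | Con G R u w} u y)
    (KP2.Con.refl (KP2.Con.refl h.left_mem)) fun _ hv _ hw hvw hP =>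
      hP.trans (Con.of_adj hvw hP.right_mem (hP.right_mem.trans (Con.of_adj hvw hv hw)))

theorem hga_dist {n : ℕ} (hn : 0 < n) {z z' : Pl} {v w : Bool → Fin (n + 1)} (hv : v ∈ shad n {z})
    (hw : w ∈ shad n {z'}) (hvw : v = w ∨ (gridG n).Adj v w) : dist z z' ≤ 3 / n := by
  have h0 : (0 : ℝ) < n := Nat.cast_pos.2 hn
  refine (dist_pi_le_iff (by positivity)).2 fun i => ?_
  have a1 := abs_lt.1 (shadow_mem_pt.1 hv i)
  have a2 := abs_lt.1 (shadow_mem_pt.1 hw i)
  have a3 : (v i : ℕ) ≤ w i + 1 ∧ (w i : ℕ) ≤ v i + 1 := by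
    rcases hvw with rfl | ⟨-, h2 | h2⟩
    · omega
    all_goals
      have := h2 i
      omega
  have a4 : ((v i : ℕ) : ℝ) ≤ (w i : ℕ) + 1 := by exact_mod_cast a3.1
  have a5 : ((w i : ℕ) : ℝ) ≤ (v i : ℕ) + 1 := by exact_mod_cast a3.2
  rw [Real.dist_eq, le_div_iff₀ h0, ← abs_of_pos h0, ← abs_mul, abs_le]
  constructor <;> linarith [a1.1, a1.2, a2.1, a2.2]

theorem hga_gp {n : ℕ} (hn : 0 < n) (u : Bool → Fin (n + 1)) : u ∈ shad n {gp n u} := by
  rw [shad_gp hn]
  exact mem_singleton u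

/-- The inverse of an embedding of a compact space is uniformly continuous. -/
theorem hga_fine {Z : Type} [MetricSpace Z] [CompactSpace Z] {ι : Z → Pl} (hc : Continuous ι)
    (hi : Function.Injective ι) {r : ℝ} (hr : 0 < r) :
    ∃ n : ℕ, 1000 ≤ n ∧ ∀ x y, dist (ι x) (ι y) ≤ 3 / n → dist x y ≤ r := by
  obtain ⟨a, ha, h⟩ := (isClosed_le continuous_const continuous_dist :
    IsClosed {p : Z × Z | r ≤ dist p.1 p.2}).isCompact.exists_forall_le'
      (f := fun p => dist (ι p.1) (ι p.2)) (a := 0) (by fun_prop) fun p hp =>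
        dist_pos.2 fun e => by
          have h1 : r ≤ dist p.1 p.2 := hp
          rw [hi e, dist_self] at h1
          linarith
  obtain ⟨n, hn⟩ := exists_nat_gt (max 1000 (3 / a))
  have h0 : (1000 : ℝ) < n := (le_max_left _ _).trans_lt hn
  have h1 : 3 / (n : ℝ) < a := by
    rw [div_lt_iff₀ (by linarith), mul_comm]
    exact (div_lt_iff₀ ha).1 ((le_max_right _ _).trans_lt hn)
  exact ⟨n, by exact_mod_cast h0.le, fun x y hxy => le_of_not_gt fun h2 => by
    linarith [h (x, y) h2.le]⟩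

/-- The first point of a closed set on a segment. -/
theorem hga_first {C : Set Pl} (hC : IsClosed C) {p q : Pl} (hp : p ∉ C) (hq : q ∈ C) :
    ∃ z ∈ C, JoinedIn (Cᶜ ∪ {z}) p z ∧ dist z q ≤ dist p q := by
  have hc : Continuous fun t : ℝ => AffineMap.lineMap p q t := by fun_prop
  obtain ⟨t, ⟨ht, ht'⟩, hl⟩ := (isCompact_Icc.inter_right (hC.preimage hc) :
    IsCompact (Icc (0 : ℝ) 1 ∩ (fun t : ℝ => AffineMap.lineMap p q t) ⁻¹' C)).exists_isLeast
      ⟨1, right_mem_Icc.2 zero_le_one, by simpa using hq⟩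
  have h0 : t ≠ 0 := by
    rintro rfl
    exact hp (by simpa using ht')
  have h1 : 0 < t := lt_of_le_of_ne ht.1 h0.symm
  refine ⟨_, ht', JoinedIn.of_segment_subset ?_, ?_⟩
  · rw [segment_eq_image_lineMap]
    rintro _ ⟨s, hs, rfl⟩
    rcases hs.2.eq_or_lt with rfl | h2
    · exact Or.inr (by simp)
    · refine Or.inl fun h3 => ?_
      rw [AffineMap.lineMap_lineMap_right] at h3
      have h4 := hl ⟨⟨mul_nonneg hs.1 ht.1, mul_le_one₀ hs.2 ht.1 ht.2⟩, h3⟩
      nlinarith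
  · rw [dist_lineMap_right, Real.norm_of_nonneg (by linarith [ht.2])]
    exact mul_le_of_le_one_left dist_nonneg (by linarith)

/-- The grid points that are not near the image. -/
def Off {Z : Type} (ι : Z → Pl) (n : ℕ) : Set (Bool → Fin (n + 1)) := {u | ∀ x, u ∉ shad n {ι x}}

theorem hga_join {Z : Type} {ι : Z → Pl} {n : ℕ} (hn : 0 < n) {u w : Bool → Fin (n + 1)}
    (h : Con (gridG n) (Off ι n) u w) : JoinedIn (range ι)ᶜ (gp n u) (gp n w) := by
  have h0 : (n : ℝ) ≠ 0 := (Nat.cast_pos.2 hn).ne'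
  have h1 : ∀ v ∈ Off ι n, gp n v ∈ (range ι)ᶜ := by
    rintro v hv ⟨x, hx⟩
    exact hv x (hx ▸ hga_gp hn v)
  refine h.induction (P := fun y => JoinedIn (range ι)ᶜ (gp n u) (gp n y))
    (JoinedIn.refl (h1 u h.left_mem)) fun a ha b hb hab hP =>
      hP.trans (JoinedIn.of_segment_subset ?_)
  rw [segment_eq_image_lineMap]
  rintro _ ⟨s, hs, rfl⟩
  rcases hs.2.eq_or_lt with rfl | h2
  · simpa using h1 b hb
  rintro ⟨x, hx⟩
  refine ha x (shadow_mem_pt.2 fun i => ?_)
  have h3 : (n : ℝ) * ι x i - (a i : ℕ) = s * (((b i : ℕ) : ℝ) - (a i : ℕ)) := by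
    rw [hx, AffineMap.lineMap_apply_module']
    simp only [Pi.add_apply, Pi.smul_apply, Pi.sub_apply, smul_eq_mul, gp]
    field_simp
    ring
  have a3 : (a i : ℕ) ≤ b i + 1 ∧ (b i : ℕ) ≤ a i + 1 := by
    obtain ⟨-, h4 | h4⟩ := hab
    all_goals
      have := h4 i
      omega
  have a4 : ((a i : ℕ) : ℝ) ≤ (b i : ℕ) + 1 := by exact_mod_cast a3.1
  have a5 : ((b i : ℕ) : ℝ) ≤ (a i : ℕ) + 1 := by exact_mod_cast a3.2
  rw [h3, abs_mul, abs_of_nonneg hs.1]
  exact (mul_le_of_le_one_right hs.1 (abs_le.2 ⟨by linarith, by linarith⟩)).trans_lt h2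

/-- The points next to a component of the grid points off the image are near a flat set. -/
theorem hga_acc {Z : Type} [MetricSpace Z] [CompactSpace Z] {ι : Z → Pl} (hc : Continuous ι)
    (hi : Function.Injective ι) {r : ℝ} {n : ℕ} (hn : 0 < n)
    (hf : ∀ x y, dist (ι x) (ι y) ≤ 3 / n → dist x y ≤ r) {u₀ : Bool → Fin (n + 1)}
    (h0 : u₀ ∈ Off ι n) : ∃ A, Flat A ∧ ∀ u u' x, Con (gridG n) (Off ι n) u₀ u' →
      (gridG n).Adj u' u → u ∈ shad n {ι x} → ∃ b ∈ A, dist b x ≤ r := by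
  refine ⟨_, flat_acc hc hi (hga_join hn (KP2.Con.refl h0)).source_mem,
    fun u u' x h1 h2 h3 => ?_⟩
  have h4 := hga_join hn h1
  obtain ⟨_, ⟨b, rfl⟩, a1, a2⟩ := hga_first (isCompact_range hc).isClosed h4.target_mem ⟨x, rfl⟩
  exact ⟨b, (h4.mono subset_union_left).trans a1,
    hf b x (a2.trans (hga_dist hn (hga_gp hn u') h3 (Or.inr h2)))⟩

theorem zv_nat {n : ℕ} {s : Bool × Bool} {v : Bool → Fin (n + 1)} : v ∈ zv n s ↔
    (s.1 = true → 2 * n < 5 * (v false : ℕ) ∧ 5 * (v false : ℕ) < 3 * n) ∧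
      if s.2 then 3 * n ≤ 5 * (v s.1 : ℕ) else 5 * (v s.1 : ℕ) ≤ 2 * n := by
  have h1 : ∀ a : ℕ, 2 / 5 * (n : ℝ) < a ↔ 2 * n < 5 * a := fun a => by
    rw [← Nat.cast_lt (α := ℝ)]
    push_cast
    constructor <;> intro h <;> linarith
  have h2 : ∀ a : ℕ, (a : ℝ) < 3 / 5 * n ↔ 5 * a < 3 * n := fun a => by
    rw [← Nat.cast_lt (α := ℝ)]
    push_cast
    constructor <;> intro h <;> linarith
  simp only [zv, mem_ofPred_eq, ← not_lt, h1, h2]

/-- The horizontal zones touch the vertical zones. -/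
theorem zv_corner {n : ℕ} (hn : 100 ≤ n) (b c : Bool) :
    ∃ u ∈ zv n (true, b), ∃ w ∈ zv n (false, c), (gridG n).Adj u w := by
  have h1 : (if b then n else 0) < n + 1 := by split_ifs <;> omega
  cases c
  · refine ⟨fun i => if i then ⟨_, h1⟩ else ⟨2 * n / 5 + 1, by omega⟩, zv_nat.2 ⟨fun _ => ?_, ?_⟩,
      fun i => if i then ⟨_, h1⟩ else ⟨2 * n / 5, by omega⟩, zv_nat.2 ⟨by simp, ?_⟩,
      fun h => ?_, Or.inr fun i => ?_⟩
    · simp only [Bool.false_eq_true, if_false]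
      omega
    · cases b <;> simp only [Bool.false_eq_true, if_false, if_true] <;> omega
    · simp only [Bool.false_eq_true, if_false]
      omega
    · simpa using congrFun h false
    · cases i <;> simp
  · refine ⟨fun i => if i then ⟨_, h1⟩ else ⟨n - 2 * n / 5 - 1, by omega⟩,
      zv_nat.2 ⟨fun _ => ?_, ?_⟩,
      fun i => if i then ⟨_, h1⟩ else ⟨n - 2 * n / 5, by omega⟩, zv_nat.2 ⟨by simp, ?_⟩,
      fun h => ?_, Or.inl fun i => ?_⟩
    · simp only [Bool.false_eq_true, if_false]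
      omega
    · cases b <;> simp only [Bool.false_eq_true, if_false, if_true] <;> omega
    · simp only [Bool.false_eq_true, if_false, if_true]
      omega
    · have h2 := congrFun h false
      simp only [Bool.false_eq_true, if_false, Fin.mk.injEq] at h2
      omega
    · cases i <;> simp only [Bool.false_eq_true, if_false, if_true] <;> omega

/-- Near the image and near a zone. -/
theorem hga_zone {Z : Type} [TopologicalSpace Z] {ι : Z → Pl} (he : Emb ι) {n : ℕ} (hn : 1000 ≤ n)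
    {s : Bool × Bool} {u u' : Bool → Fin (n + 1)} {x : Z} (hu : u ∈ zv n s)
    (hu' : u' ∈ shad n {ι x}) (h : u' = u ∨ (gridG n).Adj u' u) :
    s.1 = false ∧ if s.2 then 59 / 100 ≤ ι x false else ι x false ≤ 41 / 100 := by
  have hn0 : 0 < n := by omega
  have h0 : (1000 : ℝ) ≤ n := by exact_mod_cast hn
  have h1 := (hga_dist hn0 hu' (hga_gp hn0 u) h).trans
    (div_le_div_of_nonneg_left (by norm_num) (by norm_num) h0)
  have h2 := (gp_zv hn0 hu).2
  have h3 := abs_le.1 (Real.dist_eq _ _ ▸ (dist_le_pi_dist _ _ s.1).trans h1)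
  have h4 := he.snd x
  obtain ⟨_ | _, _ | _⟩ := s <;>
    simp only [Bool.false_eq_true, if_false, if_true, true_and, Bool.true_eq_false,
      false_and] at h2 h3 ⊢ <;> linarith [h3.1, h3.2, h4.1, h4.2]

end KCH
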