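import Pool.Agent.Lib.MP_e1e491_gt.CH.Defs
import Pool.Agent.Lib.MP_e1e491_gt.P2.Quot

/-! The grid and its quotients are unicoherent. -/

namespace KCH

open Set Metric KP2 KCC
open scoped Classical

variable {V V' : Type} {G : SimpleGraph V}

/-- Closed cochains are exact. -/
def TC (G : SimpleGraph V) : Prop :=
  ∀ c : V → V → ZMod 2, (∀ u v, c u v = c v u) →
    (∀ u v w, G.Adj u v → G.Adj v w → G.Adj u w → c u v + c v w = c u w) →
    ∃ φ : V → ZMod 2, ∀ u v, G.Adj u v → c u v = φ u + φ v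

theorem uc_two : ∀ x y : ZMod 2, 0 = x + y → x = y := by decide

theorem uc_tri {x1 y1 z1 x2 y2 z2 : Prop} (h1 : x2 → x1) (h2 : y2 → y1) (h3 : z2 → z1)
    (h4 : y1 → ¬ z1 → x2 → y2) (h5 : x1 → ¬ z1 → y2 → x2) (h6 : z1 → ¬ y1 → x2 → z2)
    (h7 : x1 → ¬ y1 → z2 → x2) (h8 : z1 → ¬ x1 → y2 → z2) (h9 : y1 → ¬ x1 → z2 → y2) :
    ((if (x2 ∧ ¬ y1) ∨ (y2 ∧ ¬ x1) then 1 else 0) +
      if (y2 ∧ ¬ z1) ∨ (z2 ∧ ¬ y1) then 1 else 0 : ZMod 2) =
      if (x2 ∧ ¬ z1) ∨ (z2 ∧ ¬ x1) then 1 else 0 := by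
  have h : (1 + 1 : ZMod 2) = 0 := rfl
  by_cases x1 <;> by_cases y1 <;> by_cases z1 <;> by_cases x2 <;> by_cases y2 <;> by_cases z2 <;>
    simp_all

theorem TC.uc (h : TC G) : UC G := by
  intro A o hA _ u hu u' hu'
  set K : Set V := {v | Con G Aᶜ o v} with hK
  set D : Set V := {v | Con G Aᶜ o v ∧ ∃ a ∈ A, G.Adj a v} with hD
  have hout : ∀ x y, G.Adj x y → x ∈ K → y ∉ K → x ∈ D := fun x y hxy hx hy => by
    refine ⟨hx, y, ?_, hxy.symm⟩
    by_contra k
    exact hy (KP2.Con.trans hx (KP2.Con.of_adj hxy (KP2.Con.right_mem hx) k))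
  have hBK : ∀ x, Con G D u x → x ∈ K := fun x hx => hx.right_mem.1
  have hstep : ∀ x y z, G.Adj x y → G.Adj y z → y ∈ K → z ∉ K → Con G D u x → Con G D u y :=
    fun x y z hxy hyz hy hz hx => hx.trans (KP2.Con.of_adj hxy hx.right_mem (hout y z hyz hy hz))
  obtain ⟨φ, hφ⟩ := h (fun x y => if (Con G D u x ∧ y ∉ K) ∨ (Con G D u y ∧ x ∉ K) then 1 else 0)
    (fun x y => by simp only [or_comm]) (fun x y z hxy hyz hxz => by
      exact uc_tri (hBK x) (hBK y) (hBK z) (hstep x y z hxy hyz) (hstep y x z hxy.symm hxz)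
        (hstep x z y hxz hyz.symm) (hstep z x y hxz.symm hxy) (hstep y z x hyz hxz.symm)
        (hstep z y x hyz.symm hxy.symm))
  have hAK : ∀ a ∈ A, a ∉ K := fun a ha k => KP2.Con.right_mem k ha
  have e1 : ∀ x ∈ K, φ o = φ x := fun x hx => by
    refine (KP2.Con.induction (P := fun y => y ∈ K ∧ φ o = φ y) hx ⟨KP2.Con.refl (KP2.Con.left_mem hx), rfl⟩
      fun v hv w hw hvw ih => ?_).2
    have k : w ∈ K := KP2.Con.trans ih.1 (KP2.Con.of_adj hvw hv hw)
    refine ⟨k, ih.2.trans (uc_two _ _ ?_)⟩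
    rw [← hφ v w hvw, if_neg (by simp [k, ih.1])]
  obtain ⟨h1, a, ha, hau⟩ := id hu
  obtain ⟨h2, a', ha', hau'⟩ := id hu'
  have e2 : φ a = φ a' := by
    refine KP2.Con.induction (P := fun y => φ a = φ y) (hA a ha a' ha') rfl
      fun v hv w hw hvw ih => ih.trans (uc_two _ _ ?_)
    rw [← hφ v w hvw, if_neg]
    rintro (k | k)
    · exact hAK v hv (hBK v k.1)
    · exact hAK w hw (hBK w k.1)
  have e3 := hφ a u hau
  have e4 := hφ a' u' hau'
  rw [if_pos (Or.inr ⟨KP2.Con.refl hu, hAK a ha⟩), e2, ← e1 u h1, e1 u' h2, ← e4] at e3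
  by_contra k
  rw [if_neg] at e3
  · exact one_ne_zero e3
  · rintro (k' | k')
    · exact hAK a' ha' (hBK a' k'.1)
    · exact k k'.1

theorem uc_three : ∀ x y z w : ZMod 2, x + (y + z) = w → w = y + x + z := by decide

theorem uc_self : ∀ x y : ZMod 2, x = y + x + y := by decide

/-- A graph with parents. -/
theorem tc_of_parent (ρ : V → ℕ) (p : V → V) (N : ℕ) (hN : ∀ v, ρ v < N)
    (h1 : ∀ v w, G.Adj v w → ρ v ≠ ρ w)
    (h2 : ∀ v w, G.Adj v w → ρ w < ρ v → ρ (p v) < ρ v ∧ G.Adj v (p v) ∧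
      (w = p v ∨ G.Adj (p v) w)) : TC G := by
  intro c hs hc
  have key : ∀ n, ∃ φ : V → ZMod 2, ∀ u v, G.Adj u v → ρ u < n → ρ v < n → c u v = φ u + φ v := by
    intro n
    induction n with
    | zero => exact ⟨0, fun u v _ h => absurd h (Nat.not_lt_zero _)⟩
    | succ n ih =>
      obtain ⟨φ, hφ⟩ := ih
      have aux : ∀ u v, G.Adj u v → ρ u = n → ρ v < n → c u v = φ (p u) + c u (p u) + φ v := by
        intro u v huv hu hv
        obtain ⟨k1, k2, k3⟩ := h2 u v huv (hu ▸ hv)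
        rcases k3 with rfl | k3
        · exact uc_self _ _
        · refine uc_three _ _ _ _ ?_
          rw [← hφ _ _ k3 (hu ▸ k1) hv, hc _ _ _ k2 k3 huv]
      refine ⟨fun v => if ρ v = n then φ (p v) + c v (p v) else φ v, fun u v huv hu hv => ?_⟩
      have := h1 u v huv
      by_cases a : ρ u = n
      · simp only [if_pos a, if_neg (show ρ v ≠ n by omega)]
        exact aux u v huv a (by omega)
      by_cases b : ρ v = n
      · simp only [if_pos b, if_neg a]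
        rw [hs, add_comm]
        exact aux v u huv.symm b (by omega)
      · simp only [if_neg a, if_neg b]
        exact hφ u v huv (by omega) (by omega)
  obtain ⟨φ, hφ⟩ := key N
  exact ⟨φ, fun u v h => hφ u v h (hN u) (hN v)⟩

theorem tc_grid (n : ℕ) : TC (gridG n) := by
  have ext : ∀ v w : Bool → Fin (n + 1), v = w ↔
      (v false : ℕ) = w false ∧ (v true : ℕ) = w true := fun v w =>
    ⟨fun h => h ▸ ⟨rfl, rfl⟩, fun h => funext fun i => by
      cases i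
      · exact Fin.ext h.1
      · exact Fin.ext h.2⟩
  refine tc_of_parent (fun v => (v false : ℕ) + v true)
    (fun v i => ⟨(v i : ℕ) - 1, lt_of_le_of_lt (Nat.sub_le _ _) (v i).2⟩) (2 * n + 1)
    (fun v => ?_) (fun v w h => ?_) fun v w h hlt => ?_
  · have := (v false).2
    have := (v true).2
    omega
  · simp only [gridG, ne_eq, ext, Bool.forall_bool] at h
    omega
  · simp only [gridG, ne_eq, ext, Bool.forall_bool] at h hlt ⊢
    omega

theorem uc_grid (n : ℕ) : UC (gridG n) := (tc_grid n).uc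

theorem UC.quot (h : UC G) {π : V → V'} (hf : ∀ a, Cn G {v | π v = a}) : UC (quotG G π) := by
  intro A o hA ho u hu u' hu'
  obtain ⟨o, rfl⟩ : o ∈ range π := by
    obtain ⟨h1, a, -, -, -, v, -, -, e⟩ := hu
    refine KP2.Con.induction (P := fun x => x ∈ range π) h1.symm ⟨v, e⟩ ?_
    rintro _ - _ - ⟨-, -, w, -, -, e⟩ -
    exact ⟨w, e⟩
  have h1 := (h (π ⁻¹' A) o (fun a ha b hb => (hA _ ha _ hb).lift hf) ho).quot (π := π)
  have e : π '' {v | Con G (π ⁻¹' A)ᶜ o v ∧ ∃ a ∈ π ⁻¹' A, G.Adj a v} =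
      {v | Con (quotG G π) Aᶜ (π o) v ∧ ∃ a ∈ A, (quotG G π).Adj a v} := by
    ext x
    constructor
    · rintro ⟨v, ⟨k1, a, ha, k2⟩, rfl⟩
      refine ⟨k1.quot.mono (image_preimage_subset π Aᶜ), π a, ha, fun k => ?_, a, v, k2, rfl, rfl⟩
      exact k1.right_mem (show π v ∈ A from k ▸ ha)
    · rintro ⟨k1, _, ha, -, a, v, k2, rfl, rfl⟩
      exact ⟨v, ⟨k1.lift hf, a, ha, k2⟩, rfl⟩
  rw [e] at h1
  exact h1 u hu u' hu'

/-- A walk from `A` to `o` meets the boundary set. -/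
theorem UC.sep {S A : Set V} {a o : V} (h : Con G S a o) (ha : a ∈ A) (ho : o ∉ A) :
    ∃ v ∈ S, Con G Aᶜ o v ∧ ∃ a ∈ A, G.Adj a v := by
  obtain ⟨w, -, hw, rfl | ⟨u, h1, h2⟩⟩ := h.symm.exists_first (P := fun v => v ∈ A) ha
  · exact absurd hw ho
  · exact ⟨u, h2.right_mem.1, h2.mono inter_subset_right, w, hw, h1.symm⟩

end KCH
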