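import Pool.Agent.Lib.MP_e1e491_gt.CH.HGA
import Pool.Agent.Lib.MP_e1e491_gt.CH.UC
import Pool.Agent.Lib.MP_e1e491_gt.CC.Zone
import Pool.Agent.Lib.MP_e1e491_gt.P2.GridHex
import Pool.Agent.Lib.MP_e1e491_gt.P2.GridCross
import Pool.Agent.Lib.MP_e1e491_gt.P2.ShSum

/-! Construction of the hole graph. -/

namespace KCH

open Set Metric KP2 KCC MeasureTheory Filter Topology
open scoped Classical

variable {Z : Type} [MetricSpace Z] {lam : ℝ}

/-- `p` is close to the blob or to the left or right part. -/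
def hgc_near (ξ : Z → ℝ) {P : Finset Z} {H : Type} (p : Z) (t : ℝ) : Vx P H → Prop
  | .inl (.inl w) => dist p w ≤ t
  | .inl (.inr _) => False
  | .inr s => s.1 = false ∧ ∃ y, dist p y ≤ t ∧ if s.2 then 59 / 100 ≤ ξ y else ξ y ≤ 41 / 100

theorem hgc_tri {ξ : Z → ℝ} {P : Finset Z} {H : Type} {p q : Z} {t t' : ℝ} {j : Vx P H}
    (h : hgc_near ξ q t j) (h' : dist p q + t ≤ t') : hgc_near ξ p t' j := by
  rcases j with (w | w) | s
  · have h1 : dist q w ≤ t := h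
    exact (dist_triangle p q w).trans (by linarith)
  · exact h
  · obtain ⟨h0, y, h1, hy⟩ := h
    exact ⟨h0, y, (dist_triangle p q y).trans (by linarith), hy⟩

omit [MetricSpace Z] in
theorem hgc_sd {ξ : Z → ℝ} {x y : Z} {b : Bool} (h : |ξ x - ξ y| ≤ 1 / 1000)
    (hy : if b then 59 / 100 ≤ ξ y else ξ y ≤ 41 / 100) : Sd ξ b x := by
  obtain ⟨h1, h2⟩ := abs_le.1 h
  cases b <;> simp only [Sd, Bool.false_eq_true, if_false, if_true] at hy ⊢ <;> linarith

theorem hgc_comp {V : Type} [Finite V] (G : SimpleGraph V) (R : Set V) :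
    ∃ (H : Type) (_ : Fintype H) (X : H → Set V), (∀ h, Cn G (X h)) ∧ (∀ h, X h ⊆ R) ∧
      (∀ h, (X h).Nonempty) ∧ (∀ v ∈ R, ∃ h, v ∈ X h) ∧
      ∀ h h' u u', u ∈ X h → u' ∈ X h' → u = u' ∨ G.Adj u u' → h = h' := by
  refine ⟨{C : Set V // ∃ u ∈ R, C = {w | Con G R u w}}, Fintype.ofFinite _, Subtype.val, ?_, ?_,
    ?_, fun v hv => ⟨⟨_, v, hv, rfl⟩, KP2.Con.refl hv⟩, ?_⟩
  · rintro ⟨_, u, _, rfl⟩ a ha b hb
    exact (con_comp ha).symm.trans (con_comp hb)
  · rintro ⟨_, u, _, rfl⟩ a ha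
    exact KP2.Con.right_mem ha
  · rintro ⟨_, u, hu, rfl⟩
    exact ⟨u, KP2.Con.refl hu⟩
  · rintro ⟨_, a, _, rfl⟩ ⟨_, b, _, rfl⟩ u u' hu hu' h
    have h1 : Con G R a u := hu
    have h2 : Con G R b u' := hu'
    have h3 : Con G R a b := by
      rcases h with rfl | h
      · exact h1.trans h2.symm
      · exact (h1.trans (Con.of_adj h h1.right_mem h2.right_mem)).trans h2.symm
    exact Subtype.ext (Set.ext fun w => ⟨fun k => h3.symm.trans k, fun k => h3.trans k⟩)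

variable [CompactSpace Z]

theorem exists_hg (hL : LL Z lam) (hD : Dbl Z) : ∃ B : ℝ, 1 ≤ B ∧ ∀ ι : Z → Pl, Emb ι →
    Good (fun x => ι x false) B := by
  obtain ⟨N, hN⟩ := hD.card_le (2 * lam + 1)
  have hl := hL.one_le
  have hN0 : (0 : ℝ) ≤ N := Nat.cast_nonneg N
  obtain ⟨K, hK⟩ : ∃ K : ℝ, K = (N + 2) * (2 * lam + 1) := ⟨_, rfl⟩
  have hK1 : lam + 1 ≤ K := by nlinarith
  refine ⟨2 * K, by linarith, fun ι he => ?_⟩
  obtain ⟨δ, hδ, hξ⟩ := Metric.uniformContinuous_iff.1 (CompactSpace.uniformContinuous_of_continuous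
    ((continuous_apply false).comp he.cont)) (1 / 1000) (by norm_num)
  refine ⟨δ / (4 * K), div_pos hδ (by linarith), fun r hr hr0 P hP => ?_⟩
  have hKr : 4 * (K * r) ≤ δ := by
    rw [le_div_iff₀ (by linarith)] at hr0
    linarith
  have hKr0 : (lam + 1) * r ≤ K * r := mul_le_mul_of_nonneg_right hK1 hr.le
  have hlr : 0 < lam * r := mul_pos (by linarith) hr
  have hξ' : ∀ x y, dist x y ≤ 2 * (K * r) → |ι x false - ι y false| ≤ 1 / 1000 := fun x y h =>
    (hξ (a := x) (b := y) (by linarith)).le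
  obtain ⟨col, hcolN, hcol⟩ := exists_colouring (I := P)
    (fun v w => dist (w : Z) v ≤ (2 * lam + 1) * r) (fun v w h => by rwa [dist_comm]) (N := N)
    fun w => le_trans (Finset.card_le_card fun v hv => by simpa using hv) (hN r w P hr hP.1)
  choose D _ hDc hDs hDb using fun x : Z => hL.exists_D x hr
  obtain ⟨n, hn, hfine⟩ := hga_fine he.cont he.inj hr
  have hn0 : 0 < n := by omega
  have hn1 : (1000 : ℝ) ≤ n := by exact_mod_cast hn
  have hQ : ∀ E : Set Z, ι '' E ⊆ QQ := by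
    rintro E _ ⟨x, -, rfl⟩
    have h1 := he.fst x
    have h2 := he.snd x
    refine ⟨fun i => ?_, fun i => ?_⟩ <;> cases i <;> simp only [Pi.zero_apply, Pi.one_apply] <;>
      linarith [h1.1, h1.2, h2.1, h2.2]
  obtain ⟨H, _, Y, hY1, hY2, hY3, hY4, hY5⟩ := hgc_comp (gridG n) (Off ι n ∩ {u | ∀ s, u ∉ zv n s})
  let X : Vx P H → Set (Bool → Fin (n + 1)) :=
    Sum.elim (Sum.elim (fun v => shad n (ι '' D v)) Y) (zv n)
  let c : Vx P H → ℕ := Sum.elim (Sum.elim (fun v => col v + 1) fun _ => 0) fun _ => 0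
  have hX : ∀ (w : P) u, u ∈ X (bl w) → ∃ z, u ∈ shad n {ι z} ∧ dist z w ≤ lam * r := by
    rintro w u ⟨_, ⟨z, hz, rfl⟩, h⟩
    exact ⟨z, ⟨_, rfl, h⟩, hDb w hz⟩
  have base : ∀ j u u' x, u' ∈ shad n {ι x} → u' = u ∨ (gridG n).Adj u' u → u ∈ X j →
      (∃ h, j = ho h) ∨ hgc_near (fun x => ι x false) x ((lam + 1) * r) j := by
    rintro ((w | h) | s) u u' x hu' hadj hu
    · obtain ⟨z, h1, h3⟩ := hX w u hu
      have h2 := hfine x z (hga_dist hn0 hu' h1 hadj)
      exact Or.inr ((dist_triangle _ z _).trans (by linarith))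
    · exact Or.inl ⟨h, rfl⟩
    · obtain ⟨h1, h2⟩ := hga_zone he hn hu hu' hadj
      exact Or.inr ⟨h1, x, by rw [dist_self]; linarith, h2⟩
  have base' : ∀ j u x, u ∈ shad n {ι x} → u ∈ X j →
      hgc_near (fun x => ι x false) x ((lam + 1) * r) j := fun j u x h1 h2 => by
    refine (base j u u x h1 (Or.inl rfl) h2).resolve_left ?_
    rintro ⟨h, rfl⟩
    exact (hY2 h h2).1 x h1
  obtain ⟨β₀, hfib, hz0, hch⟩ := exists_forest_ord (gridG n) X (by
      rintro ((v | h) | s)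
      · exact shad_cn n ((hDc v).image _ he.cont.continuousOn) (hQ _)
      · exact hY1 h
      · exact zv_cn n s) (fun u => by
      by_cases hu : ∃ s, u ∈ zv n s
      · obtain ⟨s, hs⟩ := hu
        exact ⟨.inr s, hs⟩
      by_cases hu' : u ∈ Off ι n
      · obtain ⟨h, hh⟩ := hY4 u ⟨hu', fun s hs => hu ⟨s, hs⟩⟩
        exact ⟨ho h, hh⟩
      obtain ⟨x, hx⟩ := not_forall.1 hu'
      obtain ⟨w, hw, h1⟩ := hP.2 x
      exact ⟨bl ⟨w, hw⟩, shad_mono n (singleton_subset_iff.2 (mem_image_of_mem _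
        (hDs w (by rw [mem_closedBall, dist_comm]; exact h1.le)))) (not_not.1 hx)⟩)
      (N := N + 1) c (by
      rintro ((v | h) | s)
      · exact Nat.succ_le_succ (hcolN v)
      · exact Nat.zero_le _
      · exact Nat.zero_le _) (by
      rintro ((v | h) | s) ((w | h') | s') hne ⟨u, h1, h2⟩
      · obtain ⟨z, h3, h5⟩ := hX v u h1
        have h4 : dist z w ≤ (lam + 1) * r := base' (bl w) u z h3 h2
        have h6 := dist_triangle_left (w : Z) v z
        exact fun h => hcol v w (fun h' => hne (congrArg bl h')) (by linarith) (Nat.succ.inj h)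
      · exact Nat.succ_ne_zero _
      · exact Nat.succ_ne_zero _
      · exact (Nat.succ_ne_zero _).symm
      · exact absurd (congrArg ho (hY5 h h' u u h1 h2 (Or.inl rfl))) hne
      · exact absurd h2 ((hY2 h h1).2 s')
      · exact (Nat.succ_ne_zero _).symm
      · exact absurd h1 ((hY2 h' h2).2 s)
      · exact absurd (congrArg _ (zv_disj hn0 ⟨u, h1, h2⟩)) hne)
  have hz1 : ∀ s u, u ∈ zv n s → β₀ u = .inr s := fun s u hu => hz0 (.inr s) u rfl hu
  have chain : ∀ (m : ℕ) j k p t, ChD X c m j k → hgc_near (fun x => ι x false) p t j →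
      hgc_near (fun x => ι x false) p (t + m * ((2 * lam + 1) * r)) k := by
    intro m
    induction m with
    | zero =>
      intro j k p t h h'
      obtain rfl : j = k := h
      exact hgc_tri h' (by simp)
    | succ m ih =>
      rintro ((w | w) | s) k p t ⟨j', ⟨u, ⟨h1, h2⟩⟩, h3, h4⟩ h'
      · obtain ⟨z, h5, h7⟩ := hX w u h1
        have h6 : dist p w ≤ t := h'
        have h8 := dist_triangle_right p z w
        refine hgc_tri (ih j' k p (t + (2 * lam + 1) * r) h4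
          (hgc_tri (base' j' u z h5 h2) (by linarith))) ?_
        rw [dist_self]
        push_cast
        linarith
      · exact absurd h3 (Nat.not_lt_zero _)
      · exact absurd h3 (Nat.not_lt_zero _)
  have key : ∀ u u' x, u' ∈ shad n {ι x} → u' = u ∨ (gridG n).Adj u' u →
      (∃ h, β₀ u = ho h ∧ u ∈ Y h) ∨ hgc_near (fun x => ι x false) x (K * r) (β₀ u) :=
    fun u u' x hu' hadj => by
      obtain ⟨j, m, hm, hj, h⟩ := hch u
      rcases base j u u' x hu' hadj hj with ⟨h', rfl⟩ | h0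
      · exact Or.inl ⟨h', hz0 (ho h') u rfl hj, hj⟩
      refine Or.inr (hgc_tri (chain m j _ _ _ h h0) ?_)
      have h1 : (m : ℝ) ≤ N + 1 := by exact_mod_cast hm
      have h2 := mul_le_mul_of_nonneg_right h1 (by linarith : 0 ≤ (2 * lam + 1) * r)
      rw [dist_self, hK]
      linarith
  have key' : ∀ u x, u ∈ shad n {ι x} → hgc_near (fun x => ι x false) x (K * r) (β₀ u) :=
    fun u x hu => (key u u x hu (Or.inl rfl)).resolve_left fun ⟨h, _, h1⟩ => (hY2 h h1).1 x hu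
  have kind : ∀ u, (∃ x, u ∈ shad n {ι x}) ∨ (∃ h, β₀ u = ho h ∧ u ∈ Y h) ∨
      ∃ s, β₀ u = .inr s ∧ u ∈ zv n s := fun u => by
    obtain ⟨(w | h) | s, -, -, hj, -⟩ := hch u
    · obtain ⟨z, hz, -⟩ := hX w u hj
      exact Or.inl ⟨z, hz⟩
    · exact Or.inr (Or.inl ⟨h, hz0 (ho h) u rfl hj, hj⟩)
    · exact Or.inr (Or.inr ⟨s, hz1 s u hj, hj⟩)
  have kb : ∀ (v : P) u, β₀ u = bl v → ∃ x, u ∈ shad n {ι x} ∧ dist x v ≤ K * r := fun v u h => by
    rcases kind u with ⟨x, hx⟩ | ⟨h', e, -⟩ | ⟨s, e, -⟩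
    · have h1 := key' u x hx
      rw [h] at h1
      exact ⟨x, hx, h1⟩
    · simp [h] at e
    · simp [h] at e
  have kh : ∀ (h : H) u, β₀ u = ho h → u ∈ Y h := fun h u e => by
    rcases kind u with ⟨x, hx⟩ | ⟨h', e', h1⟩ | ⟨s, e', -⟩
    · have h1 := key' u x hx
      rw [e] at h1
      exact h1.elim
    · rw [e] at e'
      rwa [Sum.inr.inj (Sum.inl.inj e')]
    · simp [e] at e'
  have kz : ∀ s u, β₀ u = .inr s → u ∈ zv n s ∨ s.1 = false ∧ ∃ x, u ∈ shad n {ι x} ∧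
      Sd (fun x => ι x false) s.2 x := fun s u e => by
    rcases kind u with ⟨x, hx⟩ | ⟨h', e', -⟩ | ⟨s', e', h1⟩
    · have h1 := key' u x hx
      rw [e] at h1
      obtain ⟨h2, y, h3, h4⟩ := h1
      exact Or.inr ⟨h2, x, hx, hgc_sd (hξ' x y (by linarith)) h4⟩
    · simp [e] at e'
    · rw [e] at e'
      exact Or.inl (Sum.inr.inj e' ▸ h1)
  have kz' : ∀ i b u, β₀ u = .inr (i, b) →
      if b then 57 / 100 * (n : ℝ) ≤ (u i : ℕ) else ((u i : ℕ) : ℝ) ≤ 43 / 100 * n := by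
    intro i b u e
    rcases kz _ u e with h | ⟨h, x, h1, h2⟩
    · have h1 := h.2
      cases b <;> simp only [Bool.false_eq_true, if_false, if_true] at h1 ⊢ <;> linarith
    · obtain rfl : i = false := h
      obtain ⟨h3, h4⟩ := abs_lt.1 (shadow_mem_pt.1 h1 false)
      cases b <;> simp only [Sd, Bool.false_eq_true, if_false, if_true] at h2 ⊢ <;> nlinarith
  have kadj : ∀ (v : P) j, (quotG (gridG n) β₀).Adj (bl v) j → (∃ h, j = ho h) ∨
      ∃ x : Z, dist x v ≤ K * r ∧ hgc_near (fun x => ι x false) x (K * r) j := by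
    rintro v _ ⟨-, u, u', hadj, e, rfl⟩
    obtain ⟨x, h1, h2⟩ := kb v u e
    rcases key u' u x h1 (Or.inr hadj) with ⟨h, h3, -⟩ | h
    exacts [Or.inl ⟨h, h3⟩, Or.inr ⟨x, h2, h⟩]
  have nadj : ∀ i, ¬ (quotG (gridG n) β₀).Adj (.inr (i, false)) (.inr (i, true)) := by
    rintro i ⟨-, u, u', hadj, e, e'⟩
    have h1 : ((u i : ℕ) : ℝ) ≤ 43 / 100 * n := kz' i false u e
    have h2 : 57 / 100 * (n : ℝ) ≤ (u' i : ℕ) := kz' i true u' e'
    have h3 : (u' i : ℕ) ≤ u i + 1 := by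
      obtain ⟨-, h4 | h4⟩ := hadj
      all_goals
        have := h4 i
        omega
    have h4 : ((u' i : ℕ) : ℝ) ≤ (u i : ℕ) + 1 := by exact_mod_cast h3
    linarith
  have hT : ∀ b, zv n (true, b) ⊆ Off ι n := fun b u hu x hx => by
    simpa using (hga_zone he hn hu hx (Or.inl rfl)).1
  have acc : ∀ u₀ ∈ Off ι n, ∃ A, Flat A ∧ ∀ (v : P) (h : H),
      (quotG (gridG n) β₀).Adj (bl v) (ho h) → (∃ w ∈ Y h, Con (gridG n) (Off ι n) u₀ w) →
        ∃ b ∈ A, dist (v : Z) b ≤ 2 * K * r := fun u₀ h0 => by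
    obtain ⟨A, hA, h1⟩ := hga_acc he.cont he.inj hn0 hfine h0
    refine ⟨A, hA, ?_⟩
    rintro v h ⟨-, u, u', hadj, e, e'⟩ ⟨w, hw, h2⟩
    obtain ⟨x, h3, h4⟩ := kb v u e
    obtain ⟨b, hb, h5⟩ := h1 u u' x (h2.trans ((hY1 h w hw u' (kh h u' e')).mono
      fun y hy => (hY2 h hy).1)) hadj.symm h3
    exact ⟨b, hb, by linarith [dist_triangle_left (v : Z) b x, dist_comm b x]⟩
  choose pt hpt using fun x : Z => shad_nonempty n (hQ univ (mem_image_of_mem ι (mem_univ x)))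
  have hhc : HC (gridG n) (gridS n) := fun W => ⟨grid_cross n W, grid_hex n W⟩
  refine ⟨H, inferInstance, ⟨{
    Γ := quotG (gridG n) β₀
    β := fun x => β₀ (pt x)
    S := fun x => β₀ '' shad n {ι x}
    hc := hc_free (hhc.quot hfib) nadj ?_ ?_ ?_
    uc := (uc_grid n).quot hfib
    nadj := nadj
    zc := fun b c => ?_
    adj := fun v w h => ?_
    adjz := fun v b h => ?_
    notT := fun v b h => ?_
    hh := ?_
    flat := fun h => ?_
    flatB := ?_
    β_mem := fun x => mem_image_of_mem _ (hpt x)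
    β_left := fun x hx => hz1 _ _ ⟨fun h => absurd h (by simp), ?_⟩
    β_right := fun x hx => hz1 _ _ ⟨fun h => absurd h (by simp), ?_⟩
    S_cn := fun E hE => ?_
    S_sub := ?_
    surj := ?_ }⟩⟩
  · intro i b
    obtain ⟨u, h1, h2⟩ := zv_side_nonempty (show 100 ≤ n by omega) i b
    exact ⟨u, h1, hz1 _ u h2⟩
  · rintro b _ ⟨u, hu, rfl⟩
    exact hz1 _ u (zv_side_false n b hu)
  · rintro b _ ⟨u, hu, rfl⟩
    rcases zv_side_true n b hu with (h | h) | h
    exacts [Or.inl (hz1 _ u h), Or.inr (Or.inl (hz1 _ u h)), Or.inr (Or.inr (hz1 _ u h))]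
  · obtain ⟨u, h1, w, h2, h3⟩ := zv_corner (show 100 ≤ n by omega) b c
    exact ⟨by simp, u, w, h3, hz1 _ u h1, hz1 _ w h2⟩
  · obtain ⟨x, h1, h2⟩ := (kadj v _ h).resolve_left (by simp)
    have h3 : dist x w ≤ K * r := h2
    linarith [dist_triangle_left (v : Z) w x]
  · obtain ⟨x, h1, -, y, h2, h3⟩ := (kadj v _ h).resolve_left (by simp)
    exact hgc_sd (hξ' v y (by linarith [dist_triangle_left (v : Z) y x])) h3
  · obtain ⟨x, -, h2, -⟩ := (kadj v _ h).resolve_left (by simp)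
    simp at h2
  · rintro h h' ⟨hne, u, u', hadj, e, e'⟩
    exact hne (congrArg _ (hY5 h h' u u' (kh h u e) (kh h' u' e') (Or.inr hadj)))
  · obtain ⟨u, hu⟩ := hY3 h
    obtain ⟨A, hA, h1⟩ := acc u (hY2 h hu).1
    exact ⟨A, hA, fun v hv => h1 v h hv ⟨u, hu, KP2.Con.refl (hY2 h hu).1⟩⟩
  · obtain ⟨u, -, hu⟩ := zv_side_nonempty (show 100 ≤ n by omega) true false
    obtain ⟨A, hA, h1⟩ := acc u (hT _ hu)
    refine ⟨A, hA, ?_⟩
    rintro v h hv ⟨-, w, w', hadj, e, e'⟩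
    have h2 := (kz _ w' e').resolve_right (by simp)
    exact h1 v h hv ⟨w, kh h w e, ((zv_cn n _ u hu w' h2).mono (hT _)).trans
      (Con.of_adj hadj.symm (hT _ h2) (hY2 h (kh h w e)).1)⟩
  · obtain ⟨h1, -⟩ := abs_lt.1 (shadow_mem_pt.1 (hpt x) false)
    have h2 := mul_le_mul_of_nonneg_left (show ι x false ≤ 39 / 100 from hx) (Nat.cast_nonneg n)
    simp only [Bool.false_eq_true, if_false]
    linarith
  · obtain ⟨-, h1⟩ := abs_lt.1 (shadow_mem_pt.1 (hpt x) false)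
    have h2 := mul_le_mul_of_nonneg_left (show 61 / 100 ≤ ι x false from hx) (Nat.cast_nonneg n)
    simp only [if_true]
    linarith
  · have e : {y | ∃ x ∈ E, y ∈ β₀ '' shad n {ι x}} = β₀ '' shad n (ι '' E) := by
      ext y
      constructor
      · rintro ⟨x, hx, u, hu, rfl⟩
        exact ⟨u, shad_mono n (singleton_subset_iff.2 (mem_image_of_mem _ hx)) hu, rfl⟩
      · rintro ⟨u, ⟨_, ⟨x, hx, rfl⟩, hu⟩, rfl⟩
        exact ⟨x, hx, u, ⟨_, rfl, hu⟩, rfl⟩
    rw [e]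
    exact (shad_cn n (hE.image _ he.cont.continuousOn) (hQ E)).quot
  · rintro x _ ⟨u, hu, rfl⟩
    have h1 := key' u x hu
    generalize β₀ u = j at h1
    rcases j with (v | h) | ⟨i, b⟩
    · have h2 : dist x v ≤ K * r := h1
      exact Or.inl ⟨v, rfl, by linarith⟩
    · exact h1.elim
    · obtain ⟨h2, y, h3, h4⟩ := h1
      obtain rfl : i = false := h2
      exact Or.inr ⟨b, rfl, hgc_sd (hξ' x y (by linarith)) h4⟩
  · rintro v y ⟨-, u, -, -, h, -⟩
    obtain ⟨x, hx, -⟩ := kb v u h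
    exact ⟨x, u, hx, h⟩

end KCH
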