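import Pool.Agent.Lib.MP_e1e491_gt.CH.Defs
import Pool.Agent.Lib.MP_e1e491_gt.CC.TilD

/-! Existence of half tilings. -/

namespace KCH

open Set Metric KP2 KCC MeasureTheory Filter Topology
open scoped Classical

variable {V : Type} [Fintype V] {G : SimpleGraph V} {side : Bool → Bool → Set V}

/-- Extremal weights that vanish on the holes. -/
theorem half_weights (hc : HC G side) (Hs : Set V)
    (h : ∃ W, Disjoint W Hs ∧ Cr G side false W) : ∃ n : V → ℝ, (∀ v, 0 ≤ n v) ∧
      (∀ v ∈ Hs, n v = 0) ∧ (∀ W, Cr G side true W → 1 ≤ wt n W) ∧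
      ∀ W, Disjoint W Hs → Cr G side false W → ∑ v, n v ^ 2 ≤ wt n W := by
  have hχ : ∀ W0, Disjoint W0 Hs → Cr G side false W0 → ∃ χ : V → ℝ,
      (∀ v, χ v = if v ∈ W0 then 1 else 0) ∧ (∀ v, 0 ≤ χ v) ∧ (∀ v, χ v ≤ 1) ∧
      (∀ v ∈ Hs, χ v = 0) ∧ ∀ W, Cr G side true W → 1 ≤ wt χ W := by
    intro W0 hd hW0
    obtain ⟨χ, hχ⟩ : ∃ χ : V → ℝ, ∀ v, χ v = if v ∈ W0 then 1 else 0 := ⟨_, fun _ => rfl⟩
    have hχ0 : ∀ v, 0 ≤ χ v := fun v => by rw [hχ]; split_ifs <;> norm_num
    refine ⟨χ, hχ, hχ0, fun v => by rw [hχ]; split_ifs <;> norm_num,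
      fun v hv => by rw [hχ, if_neg (Set.disjoint_right.1 hd hv)], fun W hW => ?_⟩
    obtain ⟨u, hu0, hu⟩ := hc.meet (i := false) hW0 hW
    have h3 := tila_le_wt hχ0 hu
    rwa [hχ, if_pos hu0] at h3
  have hcl : IsClosed ({m : V → ℝ | ∀ v ∈ Hs, m v = 0} ∩
      {m : V → ℝ | ∀ W, Cr G side true W → 1 ≤ wt m W}) := by
    refine IsClosed.inter ?_ ?_
    · simp only [ofPred_forall]
      exact isClosed_iInter fun v => isClosed_iInter fun _ =>
        isClosed_eq (continuous_apply v) continuous_const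
    · simp only [ofPred_forall]
      refine isClosed_iInter fun W => isClosed_iInter fun _ => isClosed_le continuous_const ?_
      exact continuous_finsetSum _ fun v _ => continuous_apply v
  obtain ⟨W1, hd1, hW1⟩ := h
  obtain ⟨χ₁, -, a0, a1, a2, a3⟩ := hχ W1 hd1 hW1
  obtain ⟨m, ⟨⟨h0, h1⟩, hz, hm⟩, hmin⟩ := (isCompact_Icc.inter_right hcl).exists_isMinOn
    (show (Icc (0 : V → ℝ) 1 ∩ _).Nonempty from ⟨χ₁, ⟨a0, a1⟩, a2, a3⟩)
    (f := fun m : V → ℝ => ∑ v, m v ^ 2) (by fun_prop)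
  refine ⟨m, h0, hz, hm, fun W0 hd hW0 => ?_⟩
  obtain ⟨χ, hχ, hχ0, hχ1, hχ2, hχ3⟩ := hχ W0 hd hW0
  have hE : 0 ≤ ∑ v, m v ^ 2 := Finset.sum_nonneg fun v _ => sq_nonneg _
  have key : ∀ e : ℝ, 0 < e → ∑ v, m v ^ 2 ≤ wt m W0 + e * Fintype.card V := by
    intro e he
    have he1 : 0 < 1 + e := by linarith
    have h2 : ∑ v, m v ^ 2 ≤ ∑ v, ((m v + e * χ v) / (1 + e)) ^ 2 := by
      refine hmin (a := fun v => (m v + e * χ v) / (1 + e))
        ⟨⟨fun v => ?_, fun v => ?_⟩, fun v hv => ?_, fun W hW => ?_⟩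
      · exact div_nonneg (add_nonneg (h0 v) (mul_nonneg he.le (hχ0 v))) he1.le
      · refine (div_le_one he1).2 (add_le_add (h1 v) ?_)
        exact mul_le_of_le_one_right he.le (hχ1 v)
      · show (m v + e * χ v) / (1 + e) = 0
        rw [hz v hv, hχ2 v hv, mul_zero, add_zero, zero_div]
      · have h3 := hχ3 W hW
        have h4 := hm W hW
        unfold wt at h3 h4 ⊢
        rw [← Finset.sum_div, Finset.sum_add_distrib, ← Finset.mul_sum, one_le_div he1]
        exact add_le_add h4 (le_mul_of_one_le_right he.le h3)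
    have h5 : ∑ v, (m v + e * χ v) ^ 2 ≤
        ∑ v, m v ^ 2 + 2 * e * wt m W0 + e ^ 2 * Fintype.card V := by
      rw [wt_eq_sum, Finset.mul_sum, ← Finset.sum_add_distrib, ← Finset.card_univ,
        Finset.cast_card, Finset.mul_sum, ← Finset.sum_add_distrib]
      refine Finset.sum_le_sum fun v _ => ?_
      rw [hχ]
      split_ifs
      · exact le_of_eq (by ring)
      · nlinarith [sq_nonneg e]
    simp only [div_pow] at h2
    rw [← Finset.sum_div, le_div_iff₀ (pow_pos he1 2)] at h2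
    have h6 : 0 ≤ e * (Fintype.card V : ℝ) := mul_nonneg he.le (Nat.cast_nonneg _)
    refine le_of_mul_le_mul_left ?_ (show 0 < 2 * e by linarith)
    nlinarith [mul_nonneg (sq_nonneg e) hE, mul_nonneg he.le h6]
  refine le_of_forall_pos_le_add fun ε hε => ?_
  have hN : (0 : ℝ) < Fintype.card V + 1 := by positivity
  refine (key (ε / (Fintype.card V + 1)) (div_pos hε hN)).trans ?_
  rw [add_le_add_iff_left, div_mul_eq_mul_div, div_le_iff₀ hN]
  nlinarith

/-- The level grows along a walk by at most its weight. -/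
theorem half_le {n y : V → ℝ} (hn : ∀ v, 0 ≤ n v) (hy : ∀ v w, G.Adj v w → y w ≤ y v + n v)
    {S : Set V} {a b : V} (h : Con G S a b) : y b ≤ y a + wt n S := by
  obtain ⟨q, hq⟩ := h
  have key : ∀ {x z : V} (p : G.Walk x z), y z ≤ y x + (p.support.map n).sum := by
    intro x z p
    induction p with
    | nil => simp [hn]
    | @cons u v w huv p ih =>
      rw [SimpleGraph.Walk.support_cons, List.map_cons, List.sum_cons]
      linarith [hy u v huv]
  refine (key q.bypass).trans (add_le_add_right ?_ _)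
  rw [← List.sum_toFinset n q.bypass_isPath.support_nodup]
  refine Finset.sum_le_sum_of_subset_of_nonneg (fun v hv => ?_) fun v _ _ => hn v
  rw [Finset.mem_filter]
  exact ⟨Finset.mem_univ v, hq v (q.support_bypass_subset_support (List.mem_toFinset.1 hv))⟩

theorem half_add {n : V → ℝ} (hn : ∀ v, 0 ≤ n v) {S S' : Set V} {v : V} (h : S' ⊆ S) (hv : v ∈ S)
    (hv' : v ∉ S') : wt n S' + n v ≤ wt n S := by
  have h1 : n v = ∑ u, if u = v then n u else 0 := by simp
  rw [wt_eq_sum, wt_eq_sum, h1, ← Finset.sum_add_distrib]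
  refine Finset.sum_le_sum fun u _ => ?_
  have := hn u
  have := @h u
  by_cases h2 : u = v <;> by_cases h3 : u ∈ S' <;> by_cases h4 : u ∈ S <;> simp_all

theorem exists_ht {Hs : Set V} (hc : HC G side) {W₀ : Set V} (hW : Disjoint W₀ Hs)
    (h : Cr G side false W₀) : ∃ n y E, HT G side Hs n y E := by
  obtain ⟨n, h0, hz, h1, h2⟩ := half_weights hc Hs ⟨W₀, hW, h⟩
  obtain ⟨y, y0, y1, y2, y3⟩ := exists_cdist G h0 (side true false) zero_le_one
  have hone : ∀ v ∈ side true true, 1 ≤ y v + n v := fun v hv => by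
    rcases y3 v with e | ⟨W, a, ha, hW, hle⟩
    · exact e ▸ le_add_of_nonneg_right (h0 v)
    · exact (h1 W ⟨a, ha, v, hv, hW⟩).trans hle
  have hE : 0 < ∑ v, n v ^ 2 := by
    have k2 := h1 univ (hc.cr_univ true)
    refine lt_of_le_of_ne (Finset.sum_nonneg fun v _ => sq_nonneg _) fun h3 => ?_
    have h4 := (Finset.sum_eq_zero_iff_of_nonneg fun v _ => sq_nonneg (n v)).1 h3.symm
    rw [wt, Finset.sum_eq_zero fun v _ => pow_eq_zero_iff two_ne_zero |>.1
      (h4 v (Finset.mem_univ v))] at k2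
    linarith
  have hpos : ∀ t, ∀ v ∈ Vl n y t, 0 < n v := fun t v hv => by linarith [hv.1, hv.2]
  have hdis : ∀ t, Disjoint (Vl n y t) Hs := fun t =>
    Set.disjoint_left.2 fun v hv hv' => (hpos t v hv).ne' (hz v hv')
  have hcr : ∀ t, (∀ v, t ≠ y v) → t ∈ Ioo (0 : ℝ) 1 → Cr G side false (Vl n y t) := by
    intro t ht hI
    refine hc.cr_of_not (i := true) ?_
    rintro ⟨a, ha, b, hb, hab⟩
    have k := hab.induction (P := fun v => y v < t) (by rw [y1 a ha]; exact hI.1)
      fun v hv w _ hvw hP => lt_of_le_of_ne ((y2 v w hvw).trans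
        (not_lt.1 fun e => hv ⟨hP, e⟩)) (ht w).symm
    exact hab.right_mem ⟨k, hI.2.trans_le (hone b hb)⟩
  have hw : ∀ᵐ t : ℝ, t ∈ Ioo (0 : ℝ) 1 → ∑ v, n v ^ 2 ≤ wt n (Vt n (fun _ => y) true t) :=
    (ae_ne n fun _ => y).mono fun t ht hI => h2 _ (hdis t) (hcr t (fun v => (ht true v).1) hI)
  have hle : ∀ v ∈ (Finset.univ : Finset V), n v * ov n (fun _ => y) true 0 1 v ≤ n v ^ 2 :=
    fun v _ => by
    rw [sq]
    exact mul_le_mul_of_nonneg_left (ov_le v (h0 v)) (h0 v)
  have hs := Finset.sum_le_sum hle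
  have hge := le_sum_ov zero_le_one hw
  refine ⟨n, y, _, h0, hz, fun v => (y0 v).1, fun v => ?_, hE, rfl, h2, y2, y1, hone,
    fun v hv => ?_, ?_⟩
  · rcases (h0 v).eq_or_lt with e | e
    · rw [← e, add_zero]
      exact (y0 v).2
    · have k2 := (Finset.sum_eq_sum_iff_of_le hle).1 (le_antisymm hs (by linarith)) v
        (Finset.mem_univ v)
      rw [sq, mul_right_inj' e.ne', ov] at k2
      rcases max_cases 0 (min 1 (y v + n v) - max 0 (y v)) with h3 | h3
      · linarith [h3.1]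
      · linarith [h3.1, min_le_left 1 (y v + n v), le_max_right 0 (y v)]
  · rcases y3 v with e | ⟨S, a, ha, hS, hle'⟩
    · exact absurd e hv.ne
    refine ⟨a, ha, ?_⟩
    obtain ⟨w, hw', rfl, rfl | ⟨u, hu, hc'⟩⟩ := hS.exists_first (P := fun u => u = v) rfl
    · exact KP2.Con.refl (le_refl (y w))
    have k : ∀ x, Con G (S ∩ {x | ¬ x = w}) a x → y x ≤ y w := fun x hx => by
      have k1 := half_le h0 y2 hx
      have k2 := half_add h0 (S' := S ∩ {x | ¬ x = w}) inter_subset_left hw' fun e => e.2 rfl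
      rw [y1 a ha] at k1
      linarith
    exact ((con_reach hc').mono k).trans (Con.of_adj hu (k u hc') (le_refl (y w)))
  · filter_upwards [ae_ne n fun _ => y, ae_wt_eq zero_le_one hw (by linarith)] with t k1 k2 hI
    have k3 := hcr t (fun v => (k1 true v).1) hI
    refine ⟨k1 true, ?_, k3⟩
    obtain ⟨a, ha, b, hb, hab⟩ := k3
    have k4 : ∀ v ∈ Vl n y t, Con G (Vl n y t) a v := by
      intro v hv
      by_contra hv'
      have k5 := h2 {x | Con G (Vl n y t) a x}
        ((hdis t).mono_left fun x hx => KP2.Con.right_mem hx) ⟨a, ha, b, hb, con_reach hab⟩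
      have k6 := half_add h0 (S' := {x | Con G (Vl n y t) a x})
        (fun x hx => KP2.Con.right_mem hx) hv hv'
      linarith [k2 hI, hpos t v hv]
    exact fun v hv w hw => (k4 v hv).symm.trans (k4 w hw)

end KCH
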