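import Pool.Agent.Lib.MP_e1e491_gt.CH.Defs
import Pool.Agent.Lib.MP_e1e491_gt.CC.TilD

/-! Properties of half tilings. -/

namespace KCH

open Set Metric KP2 KCC MeasureTheory Filter Topology
open scoped Classical

variable {V : Type} [Fintype V] {G : SimpleGraph V} {side : Bool → Bool → Set V} {Hs : Set V}
  {n y : V → ℝ} {E : ℝ}

theorem HT.y_le (T : HT G side Hs n y E) (v : V) : y v ≤ 1 := by
  linarith [T.le_one v, T.n_nonneg v]

/-- A walk from below `t` to above `t` meets the line. -/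
theorem HT.meet (T : HT G side Hs n y E) {t : ℝ} (ht : ∀ v, t ≠ y v) {W : Set V} {a b : V}
    (h : Con G W a b) (ha : y a < t) (hb : t < y b + n b) : (W ∩ Vl n y t).Nonempty := by
  by_contra hne
  have hW : ∀ v ∈ W, v ∉ Vl n y t := fun v hv hv' => hne ⟨v, hv, hv'⟩
  have k := h.induction (P := fun v => y v < t) ha fun v hv w _ hvw hP =>
    lt_of_le_of_ne ((T.adj v w hvw).trans (not_lt.1 fun e => hW v hv ⟨hP, e⟩)) (ht w).symm
  exact hW b h.right_mem ⟨k, hb⟩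

theorem HT.exists_lin (T : HT G side Hs n y E) {lo hi : ℝ} (h0 : 0 ≤ lo) (h1 : lo < hi)
    (h2 : hi ≤ 1) : ∃ t ∈ Ioo lo hi, Lin G side n y t := by
  by_contra hne
  have k : ∀ᵐ t : ℝ, t ∉ Ioo lo hi := T.line.mono fun t ht hI =>
    hne ⟨t, hI, ht ⟨h0.trans_lt hI.1, hI.2.trans_le h2⟩⟩
  have k2 : volume (Ioo lo hi) = 0 := measure_eq_zero_iff_ae_notMem.2 k
  rw [Real.volume_Ioo, ENNReal.ofReal_eq_zero] at k2
  linarith

/-- A connected set that joins a low to a high level completes a crossing. -/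
theorem HT.cr (T : HT G side Hs n y E) (hc : HC G side) {a lo hi : ℝ} (hn : ∀ v, n v ≤ a)
    {S : Set V} {p q : V} (h : Con G S p q) (hp : y p ≤ lo) (hlo : lo ≤ hi) (hq : hi + a < y q) :
    Cr G side true ({v | y v ≤ lo} ∪ {v | hi ≤ y v} ∪ S) := by
  by_contra hne
  have ha : 0 ≤ a := (T.n_nonneg p).trans (hn p)
  have hq1 := T.y_le q
  obtain ⟨W, hW⟩ : ∃ W, W = {v | y v ≤ lo} ∪ {v | hi ≤ y v} ∪ S := ⟨_, rfl⟩
  rw [← hW] at hne
  have w1 : ∀ v, y v ≤ lo → v ∈ W := fun v hv => hW ▸ Or.inl (Or.inl hv)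
  have w2 : ∀ v, hi ≤ y v → v ∈ W := fun v hv => hW ▸ Or.inl (Or.inr hv)
  have w3 : S ⊆ W := fun v hv => hW ▸ Or.inr hv
  obtain ⟨t, ⟨t1, t2⟩, tn, tc, tr⟩ : ∃ t ∈ Ioo (hi + a) (y q), Lin G side n y t :=
    T.exists_lin (by linarith [T.y_nonneg p]) hq hq1
  have hV : ∀ v ∈ Vl n y t, hi ≤ y v := fun v hv => by linarith [hv.2, hn v]
  obtain ⟨z, hzS, hz⟩ := T.meet (fun v => (tn v).1) (con_reach h) (by linarith)
    (by linarith [T.n_nonneg q])
  obtain ⟨b, hb, hbp⟩ := T.down p (by linarith)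
  have hl : Cr G side false Wᶜ := hc.cr_of_not (i := true) (by rwa [compl_compl])
  obtain ⟨l, hl1, l', hl2, hl3⟩ := hl
  have hL : Cr G side false {x | Con G Wᶜ l x} := ⟨l, hl1, l', hl2, con_reach hl3⟩
  have hLW : ∀ x, x ∈ W → x ∉ {x | Con G Wᶜ l x} := fun x hx hx' => KP2.Con.right_mem hx' hx
  obtain ⟨b', hb', c, hc', hγ⟩ := hc.cr_univ true
  obtain ⟨x, hx, hx'⟩ := hc.meet (i := true) ⟨b', hb', c, hc', (con_reach hγ.symm).symm⟩ tr
  obtain ⟨w, -, hw, hcw⟩ := KP2.Con.exists_first hx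
    (P := fun x => x ∈ {x | Con G Wᶜ l x} ∨ x ∈ Vl n y t) (Or.inr hx')
  have k : ∀ A : Set V, (∀ x, ¬ (x ∈ {x | Con G Wᶜ l x} ∨ x ∈ Vl n y t) → x ∈ A) → w ∈ A →
      Con G A c w := fun A hA hwA => by
    rcases hcw with rfl | ⟨u, hu, e⟩
    · exact KP2.Con.refl hwA
    · exact (e.mono fun x hx => hA x hx.2).trans (Con.of_adj hu (hA u e.right_mem.2) hwA)
  rcases hw with hw | hw
  · have k1 : y w < hi := not_le.1 fun e => hLW w (w2 w e) hw
    obtain ⟨b₂, hb₂, e⟩ := T.down w (by linarith)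
    have k2 : ∀ v, y v ≤ y w → v ∈ (Vl n y t)ᶜ := fun v hv hv' => by linarith [hV v hv']
    exact (hc _).1 tr ⟨b₂, hb₂, c, hc', (e.mono k2).trans
      (k _ (fun x hx hx' => hx (Or.inr hx')) (k2 w le_rfl)).symm⟩
  · refine (hc _).1 hL ⟨b, hb, c, hc', ?_⟩
    refine (hbp.mono fun v hv => hLW v (w1 v (le_trans hv hp))).trans ?_
    refine (KP2.Con.mono hzS fun v hv => hLW v (w3 hv)).trans ?_
    refine ((tc z hz w hw).mono fun v hv => hLW v (w2 v (hV v hv))).trans ?_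
    exact (k _ (fun x hx hx' => hx (Or.inl hx')) (hLW w (w2 w (hV w hw)))).symm

omit [Fintype V] in
/-- Replace the excursions through bad inner components by shortcuts. -/
theorem bypass {L In Bad W : Set V} {a b : V} (h : Con G L a b) (ha : a ∉ In) (hb : b ∉ In)
    (hW : ∀ v ∈ L, (v ∉ In ∨ ¬ ∃ z ∈ Bad, Con G (L ∩ In) v z) → v ∈ W)
    (hs : ∀ w ∈ L, ∀ w' ∈ L, w ∉ In → w' ∉ In → ∀ v v', G.Adj w v → G.Adj w' v' →
      Con G (L ∩ In) v v' → (∃ z ∈ Bad, Con G (L ∩ In) v z) → Con G W w w') : Con G W a b := by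
  have key := h.induction (P := fun v => ((v ∉ In ∨ ¬ ∃ z ∈ Bad, Con G (L ∩ In) v z) →
      Con G W a v) ∧ (v ∈ In → (∃ z ∈ Bad, Con G (L ∩ In) v z) → ∃ w ∈ L, w ∉ In ∧
        ∃ v₀, G.Adj w v₀ ∧ Con G (L ∩ In) v₀ v ∧ Con G W a w))
    ⟨fun k => KP2.Con.refl (hW a h.left_mem k), fun k => absurd k ha⟩ ?_
  · exact key.1 (Or.inl hb)
  rintro v hv v' hv' hvv ⟨k1, k2⟩
  by_cases g : v ∉ In ∨ ¬ ∃ z ∈ Bad, Con G (L ∩ In) v z
  · refine ⟨fun g' => (k1 g).trans (Con.of_adj hvv (hW v hv g) (hW v' hv' g')),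
      fun i' ⟨z, hz, hc⟩ => ?_⟩
    have i : v ∉ In := fun i => g.elim (fun e => e i) fun e =>
      e ⟨z, hz, (Con.of_adj hvv (mem_inter hv i) (mem_inter hv' i')).trans hc⟩
    exact ⟨v, hv, i, v', hvv, KP2.Con.refl ⟨hv', i'⟩, k1 g⟩
  · rw [not_or, not_not, not_not] at g
    obtain ⟨w, hw, i, v₀, e1, e2, e3⟩ := k2 g.1 g.2
    obtain ⟨z, hz, hc⟩ := g.2
    refine ⟨fun g' => ?_, fun i' _ =>
      ⟨w, hw, i, v₀, e1, e2.trans (Con.of_adj hvv ⟨hv, g.1⟩ ⟨hv', i'⟩), e3⟩⟩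
    have i' : v' ∉ In := fun i' => g'.elim (fun e => e i') fun e =>
      e ⟨z, hz, (Con.of_adj hvv.symm (mem_inter hv' i') (mem_inter hv g.1)).trans hc⟩
    exact e3.trans (hs w hw v' hv' i i' v₀ v e1 hvv.symm e2 ⟨z, hz, e2.trans hc⟩)

omit [Fintype V] in
/-- The components of a set of vertices. -/
theorem exists_comp [Finite V] (G : SimpleGraph V) (R : Set V) :
    ∃ (H : Type) (_ : Fintype H) (X : H → Set V), (∀ h, Cn G (X h)) ∧ (∀ h, X h ⊆ R) ∧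
      (∀ v ∈ R, ∃ h, v ∈ X h) ∧
      ∀ h h' u u', u ∈ X h → u' ∈ X h' → u = u' ∨ G.Adj u u' → h = h' := by
  refine ⟨{X : Set V // ∃ v ∈ R, X = {w | Con G R v w}}, Fintype.ofFinite _, Subtype.val,
    ?_, ?_, fun v hv => ⟨⟨_, v, hv, rfl⟩, KP2.Con.refl hv⟩, ?_⟩
  · rintro ⟨_, v, hv, rfl⟩
    exact cn_reach v
  · rintro ⟨_, v, hv, rfl⟩ w hw
    exact KP2.Con.right_mem hw
  · rintro ⟨_, v, hv, rfl⟩ ⟨_, v', hv', rfl⟩ u u' hu hu' e
    have hu1 : Con G R v u := hu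
    have hu2 : Con G R v' u' := hu'
    have k : Con G R v v' := by
      rcases e with rfl | e
      · exact hu1.trans hu2.symm
      · exact (hu1.trans (Con.of_adj e hu1.right_mem hu2.right_mem)).trans hu2.symm
    exact Subtype.ext (Set.ext fun w => ⟨fun h => k.symm.trans h, fun h => k.trans h⟩)

end KCH
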