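import Pool.Agent.Lib.MP_e1e491_gt.CH.TC
import Pool.Agent.Lib.MP_e1e491_gt.CC.Low

/-! A modulus that does not tend to zero gives half tilings. -/

namespace KCH

open Set Metric KP2 KCC MeasureTheory Filter Topology
open scoped Classical

variable {Z : Type} [MetricSpace Z] [CompactSpace Z] {lam : ℝ}

theorem md_le_E {I : Type} [Fintype I] {ξ : I → Z → ℝ} {B d δ : ℝ} {k : ℕ} {H : I → Type}
    [∀ i, Fintype (H i)] (T : ∀ i, TH (ξ i) δ (net Z k) (H i) B (rr k) lam)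
    (h : ∀ (S : Set Z) (x y : Z), JoinedIn S x y → d ≤ dist x y → ∃ i, ∃ E ⊆ S, Crs (ξ i) E)
    (h0 : 0 < Md Z B d k) : ∃ i, Md Z B d k * (T i).E ≤ (Fintype.card I : ℝ) ^ 2 := by
  have hm : ∀ i v, 0 ≤ (T i).m v / (T i).E := fun i v =>
    div_nonneg ((T i).m_nonneg v) (T i).ht.E_pos.le
  have hg : Gauge B d (rr k) (fun v : net Z k => ∑ i, (T i).m v / (T i).E) := by
    refine ⟨fun v => Finset.sum_nonneg fun i _ => hm i v, fun S x y hj hd => ?_⟩
    obtain ⟨i, E, hE, hc⟩ := h S x y hj hd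
    have h1 := ((T i).crs_le hc).trans (wt_mono
      (W' := {v : net Z k | ∃ p ∈ S, dist p (v : Z) ≤ B * rr k}) (T i).m_nonneg fun v hv => by
        obtain ⟨p, hp, hp'⟩ := (T i).sb_near hv
        exact ⟨p, hE hp, hp'⟩)
    rw [← one_le_div (T i).ht.E_pos, wt, Finset.sum_div] at h1
    exact h1.trans (Finset.sum_le_sum fun v _ =>
      Finset.single_le_sum (fun j _ => hm j v) (Finset.mem_univ i))
  have h2 : Md Z B d k ≤ Fintype.card I * ∑ i, 1 / (T i).E := by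
    refine (md_le hg).trans ?_
    calc ∑ v, (∑ i, (T i).m v / (T i).E) ^ 2
        ≤ ∑ v, (Fintype.card I : ℝ) * ∑ i, ((T i).m v / (T i).E) ^ 2 :=
          Finset.sum_le_sum fun v _ => sq_sum_le_card_mul_sum_sq
      _ = _ := by
          rw [← Finset.mul_sum, Finset.sum_comm]
          congr 1
          refine Finset.sum_congr rfl fun i _ => ?_
          have := (T i).ht.E_pos
          simp only [div_pow]
          rw [← Finset.sum_div, (T i).area]
          field_simp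
  rcases isEmpty_or_nonempty I with hI | hI
  · simp only [Finset.univ_eq_empty, Finset.sum_empty, mul_zero] at h2
    exact absurd h0 h2.not_gt
  obtain ⟨i₀, -, hi₀⟩ := Finset.exists_max_image Finset.univ (fun i => 1 / (T i).E)
    Finset.univ_nonempty
  refine ⟨i₀, (le_div_iff₀ (T i₀).ht.E_pos).1 (h2.trans ?_)⟩
  calc (Fintype.card I : ℝ) * ∑ i, 1 / (T i).E
      ≤ Fintype.card I * (Fintype.card I * (1 / (T i₀).E)) := by
        gcongr
        simpa using Finset.sum_le_card_nsmul Finset.univ _ _ hi₀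
    _ = _ := by ring

theorem low_record {M : ℕ → ℝ} (h0 : ∀ k, 0 ≤ M k) (h : ¬ Tendsto M atTop (𝓝 0)) :
    ∃ K : ℝ, 1 ≤ K ∧ ∀ k₀, ∃ k, k₀ ≤ k ∧ ∀ j ≤ k, M j + 1 ≤ K * M k := by
  by_cases hb : ∃ b, ∀ k, M k ≤ b
  · obtain ⟨b, hb⟩ := hb
    rw [Metric.tendsto_atTop] at h
    push Not at h
    obtain ⟨m, hm, h⟩ := h
    have hb0 : 0 ≤ (b + 1) / m := div_nonneg (by linarith [h0 0, hb 0]) hm.le
    refine ⟨(b + 1) / m + 1, by linarith, fun k₀ => ?_⟩
    obtain ⟨k, hk, hk'⟩ := h k₀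
    rw [Real.dist_eq, sub_zero, abs_of_nonneg (h0 k)] at hk'
    refine ⟨k, hk, fun j _ => ?_⟩
    have h1 := mul_le_mul_of_nonneg_left hk' hb0
    rw [div_mul_cancel₀ _ hm.ne'] at h1
    linarith [hb j, h0 k]
  · refine ⟨2, one_le_two, fun k₀ => ?_⟩
    obtain ⟨k, hk, h1, h2⟩ := exists_record hb 1 k₀
    exact ⟨k, hk, fun j hj => by linarith [h2 j hj]⟩

theorem exists_ok {B d δ : ℝ} (hL : LL Z lam) (hB : 1 ≤ B) (hδ : 0 < δ) (hA : AtlasH Z d B δ)
    (hS : SSH Z B d) (h : ¬ Tendsto (Md Z B d) atTop (𝓝 0)) : ∃ K : ℝ, ∀ r₁ > 0,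
      ∃ (ξ : Z → ℝ) (P : Finset Z) (H : Type) (_ : Fintype H) (r : ℝ) (T : TH ξ δ P H B r lam),
        Good ξ B ∧ T.Ok K r₁ := by
  obtain ⟨I, _, ξ, hF, hX⟩ := hA
  obtain ⟨Cs, hCs, hS⟩ := hS
  obtain ⟨K, hK, hrec⟩ := low_record (md_nonneg B d) h
  refine ⟨Cs * (K * (Fintype.card I : ℝ) ^ 2), fun r₁ hr => ?_⟩
  choose r₀ hr₀ hG using fun i => (hF i).2
  obtain ⟨k₀, hk₀⟩ := eventually_atTop.1 (((low_small B hr).and (low_small Cs hr)).and
    (eventually_all.2 fun i => (low_small 1 (hr₀ i)).and (low_small (10 * lam ^ 2 * B) hδ)))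
  obtain ⟨k, hk, hrec⟩ := hrec k₀
  obtain ⟨⟨h1, h2⟩, h3⟩ := hk₀ k hk
  have hT : ∀ i, ∃ (H : Type) (_ : Fintype H), Nonempty (TH (ξ i) δ (net Z k) H B (rr k) lam) :=
    fun i => by
      obtain ⟨H, _, ⟨A⟩⟩ := hG i (rr k) (rr_pos k) (by linarith [(h3 i).1]) _ (net_isNet Z k)
      exact ⟨H, _, exists_th A (hF i).1 hL (net_isNet Z k) (rr_pos k) hB (by linarith [(h3 i).2])⟩
  choose H hH hT using hT
  have T := fun i => (hT i).some
  have h4 : 1 ≤ K * Md Z B d k := by linarith [hrec k le_rfl, md_nonneg (Z := Z) B d k]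
  have h0 : 0 < Md Z B d k := pos_of_mul_pos_right (zero_lt_one.trans_le h4) (zero_le_one.trans hK)
  obtain ⟨i, hi⟩ := md_le_E T hX h0
  have hE := (T i).ht.E_pos
  have h5 := mul_le_mul_of_nonneg_left hi (zero_le_one.trans hK)
  have h6 := mul_le_mul_of_nonneg_right h4 hE.le
  refine ⟨ξ i, net Z k, H i, hH i, rr k, T i, (hF i).2, ?_, ?_, h1⟩
  · refine (hS k (K * Md Z B d k - 1) (fun j hj => by linarith [hrec j hj]) (T i).G
      fun v w => (T i).adjG).mono ?_ h2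
    rw [le_div_iff₀ hE, sub_add_cancel, mul_assoc, mul_assoc]
    exact mul_le_mul_of_nonneg_left h5 (by linarith)
  · have h7 : (T i).E ≤ K * (Fintype.card I : ℝ) ^ 2 := by linarith
    nlinarith

end KCH
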