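import Pool.Agent.Lib.MP_e1e491_gt.CC.SS
import Pool.Agent.Lib.MP_e1e491_gt.CC.LLC
import Pool.Agent.Lib.MP_e1e491_gt.S1U
import Pool.Agent.Lib.MP_e1e491_gt.CdMain

/-! If the moduli tend to zero, the conformal dimension is less than two. -/

namespace KCH

open Set Metric KP2 KCC Filter Topology
open scoped Classical

variable {Z : Type} [MetricSpace Z] [CompactSpace Z]

theorem tst_gauge {A ε : ℝ} (hA : 1 ≤ A) (d : ℝ) (k : ℕ) (h : Md Z A d k < ε) :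
    ∃ ρ : net Z k → ℝ, Gauge A d (rr k) ρ ∧ ∑ v, ρ v ^ 2 ≤ ε := by
  obtain ⟨ρ₀, h₀, -⟩ := exists_gauge (Z := Z) hA d k
  obtain ⟨t, ⟨ρ, hρ, rfl⟩, ht⟩ := exists_lt_of_csInf_lt
    (s := {t | ∃ ρ : net Z k → ℝ, Gauge A d (rr k) ρ ∧ t = ∑ v, ρ v ^ 2}) ⟨_, ρ₀, h₀, rfl⟩ h
  exact ⟨ρ, hρ, ht.le⟩

/-- The cut distance from a set of net points. -/
theorem tst_cut {lam B B₁ d : ℝ} (hL : LL Z lam) (hB₁ : 0 < B₁) {j : ℕ}
    {ρ : net Z j → ℝ} (hρ : Gauge B d (rr j) ρ)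
    (hs : ∀ v : net Z j, wt ρ {ξ | dist (v : Z) ξ ≤ (lam * B₁ + B) * rr j} ≤ 1 / 2)
    (A : Set (net Z j)) : ∃ φ : net Z j → ℝ, (∀ v ∈ A, φ v = 0) ∧
      (∀ v : net Z j, (∀ a ∈ A, d ≤ dist (a : Z) v) → φ v = 1) ∧
      ∀ v w : net Z j, dist (v : Z) w ≤ B₁ * rr j →
        |φ v - φ w| ≤ 2 * wt ρ {ξ | dist (v : Z) ξ ≤ (lam * B₁ + B + B₁) * rr j} := by
  have hj := rr_pos j
  have hl := hL.one_le
  obtain ⟨Γ, hΓ⟩ : ∃ Γ : SimpleGraph (net Z j), ∀ v w, Γ.Adj v w ↔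
      v ≠ w ∧ dist (v : Z) w ≤ B₁ * rr j :=
    ⟨⟨fun v w => v ≠ w ∧ dist (v : Z) w ≤ B₁ * rr j,
      ⟨fun v w h => ⟨h.1.symm, by rw [dist_comm]; exact h.2⟩⟩, ⟨fun v h => h.1 rfl⟩⟩,
      fun _ _ => Iff.rfl⟩
  obtain ⟨ψ, b1, b2, b3, b4⟩ := exists_cdist Γ
    (W := fun v => wt ρ {ξ | dist (v : Z) ξ ≤ (lam * B₁ + B) * rr j})
    (fun v => wt_nonneg hρ.1 _) A zero_le_one
  refine ⟨fun v => min (2 * ψ v) 1, fun v hv => ?_, fun v hv => ?_, fun v w hvw => ?_⟩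
  · simp [b2 v hv]
  · refine min_eq_right ?_
    rcases b4 v with e | ⟨S, a, ha, hc, hS⟩
    · linarith
    · have hJ := hL.joined_of_con hc (fun v => (v : Z)) (s := B₁ * rr j) (by positivity)
        fun v _ w _ hvw => ((hΓ v w).1 hvw).2
      have h1 := (hρ.2 _ _ _ hJ (hv a ha)).trans ((wt_mono hρ.1 ?_).trans
        (ss_union (fun (v ξ : net Z j) => dist (v : Z) ξ ≤ (lam * B₁ + B) * rr j) hρ.1 S))
      · have h2 := hs v
        have h3 : 1 ≤ ψ v + wt ρ {ξ | dist (v : Z) ξ ≤ (lam * B₁ + B) * rr j} := h1.trans hS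
        linarith
      · rintro ξ ⟨p, ⟨v, hv, d1⟩, d2⟩
        refine ⟨v, hv, ?_⟩
        have d3 := dist_triangle_left (v : Z) ξ p
        linarith
  · have h0 := wt_nonneg hρ.1 {ξ : net Z j | dist (v : Z) ξ ≤ (lam * B₁ + B + B₁) * rr j}
    rcases eq_or_ne v w with rfl | hne
    · rw [sub_self, abs_zero]
      linarith
    have h1 := b3 v w ((hΓ v w).2 ⟨hne, hvw⟩)
    have h2 := b3 w v ((hΓ v w).2 ⟨hne, hvw⟩).symm
    have h3 : wt ρ {ξ : net Z j | dist (v : Z) ξ ≤ (lam * B₁ + B) * rr j} ≤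
        wt ρ {ξ | dist (v : Z) ξ ≤ (lam * B₁ + B + B₁) * rr j} := wt_mono hρ.1 fun ξ hξ => by
      have : dist (v : Z) ξ ≤ (lam * B₁ + B) * rr j := hξ
      have : 0 < B₁ * rr j := by positivity
      show dist (v : Z) ξ ≤ _
      linarith
    have h4 : wt ρ {ξ : net Z j | dist (w : Z) ξ ≤ (lam * B₁ + B) * rr j} ≤
        wt ρ {ξ | dist (v : Z) ξ ≤ (lam * B₁ + B + B₁) * rr j} := wt_mono hρ.1 fun ξ hξ => by
      have : dist (w : Z) ξ ≤ (lam * B₁ + B) * rr j := hξ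
      have := dist_triangle (v : Z) w ξ
      show dist (v : Z) ξ ≤ _
      linarith
    refine (abs_min_sub_min_le_max _ _ _ _).trans (max_le (abs_le.2 ⟨?_, ?_⟩) ?_)
    · linarith
    · linarith
    · rw [sub_self, abs_zero]
      linarith

/-- One test function for every ball. -/
theorem tst_fun {lam B C : ℝ} (hL : LL Z lam) (hD : KCC.Dbl Z) (hB : 1 ≤ B) (hC : 1 ≤ C)
    (h : Resc Z C) (hM : Tendsto (Md Z B (1 / C)) atTop (𝓝 0)) {ε : ℝ} (hε : 0 < ε) :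
    ∃ s : ℝ, 0 < s ∧ s ≤ 1 / 16 ∧ ∀ (x : Z) (R : ℝ), 0 < R → R ≤ 1 → ∃ F : Z → ℝ,
      (∀ p, dist x p ≤ R → F p = 0) ∧ (∀ p, 3 * R ≤ dist x p → F p = 1) ∧
      ∀ (P : Finset Z) (y : Z → Z), Sepd (R * s) P → (∀ z ∈ P, dist (y z) z < 12 * (R * s)) →
        ∑ z ∈ P, (F z - F (y z)) ^ 2 ≤ ε := by
  have hl := hL.one_le
  obtain ⟨B₁, hB₁⟩ : ∃ B₁, B₁ = 12 * C + 2 := ⟨_, rfl⟩
  have hB₁0 : 0 < B₁ := by rw [hB₁]; positivity
  obtain ⟨T, hT⟩ : ∃ T, T = lam * B₁ + B + B₁ + 1 := ⟨_, rfl⟩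
  have hT0 : 0 < T := by rw [hT]; positivity
  obtain ⟨N₁, h₁⟩ := hD.card_le T
  obtain ⟨N₂, h₂⟩ := hD.card_le (2 * C * T)
  obtain ⟨ε', hε', e1, e2⟩ : ∃ ε' : ℝ, 0 < ε' ∧ N₁ * ε' ≤ 1 / 4 ∧ 4 * (N₂ * N₁ * ε') ≤ ε := by
    refine ⟨min (1 / (4 * (N₁ + 1))) (ε / (4 * (N₂ * N₁ + 1))), by positivity, ?_, ?_⟩
    · have := (le_div_iff₀ (by positivity)).1
        (min_le_left (1 / (4 * (N₁ + 1 : ℝ))) (ε / (4 * (N₂ * N₁ + 1))))
      have : 0 < min (1 / (4 * (N₁ + 1 : ℝ))) (ε / (4 * (N₂ * N₁ + 1))) := by positivity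
      linarith
    · have := (le_div_iff₀ (by positivity)).1
        (min_le_right (1 / (4 * (N₁ + 1 : ℝ))) (ε / (4 * (N₂ * N₁ + 1))))
      have : 0 < min (1 / (4 * (N₁ + 1 : ℝ))) (ε / (4 * (N₂ * N₁ + 1))) := by positivity
      linarith
  have hlim : Tendsto rr atTop (𝓝 0) :=
    tendsto_pow_atTop_nhds_zero_of_lt_one (by norm_num) (by norm_num)
  obtain ⟨j, j1, j2⟩ := ((hM.eventually_lt_const hε').and
    (hlim.eventually_lt_const (show 0 < 1 / (16 * C) by positivity))).exists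
  have hj := rr_pos j
  have j3 : rr j * (16 * C) < 1 := (lt_div_iff₀ (by positivity)).1 j2
  have j4 : rr j ≤ 1 / 16 := by nlinarith
  obtain ⟨ρ, hρ, hs⟩ := tst_gauge hB (1 / C) j j1
  have hcard : ∀ ξ : Z, (Finset.univ.filter fun v : net Z j => dist ξ v ≤ T * rr j).card ≤ N₁ :=
    fun ξ => h₁ _ ξ _ hj (net_isNet Z j).1
  have hhalf : ∀ v : net Z j, wt ρ {ξ | dist (v : Z) ξ ≤ (lam * B₁ + B) * rr j} ≤ 1 / 2 := by
    intro v
    have a1 := schur (fun (_ : Unit) (ξ : net Z j) => dist (v : Z) ξ ≤ T * rr j) (N₂ := 1)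
      (fun _ => hcard v) (fun _ => (Finset.card_filter_le _ _).trans (by simp)) ρ
    rw [Fintype.sum_unique, Nat.cast_one, mul_one] at a1
    have a2 := a1.trans ((mul_le_mul_of_nonneg_left hs (Nat.cast_nonneg _)).trans e1)
    refine le_trans (wt_mono hρ.1 fun ξ hξ => ?_) (le_of_sq_le_sq (a2.trans_eq (by norm_num))
      (by norm_num))
    have : dist (v : Z) ξ ≤ (lam * B₁ + B) * rr j := hξ
    have : 0 < B₁ * rr j := by positivity
    show dist (v : Z) ξ ≤ _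
    rw [hT]
    linarith
  choose π hπ using fun x => (net_isNet Z j).2 x
  refine ⟨rr j, hj, j4, fun x R hR hR1 => ?_⟩
  obtain ⟨ψ, hψ⟩ := h x R hR hR1
  obtain ⟨n, hn⟩ : ∃ n : Z → net Z j, ∀ p, dist (n p : Z) (ψ p) < rr j :=
    ⟨fun p => ⟨π (ψ p), (hπ _).1⟩, fun p => (hπ _).2⟩
  obtain ⟨φ, f0, f1, f2⟩ := tst_cut hL hB₁0 hρ hhalf (n '' {p | dist x p ≤ R})
  have hRs : 12 * (R * rr j) ≤ 3 / 4 * R := by nlinarith
  obtain ⟨F, hF, hF1⟩ : ∃ F : Z → ℝ, (∀ p, dist x p ≤ 3 * R → F p = φ (n p)) ∧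
      ∀ p, 9 / 4 * R ≤ dist x p → F p = 1 := by
    refine ⟨fun p => if dist x p ≤ 3 * R then φ (n p) else 1, fun p hp => if_pos hp, fun p hp => ?_⟩
    by_cases hp3 : dist x p ≤ 3 * R
    · refine (if_pos hp3).trans (f1 _ ?_)
      rintro _ ⟨a, ha, rfl⟩
      have ha' : dist x a ≤ R := ha
      have a1 := (hψ a p (by linarith) hp3).2
      have a2 := dist_triangle x a p
      have a3 := dist_triangle4 (ψ a) (n a) (n p) (ψ p)
      have a4 := hn a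
      have a5 := hn p
      rw [dist_comm] at a4
      rw [div_le_iff₀ (by linarith)]
      have a6 : 5 / 4 ≤ C * dist (ψ a) (ψ p) := le_of_mul_le_mul_left (by linarith) hR
      have a7 : C * dist (ψ a) (ψ p) ≤ C * (2 * rr j + dist (n a : Z) (n p)) :=
        mul_le_mul_of_nonneg_left (by linarith) (by linarith)
      linarith
    · exact if_neg hp3
  refine ⟨F, fun p hp => (hF p (by linarith)).trans (f0 _ ⟨p, hp, rfl⟩),
    fun p hp => hF1 p (by linarith), fun P y hP hy => ?_⟩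
  obtain ⟨Q, hQ⟩ : ∃ Q : P → net Z j → Prop, ∀ z ξ, Q z ξ ↔
    dist x z ≤ 3 * R ∧ dist (ψ z) ξ ≤ T * rr j := ⟨_, fun _ _ => Iff.rfl⟩
  have k1 : ∀ z : P, (F z - F (y z)) ^ 2 ≤ 4 * wt ρ {ξ | Q z ξ} ^ 2 := by
    intro z
    have a1 := hy z z.2
    by_cases hz : 9 / 4 * R ≤ dist x z ∧ 9 / 4 * R ≤ dist x (y z)
    · rw [hF1 _ hz.1, hF1 _ hz.2, sub_self, zero_pow two_ne_zero]
      positivity
    have a2 := dist_triangle x (y z) z
    have a3 := dist_triangle_right x (y z) z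
    have a4 : dist x z ≤ 3 * R ∧ dist x (y z) ≤ 3 * R := by
      rcases not_and_or.1 hz with a | a <;> constructor <;> linarith [not_le.1 a]
    have a5 := (hψ (y z) z a4.2 a4.1).1
    have a6 : dist (ψ (y z)) (ψ z) ≤ 12 * C * rr j := by
      refine le_of_mul_le_mul_left (a5.trans ?_) hR
      calc C * dist (y z) z ≤ C * (12 * (R * rr j)) :=
            mul_le_mul_of_nonneg_left a1.le (by linarith)
        _ = _ := by ring
    have a7 := dist_triangle4 (n z : Z) (ψ z) (ψ (y z)) (n (y z))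
    have a8 := hn z
    have a9 := hn (y z)
    rw [dist_comm] at a6 a9
    have b1 := f2 (n z) (n (y z)) (by rw [hB₁]; linarith)
    have b2 : wt ρ {ξ | dist (n z : Z) ξ ≤ (lam * B₁ + B + B₁) * rr j} ≤ wt ρ {ξ | Q z ξ} :=
      wt_mono hρ.1 fun ξ hξ => (hQ z ξ).2 ⟨a4.1, by
        have : dist (n z : Z) ξ ≤ (lam * B₁ + B + B₁) * rr j := hξ
        have := dist_triangle_left (ψ z) ξ (n z)
        rw [hT]
        linarith⟩
    rw [hF _ a4.1, hF _ a4.2]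
    have b3 : |φ (n z) - φ (n (y z))| ≤ 2 * wt ρ {ξ | Q z ξ} := by linarith
    exact (sq_le_sq' (abs_le.1 b3).1 (abs_le.1 b3).2).trans_eq (by ring)
  have k2 := schur Q (N₁ := N₁) (N₂ := N₂) (fun z => ?_) (fun ξ => ?_) ρ
  · rw [← Finset.sum_coe_sort P]
    refine (Finset.sum_le_sum fun z _ => k1 z).trans ?_
    rw [← Finset.mul_sum]
    have : (N₁ : ℝ) * N₂ * ∑ v, ρ v ^ 2 ≤ N₁ * N₂ * ε' :=
      mul_le_mul_of_nonneg_left hs (by positivity)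
    linarith
  · refine le_trans (Finset.card_le_card fun ξ hξ => ?_) (hcard (ψ z))
    exact Finset.mem_filter.2 ⟨Finset.mem_univ _, ((hQ z ξ).1 (Finset.mem_filter.1 hξ).2).2⟩
  · by_cases hne : ∃ w, Q w ξ
    · obtain ⟨w, hw⟩ := hne
      refine le_trans (Finset.card_le_card fun v hv => ?_) (h₂ _ w _ (mul_pos hR hj) hP)
      have hv' := (hQ v ξ).1 (Finset.mem_filter.1 hv).2
      rw [hQ] at hw
      refine Finset.mem_filter.2 ⟨Finset.mem_univ _, ?_⟩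
      have d1 : dist (ψ w) (ψ v) ≤ 2 * T * rr j := by
        linarith [dist_triangle_right (ψ w) (ψ v) ξ, hw.2, hv'.2]
      calc dist (w : Z) v ≤ _ := (hψ w v hw.1 hv'.1).2
        _ ≤ C * (R * (2 * T * rr j)) := by gcongr
        _ = _ := by ring
    · rw [Finset.filter_eq_empty_iff.2 fun v _ hv => hne ⟨v, hv⟩]
      exact Nat.zero_le _

theorem tst_dist_sq {M : ℕ} (v w : Fin M → ℝ) : dist v w ^ 2 ≤ ∑ j, (v j - w j) ^ 2 := by
  have h0 : 0 ≤ ∑ j, (v j - w j) ^ 2 := Finset.sum_nonneg fun _ _ => sq_nonneg _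
  have h1 : dist v w ≤ √(∑ j, (v j - w j) ^ 2) := by
    refine (dist_pi_le_iff (Real.sqrt_nonneg _)).2 fun j => ?_
    rw [Real.dist_eq]
    exact Real.abs_le_sqrt (Finset.single_le_sum (f := fun j => (v j - w j) ^ 2)
      (fun _ _ => sq_nonneg _) (Finset.mem_univ j))
  exact (pow_le_pow_left₀ dist_nonneg h1 2).trans_eq (Real.sq_sqrt h0)

theorem tst_of_md {lam B C R : ℝ} (hL : LL Z lam) (hD : KCC.Dbl Z) (hB : 1 ≤ B) (hC : 1 ≤ C)
    (h : Resc Z C) (hM : Tendsto (Md Z B (1 / C)) atTop (𝓝 0)) (hR : 1 ≤ R) :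
    ∃ M : ℕ, ∀ ε : ℝ, 0 < ε → ∃ t : ℝ, 0 < t ∧ t ≤ 1 / 12 ∧ ∀ (i : ℕ) (c : Z),
      ∃ Φ : Z → Fin M → ℝ, Pool.Agent.Lib.MP_e1e491_gt.Tst Φ c (R * t ^ i) (R * t ^ (i + 1)) ε := by
  have hR0 : 0 < R := by linarith
  obtain ⟨N, hN⟩ := hD.cover (12 * R)
  refine ⟨N, fun ε hε => ?_⟩
  obtain ⟨s, s0, s1, hs⟩ := tst_fun hL hD hB hC h hM (ε := ε / (N + 1)) (by positivity)
  have t0 : 0 < s / (4 * R) := by positivity
  have t1 : s / (4 * R) ≤ 1 / 12 := by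
    rw [div_le_iff₀ (by positivity)]
    linarith
  refine ⟨s / (4 * R), t0, t1, fun i c => ?_⟩
  obtain ⟨τ, hτ⟩ : ∃ τ, τ = (s / (4 * R)) ^ i := ⟨_, rfl⟩
  have τ0 : 0 < τ := by rw [hτ]; positivity
  have τ1 : τ ≤ 1 := by rw [hτ]; exact pow_le_one₀ t0.le (by linarith)
  have e : R * (s / (4 * R)) ^ (i + 1) = τ / 4 * s := by rw [pow_succ, ← hτ]; field_simp
  rw [e, ← hτ]
  obtain ⟨Q, q1, -, q3⟩ := hN (τ / 4) c (closedBall c (3 * (R * τ))) (by positivity)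
    (closedBall_subset_closedBall (le_of_eq (by ring)))
  obtain ⟨ι⟩ : Nonempty (Q ↪ Fin N) := Function.Embedding.nonempty_of_card_le (by simpa using q1)
  choose F F0 F1 F2 using fun x => hs x (τ / 4) (by positivity) (by linarith)
  refine ⟨fun x m => F (Function.extend ι Subtype.val (fun _ => c) m) x,
    fun x y hx _ hxy => ?_, fun P y hP _ hy => ?_⟩
  · obtain ⟨w, hw, hxw⟩ := q3 x (mem_closedBall.2 hx.le)
    refine le_trans ?_ (dist_le_pi_dist _ _ (ι ⟨w, hw⟩))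
    have a1 := dist_triangle x w y
    have a2 : τ ≤ R * τ := le_mul_of_one_le_left τ0.le hR
    beta_reduce
    rw [ι.injective.extend_apply, F0 w x (by rwa [dist_comm]), F1 w y (by linarith)]
    simp
  · refine (Finset.sum_le_sum fun z _ => tst_dist_sq _ _).trans ?_
    rw [Finset.sum_comm]
    refine (Finset.sum_le_sum fun m _ => F2 _ P y hP hy).trans ?_
    rw [Finset.sum_const, Finset.card_univ, Fintype.card_fin, nsmul_eq_mul, mul_div_assoc',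
      div_le_iff₀ (by positivity)]
    nlinarith

theorem metric_of_md {G Z : Type} [Group G] [MetricSpace Z] [CompactSpace Z] [MulAction G Z]
    (H : KKC.HB G Z) {lam B C : ℝ} (hL : KCC.LL Z lam) (hB : 1 ≤ B) (hC : 1 ≤ C)
    (h : KCC.Resc Z C) (hM : Tendsto (KCC.Md Z B (1 / C)) atTop (𝓝 0)) :
    ∃ (Y : Type) (_ : MetricSpace Y) (f : Z ≃ₜ Y) (C α β p : ℝ), 0 < C ∧ 0 < α ∧ 0 < β ∧
      0 < p ∧ p < 2 ∧ Pool.Agent.Lib.MP_e1e491_gt.Pack Y C p ∧ (∀ x y : Y, dist x y ≤ 1) ∧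
      dimH (Set.univ : Set Y) ≤ ENNReal.ofReal p ∧ ∀ x y z : Z, z ≠ x → dist (f x) (f y) ≤
        C * ((dist x y / dist x z) ^ α + (dist x y / dist x z) ^ β) * dist (f x) (f z) := by
  obtain ⟨C₀, Q, hd⟩ := H.exists_dbl
  obtain ⟨M, hM⟩ := tst_of_md hL (dbl_of_hb H) hB hC h hM H.hC
  exact Pool.Agent.Lib.MP_e1e491_gt.exists_metric hd (zero_lt_one.trans_le H.hC) H.s1_diam hM

end KCH
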