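import Pool.Agent.Lib.MP_e1e491_gt.CH.HGC
import Pool.Agent.Lib.MP_e1e491_gt.CH.Atl
import Pool.Agent.Lib.MP_e1e491_gt.CH.FanC
import Pool.Agent.Lib.MP_e1e491_gt.CH.Low
import Pool.Agent.Lib.MP_e1e491_gt.CH.Count
import Pool.Agent.Lib.MP_e1e491_gt.CH.Tst
import Pool.Agent.Lib.MP_e1e491_gt.FnMain

/-! The modulus of a planar boundary with a hole tends to zero. -/

namespace KCH

open Set Metric KP2 KCC MeasureTheory Filter Topology
open scoped Classical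

variable {G Z : Type} [Group G] [MetricSpace Z] [CompactSpace Z] [MulAction G Z] {lam : ℝ}

theorem md_small [Nontrivial Z] (H : KKC.HB G Z) (hL : LL Z lam) {ι : Z → Pl} (hc : Continuous ι)
    (hi : Function.Injective ι) {C : ℝ} (hC : 1 ≤ C) (hr : Resc Z C) :
    ∃ B : ℝ, 1 ≤ B ∧ Tendsto (Md Z B (1 / C)) atTop (𝓝 0) := by
  have hD := dbl_of_hb H
  obtain ⟨B, hB, hg⟩ := exists_hg hL hD
  obtain ⟨δ, hδ, hA⟩ := exists_atlasH hc hi (d := 1 / C) (by positivity) hg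
  refine ⟨B, hB, ?_⟩
  by_contra hn
  obtain ⟨K, hK⟩ := exists_ok hL hB hδ hA (ssh_of_resc hL hD hB hC hr) hn
  obtain ⟨ξ, P₀, H₀, _, r₀, T, hG, -⟩ := hK 1 one_pos
  obtain ⟨c₀, hc₀, hW⟩ := nw_of_hb H (d := δ / 10) (by positivity) fun η hη => by
    obtain ⟨α, α', h1, h2, h3, h4, h5⟩ := exists_nf_pair hL T.fr hB hG hη
    exact ⟨α, α', h1, h2, h3, h4, fun p hp q hq => by linarith [h5 p hp q hq]⟩
  have hkn := kn_of_ll hL hD
  obtain ⟨c, hc', hf⟩ := fans_of_ok H hL hD hkn hc₀ hW hδ B K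
  obtain ⟨η, hη, N, hno⟩ := KFan.no_fanH H (NF := NF) (M := lam)
    ⟨hL.one_le, fun x r hr => hL.exists_D x hr⟩
    ⟨fun _ _ h => h.pc, fun f _ _ _ h0 h1 h => h.image f h0 h1, hkn⟩ (R := δ / 10) (4 * K)
    (by positivity) hc'
  obtain ⟨r₁, hr₁, h1⟩ := hf η hη N
  obtain ⟨ξ', P, H', _, r, T', -, hT⟩ := hK r₁ hr₁
  obtain ⟨z₀, F, hF⟩ := h1 ξ' P H' r T' hT
  exact (hno z₀ F).not_ge hF

theorem planar_metric [Nontrivial Z] (H : KKC.HB G Z) (hL : LL Z lam) {ι : Z → Pl}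
    (hc : Continuous ι) (hi : Function.Injective ι) :
    ∃ (Y : Type) (_ : MetricSpace Y) (f : Z ≃ₜ Y) (C α β p : ℝ), 0 < C ∧ 0 < α ∧ 0 < β ∧
      0 < p ∧ p < 2 ∧ Pool.Agent.Lib.MP_e1e491_gt.Pack Y C p ∧ (∀ x y : Y, dist x y ≤ 1) ∧
      dimH (Set.univ : Set Y) ≤ ENNReal.ofReal p ∧ ∀ x y z : Z, z ≠ x → dist (f x) (f y) ≤
        C * ((dist x y / dist x z) ^ α + (dist x y / dist x z) ^ β) * dist (f x) (f z) := by
  obtain ⟨C, hC, hr⟩ := resc_of_hb H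
  obtain ⟨B, hB, h⟩ := md_small H hL hc hi hC hr
  exact metric_of_md H hL hB hC hr h

end KCH
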