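import Pool.Agent.Lib.MP_e1e491_gt.CH.TA
import Pool.Agent.Lib.MP_e1e491_gt.CH.Flat

/-! Two long nearly flat sets. -/

namespace KCH

open Set Metric KP2 KCC MeasureTheory Filter Topology
open scoped Classical

variable {Z : Type} [MetricSpace Z] {ξ : Z → ℝ} {δ B lam : ℝ}

/-- The blobs next to the bottom holes cross. -/
theorem HG.cr_bottom {P : Finset Z} {H : Type} {s : ℝ} (A : HG ξ P H s) (h : ∃ E, Crs ξ E) :
    ∃ a b : P, Sd ξ false a ∧ Sd ξ true b ∧ Con A.G {v | ∃ h : H, A.Γ.Adj (bl v) (ho h) ∧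
      A.Γ.Adj (ho h) (.inr (true, false))} a b := by
  obtain ⟨E, hE⟩ := h
  set S : Set P := {v | ∃ h : H, A.Γ.Adj (bl v) (ho h) ∧ A.Γ.Adj (ho h) (.inr (true, false))}
  have h1 : ¬ Cr A.F A.sd true (Sum.inl '' S)ᶜ := by
    rintro ⟨a, ha, b, hb, hc⟩
    obtain a | a := a
    · exact A.notT a false ha
    by_cases hab : b = .inr a
    · subst hab
      obtain ⟨_, ⟨v, -, rfl⟩, h2⟩ :=
        A.hc.meet (A.cr_of_crs hE) (W' := {Sum.inr a}) ⟨_, ha, _, hb, .refl rfl⟩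
      cases h2
    obtain ⟨w, hw, h2, h3 | ⟨u, h3, h4⟩⟩ := hc.exists_first (P := fun y => y ≠ .inr a) hab
    · exact h2 h3
    obtain rfl : u = .inr a := not_not.1 h4.right_mem.2
    obtain w | w := w
    · exact hw ⟨w, ⟨a, h3.symm, ha⟩, rfl⟩
    · exact A.hh a w h3
  obtain ⟨a, b, ha, hb, hc⟩ := A.of_cr ((A.hc _).2 h1) (by rintro h ⟨v, -, ⟨⟩⟩)
  refine ⟨a, b, A.adjz a _ ha, A.adjz b _ hb, hc.mono ?_⟩
  rintro x ⟨v, hv, ⟨⟩⟩
  exact hv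

/-- The initial piece of a long walk along a flat set. -/
theorem nwa_cut {P : Finset Z} {H : Type} {s d : ℝ} (A : HG ξ P H s) (hL : LL Z lam)
    (hs : 0 < s) (hd : 0 ≤ d) {S : Set P} {F : Set Z} (hF : Flat F)
    (hp : ∀ v ∈ S, ∃ p ∈ F, dist (v : Z) p ≤ s) {a b : P} (hc : Con A.G S a b)
    (hab : d ≤ dist (a : Z) b) : ∃ α : Set Z, NF (2 * lam * s) α ∧
      (∃ p ∈ α, ∃ q ∈ α, d ≤ dist p q) ∧ ∀ x ∈ α, dist x a ≤ lam * s + s + d := by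
  obtain ⟨w, h1, h2⟩ : ∃ w : P, d ≤ dist (a : Z) w ∧
      Con A.G (S ∩ {v | dist (a : Z) v ≤ d + s}) a w := by
    obtain ⟨w, hw, h1, rfl | ⟨u, h2, h3⟩⟩ :=
      hc.exists_first (P := fun v : P => d ≤ dist (a : Z) v) hab
    · exact ⟨w, h1, .refl ⟨hw, (dist_self _).le.trans (by positivity)⟩⟩
    have h4 : ∀ v : P, ¬ d ≤ dist (a : Z) v → dist (a : Z) v ≤ d + s :=
      fun v hv => by linarith [not_le.1 hv]
    refine ⟨w, h1, .trans (h3.mono fun v hv => ⟨hv.1, h4 v hv.2⟩)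
      (.of_adj h2 ⟨h3.right_mem.1, h4 u h3.right_mem.2⟩ ⟨hw, (dist_triangle _ (u : Z) _).trans
        (add_le_add (not_le.1 h3.right_mem.2).le (A.adjG h2))⟩)⟩
  obtain ⟨α, a1, a2, a3, a4⟩ := nf_of_con hL h2 Subtype.val hs (fun v _ w _ h => A.adjG h) hF
    fun v hv => (hp v hv.1).imp fun p h => ⟨h.1, dist_comm p v ▸ h.2⟩
  refine ⟨α, a1, ⟨_, a2, _, a3, h1⟩, fun x hx => ?_⟩
  obtain ⟨v, hv, h3⟩ := a4 x hx
  linarith [dist_triangle_right x a v, mem_ofPred.1 hv.2]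

theorem exists_nf_pair [CompactSpace Z] (hL : LL Z lam) (hF : Fr ξ δ) (hB : 1 ≤ B)
    (hG : Good ξ B) {η : ℝ} (hη : 0 < η) : ∃ α α' : Set Z, NF η α ∧ NF η α' ∧
      (∃ p ∈ α, ∃ q ∈ α, δ / 10 ≤ dist p q) ∧ (∃ p ∈ α', ∃ q ∈ α', δ / 10 ≤ dist p q) ∧
      ∀ p ∈ α, ∀ q ∈ α', δ / 2 ≤ dist p q := by
  obtain ⟨r₀, hr₀, hG⟩ := hG
  have hl := hL.one_le
  have hδ := hF.δ_pos
  obtain ⟨r, hr, r1, r2, r3⟩ : ∃ r, 0 < r ∧ r ≤ r₀ ∧ r ≤ η / 2 / (lam * B) ∧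
      r ≤ δ / 20 / (lam * B) :=
    ⟨min r₀ (min _ _), by positivity, min_le_left _ _,
      (min_le_right _ _).trans (min_le_left _ _), (min_le_right _ _).trans (min_le_right _ _)⟩
  rw [le_div_iff₀ (by positivity)] at r2 r3
  obtain ⟨P, -, hP⟩ := exists_net (univ : Set Z) hr
  obtain ⟨H, -, ⟨A⟩⟩ := hG r hr r1 P ⟨hP.1, fun x => hP.2 x trivial⟩
  obtain ⟨a, b, ha, hb, hc⟩ := A.cr_bottom hF.cross
  obtain ⟨F, f1, f2⟩ := A.flatB
  have hab := hF.far ha hb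
  have hs : 0 < B * r := by positivity
  have hs' : B * r ≤ lam * (B * r) := le_mul_of_one_le_left hs.le hl
  have f3 : ∀ v ∈ {v | ∃ h : H, A.Γ.Adj (bl v) (ho h) ∧ A.Γ.Adj (ho h) (.inr (true, false))},
      ∃ p ∈ F, dist (v : Z) p ≤ B * r := fun v ⟨h, hv⟩ => f2 v h hv.1 hv.2
  obtain ⟨α, a1, a2, a3⟩ :=
    nwa_cut (d := δ / 10) A hL hs (by positivity) f1 f3 hc (by linarith)
  obtain ⟨α', b1, b2, b3⟩ :=
    nwa_cut (d := δ / 10) A hL hs (by positivity) f1 f3 hc.symm (by rw [dist_comm]; linarith)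
  refine ⟨α, α', a1.mono (by linarith), b1.mono (by linarith), a2, b2, fun p hp q hq => ?_⟩
  linarith [a3 p hp, b3 q hq, dist_triangle4_left p q a b]

end KCH
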