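import Pool.Agent.Lib.MP_e1e491_gt.CH.NcD

/-! Lines and levels of a half tiling. -/

namespace KCH

open Set Metric KP2 KCC MeasureTheory Filter Topology
open scoped Classical

variable {Z : Type} [MetricSpace Z] {ξ : Z → ℝ} {δ : ℝ} {P : Finset Z} {H : Type} [Fintype H]
  {B r lam L : ℝ} {T : TH ξ δ P H B r lam} {Q : Pr Z L}

theorem nca_comap {V V' : Type} {G : SimpleGraph V'} {f : V → V'} (hf : Function.Injective f)
    {W : Set V'} (hW : W ⊆ range f) {a b : V} (h : Con G W (f a) (f b)) :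
    Con (G.comap f) (f ⁻¹' W) a b := by
  obtain ⟨c, hc, h1⟩ := h.induction (P := fun x => ∃ c, f c = x ∧ Con (G.comap f) (f ⁻¹' W) a c)
    ⟨a, rfl, KP2.Con.refl h.left_mem⟩ (by
      rintro _ hv w hw hvw ⟨c, rfl, hc⟩
      obtain ⟨d, rfl⟩ := hW hw
      exact ⟨d, rfl, hc.trans (Con.of_adj hvw hv hw)⟩)
  exact hf hc ▸ h1

theorem nca_sub_le {V : Type} [Fintype V] {G : SimpleGraph V} {W : Set V} {a b : V} {ψ m : V → ℝ}
    (h : Con G W a b) (hm : ∀ v, 0 ≤ m v) (hψ : ∀ v w, G.Adj v w → ψ v ≤ ψ w + m w) :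
    ψ a - ψ b ≤ wt m W := by
  obtain ⟨q, hq⟩ := h
  have key : ∀ {x y : V} (p : G.Walk x y), ψ x - ψ y ≤ (p.support.tail.map m).sum := by
    intro x y p
    induction p with
    | nil => simp
    | @cons u v w huv p ih =>
      rw [SimpleGraph.Walk.support_cons, List.tail_cons, ← p.cons_tail_support, List.map_cons,
        List.sum_cons]
      linarith [hψ u v huv]
  refine (key q.bypass).trans ?_
  rw [← List.sum_toFinset m q.bypass_isPath.support_nodup.tail]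
  refine Finset.sum_le_sum_of_subset_of_nonneg (fun v hv => ?_) fun v _ _ => hm v
  rw [Finset.mem_filter]
  exact ⟨Finset.mem_univ v,
    hq v (q.support_bypass_subset_support (List.mem_of_mem_tail (List.mem_toFinset.1 hv)))⟩

namespace TH

theorem nc_b_pos (T : TH ξ δ P H B r lam) : 0 < B * r := by
  exact mul_pos (one_pos.trans_le T.B_ge) T.r_pos

theorem nc_u_mem (T : TH ξ δ P H B r lam) (x : Z) : T.u x ∈ Icc (0 : ℝ) 1 := by
  unfold u
  rcases T.β x with v | z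
  · exact ⟨T.ht.y_nonneg v, (le_add_of_nonneg_right (T.ht.n_nonneg v)).trans (T.ht.le_one v)⟩
  · exact ⟨le_rfl, zero_le_one⟩

theorem nc_adj {v w : P} (h : T.G.Adj v w) : dist (v : Z) w ≤ B * r := by
  exact T.adj v w h

theorem nc_sum (T : TH ξ δ P H B r lam) : ∑ v, T.m v ^ 2 ≤ T.E := by
  rw [← T.ht.area, Fintype.sum_sum_type]
  exact le_add_of_nonneg_right (Finset.sum_nonneg fun _ _ => sq_nonneg _)

theorem nca_blob (T : TH ξ δ P H B r lam) (t : ℝ) : Vl T.n T.y t ⊆ range Sum.inl := by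
  rintro (v | h) hv
  · exact ⟨v, rfl⟩
  · have h1 := T.ht.n_hole (.inr h) ⟨h, rfl⟩
    have h2 : T.y (.inr h) < t := hv.1
    have h3 : t < T.y (.inr h) + T.n (.inr h) := hv.2
    linarith

theorem nc_cn {t : ℝ} (h : T.Ln t) : Cn T.G (T.V t) := by
  exact fun a ha b hb =>
    nca_comap Sum.inl_injective (T.nca_blob t) (h.2.2.1 (.inl a) ha (.inl b) hb)

theorem nc_long {t : ℝ} (h : T.Ln t) (x : Z) : ∃ v ∈ T.V t, δ < dist x v := by
  obtain ⟨a, ha, b, hb, hc⟩ := h.2.2.2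
  obtain ⟨v, rfl⟩ := T.nca_blob t hc.left_mem
  obtain ⟨w, rfl⟩ := T.nca_blob t hc.right_mem
  have h1 : ξ v ≤ 42 / 100 := T.adjz v false ha
  have h2 : 58 / 100 ≤ ξ w := T.adjz w true hb
  by_contra hn
  push Not at hn
  have h3 := abs_le.1 (T.fr.lip x v (hn v hc.left_mem))
  have h4 := abs_le.1 (T.fr.lip x w (hn w hc.right_mem))
  linarith [h3.2, h4.1]

theorem nc_cl_conn {t : ℝ} (h : T.Ln t) : IsPreconnected (T.cl t) := by
  refine isPreconnected_of_forall_pair fun x hx y hy => ?_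
  obtain ⟨v, hv, hx⟩ := mem_iUnion₂.1 hx
  obtain ⟨w, hw, hy⟩ := mem_iUnion₂.1 hy
  obtain ⟨s, h1, h2, h3, h4⟩ := (nc_cn h v hv w hw).induction
    (P := fun w : P => ∃ s, s ⊆ T.cl t ∧ IsPreconnected s ∧ T.D v ⊆ s ∧ T.D w ⊆ s)
    ⟨T.D v, subset_biUnion_of_mem (u := fun v : P => T.D v) hv, T.D_conn _, subset_rfl, subset_rfl⟩
    (by
      rintro a - b hb hab ⟨s, h1, h2, h3, h4⟩
      refine ⟨s ∪ T.D b, union_subset h1 (subset_biUnion_of_mem (u := fun v : P => T.D v) hb),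
        IsPreconnected.union (b : Z) (h4 (T.D_sup _ ?_))
          (T.D_sup _ (mem_closedBall_self T.nc_b_pos.le)) h2 (T.D_conn _),
        h3.trans subset_union_left, subset_union_right⟩
      exact nc_adj hab.symm)
  exact ⟨s, h1, h3 hx, h4 hy, h2⟩

theorem nc_mem_cl {t : ℝ} {v : P} (h : v ∈ T.V t) : (v : Z) ∈ T.cl t := by
  exact mem_iUnion₂.2 ⟨v, h, T.D_sup _ (mem_closedBall_self T.nc_b_pos.le)⟩

theorem nc_cl_near {t : ℝ} {x : Z} (h : x ∈ T.cl t) : ∃ v ∈ T.V t, dist x v ≤ lam * (B * r) := by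
  obtain ⟨v, hv, hx⟩ := mem_iUnion₂.1 h
  exact ⟨v, hv, T.D_sub _ hx⟩

theorem nca_S {x : Z} (hx : x ∈ St ξ 7) {y : Vx P H} (hy : y ∈ T.S x) :
    ∃ v : P, y = bl v ∧ dist x v ≤ B * r := by
  rcases T.S_sub x y hy with h | ⟨b, -, h⟩
  · exact h
  · have h1 := abs_lt.1 (show |ξ x - 1 / 2| < 7 / 100 from hx)
    cases b
    · have h2 : ξ x ≤ 42 / 100 := h
      linarith [h1.1]
    · have h2 : 58 / 100 ≤ ξ x := h
      linarith [h1.2]

theorem nca_con {E : Set Z} (hE : E ⊆ St ξ 7) (hc : IsPreconnected E) {p q : Z} (hp : p ∈ E)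
    (hq : q ∈ E) : ∃ a b : P, T.u p = T.Y a ∧ T.u q = T.Y b ∧
      Con T.G {v | ∃ x ∈ E, dist x v ≤ B * r} a b := by
  obtain ⟨a, ha, -⟩ := nca_S (hE hp) (T.β_mem p)
  obtain ⟨b, hb, -⟩ := nca_S (hE hq) (T.β_mem q)
  have h1 := T.S_cn E hc _ ⟨p, hp, T.β_mem p⟩ _ ⟨q, hq, T.β_mem q⟩
  rw [ha, hb] at h1
  refine ⟨a, b, by rw [u, ha]; rfl, by rw [u, hb]; rfl,
    (nca_comap (f := bl) (Sum.inl_injective.comp Sum.inl_injective) ?_ h1).mono ?_⟩
  · rintro y ⟨x, hx, hy⟩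
    obtain ⟨v, rfl, -⟩ := nca_S (hE hx) hy
    exact ⟨v, rfl⟩
  · rintro v ⟨x, hx, hy⟩
    obtain ⟨w, e, hw⟩ := nca_S (hE hx) hy
    obtain rfl : v = w := Sum.inl_injective (Sum.inl_injective e)
    exact ⟨x, hx, hw⟩

theorem nca_Y {v w : P} (h : T.G.Adj v w) : T.Y w ≤ T.Y v + T.m v := T.ht.adj (.inl v) (.inl w) h

theorem nc_meet {t : ℝ} (h : T.Ln t) {E : Set Z} (hE : E ⊆ St ξ 7) (hc : IsPreconnected E)
    {p q : Z} (hp : p ∈ E) (hq : q ∈ E) (h1 : T.u p ≤ t) (h2 : t ≤ T.u q) :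
    ∃ v ∈ T.V t, ∃ x ∈ E, dist x v ≤ B * r := by
  obtain ⟨a, b, ha, hb, hab⟩ := nca_con (T := T) hE hc hp hq
  have h3 : ∀ v : P, t ≠ T.Y v ∧ t ≠ T.Y v + T.m v := fun v => h.2.1 (.inl v)
  obtain ⟨w, -, hw, rfl | ⟨v, hvw, hv⟩⟩ := hab.exists_first (P := fun v => t < T.Y v)
    (lt_of_le_of_ne (hb ▸ h2) (h3 b).1)
  · exact absurd (ha ▸ h1) (not_le.2 hw)
  · exact ⟨v, ⟨lt_of_le_of_ne (not_lt.1 hv.right_mem.2) (h3 v).1.symm, hw.trans_le (nca_Y hvw)⟩,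
      hv.right_mem.1⟩

theorem nc_osc {E : Set Z} (hE : E ⊆ St ξ 7) (hc : IsPreconnected E) {p q : Z} (hp : p ∈ E)
    (hq : q ∈ E) : |T.u p - T.u q| ≤ wt T.m {v | ∃ x ∈ E, dist x v ≤ B * r} := by
  obtain ⟨a, b, ha, hb, hab⟩ := nca_con (T := T) hE hc hp hq
  have h1 : ∀ {a b : P}, Con T.G {v | ∃ x ∈ E, dist x v ≤ B * r} a b → T.Y a - T.Y b ≤ _ :=
    fun h => nca_sub_le h (m := T.m) (fun v => T.ht.n_nonneg _) fun _ _ h => nca_Y h.symm
  rw [ha, hb, abs_sub_le_iff]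
  exact ⟨h1 hab, h1 hab.symm⟩

theorem nc_lev {t e a : ℝ} (hN : T.Nr e a) (h : T.Ln t) {v : P} (hv : v ∈ T.V t) {x : Z}
    (hx : x ∈ St ξ 7) (hd : dist x v ≤ e) : |T.u x - t| ≤ 2 * a := by
  have hu : T.Used v := by
    obtain ⟨c, hc, d, -, hcd⟩ := h.2.2.2
    obtain ⟨_, -, rfl, rfl | ⟨w, hw, -⟩⟩ := (h.2.2.1 c hcd.left_mem (.inl v) hv).exists_first
      (P := fun y => y = .inl v) rfl
    · exact T.surj v _ hc
    · exact T.surj v _ hw.symm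
  have h1 := abs_le.1 (hN.uY x hx v hu hd)
  have h2 : T.m v ≤ a := hN.n_le _
  have h3 : T.Y v < t := hv.1
  have h4 : t < T.Y v + T.m v := hv.2
  rw [abs_le]
  constructor <;> linarith [h1.1, h1.2]

theorem Nr.nc_mono {e e' a : ℝ} (h : T.Nr e a) (he : e' ≤ e) : T.Nr e' a := by
  exact ⟨h.n_le, fun x hx x' hd => h.uu x hx x' (hd.trans he),
    fun x hx v hv hd => h.uY x hx v hv (hd.trans he)⟩

theorem FC.mono {e e' a : ℝ} (h : T.FC e a) (he : e' ≤ e) : T.FC e' a := by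
  exact fun α A h1 h2 h3 h4 => h α A h1 h2 h3 fun x hx =>
    (h4 x hx).imp fun b hb => ⟨hb.1, hb.2.trans he⟩

end TH

theorem St.mono {a a' : ℝ} (h : a ≤ a') : St ξ a ⊆ St ξ a' := by
  exact fun x hx => lt_of_lt_of_le (show _ < a / 100 from hx) (by linarith)

theorem Fr.ball_sub (h : Fr ξ δ) {x : Z} (hx : x ∈ St ξ 3) : closedBall x δ ⊆ St ξ 4 := by
  intro y hy
  have h1 := abs_le.1 (h.lip y x hy)
  have h2 := abs_lt.1 (show |ξ x - 1 / 2| < 3 / 100 from hx)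
  change |ξ y - 1 / 2| < 4 / 100
  rw [abs_lt]
  constructor <;> linarith [h1.1, h1.2, h2.1, h2.2]

end KCH
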