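import Pool.Agent.Lib.MP_e1e491_gt.CH.NcD

/-! Integration over the levels. -/

namespace KCH

open Set Metric KP2 KCC MeasureTheory Filter Topology
open scoped Classical

theorem nci_four (A : Bool → Set ℝ) (q : Pl) :
    volume {s : ℝ | ∃ j t, (t = q j + s ∨ t = q j - s) ∧ t ∈ A j} ≤ ∑ j, 2 * volume (A j) := by
  refine (measure_mono (t := ⋃ j, (fun s => q j + s) ⁻¹' A j ∪ (fun s => q j - s) ⁻¹' A j) ?_).trans
    ((measure_iUnion_fintype_le _ _).trans (Finset.sum_le_sum fun j _ =>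
      (measure_union_le _ _).trans_eq ?_))
  · rintro s ⟨j, t, rfl | rfl, h⟩
    exacts [mem_iUnion.2 ⟨j, Or.inl h⟩, mem_iUnion.2 ⟨j, Or.inr h⟩]
  · rw [two_mul, measure_preimage_add, show (fun s => q j - s) ⁻¹' A j =
      Neg.neg ⁻¹' ((fun s => q j + s) ⁻¹' A j) from Set.ext fun s => by simp [sub_eq_add_neg],
      Measure.measure_preimage_neg, measure_preimage_add]

theorem nci_inter {V : Type} [Fintype V] (f : V → ℝ) (S T : Set V) :
    wt f (S ∩ T) = wt (fun v => if v ∈ T then f v else 0) S := by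
  rw [wt_eq_sum, wt_eq_sum]
  exact Finset.sum_congr rfl fun v _ => by by_cases v ∈ S <;> by_cases v ∈ T <;> simp [*]

/-- A light box forces energy of the gauge in the annulus. -/
theorem ann {V : Type} [Fintype V] {m y : V → ℝ} (hm : ∀ v, 0 ≤ m v) {o W : Bool → V → ℝ}
    (ho : ∀ j v, 0 ≤ o j v) (hW : ∀ j v, 0 ≤ W j v) {Bx An : Bool → Set V}
    (hA : ∀ j, An j ⊆ Bx j) (q : Pl) {s₀ k X : ℝ} (hs : 0 < s₀) (hk : 0 < k) (hX : 64 * X ≤ k)
    {bad : Set ℝ} (hb : volume bad ≤ ENNReal.ofReal (s₀ / 4))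
    (h : ∀ s, s₀ / 2 ≤ s → s ≤ s₀ → s ∉ bad → ∃ j t, (t = q j + s ∨ t = q j - s) ∧
      (k * s₀ ≤ wt (o j) (Vl m y t ∩ Bx j) ∨ 1 ≤ wt (W j) (Vl m y t ∩ An j)))
    (hl : ∑ j, wt (fun v => m v ^ 2 + o j v ^ 2) (Bx j) ≤ X * s₀ ^ 2) :
    1 ≤ 400 * X * ∑ j, wt (fun v => W j v ^ 2) (An j) := by
  obtain ⟨a, ha⟩ : ∃ a : Bool × V → ℝ, ∀ j v, a (j, v) = if v ∈ An j then W j v else 0 :=
    ⟨fun i => if i.2 ∈ An i.1 then W i.1 i.2 else 0, fun _ _ => rfl⟩
  obtain ⟨b, hb'⟩ : ∃ b : Bool × V → ℝ, ∀ j v, b (j, v) = if v ∈ Bx j then m v else 0 :=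
    ⟨fun i => if i.2 ∈ Bx i.1 then m i.2 else 0, fun _ _ => rfl⟩
  obtain ⟨c, hc⟩ : ∃ c : Bool × V → ℝ, ∀ j v, c (j, v) = if v ∈ Bx j then o j v else 0 :=
    ⟨fun i => if i.2 ∈ Bx i.1 then o i.1 i.2 else 0, fun _ _ => rfl⟩
  have hks : 0 < k * s₀ := by positivity
  have a0 : ∀ j v, 0 ≤ a (j, v) := fun j v => by
    rw [ha]
    split_ifs
    exacts [hW j v, le_rfl]
  have c0 : ∀ j v, 0 ≤ c (j, v) / (k * s₀) := fun j v => by
    rw [hc]
    split_ifs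
    exacts [div_nonneg (ho j v) hks.le, (zero_div _).ge]
  have e1 : ∑ j, wt (fun v => W j v ^ 2) (An j) = ∑ i, a i ^ 2 := by
    rw [Fintype.sum_prod_type]
    refine Finset.sum_congr rfl fun j _ => (wt_eq_sum _ _).trans (Finset.sum_congr rfl fun v _ => ?_)
    rw [ha]
    split_ifs <;> simp
  have e2 : ∑ j, wt (fun v => m v ^ 2 + o j v ^ 2) (Bx j) = ∑ i, b i ^ 2 + ∑ i, c i ^ 2 := by
    rw [← Finset.sum_add_distrib, Fintype.sum_prod_type]
    refine Finset.sum_congr rfl fun j _ => (wt_eq_sum _ _).trans (Finset.sum_congr rfl fun v _ => ?_)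
    rw [hb', hc]
    split_ifs <;> simp
  have e3 : ∑ j, ∑ v, (c (j, v) / (k * s₀) + a (j, v)) * m v =
      (∑ i, c i * b i) / (k * s₀) + ∑ i, a i * b i := by
    rw [Finset.sum_div, ← Finset.sum_add_distrib, Fintype.sum_prod_type]
    refine Finset.sum_congr rfl fun j _ => Finset.sum_congr rfl fun v _ => ?_
    rw [hb', hc, ha]
    by_cases h1 : v ∈ Bx j
    · simp only [if_pos h1]
      ring
    · simp [h1, mt (@hA j v) h1]
  have v1 : ENNReal.ofReal (s₀ - s₀ / 2) ≤ ENNReal.ofReal (s₀ / 4) + ∑ j, 2 * ENNReal.ofReal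
      ((∑ v, (c (j, v) / (k * s₀) + a (j, v)) * m v) / (1 / 2)) := by
    rw [← Real.volume_Icc]
    refine le_trans (measure_mono fun s hs' => ?_) ((measure_union_le bad _).trans (add_le_add hb
      ((nci_four (fun j => {t | 1 / 2 < wt (fun v => c (j, v) / (k * s₀) + a (j, v)) (Vl m y t)})
        q).trans (Finset.sum_le_sum fun j _ => mul_le_mul_right
          (vol_wt_gt hm (fun v => add_nonneg (c0 j v) (a0 j v)) true one_half_pos) 2))))
    refine or_iff_not_imp_left.2 fun h1 => ?_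
    obtain ⟨j, t, h2, h3⟩ := h s hs'.1 hs'.2 h1
    refine ⟨j, t, h2, ?_⟩
    have e4 : wt (fun v => c (j, v) / (k * s₀) + a (j, v)) (Vl m y t) =
        wt (fun v => c (j, v) / (k * s₀)) (Vl m y t) + wt (fun v => a (j, v)) (Vl m y t) :=
      Finset.sum_add_distrib
    have e5 : wt (fun v => c (j, v) / (k * s₀)) (Vl m y t) =
        wt (o j) (Vl m y t ∩ Bx j) / (k * s₀) := by
      simp only [nci_inter, hc]
      exact (Finset.sum_div _ _ _).symm
    have e6 : wt (fun v => a (j, v)) (Vl m y t) = wt (W j) (Vl m y t ∩ An j) := by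
      simp only [nci_inter, ha]
    have p1 := wt_nonneg (c0 j) (Vl m y t)
    have p2 := wt_nonneg (a0 j) (Vl m y t)
    rw [mem_ofPred_eq, e4]
    rcases h3 with h3 | h3
    · rw [← one_le_div hks, ← e5] at h3
      linarith
    · linarith
  have n0 : ∀ j, 0 ≤ ∑ v, (c (j, v) / (k * s₀) + a (j, v)) * m v := fun j =>
    Finset.sum_nonneg fun v _ => mul_nonneg (add_nonneg (c0 j v) (a0 j v)) (hm v)
  have := n0 true
  have := n0 false
  rw [Fintype.sum_bool] at v1 e3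
  rw [← mul_add, ← ENNReal.ofReal_add (by positivity) (by positivity), ← ENNReal.ofReal_ofNat 2,
    ← ENNReal.ofReal_mul (by positivity), ← ENNReal.ofReal_add (by positivity) (by positivity),
    ENNReal.ofReal_le_ofReal_iff (by positivity), ← add_div, e3] at v1
  rw [e2] at hl
  rw [e1]
  have b2 : 0 ≤ ∑ i, b i ^ 2 := by positivity
  have c2 : 0 ≤ ∑ i, c i ^ 2 := by positivity
  have a2 : 0 ≤ ∑ i, a i ^ 2 := by positivity
  have i1 : (∑ i, c i * b i) / (k * s₀) ≤ s₀ / 128 := by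
    have : 2 * ∑ i, c i * b i ≤ ∑ i, b i ^ 2 + ∑ i, c i ^ 2 := by
      rw [Finset.mul_sum, ← Finset.sum_add_distrib]
      exact Finset.sum_le_sum fun i _ => by nlinarith [sq_nonneg (b i - c i)]
    rw [div_le_iff₀ hks]
    nlinarith [mul_le_mul_of_nonneg_right hX (sq_nonneg s₀)]
  have i2 : (7 / 128 * s₀) ^ 2 ≤ (∑ i, a i ^ 2) * (X * s₀ ^ 2) :=
    (pow_le_pow_left₀ (by positivity) (by linarith) 2).trans
      ((Finset.sum_mul_sq_le_sq_mul_sq Finset.univ a b).trans (by gcongr; linarith))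
  refine le_of_mul_le_mul_right ?_ (pow_pos hs 2)
  nlinarith [pow_pos hs 2]

/-- The exceptional radii. -/
theorem vol_bad {Ln : ℝ → Prop} (hL : ∀ᵐ t : ℝ, t ∈ Ioo (0 : ℝ) 1 → Ln t) (Y : Finset Pl) (q : Pl)
    {a : ℝ} (ha : 0 ≤ a) : volume {s : ℝ | (∃ p ∈ Y, |dist p q - s| ≤ 3 * a) ∨
      ∃ j t, (t = q j + s ∨ t = q j - s) ∧ t ∈ Icc (0 : ℝ) 1 ∧ ¬ (t ∈ Ioo (0 : ℝ) 1 ∧ Ln t)} ≤
      ENNReal.ofReal (Y.card * (6 * a)) := by
  have h0 : volume {t : ℝ | t ∈ Icc (0 : ℝ) 1 ∧ ¬ (t ∈ Ioo (0 : ℝ) 1 ∧ Ln t)} = 0 := by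
    refine measure_eq_zero_iff_ae_notMem.2 ?_
    filter_upwards [hL, Ioo_ae_eq_Icc (μ := (volume : Measure ℝ)) (a := 0) (b := 1)] with t h1 h2 h3
    have h4 : t ∈ Ioo (0 : ℝ) 1 := h2.mpr h3.1
    exact h3.2 ⟨h4, h1 h4⟩
  have h1 := nci_four (fun _ => {t : ℝ | t ∈ Icc (0 : ℝ) 1 ∧ ¬ (t ∈ Ioo (0 : ℝ) 1 ∧ Ln t)}) q
  simp only [h0, mul_zero, Finset.sum_const_zero] at h1
  refine (measure_union_le {s : ℝ | ∃ p ∈ Y, |dist p q - s| ≤ 3 * a} _).trans
    ((add_le_add le_rfl h1).trans ?_)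
  rw [add_zero]
  refine (measure_mono (t := ⋃ p ∈ Y, Icc (dist p q - 3 * a) (dist p q + 3 * a)) ?_).trans
    ((measure_biUnion_finset_le _ _).trans_eq ?_)
  · rintro s ⟨p, hp, h⟩
    rw [abs_le] at h
    exact mem_biUnion hp ⟨by linarith [h.2], by linarith [h.1]⟩
  · rw [ENNReal.ofReal_mul (Nat.cast_nonneg _), ENNReal.ofReal_natCast, ← nsmul_eq_mul,
      ← Finset.sum_const]
    exact Finset.sum_congr rfl fun p _ => by rw [Real.volume_Icc]; ring_nf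

/-- Fubini and Markov. -/
theorem vol_slice {G : Set (ℝ × ℝ)} (hG : MeasurableSet G) {γ : ℝ} (hγ : 0 < γ)
    (h : volume G ≤ ENNReal.ofReal (γ ^ 2)) :
    volume {s : ℝ | ENNReal.ofReal γ < volume {t : ℝ | (s, t) ∈ G}} ≤ ENNReal.ofReal γ := by
  have h1 := mul_meas_ge_le_lintegral (μ := volume)
    (measurable_measure_prodMk_left (ν := (volume : Measure ℝ)) hG) (ENNReal.ofReal γ)
  rw [Measure.volume_eq_prod, Measure.prod_apply hG, sq, ENNReal.ofReal_mul hγ.le] at h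
  refine le_trans (measure_mono fun s hs => ?_) ((ENNReal.mul_le_mul_iff_right
    (ENNReal.ofReal_pos.2 hγ).ne' ENNReal.ofReal_ne_top).1 (h1.trans h))
  exact le_of_lt (α := ENNReal) hs

end KCH
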