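import Pool.Agent.Lib.MP_e1e491_gt.CH.NcD

/-! Pieces of lines, selection of points, local gauges. -/

namespace KCH

open Set Metric KP2 KCC MeasureTheory Filter Topology
open scoped Classical

/-- Follow a walk until it is far from the start or the value of `φ` has changed. -/
theorem piece {V : Type} [Fintype V] {G : SimpleGraph V} {S : Set V} {v₀ w₁ : V}
    (h : Con G S v₀ w₁) (d φ o : V → ℝ) {ρ b s : ℝ} (hb : 0 ≤ b) (hs : 0 < s)
    (hd : ∀ v w, G.Adj v w → d w ≤ d v + b) (h0 : d v₀ < ρ) (h1 : ρ ≤ d w₁) (ho : ∀ v, 0 ≤ o v)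
    (hφ : ∀ v w, G.Adj v w → d v ≤ ρ + b → d w ≤ ρ + b → |φ v - φ w| ≤ o w ∧ |φ v - φ w| ≤ s)
    (h2 : |φ v₀| ≤ 2 * s) :
    (∃ w, ρ ≤ d w ∧ Con G (S ∩ {v | d v ≤ ρ + b ∧ |φ v| ≤ 4 * s}) v₀ w) ∨
      s ≤ wt o (S ∩ {v | d v ≤ ρ + b ∧ |φ v| ≤ 4 * s}) := by
  obtain ⟨w, hw, hP, h3⟩ := h.exists_first (P := fun v => ρ ≤ d v ∨ 3 * s < |φ v|) (Or.inl h1)
  rcases h3 with rfl | ⟨u, huw, h3⟩
  · rcases hP with hP | hP <;> linarith
  have hu := h3.right_mem.2
  simp only [mem_ofPred_eq, not_or, not_le, not_lt] at hu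
  have dw : d w ≤ ρ + b := by linarith [hd u w huw, hu.1]
  have φw : |φ w| ≤ 4 * s := by
    have a1 := (hφ u w huw (by linarith [hu.1]) dw).2
    have a2 := abs_sub_abs_le_abs_sub (φ w) (φ u)
    rw [abs_sub_comm] at a1
    linarith [hu.2]
  have h4 : Con G (S ∩ {v | d v ≤ ρ + b ∧ |φ v| ≤ 4 * s}) v₀ u := h3.mono fun v hv => by
    have h5 := hv.2
    simp only [mem_ofPred_eq, not_or, not_le, not_lt] at h5
    exact ⟨hv.1, by linarith [h5.1], by linarith [h5.2]⟩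
  have h5 := h4.trans (Con.of_adj huw h4.right_mem ⟨hw, dw, φw⟩)
  rcases hP with hP | hP
  · exact Or.inl ⟨w, hP, h5⟩
  · right
    have h6 := con_abs_sub_le (ψ := φ) h5 ho fun v hv v' hv' hvv => (hφ v v' hvv hv.2.1 hv'.2.1).1
    have h7 := abs_sub_abs_le_abs_sub (φ w) (φ v₀)
    rw [abs_sub_comm] at h6
    linarith

/-- Many separated points of the same type on a chain. -/
theorem select {Z : Type} [MetricSpace Z] (z : ℕ → Z) (k m : ℕ) (hm : 0 < m) {D σ : ℝ}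
    (hD : 0 < D) (hs : ∀ i < k, dist (z i) (z (i + 1)) ≤ σ) (hk : D ≤ dist (z 0) (z k))
    (hσ : 8 * m * σ ≤ D) (ty : ℕ → Bool × Bool) : ∃ (τ : Bool × Bool) (S : Finset ℕ),
      m ≤ S.card ∧ (∀ i ∈ S, i ≤ k ∧ ty i = τ) ∧
      ∀ i ∈ S, ∀ j ∈ S, i ≠ j → D ≤ 8 * m * dist (z i) (z j) := by
  have hm' : (0 : ℝ) < m := by exact_mod_cast hm
  have hk0 : 0 < k := by
    rcases Nat.eq_zero_or_pos k with rfl | hk0
    · rw [dist_self] at hk; linarith
    · exact hk0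
  have hσ0 : 0 ≤ σ := dist_nonneg.trans (hs 0 hk0)
  obtain ⟨e, he⟩ : ∃ e : ℝ, e = D / (8 * m) := ⟨_, rfl⟩
  have he1 : 8 * m * e = D := by rw [he]; field_simp
  have he0 : 0 < e := by rw [he]; positivity
  have hσe : σ ≤ e := le_of_mul_le_mul_left (by rw [he1]; exact hσ) (by positivity : 0 < 8 * (m : ℝ))
  have key : ∀ n : ℕ, ∃ i, n < 4 * m → i ≤ k ∧ 2 * n * e ≤ dist (z 0) (z i) ∧
      dist (z 0) (z i) ≤ 2 * n * e + e := by
    intro n
    by_cases hn : n < 4 * m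
    · have hn' : (n : ℝ) ≤ 4 * m := by exact_mod_cast hn.le
      have hkk : 2 * n * e ≤ dist (z 0) (z k) := by nlinarith
      have hex : ∃ i, 2 * n * e ≤ dist (z 0) (z i) := ⟨k, hkk⟩
      have hle : Nat.find hex ≤ k := Nat.find_min' hex hkk
      refine ⟨Nat.find hex, fun _ => ⟨hle, Nat.find_spec hex, ?_⟩⟩
      rcases Nat.eq_zero_or_pos (Nat.find hex) with h0 | h0
      · rw [h0, dist_self]; positivity
      · obtain ⟨j, hj⟩ := Nat.exists_eq_add_one_of_ne_zero h0.ne'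
        have h1 := not_le.1 (Nat.find_min hex (m := j) (by omega))
        have h2 := hs j (by omega)
        rw [hj]
        linarith [dist_triangle (z 0) (z j) (z (j + 1))]
    · exact ⟨0, fun h => absurd h hn⟩
  choose i hi using key
  have sep : ∀ n < 4 * m, ∀ n' < 4 * m, n < n' → e ≤ dist (z (i n)) (z (i n')) := by
    intro n hn n' hn' hlt
    have h1 : (n : ℝ) + 1 ≤ n' := by exact_mod_cast hlt
    have h2 := (hi n hn).2.2
    have h3 := (hi n' hn').2.1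
    have h4 := dist_triangle (z 0) (z (i n)) (z (i n'))
    nlinarith
  have sep' : ∀ n < 4 * m, ∀ n' < 4 * m, n ≠ n' → e ≤ dist (z (i n)) (z (i n')) := by
    intro n hn n' hn' hne
    rcases lt_or_gt_of_ne hne with h | h
    · exact sep n hn n' hn' h
    · rw [dist_comm]; exact sep n' hn' n hn h
  obtain ⟨τ, -, hτ⟩ := Finset.exists_le_card_fiber_of_mul_le_card_of_maps_to
    (s := Finset.range (4 * m)) (t := (Finset.univ : Finset (Bool × Bool))) (n := m)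
    (f := fun n => ty (i n)) (fun _ _ => Finset.mem_univ _) Finset.univ_nonempty (by simp)
  refine ⟨τ, ((Finset.range (4 * m)).filter fun n => ty (i n) = τ).image i, ?_, ?_, ?_⟩
  · rw [Finset.card_image_of_injOn]
    · convert hτ
    intro n hn n' hn' hnn
    by_contra hne
    have h1 := sep' n (Finset.mem_range.1 (Finset.mem_filter.1 hn).1) n'
      (Finset.mem_range.1 (Finset.mem_filter.1 hn').1) hne
    rw [hnn, dist_self] at h1
    linarith
  · intro j hj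
    obtain ⟨n, hn, rfl⟩ := Finset.mem_image.1 hj
    exact ⟨(hi n (Finset.mem_range.1 (Finset.mem_filter.1 hn).1)).1, (Finset.mem_filter.1 hn).2⟩
  · intro j hj j' hj' hne
    obtain ⟨n, hn, rfl⟩ := Finset.mem_image.1 hj
    obtain ⟨n', hn', rfl⟩ := Finset.mem_image.1 hj'
    rw [← he1]
    exact mul_le_mul_of_nonneg_left (sep' n (Finset.mem_range.1 (Finset.mem_filter.1 hn).1) n'
      (Finset.mem_range.1 (Finset.mem_filter.1 hn').1) fun h => hne (by rw [h])) (by positivity)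

theorem sum_wt_le {V I : Type} [Fintype V] {o : V → ℝ} (ho : ∀ v, 0 ≤ o v) (S : Finset I)
    (A : I → Set V) {U : Set V} (hU : ∀ i ∈ S, A i ⊆ U)
    (hd : ∀ i ∈ S, ∀ j ∈ S, i ≠ j → Disjoint (A i) (A j)) : ∑ i ∈ S, wt o (A i) ≤ wt o U := by
  simp only [wt_eq_sum]
  rw [Finset.sum_comm]
  refine Finset.sum_le_sum fun v _ => ?_
  by_cases hv : ∃ i ∈ S, v ∈ A i
  · obtain ⟨i, hi, hvi⟩ := hv
    rw [Finset.sum_eq_single_of_mem i hi fun j hj hji =>
      if_neg fun hvj => Set.disjoint_left.1 (hd j hj i hi hji) hvj hvi, if_pos hvi,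
      if_pos (hU i hi hvi)]
  · rw [Finset.sum_eq_zero fun i hi => if_neg fun hvi => hv ⟨i, hi, hvi⟩]
    split_ifs
    exacts [ho v, le_rfl]

/-- A sum of shell gauges. -/
theorem exists_lg {Z : Type} [MetricSpace Z] [CompactSpace Z] (hD : Dbl Z) (T : ℝ) : ∃ N : ℝ,
    1 ≤ N ∧ ∀ (P : Finset Z) (G : SimpleGraph P) (M r₀ ρ : ℝ) (x : Z), Shell G M r₀ → 0 ≤ M →
      0 < ρ → 3 * r₀ ≤ ρ → ρ ≤ 3 → ∃ W : P → ℝ, LG G W x (T * ρ) ρ ∧ ∑ v, W v ^ 2 ≤ N * M := by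
  obtain ⟨N, hN⟩ := hD.cover (3 * T)
  refine ⟨max 1 ((N : ℝ) ^ 2), le_max_left _ _, fun P G M r₀ ρ x hS hM hρ h1 h2 => ?_⟩
  obtain ⟨Q, q1, -, q3⟩ := hN (ρ / 3) x (closedBall x (T * ρ)) (by positivity)
    (closedBall_subset_closedBall (le_of_eq (by ring)))
  choose W w1 _ w3 w4 using fun y => hS y (ρ / 3) (by linarith) (by linarith)
  refine ⟨fun v => ∑ y ∈ Q, W y v, ⟨fun v => Finset.sum_nonneg fun y _ => w1 y v,
    fun S a b hc ha hb => ?_⟩, ?_⟩
  · obtain ⟨y, hy, hay⟩ := q3 a (mem_closedBall'.2 ha)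
    have h3 := w4 y S a b hc (by rwa [dist_comm]) (by linarith [dist_triangle (a : Z) y b])
    exact h3.trans (Finset.sum_le_sum fun v _ =>
      Finset.single_le_sum (f := fun y => W y v) (fun y _ => w1 y v) hy)
  · have hq : (Q.card : ℝ) ≤ N := by exact_mod_cast q1
    calc ∑ v, (∑ y ∈ Q, W y v) ^ 2 ≤ ∑ v, (Q.card : ℝ) * ∑ y ∈ Q, W y v ^ 2 :=
          Finset.sum_le_sum fun v _ => sq_sum_le_card_mul_sum_sq
      _ = Q.card * ∑ y ∈ Q, ∑ v, W y v ^ 2 := by rw [← Finset.mul_sum, Finset.sum_comm]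
      _ ≤ Q.card * ∑ _y ∈ Q, M :=
          mul_le_mul_of_nonneg_left (Finset.sum_le_sum fun y _ => w3 y) (Nat.cast_nonneg _)
      _ = (Q.card : ℝ) ^ 2 * M := by rw [Finset.sum_const, nsmul_eq_mul]; ring
      _ ≤ max 1 ((N : ℝ) ^ 2) * M := mul_le_mul_of_nonneg_right
          ((pow_le_pow_left₀ (Nat.cast_nonneg _) hq 2).trans (le_max_right _ _)) hM

end KCH
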