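import Pool.Agent.Lib.MP_e1e491_gt.CH.NcB
import Pool.Agent.Lib.MP_e1e491_gt.CH.NcP

/-! From the chain to one line. -/

namespace KCH

open Set Metric KP2 KCC MeasureTheory Filter Topology
open scoped Classical

variable {Z : Type} [MetricSpace Z] {ξ : Z → ℝ} {δ : ℝ} {P : Finset Z} {H : Type} [Fintype H]
  {B r lam L : ℝ} {T : TH ξ δ P H B r lam} {Q : Pr Z L}
  {x : Z} {ρ e a : ℝ}

theorem ncl_pow (hl : 1 ≤ lam) (hL : 1 ≤ L) {i j i' j' : ℕ} (hi : i ≤ i') (hj : j ≤ j') {c : ℝ}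
    (hc : 0 ≤ c) : lam ^ i * L ^ j * c ≤ lam ^ i' * L ^ j' * c :=
  mul_le_mul_of_nonneg_right (mul_le_mul (pow_le_pow_right₀ hl hi) (pow_le_pow_right₀ hL hj)
    (by positivity) (by positivity)) hc

theorem ncl_symm (Q : Pr Z L) (j : Bool) (p y : Z) :
    dist p ((Q.F j).symm y) ≤ L * dist (Q.F j p) y := by
  have := Q.ge j p ((Q.F j).symm y)
  rwa [Homeomorph.apply_symm_apply] at this

/-- A point on the border of a box is near one of four lines. -/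
theorem TH.Loc.side (h : T.Loc Q x ρ e a) {q : Pl} {s : ℝ} (hs : 0 ≤ s)
    (hl : ∀ j t, t = q j + s ∨ t = q j - s → t ∈ Icc (0 : ℝ) 1 → T.Ln t) {z : Z}
    (hz : Xb (T.In Q q s) (B * r) z) (hx : dist z x ≤ 9 * lam ^ 2 * L ^ 2 * ρ) :
    ∃ τ : Bool × Bool, T.Ln (if τ.2 then q τ.1 + s else q τ.1 - s) ∧
      ∃ v ∈ T.V (if τ.2 then q τ.1 + s else q τ.1 - s),
        dist (Q.F τ.1 z) v ≤ (lam * L + 1) * (B * r) ∧ dist (T.pos Q (τ.1, v)) q ≤ s + a := by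
  obtain ⟨⟨p, hp, hzp⟩, p', hp', hzp'⟩ := hz
  have hl1 := T.ll.one_le
  have hL1 := Q.one_le
  have hL0 : 0 ≤ L := by linarith
  have hb := T.nc_b_pos
  have hρ := h.ρ_pos
  have hbρ := h.b_ρ
  have hbe := h.b_e
  have hp1 : dist (T.Ψ Q p) q ≤ s := hp
  have hp2 : ¬ dist (T.Ψ Q p') q ≤ s := hp'
  rw [dist_pi_le_iff hs] at hp2
  push Not at hp2
  obtain ⟨j, hj⟩ := hp2
  have hpj : |T.u (Q.F j p) - q j| ≤ s := (dist_pi_le_iff hs).1 hp1 j
  have hj' : s < |T.u (Q.F j p') - q j| := hj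
  have d1 : dist (Q.F j p) (Q.F j z) ≤ L * (B * r) :=
    (Q.le j p z).trans (mul_le_mul_of_nonneg_left (by rwa [dist_comm]) hL0)
  have d2 : dist (Q.F j p') (Q.F j z) ≤ L * (B * r) :=
    (Q.le j p' z).trans (mul_le_mul_of_nonneg_left (by rwa [dist_comm]) hL0)
  obtain ⟨E, hE, hc, e1, e2⟩ := joined_set (T.ll.l1 (Q.F j z) (L * (B * r)) _ _ (by positivity) d1 d2)
  have d3 : dist (Q.F j z) (Q.F j x) ≤ L * (9 * lam ^ 2 * L ^ 2 * ρ) :=
    (Q.le j z x).trans (mul_le_mul_of_nonneg_left hx hL0)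
  have a1 := ncl_pow hl1 hL1 (show 1 ≤ 2 by norm_num) (show 1 ≤ 3 by norm_num) hb.le
  have a2 := ncl_pow hl1 hL1 (show 0 ≤ 2 by norm_num) (show 0 ≤ 3 by norm_num) hρ.le
  have a3 := ncl_pow hl1 hL1 (show 0 ≤ 2 by norm_num) (show 1 ≤ 3 by norm_num) hb.le
  have a4 := ncl_pow hl1 hL1 (show 0 ≤ 2 by norm_num) (show 2 ≤ 3 by norm_num) hb.le
  have a5 := ncl_pow hl1 hL1 (show 0 ≤ 2 by norm_num) (le_refl 3) hb.le
  have a6 := ncl_pow hl1 hL1 (show 1 ≤ 2 by norm_num) (le_refl 3) hb.le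
  have a7 : 0 ≤ lam ^ 2 * L ^ 3 * (B * r) := by positivity
  unfold Lam at hbρ hbe
  have hE7 : E ⊆ St ξ 7 := fun y hy => by
    refine St.mono (by norm_num) (h.regF j (mem_closedBall.2 ?_))
    have d4 := mem_closedBall.1 (hE hy)
    have d5 := dist_triangle y (Q.F j z) (Q.F j x)
    unfold Lam
    linarith
  have key : ∀ t, (∃ v ∈ T.V t, ∃ y ∈ E, dist y v ≤ B * r) → ∃ v ∈ T.V t,
      dist (Q.F j z) v ≤ (lam * L + 1) * (B * r) ∧ dist (T.pos Q (j, v)) q ≤ s + a := by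
    rintro t ⟨v, hv, y, hy, hyv⟩
    have d4 := mem_closedBall.1 (hE hy)
    have d5 : dist (Q.F j z) v ≤ (lam * L + 1) * (B * r) := by
      have := dist_triangle_left (Q.F j z) v y
      linarith
    refine ⟨v, hv, d5, ?_⟩
    have d6 : dist (T.Ψ Q p) (T.Ψ Q ((Q.F j).symm v)) ≤ a := by
      refine h.near ?_ ?_
      · have d7 := mul_le_mul_of_nonneg_left ((dist_triangle_left p x z).trans
          (add_le_add hzp hx)) hL0
        unfold Lam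
        linarith
      · have d7 := mul_le_mul_of_nonneg_left ((ncl_symm Q j p v).trans (mul_le_mul_of_nonneg_left
          ((dist_triangle _ (Q.F j z) _).trans (add_le_add d1 d5)) hL0)) hL0
        linarith
    have d8 := dist_triangle_left (T.Ψ Q ((Q.F j).symm v)) q (T.Ψ Q p)
    exact d8.trans (by linarith)
  have u1 := T.nc_u_mem (Q.F j p)
  have u2 := T.nc_u_mem (Q.F j p')
  rw [abs_le] at hpj
  rcases lt_abs.1 hj' with h3 | h3
  · have hn := hl j (q j + s) (Or.inl rfl) ⟨by linarith [u1.1], by linarith [u2.2]⟩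
    exact ⟨(j, true), hn, key _ (TH.nc_meet hn hE7 hc e1 e2 (by linarith) (by linarith))⟩
  · have hn := hl j (q j - s) (Or.inr rfl) ⟨by linarith [u2.1], by linarith [u1.2]⟩
    exact ⟨(j, false), hn, key _ (TH.nc_meet hn hE7 hc e2 e1 (by linarith) (by linarith))⟩

/-- The piece of the line that starts at `v`. -/
theorem TH.Loc.pc (h : T.Loc Q x ρ e a) {q : Pl} {s s₀ ρ' t : ℝ} {j : Bool} {W : P → ℝ}
    (hW : LG T.G W (Q.F j x) (Lam lam L * ρ) ρ') (hρ' : 0 < ρ') (hρ : ρ' ≤ ρ) (h1 : s₀ / 2 ≤ s)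
    (h2 : s ≤ s₀) (ha : 8 * a < s₀) (ht : t = q j + s ∨ t = q j - s) (hl : T.Ln t) {v : P}
    (hv : v ∈ T.V t) (hx : dist (Q.F j x) v ≤ 10 * lam ^ 2 * L ^ 3 * ρ)
    (hx' : dist ((Q.F j).symm v) x ≤ 10 * lam ^ 2 * L ^ 2 * ρ)
    (hq : dist (T.pos Q (j, v)) q ≤ s + a) :
    1 ≤ wt W (T.V t ∩ T.Ann Q q s₀ j) ∨
      s₀ ≤ wt (T.o Q j) (T.V t ∩ T.Box Q q (4 * s₀) j ∩ {w | dist (v : Z) w ≤ ρ' + B * r}) := by
  have hl1 := T.ll.one_le
  have hL1 := Q.one_le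
  have hL0 : 0 ≤ L := by linarith
  have hb := T.nc_b_pos
  have hρ0 := h.ρ_pos
  have hbρ := h.b_ρ
  have hbe := h.b_e
  have hδ := h.δ_ge
  have ha0 := h.a_pos
  have a1 := ncl_pow hl1 hL1 (show 0 ≤ 2 by norm_num) (show 0 ≤ 3 by norm_num) hb.le
  have a2 := ncl_pow hl1 hL1 (show 0 ≤ 2 by norm_num) (show 0 ≤ 3 by norm_num) hρ0.le
  have a3 := ncl_pow hl1 hL1 (show 0 ≤ 2 by norm_num) (show 2 ≤ 3 by norm_num) hρ0.le
  unfold Lam at hbρ hbe hδ
  have hb' : B * r ≤ ρ := by linarith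
  obtain ⟨w₁, hw₁, hd₁⟩ := TH.nc_long hl (v : Z)
  have hsub : ∀ w : P, w ∈ T.V t → dist (v : Z) w ≤ ρ' + B * r →
      |T.pos Q (j, w) (!j) - q (!j)| ≤ 4 * s₀ →
      s₀ / 4 < dist (T.pos Q (j, w)) q ∧ dist (T.pos Q (j, w)) q ≤ 4 * s₀ := by
    intro w hw hd hφ
    have e1 : T.pos Q (j, w) j = T.u w := by
      show T.u (Q.F j ((Q.F j).symm w)) = _
      rw [Homeomorph.apply_symm_apply]
    have e2 : (w : Z) ∈ St ξ 7 := by
      refine St.mono (by norm_num) (h.regF j (mem_closedBall.2 ?_))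
      have d1 := dist_triangle_left (w : Z) (Q.F j x) v
      rw [dist_comm (v : Z) (Q.F j x)] at d1
      unfold Lam
      linarith
    have e3 := abs_le.1 (TH.nc_lev h.nr hl hw e2 (by rw [dist_self]; linarith))
    have e4 : s - 2 * a ≤ |T.u w - q j| ∧ |T.u w - q j| ≤ s + 2 * a := by
      rcases ht with rfl | rfl
      · exact ⟨le_abs.2 (Or.inl (by linarith)), abs_le.2 ⟨by linarith, by linarith⟩⟩
      · exact ⟨le_abs.2 (Or.inr (by linarith)), abs_le.2 ⟨by linarith, by linarith⟩⟩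
    have e5 := dist_le_pi_dist (T.pos Q (j, w)) q j
    rw [Real.dist_eq, e1] at e5
    refine ⟨by linarith, (dist_pi_le_iff (by linarith)).2 fun i => ?_⟩
    rw [Real.dist_eq]
    by_cases hi : i = j
    · rw [hi, e1]
      linarith
    · rw [Bool.eq_not.2 hi]
      exact hφ
  rcases piece (TH.nc_cn hl v hv w₁ hw₁) (fun w => dist (v : Z) w)
    (fun w => T.pos Q (j, w) (!j) - q (!j)) (T.o Q j) (ρ := ρ') (s := s₀) hb.le (by linarith)
    (fun w w' hw => (dist_triangle _ (w : Z) _).trans (add_le_add le_rfl (TH.nc_adj hw)))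
    (by rw [dist_self]; exact hρ') (by linarith) (TH.nc_o_nonneg j)
    (fun w w' hw _ hd => by
      have d1 : dist ((Q.F j).symm w') ((Q.F j).symm v) ≤ L * (ρ + ρ) := by
        refine (ncl_symm Q j _ _).trans (mul_le_mul_of_nonneg_left ?_ hL0)
        rw [Homeomorph.apply_symm_apply, dist_comm]
        linarith
      have d2 := mul_le_mul_of_nonneg_left ((dist_triangle _ _ x).trans (add_le_add d1 hx')) hL0
      have d3 := h.step (j := j) hw (by unfold Lam; linarith)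
      rw [sub_sub_sub_cancel_right]
      exact ⟨d3.1, d3.2.trans (by linarith)⟩)
    (by
      have e5 := dist_le_pi_dist (T.pos Q (j, v)) q (!j)
      rw [Real.dist_eq] at e5
      linarith) with ⟨w, hw, hcon⟩ | h3
  · refine Or.inl ((hW.2 _ v w hcon (by unfold Lam; linarith) hw).trans (wt_mono hW.1 ?_))
    rintro w ⟨hw1, hw2, hw3⟩
    exact ⟨hw1, hsub w hw1 hw2 hw3⟩
  · refine Or.inr (h3.trans (wt_mono (TH.nc_o_nonneg j) ?_))
    rintro w ⟨hw1, hw2, hw3⟩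
    exact ⟨⟨hw1, (hsub w hw1 hw2 hw3).2⟩, hw2⟩

theorem TH.Loc.line (h : T.Loc Q x ρ e a) {q : Pl} {s s₀ ρ' σ D : ℝ} {m : ℕ} (hm : 0 < m)
    {W : Bool → P → ℝ} (hW : ∀ j, LG T.G (W j) (Q.F j x) (Lam lam L * ρ) ρ') (hρ : ρ' ≤ ρ)
    (hb : Lam lam L * (B * r) ≤ ρ') (hD : 32 * m * L * ρ' ≤ D) (hσ : 8 * m * σ ≤ D)
    (h1 : s₀ / 2 ≤ s) (h2 : s ≤ s₀) (ha : 8 * a < s₀)
    (hl : ∀ j t, t = q j + s ∨ t = q j - s → t ∈ Icc (0 : ℝ) 1 → T.Ln t)
    (hc : Chn (T.In Q q s) (B * r) x (9 * lam ^ 2 * L ^ 2 * ρ) σ D) :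
    ∃ j t, (t = q j + s ∨ t = q j - s) ∧
      (m * s₀ ≤ wt (T.o Q j) (T.V t ∩ T.Box Q q (4 * s₀) j) ∨
        1 ≤ wt (W j) (T.V t ∩ T.Ann Q q s₀ j)) := by
  obtain ⟨k, z, hz, hstep, hk⟩ := hc
  have hl1 := T.ll.one_le
  have hL1 := Q.one_le
  have hL0 : 0 < L := by linarith
  have hb0 := T.nc_b_pos
  have hρ0 := h.ρ_pos
  have ha0 := h.a_pos
  have hm0 : (0 : ℝ) < m := Nat.cast_pos.2 hm
  have a1 := ncl_pow hl1 hL1 (show 0 ≤ 2 by norm_num) (show 0 ≤ 3 by norm_num) hb0.le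
  have a2 := ncl_pow hl1 hL1 (show 1 ≤ 2 by norm_num) (show 1 ≤ 3 by norm_num) hb0.le
  have a3 := ncl_pow hl1 hL1 (show 0 ≤ 2 by norm_num) (show 0 ≤ 3 by norm_num) hρ0.le
  have a4 := ncl_pow hl1 hL1 (show 0 ≤ 2 by norm_num) (show 0 ≤ 2 by norm_num) hρ0.le
  have a5 := ncl_pow hl1 hL1 (show 0 ≤ 2 by norm_num) (show 1 ≤ 3 by norm_num) hb0.le
  have a6 := ncl_pow hl1 hL1 (show 1 ≤ 2 by norm_num) (show 2 ≤ 3 by norm_num) hb0.le
  unfold Lam at hb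
  have hρ' : 0 < ρ' := by linarith
  have hD0 : 0 < D := lt_of_lt_of_le (by positivity) hD
  have hty : ∀ i, ∃ τ : Bool × Bool, i ≤ k → T.Ln (if τ.2 then q τ.1 + s else q τ.1 - s) ∧
      ∃ v ∈ T.V (if τ.2 then q τ.1 + s else q τ.1 - s),
        dist (Q.F τ.1 (z i)) v ≤ (lam * L + 1) * (B * r) ∧
          dist (T.pos Q (τ.1, v)) q ≤ s + a := fun i => by
    by_cases hi : i ≤ k
    · obtain ⟨τ, hτ⟩ := h.side (by linarith) hl (hz i hi).1 (hz i hi).2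
      exact ⟨τ, fun _ => hτ⟩
    · exact ⟨(true, true), fun h' => absurd h' hi⟩
  choose ty hty using hty
  obtain ⟨τ, S, hS, hS1, hS2⟩ := select z k m hm hD0 hstep hk hσ ty
  have ht : (if τ.2 then q τ.1 + s else q τ.1 - s) = q τ.1 + s ∨
      (if τ.2 then q τ.1 + s else q τ.1 - s) = q τ.1 - s := by
    split_ifs
    · exact Or.inl rfl
    · exact Or.inr rfl
  have hv : ∀ i ∈ S, T.Ln (if τ.2 then q τ.1 + s else q τ.1 - s) ∧
      ∃ v ∈ T.V (if τ.2 then q τ.1 + s else q τ.1 - s),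
        dist (Q.F τ.1 (z i)) v ≤ (lam * L + 1) * (B * r) ∧
          dist (T.pos Q (τ.1, v)) q ≤ s + a := fun i hi => (hS1 i hi).2 ▸ hty i (hS1 i hi).1
  generalize (if τ.2 then q τ.1 + s else q τ.1 - s) = t at ht hv
  obtain ⟨i₀, hi₀⟩ := Finset.card_pos.1 (lt_of_lt_of_le hm hS)
  obtain ⟨hn, v₀, -⟩ := hv i₀ hi₀
  have hne : Nonempty P := ⟨v₀⟩
  choose! v hv1 hv2 hv3 using fun i hi => (hv i hi).2
  refine ⟨τ.1, t, ht, ?_⟩
  by_cases hc : 1 ≤ wt (W τ.1) (T.V t ∩ T.Ann Q q s₀ τ.1)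
  · exact Or.inr hc
  have hall : ∀ i ∈ S, s₀ ≤ wt (T.o Q τ.1)
      (T.V t ∩ T.Box Q q (4 * s₀) τ.1 ∩ {w | dist (v i : Z) w ≤ ρ' + B * r}) := fun i hi => by
    have d0 := (hz i (hS1 i hi).1).2
    have d1 := hv2 i hi
    refine (h.pc (hW τ.1) hρ' hρ h1 h2 ha ht hn (hv1 i hi) ?_ ?_ (hv3 i hi)).resolve_left hc
    · have d2 := (Q.le τ.1 (z i) x).trans (mul_le_mul_of_nonneg_left d0 hL0.le)
      have d3 := dist_triangle_left (Q.F τ.1 x) (v i) (Q.F τ.1 (z i))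
      linarith
    · have d2 := (ncl_symm Q τ.1 (z i) (v i)).trans (mul_le_mul_of_nonneg_left d1 hL0.le)
      have d3 := dist_triangle_left ((Q.F τ.1).symm (v i)) x (z i)
      linarith
  have hsum := sum_wt_le (TH.nc_o_nonneg (T := T) (Q := Q) τ.1) S
    (fun i => T.V t ∩ T.Box Q q (4 * s₀) τ.1 ∩ {w | dist (v i : Z) w ≤ ρ' + B * r})
    (fun i _ => inter_subset_left)
    (fun i hi i' hi' hne => by
      refine disjoint_left.2 fun w hw hw' => ?_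
      have d1 : dist (v i : Z) w ≤ ρ' + B * r := hw.2
      have d2 : dist (v i' : Z) w ≤ ρ' + B * r := hw'.2
      have d3 := hv2 i hi
      have d4 := hv2 i' hi'
      have d5 := dist_triangle4_right (Q.F τ.1 (z i)) (Q.F τ.1 (z i')) (v i) (v i')
      have d6 := dist_triangle_right (v i : Z) (v i') w
      have d7 : 8 * m * (L * (4 * ρ')) ≤ 8 * m * (L * dist (Q.F τ.1 (z i)) (Q.F τ.1 (z i'))) := by
        have d8 := mul_le_mul_of_nonneg_left (Q.ge τ.1 (z i) (z i'))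
          (show (0 : ℝ) ≤ 8 * m by positivity)
        have d9 := hS2 i hi i' hi' hne
        linarith
      have d10 := le_of_mul_le_mul_left (le_of_mul_le_mul_left d7 (by positivity)) hL0
      linarith)
  refine Or.inl (le_trans ?_ hsum)
  have h3 := Finset.card_nsmul_le_sum S _ s₀ hall
  rw [nsmul_eq_mul] at h3
  exact (mul_le_mul_of_nonneg_right (Nat.cast_le.2 hS) (by linarith)).trans h3

end KCH
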