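import Pool.Agent.Lib.MP_e1e491_gt.CH.NcE
import Pool.Agent.Lib.MP_e1e491_gt.CH.NcL
import Pool.Agent.Lib.MP_e1e491_gt.CH.NcI

/-! A heavy box at every place and scale. -/

namespace KCH

open Set Metric KP2 KCC MeasureTheory Filter Topology
open scoped Classical

variable {Z : Type} [MetricSpace Z] [CompactSpace Z]

omit [CompactSpace Z] in
/-- One light box gives energy in one annulus. -/
theorem ncal_one {ξ : Z → ℝ} {δ : ℝ} {P : Finset Z} {H : Type} [Fintype H] {B r lam L : ℝ}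
    {T : TH ξ δ P H B r lam} {Q : Pr Z L} {x p o : Z} {ρ e a ε η c σ s₀ X : ℝ} {α : Set Z}
    (h : T.Loc Q x ρ e a) (hα : NF η α) (hη : L * η ≤ e) (hx : α ⊆ closedBall x ρ) (hc : c ≤ 1)
    (hext : ∃ y ∈ α, ∃ y' ∈ α, c * ρ ≤ dist y y') (hp : p ∈ α) (ho : dist o x ≤ 2 * ρ)
    (hε : 0 < ε) (hd : ε / 2 < dist (T.Ψ Q o) (T.Ψ Q p)) {k : ℕ} (hk : 0 < k)
    (h1 : (lam + 1) * (B * r) ≤ σ) (h2 : 4 * lam * σ ≤ c * ρ) (h3 : σ ≤ ρ)
    (h4 : Lam lam L * (B * r) ≤ σ) (h5 : 32 * k * L * σ ≤ c * ρ / (4 * lam))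
    (h6 : 8 * k * σ ≤ c * ρ / (4 * lam)) {Y : Finset Pl}
    (hY : ∀ w, dist w x ≤ 9 * lam ^ 2 * L ^ 2 * ρ → OnF (2 * lam * (B * r)) σ w →
      ∃ q ∈ Y, dist (T.Ψ Q w) q ≤ 2 * a)
    {W : Bool → P → ℝ} (hW : ∀ j, LG T.G (W j) (Q.F j x) (Lam lam L * ρ) σ)
    (h7 : 8 * a < s₀) (h8 : s₀ ≤ ε / 8) (h9 : Y.card * (6 * a) ≤ s₀ / 4) (hX : 64 * X ≤ k)
    (hl : T.E * wt (T.mass Q) {i | dist (T.pos Q i) (T.Ψ Q p) ≤ 4 * s₀} ≤ X * s₀ ^ 2) :
    1 ≤ 400 * X * ∑ j, wt (fun v => W j v ^ 2) (T.Ann Q (T.Ψ Q p) s₀ j) := by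
  have ha := h.a_pos
  have hs : 0 < s₀ := by linarith
  refine ann (m := T.m) (y := T.Y) (fun v => T.ht.n_nonneg _) (o := T.o Q) (W := W)
    (fun j v => TH.nc_o_nonneg j v) (fun j => (hW j).1) (Bx := T.Box Q (T.Ψ Q p) (4 * s₀))
    (An := T.Ann Q (T.Ψ Q p) s₀) (fun j v hv => hv.2) (T.Ψ Q p) hs (k := k)
    (Nat.cast_pos.mpr hk) hX
    ((vol_bad T.ht.line Y (T.Ψ Q p) ha.le).trans (ENNReal.ofReal_le_ofReal h9))
    (fun s e1 e2 e3 => ?_) (by rw [TH.nc_wt_mass]; exact hl)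
  have e4 : ∀ q ∈ Y, 3 * a < |dist q (T.Ψ Q p) - s| := fun q hq =>
    not_le.mp fun e5 => e3 (Or.inl ⟨q, hq, e5⟩)
  have e5 : ∀ j t, t = T.Ψ Q p j + s ∨ t = T.Ψ Q p j - s → t ∈ Icc (0 : ℝ) 1 → T.Ln t := by
    intro j t e6 e7
    by_contra e8
    exact e3 (Or.inr ⟨j, t, e6, e7, e8⟩)
  exact h.line hk hW h3 h4 h5 h6 e1 e2 h7 e5
    (h.chn hα hη hx hc hext hp ho hε hd h1 h2 hY (by linarith) (by linarith) e4)

omit [CompactSpace Z] in
/-- The annuli are disjoint. -/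
theorem ncal_sum {ξ : Z → ℝ} {δ : ℝ} {P : Finset Z} {H : Type} [Fintype H] {B r lam L : ℝ}
    (T : TH ξ δ P H B r lam) (Q : Pr Z L) (q : Pl) {ε : ℝ} (hε : 0 < ε) (J : ℕ) (j : Bool)
    (W : P → ℝ) : ∑ i ∈ Finset.range J, wt (fun v => W v ^ 2) (T.Ann Q q (ε / (8 * 16 ^ i)) j) ≤
      ∑ v, W v ^ 2 := by
  have key : ∀ i i' : ℕ, i < i' →
      Disjoint (T.Ann Q q (ε / (8 * 16 ^ i)) j) (T.Ann Q q (ε / (8 * 16 ^ i')) j) := by
    intro i i' hi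
    refine disjoint_left.mpr fun v h1 h2 => ?_
    have h3 : (16 : ℝ) ^ (i + 1) ≤ 16 ^ i' := pow_le_pow_right₀ (by norm_num) hi
    have h4 : ε / (8 * 16 ^ i') ≤ ε / (8 * 16 ^ (i + 1)) :=
      div_le_div_of_nonneg_left hε.le (by positivity) (by linarith)
    have h5 : ε / (8 * 16 ^ (i + 1)) = ε / (8 * 16 ^ i) / 16 := by
      rw [pow_succ]
      field_simp
    have h6 := h1.1
    have h7 := h2.2
    linarith
  refine (sum_wt_le (fun v => sq_nonneg (W v)) _ _ (U := univ) (fun _ _ => subset_univ _)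
    fun i _ i' _ hne => ?_).trans ?_
  · rcases lt_or_gt_of_ne hne with h | h
    · exact key i i' h
    · exact (key i' i h).symm
  · rw [wt_eq_sum]
    simp

theorem heavy (hD : Dbl Z) (hK : KN Z) {lam L c K K₀ : ℝ} (hl : 1 ≤ lam) (hL : 1 ≤ L) (hc : 0 < c)
    (hc1 : c ≤ 1) (hK1 : 0 < K) (hK0 : 0 < K₀) : ∃ θ > 0, ∀ (ξ : Z → ℝ) (δ : ℝ) (P : Finset Z)
    (H : Type) [Fintype H] (B r : ℝ) (T : TH ξ δ P H B r lam) (Q : Pr Z L) (x p o : Z)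
    (ρ e a r₁ ε η : ℝ) (α : Set Z), T.Loc Q x ρ e a → T.Ok K₀ r₁ → r₁ ≤ θ * ρ → a ≤ θ * ε →
      NF η α → L * η ≤ e → α ⊆ closedBall x ρ → (∃ y ∈ α, ∃ y' ∈ α, c * ρ ≤ dist y y') → p ∈ α →
      dist o x ≤ 2 * ρ → ε / 2 < dist (T.Ψ Q o) (T.Ψ Q p) → ∃ s, θ * ε ≤ s ∧ s ≤ ε ∧
        K * s ^ 2 ≤ wt (T.mass Q) {i | dist (T.pos Q i) (T.Ψ Q p) ≤ s} := by
  obtain ⟨k, hk⟩ := exists_nat_gt (max 1 (1024 * K₀ * K))
  have hk1 : (1 : ℝ) ≤ k := ((le_max_left _ _).trans_lt hk).le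
  have hk2 : 1024 * K₀ * K ≤ k := ((le_max_right _ _).trans_lt hk).le
  have hk0 : 0 < k := Nat.cast_pos.mp (one_pos.trans_le hk1)
  have hl0 : 0 < lam := one_pos.trans_le hl
  have hL0 : 0 < L := one_pos.trans_le hL
  obtain ⟨κ, hκ0, hκ⟩ : ∃ κ : ℝ, 0 < κ ∧ 128 * lam * k * L * κ = c :=
    ⟨c / (128 * lam * k * L), by positivity, by field_simp⟩
  have hkL : 1 ≤ k * L := one_le_mul_of_one_le_of_one_le hk1 hL
  have hκ2 : 4 * lam * κ ≤ c := by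
    have h1 : 0 < lam * κ := by positivity
    nlinarith
  have hκ1 : κ ≤ 1 := by nlinarith
  have hΛ : lam ≤ Lam lam L := by
    have h1 : 1 ≤ L ^ 3 := one_le_pow₀ hL
    have h2 : lam ≤ lam ^ 2 := by nlinarith
    unfold Lam
    nlinarith
  have hΛ1 : 1 ≤ Lam lam L := hl.trans hΛ
  have hΛ0 : 0 < Lam lam L := one_pos.trans_le hΛ1
  obtain ⟨N₁, hN₁, hlg⟩ := exists_lg hD (Lam lam L / κ)
  obtain ⟨N, hN⟩ := exists_exc hK lam L κ hκ0
  obtain ⟨J, hJ⟩ := exists_nat_gt (12800 * K * N₁ * K₀)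
  refine ⟨min (κ / (200 * Lam lam L)) (1 / (200 * (N + 1) * 16 ^ J)), by positivity, ?_⟩
  intro ξ δ P H _ B r T Q x p o ρ e a r₁ ε η α h hOk hr ha hα hη hx hext hp ho hd
  have hθ0 : 0 < min (κ / (200 * Lam lam L)) (1 / (200 * ((N : ℝ) + 1) * 16 ^ J)) := by
    positivity
  have hθ1 := min_le_left (κ / (200 * Lam lam L)) (1 / (200 * ((N : ℝ) + 1) * 16 ^ J))
  have hθ2 := min_le_right (κ / (200 * Lam lam L)) (1 / (200 * ((N : ℝ) + 1) * 16 ^ J))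
  generalize min (κ / (200 * Lam lam L)) (1 / (200 * ((N : ℝ) + 1) * 16 ^ J)) = θ at *
  rw [le_div_iff₀ (by positivity)] at hθ1 hθ2
  have hρ := h.ρ_pos
  have ha0 := h.a_pos
  have hε : 0 < ε := (pos_iff_pos_of_mul_pos (ha0.trans_le ha)).mp hθ0
  have hb0 := T.nc_b_pos
  have hE := T.ht.E_pos
  have hr1 : 200 * Lam lam L * r₁ ≤ κ * ρ := by
    have h1 := mul_le_mul_of_nonneg_left hr (show 0 ≤ 200 * Lam lam L by positivity)
    have h2 := mul_le_mul_of_nonneg_right hθ1 hρ.le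
    linarith
  have hr0 : 0 < r₁ := hb0.trans_le hOk.2.2
  have hb1 : 200 * (Lam lam L * (B * r)) ≤ κ * ρ := by
    have h1 := mul_le_mul_of_nonneg_left hOk.2.2 hΛ0.le
    linarith
  have hb2 : lam * (B * r) ≤ Lam lam L * (B * r) := mul_le_mul_of_nonneg_right hΛ hb0.le
  have hb3 : B * r ≤ Lam lam L * (B * r) := le_mul_of_one_le_left hb0.le hΛ1
  have hσ : κ * ρ ≤ ρ := mul_le_of_le_one_left hρ.le hκ1
  have hρ1 : ρ ≤ 1 := ((le_mul_of_one_le_left hρ.le hΛ1).trans h.δ_ge).trans T.fr.δ_le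
  obtain ⟨Y, hY1, hY⟩ := hN ξ δ P H B r T Q x ρ e a h hκ1 (by linarith)
  have hW : ∀ j, ∃ W : P → ℝ, LG T.G W (Q.F j x) (Lam lam L * ρ) (κ * ρ) ∧
      ∑ v, W v ^ 2 ≤ N₁ * (K₀ / T.E) := by
    intro j
    have h1 := hlg P T.G (K₀ / T.E) r₁ (κ * ρ) (Q.F j x) hOk.1 (by positivity) (by positivity)
      (by have := le_mul_of_one_le_left hr0.le hΛ1; linarith) (by linarith)
    have h2 : Lam lam L / κ * (κ * ρ) = Lam lam L * ρ := by field_simp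
    rwa [h2] at h1
  choose W hW hW' using hW
  have hD1 : 32 * k * L * (κ * ρ) = c * ρ / (4 * lam) := by
    rw [← hκ]
    field_simp
    ring
  have hD2 : 8 * k * (κ * ρ) ≤ c * ρ / (4 * lam) := by
    rw [← hD1]
    have h1 : 0 < k * (κ * ρ) := by positivity
    have h2 := mul_le_mul_of_nonneg_right hL h1.le
    linarith
  by_contra hn
  push Not at hn
  have key : ∀ i ∈ Finset.range J, (1 : ℝ) ≤ 400 * (16 * T.E * K) *
      ∑ j, wt (fun v => W j v ^ 2) (T.Ann Q (T.Ψ Q p) (ε / (8 * 16 ^ i)) j) := by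
    intro i hi
    have h1 : (16 : ℝ) ^ i ≤ 16 ^ J := pow_le_pow_right₀ (by norm_num) (Finset.mem_range.mp hi).le
    have h2 : (1 : ℝ) ≤ 16 ^ i := one_le_pow₀ (by norm_num)
    obtain ⟨s₀, hs, hs'⟩ : ∃ s₀, s₀ = ε / (8 * 16 ^ i) ∧ s₀ * (8 * 16 ^ i) = ε :=
      ⟨_, rfl, by field_simp⟩
    have hs0 : 0 < s₀ := by
      rw [hs]
      positivity
    rw [← hs]
    have h3 : 25 * (N + 1) * (θ * ε) ≤ s₀ := by
      have h4 : θ * (200 * (N + 1) * 16 ^ i) ≤ 1 :=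
        (mul_le_mul_of_nonneg_left (mul_le_mul_of_nonneg_left h1 (by positivity)) hθ0.le).trans hθ2
      have h5 := mul_le_mul_of_nonneg_right h4 hs0.le
      rw [← hs']
      linarith
    have hN0 : (0 : ℝ) ≤ N := Nat.cast_nonneg N
    have hθε : 0 < θ * ε := by positivity
    have h4 : (N + 1) * a ≤ (N + 1) * (θ * ε) := mul_le_mul_of_nonneg_left ha (by positivity)
    have h5 : 0 ≤ N * a := by positivity
    have h6 : 0 ≤ N * (θ * ε) := by positivity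
    have h7 : 8 * s₀ ≤ ε := by
      have h8 := mul_le_mul_of_nonneg_left h2 hs0.le
      linarith
    have h7' := mul_le_mul_of_nonneg_right hκ2 hρ.le
    refine ncal_one h hα hη hx hc1 hext hp ho hε hd hk0 (by linarith)
      (by linarith) hσ (by linarith) hD1.le hD2 hY hW (by linarith) (by linarith) ?_ ?_ ?_
    · have h8 : (Y.card : ℝ) ≤ N := Nat.cast_le.mpr hY1
      have h9 := mul_le_mul_of_nonneg_right h8 ha0.le
      linarith
    · have h8 := mul_le_mul_of_nonneg_right hOk.2.1 hK1.le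
      linarith
    · have h8 := hn (4 * s₀) (by linarith) (by linarith)
      have h9 := mul_le_mul_of_nonneg_left h8.le hE.le
      linarith
  have h1 := Finset.sum_le_sum key
  rw [← Finset.mul_sum, Finset.sum_comm, Finset.sum_const, Finset.card_range, nsmul_eq_mul,
    mul_one] at h1
  have h2 : ∑ j, ∑ i ∈ Finset.range J,
      wt (fun v => W j v ^ 2) (T.Ann Q (T.Ψ Q p) (ε / (8 * 16 ^ i)) j) ≤
      ∑ _j : Bool, N₁ * (K₀ / T.E) :=
    Finset.sum_le_sum fun j _ => (ncal_sum T Q _ hε J j (W j)).trans (hW' j)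
  have h3 := mul_le_mul_of_nonneg_left h2 (show 0 ≤ 400 * (16 * T.E * K) by positivity)
  have h4 : 400 * (16 * T.E * K) * ∑ _j : Bool, N₁ * (K₀ / T.E) = 12800 * K * N₁ * K₀ := by
    rw [Fintype.sum_bool]
    field_simp
    ring
  linarith

end KCH
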