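import Pool.Agent.Lib.MP_e1e491_gt.CH.NcA

/-! The pair of levels near a point. -/

namespace KCH

open Set Metric KP2 KCC MeasureTheory Filter Topology
open scoped Classical

variable {Z : Type} [MetricSpace Z] {ξ : Z → ℝ} {δ : ℝ} {P : Finset Z} {H : Type} [Fintype H]
  {B r lam L : ℝ} {T : TH ξ δ P H B r lam} {Q : Pr Z L}

theorem ncb_dist (Q : Pr Z L) (j j' : Bool) (x y : Z) :
    dist (Q.F j' ((Q.F j).symm x)) (Q.F j' ((Q.F j).symm y)) ≤ L ^ 2 * dist x y := by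
  have h1 := Q.ge j ((Q.F j).symm x) ((Q.F j).symm y)
  rw [Homeomorph.apply_symm_apply, Homeomorph.apply_symm_apply] at h1
  exact ((Q.le j' _ _).trans
    (mul_le_mul_of_nonneg_left h1 (zero_le_one.trans Q.one_le))).trans_eq (by ring)

theorem ncb_Lam (hl : 1 ≤ lam) (hL : 1 ≤ L) :
    lam * L ^ 2 ≤ Lam lam L ∧ L * (2 * lam) ≤ Lam lam L := by
  have h1 : 1 ≤ lam * L := one_le_mul_of_one_le_of_one_le hl hL
  have h2 : lam * L ≤ lam * L ^ 2 :=
    mul_le_mul_of_nonneg_left (by nlinarith) (zero_le_one.trans hl)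
  have h3 : lam * L ^ 2 * 1 ≤ lam * L ^ 2 * (lam * L) :=
    mul_le_mul_of_nonneg_left h1 (by positivity)
  unfold Lam
  constructor <;> nlinarith

theorem nc_flat_image (f : Z ≃ₜ Z) {A : Set Z} (h : Flat A) : Flat (f '' A) := by
  intro b a e h1 h2 h3 h4
  refine h (fun t => f.symm (b t)) (fun s => f.symm (a s)) (fun s t => f.symm '' e s t)
    (fun t => ?_) (fun s t => (h2 s t).map f.symm.continuous)
    (fun t t' ht => (disjoint_image_iff f.symm.injective).2 (h3 t t' ht))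
    fun s t t' ht h5 => h4 s t t' ht (f.symm.injective.mem_set_image.1 h5)
  obtain ⟨y, hy, h5⟩ := h1 t
  rwa [← h5, f.symm_apply_apply]

theorem NF.nc_conn {η : ℝ} {α : Set Z} (h : NF η α) : IsPreconnected α := by
  refine isPreconnected_of_forall_pair fun x hx y hy => ?_
  obtain ⟨E, h1, h2, h3, h4⟩ := joined_set (h.pc x hx y hy)
  exact ⟨E, h1, h3, h4, h2⟩

namespace TH

variable {x : Z} {ρ e a : ℝ}

theorem Loc.mem (h : T.Loc Q x ρ e a) {p : Z} (hp : L * dist p x ≤ Lam lam L * ρ) (j : Bool) :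
    Q.F j p ∈ St ξ 4 := by
  exact h.regF j (mem_closedBall.2 ((Q.le j p x).trans hp))

theorem Loc.near (h : T.Loc Q x ρ e a) {p p' : Z} (hp : L * dist p x ≤ Lam lam L * ρ)
    (hd : L * dist p p' ≤ e) : dist (T.Ψ Q p) (T.Ψ Q p') ≤ a := by
  refine (dist_pi_le_iff h.a_pos.le).2 fun j => ?_
  rw [Real.dist_eq]
  exact h.nr.uu _ (St.mono (by norm_num) (h.mem hp j)) _ ((Q.le j p p').trans hd)

theorem Loc.nf (h : T.Loc Q x ρ e a) {η : ℝ} {α : Set Z} (hα : NF η α) (hη : L * η ≤ e)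
    (hx : ∀ p ∈ α, L * dist p x ≤ Lam lam L * ρ) {p q : Z} (hp : p ∈ α) (hq : q ∈ α) :
    dist (T.Ψ Q p) (T.Ψ Q q) ≤ a := by
  refine (dist_pi_le_iff h.a_pos.le).2 fun j => ?_
  rw [Real.dist_eq]
  obtain ⟨A, hA, h1⟩ := hα.fl
  refine h.fc (Q.F j '' α) (Q.F j '' A) (nc_flat_image _ hA)
    (hα.nc_conn.image _ (Q.F j).continuous.continuousOn) ?_ ?_ _ (mem_image_of_mem _ hp) _
    (mem_image_of_mem _ hq)
  · rintro _ ⟨y, hy, rfl⟩
    exact h.mem (hx y hy) j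
  · rintro _ ⟨y, hy, rfl⟩
    obtain ⟨b, hb, h2⟩ := h1 y hy
    refine ⟨_, mem_image_of_mem _ hb, (Q.le j y b).trans (le_trans ?_ hη)⟩
    exact mul_le_mul_of_nonneg_left (mem_closedBall'.1 h2.target_mem.2)
      (zero_le_one.trans Q.one_le)

/-- The second level changes by at most `o` along an edge. -/
theorem Loc.step (h : T.Loc Q x ρ e a) {j : Bool} {v w : P} (hvw : T.G.Adj v w)
    (hw : L * dist ((Q.F j).symm w) x + ρ ≤ Lam lam L * ρ) :
    |T.pos Q (j, v) (!j) - T.pos Q (j, w) (!j)| ≤ T.o Q j w ∧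
      |T.pos Q (j, v) (!j) - T.pos Q (j, w) (!j)| ≤ a := by
  have hb := T.nc_b_pos
  have hl := T.ll.one_le
  have hL := Q.one_le
  have h1 : dist (Q.F (!j) ((Q.F j).symm w)) (Q.F (!j) ((Q.F j).symm v)) ≤ L ^ 2 * (B * r) :=
    (ncb_dist Q j (!j) _ _).trans (mul_le_mul_of_nonneg_left (nc_adj hvw.symm) (by positivity))
  have h2 : L ^ 2 * (B * r) ≤ lam * L ^ 2 * (B * r) := by
    rw [mul_assoc]
    exact le_mul_of_one_le_left (by positivity) hl
  have h3 : lam * L ^ 2 * (B * r) ≤ Lam lam L * (B * r) :=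
    mul_le_mul_of_nonneg_right (ncb_Lam hl hL).1 hb.le
  have h4 := Q.le (!j) ((Q.F j).symm w) x
  obtain ⟨E, e1, e2, e3, e4⟩ := T.ll.three (Q.F (!j) ((Q.F j).symm w)) (Q.F (!j) ((Q.F j).symm v))
  have e5 : ∀ z ∈ E, dist (Q.F (!j) ((Q.F j).symm w)) z ≤ lam * L ^ 2 * (B * r) := fun z hz => by
    rw [mul_assoc]
    exact (e4 z hz).trans (mul_le_mul_of_nonneg_left h1 (by positivity))
  have e6 : E ⊆ St ξ 7 := fun z hz => by
    refine St.mono (by norm_num) (h.regF (!j) (mem_closedBall.2 ?_))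
    have h5 := dist_triangle_left z (Q.F (!j) x) (Q.F (!j) ((Q.F j).symm w))
    have h6 := e5 z hz
    have h7 := h.b_ρ
    linarith
  constructor
  · refine (nc_osc e6 e1 e3 e2).trans (wt_mono (fun y => T.ht.n_nonneg _) ?_)
    rintro y ⟨z, hz, h5⟩
    have h6 := dist_triangle (Q.F (!j) ((Q.F j).symm w)) z y
    have h7 := e5 z hz
    change dist _ _ ≤ _
    linarith
  · rw [abs_sub_comm]
    exact h.nr.uu _ (e6 e2) _ (h1.trans (h2.trans (h3.trans h.b_e)))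

theorem nc_o_nonneg (j : Bool) (v : P) : 0 ≤ T.o Q j v := by
  exact wt_nonneg (fun y => T.ht.n_nonneg _) _

theorem nc_mass_nonneg (i : Bool × P) : 0 ≤ T.mass Q i := by
  exact div_nonneg (by positivity) T.ht.E_pos.le

theorem nc_wt_mass (q : Pl) (s : ℝ) :
    ∑ j, wt (fun v => T.m v ^ 2 + T.o Q j v ^ 2) (T.Box Q q s j) =
      T.E * wt (T.mass Q) {i | dist (T.pos Q i) q ≤ s} := by
  simp only [wt_eq_sum]
  rw [Fintype.sum_prod_type, Finset.mul_sum]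
  refine Finset.sum_congr rfl fun j _ => ?_
  rw [Finset.mul_sum]
  refine Finset.sum_congr rfl fun v _ => ?_
  by_cases hv : dist (T.pos Q (j, v)) q ≤ s
  · rw [if_pos (show v ∈ T.Box Q q s j from hv),
      if_pos (show (j, v) ∈ {i | dist (T.pos Q i) q ≤ s} from hv), mass,
      mul_div_cancel₀ _ T.ht.E_pos.ne']
  · rw [if_neg (show v ∉ T.Box Q q s j from hv),
      if_neg (show (j, v) ∉ {i | dist (T.pos Q i) q ≤ s} from hv), mul_zero]

end TH

/-- The total mass is bounded. -/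
theorem exists_mass (hD : Dbl Z) (B lam L : ℝ) : ∃ M : ℝ, 0 < M ∧ ∀ (ξ : Z → ℝ) (δ : ℝ)
    (P : Finset Z) (H : Type) [Fintype H] (r : ℝ) (T : TH ξ δ P H B r lam) (Q : Pr Z L),
      ∑ i, T.mass Q i ≤ M := by
  obtain ⟨N₁, h1⟩ := hD.card_le ((lam * L ^ 2 + 1) * B)
  obtain ⟨N₂, h2⟩ := hD.card_le (L ^ 2 * (lam * L ^ 2 + 1) * B)
  refine ⟨2 * (1 + N₁ * N₂), by positivity, fun ξ δ P H _ r T Q => ?_⟩
  have hE := T.ht.E_pos
  have key : ∀ j, ∑ v, T.mass Q (j, v) ≤ 1 + N₁ * N₂ := fun j => by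
    have h3 := schur (fun a b : P =>
      dist (Q.F (!j) ((Q.F j).symm a)) b ≤ (lam * L ^ 2 + 1) * (B * r)) (N₁ := N₁) (N₂ := N₂)
      (fun a => (Finset.card_le_card fun b hb => ?_).trans
        (h1 r (Q.F (!j) ((Q.F j).symm a)) P T.r_pos T.net.1))
      (fun b => (Finset.card_le_card fun a ha => ?_).trans
        (h2 r (Q.F j ((Q.F (!j)).symm b)) P T.r_pos T.net.1)) T.m
    · have h4 := T.nc_sum
      have h5 : ∑ v, T.o Q j v ^ 2 ≤ N₁ * N₂ * T.E :=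
        h3.trans (mul_le_mul_of_nonneg_left h4 (by positivity))
      simp only [TH.mass]
      rw [← Finset.sum_div, div_le_iff₀ hE, Finset.sum_add_distrib]
      linarith
    · rw [Finset.mem_filter] at hb ⊢
      exact ⟨hb.1, hb.2.trans_eq (by ring)⟩
    · rw [Finset.mem_filter] at ha ⊢
      refine ⟨ha.1, ?_⟩
      have h4 := ncb_dist Q (!j) j b (Q.F (!j) ((Q.F j).symm a))
      rw [Homeomorph.symm_apply_apply, Homeomorph.apply_symm_apply, dist_comm (b : Z)] at h4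
      exact (h4.trans (mul_le_mul_of_nonneg_left ha.2 (sq_nonneg L))).trans_eq (by ring)
  rw [Fintype.sum_prod_type, Fintype.sum_bool]
  linarith [key true, key false]

/-- The levels of the long nearly flat sets near a point. -/
theorem exists_exc (hK : KN Z) (lam L κ : ℝ) (hκ : 0 < κ) : ∃ N : ℕ, ∀ (ξ : Z → ℝ) (δ : ℝ)
    (P : Finset Z) (H : Type) [Fintype H] (B r : ℝ) (T : TH ξ δ P H B r lam) (Q : Pr Z L) (x : Z)
    (ρ e a : ℝ), T.Loc Q x ρ e a → κ ≤ 1 → 200 * lam * (B * r) ≤ κ * ρ →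
      ∃ Y : Finset Pl, Y.card ≤ N ∧ ∀ w, dist w x ≤ 9 * lam ^ 2 * L ^ 2 * ρ →
        OnF (2 * lam * (B * r)) (κ * ρ) w → ∃ q ∈ Y, dist (T.Ψ Q w) q ≤ 2 * a := by
  obtain ⟨N, hN⟩ := hK (9 * lam ^ 2 * L ^ 2 / κ)
  refine ⟨N, fun ξ δ P H _ B r T Q x ρ e a h hκ1 hb => ?_⟩
  have hb0 := T.nc_b_pos
  have hl := T.ll.one_le
  have hL := Q.one_le
  have hρ := h.ρ_pos
  obtain ⟨Γ, h1, h2, h3⟩ := hN x (κ * ρ) (2 * lam * (B * r))
    {α | ∃ w, dist w x ≤ 9 * lam ^ 2 * L ^ 2 * ρ ∧ NF (2 * lam * (B * r)) α ∧ w ∈ α ∧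
      α ⊆ closedBall w (2 * (κ * ρ)) ∧ ∃ q ∈ α, κ * ρ ≤ dist w q} (by positivity) (by positivity)
    (by linarith) (by
      rintro α ⟨w, k1, k2, k3, -, q, k4, k5⟩
      exact ⟨k2, w, k3, q, k4, k1.trans_eq (by field_simp), k5⟩)
  have key : ∀ α w, dist w x ≤ 9 * lam ^ 2 * L ^ 2 * ρ → NF (2 * lam * (B * r)) α →
      α ⊆ closedBall w (2 * (κ * ρ)) → ∀ p ∈ α, ∀ q ∈ α, dist (T.Ψ Q p) (T.Ψ Q q) ≤ a := by
    intro α w k1 k2 k3 p hp q hq
    refine h.nf k2 (le_trans ?_ h.b_e) (fun z hz => ?_) hp hq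
    · have k4 := mul_le_mul_of_nonneg_right (ncb_Lam hl hL).2 hb0.le
      linarith
    · have k4 := mem_closedBall.1 (k3 hz)
      have k5 := dist_triangle z w x
      have k6 : κ * ρ ≤ 1 * ρ := mul_le_mul_of_nonneg_right hκ1 hρ.le
      have k7 : 1 * ρ ≤ lam ^ 2 * L ^ 2 * ρ := mul_le_mul_of_nonneg_right
        (one_le_mul_of_one_le_of_one_le (one_le_pow₀ hl) (one_le_pow₀ hL)) hρ.le
      have k8 : dist z x ≤ 20 * lam ^ 2 * L ^ 2 * ρ := by linarith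
      refine (mul_le_mul_of_nonneg_left k8 (by positivity)).trans_eq ?_
      unfold Lam
      ring
  refine ⟨Γ.image fun β => T.Ψ Q (if k : β.Nonempty then k.some else x),
    Finset.card_image_le.trans h1, fun w hw ⟨α, k1, k2, k3, k4⟩ => ?_⟩
  obtain ⟨β, hβ, p, hp, hp'⟩ := h3 α ⟨w, hw, k1, k2, k3, k4⟩
  obtain ⟨w', l1, l2, -, l3, -⟩ := h2 hβ
  have hne : β.Nonempty := ⟨p, hp'⟩
  refine ⟨_, Finset.mem_image_of_mem _ hβ, ?_⟩
  rw [dif_pos hne]
  have m1 := key α w hw k1 k3 w k2 p hp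
  have m2 := key β w' l1 l2 l3 p hp' _ hne.some_mem
  have m3 := dist_triangle (T.Ψ Q w) (T.Ψ Q p) (T.Ψ Q hne.some)
  linarith

end KCH
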