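import Pool.Agent.Lib.MP_e1e491_gt.CH.NcH

/-! The chain along the border of a set. -/

namespace KCH

open Set Metric KP2 KCC MeasureTheory Filter Topology
open scoped Classical

variable {Z : Type} [MetricSpace Z] {ξ : Z → ℝ} {P : Finset Z} {H : Type} {s lam : ℝ}

theorem ncc_far {E : Set Z} {d : ℝ} (h : ∃ p ∈ E, ∃ q ∈ E, d ≤ dist p q) (b : Z) :
    ∃ p ∈ E, d ≤ 2 * dist p b := by
  obtain ⟨p, hp, q, hq, h⟩ := h
  have h1 := dist_triangle_right p q b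
  rcases le_total (dist p b) (dist q b) with k | k
  · exact ⟨q, hq, by linarith⟩
  · exact ⟨p, hp, by linarith⟩

theorem ncc_ext {Q : Z → Prop} {σ : ℝ} {k : ℕ} {z : ℕ → Z} {w : Z} (h1 : ∀ i ≤ k, Q (z i))
    (h2 : ∀ i < k, dist (z i) (z (i + 1)) ≤ σ) (h3 : Q w) (h4 : dist (z k) w ≤ σ) :
    ∃ z' : ℕ → Z, (∀ i ≤ k + 1, Q (z' i)) ∧ (∀ i < k + 1, dist (z' i) (z' (i + 1)) ≤ σ) ∧
      z' 0 = z 0 ∧ z' (k + 1) = w := by
  refine ⟨fun i => if i ≤ k then z i else w, fun i _ => ?_, fun i hi => ?_,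
    if_pos (Nat.zero_le k), if_neg (by omega)⟩
  · by_cases h : i ≤ k
    · simpa only [if_pos h] using h1 i h
    · simpa only [if_neg h] using h3
  · rcases Nat.lt_succ_iff_lt_or_eq.1 hi with h | rfl
    · simpa only [if_pos h.le, if_pos (Nat.succ_le_of_lt h)] using h2 i h
    · simpa only [if_pos (le_refl i), if_neg (Nat.not_succ_le_self i)] using h4

theorem HG.chain (A : HG ξ P H s) (hL : LL Z lam) (hs : 0 < s) {In α E : Set Z} {x : Z}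
    {R d σ : ℝ} (hα : IsPreconnected α) (hE : IsPreconnected E) (hαR : α ⊆ closedBall x R)
    (hαd : ∃ p ∈ α, ∃ q ∈ α, d ≤ dist p q) (hEd : ∃ p ∈ E, ∃ q ∈ E, d ≤ dist p q)
    (hER : ∃ p ∈ E, dist p x ≤ R) (hαI : ∀ p ∈ α, closedBall p (2 * s) ⊆ In)
    (hEI : ∀ p ∈ E, dist p x ≤ (lam + 3) * R → closedBall p s ⊆ Inᶜ)
    (hU : closedBall x ((lam + 3) * R) ⊆ St ξ 7) (hσ : (lam + 1) * s ≤ σ) (hd : 4 * lam * σ ≤ d) :
    Chn In s x ((lam + 2) * R) σ (d / (4 * lam)) ∨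
      ∃ w, Xb In s w ∧ dist w x ≤ (lam + 2) * R ∧ OnF (2 * lam * s) σ w := by
  have hl := hL.one_le
  obtain ⟨D, hD⟩ : ∃ D, D = d / (4 * lam) := ⟨_, rfl⟩
  rw [← hD]
  have e1 : 4 * lam * D = d := by rw [hD]; field_simp
  have n1 : 2 * s ≤ σ := by nlinarith
  have n2 : σ ≤ D := le_of_mul_le_mul_left (hd.trans e1.ge) (by positivity)
  have hD0 : 0 < D := by linarith
  have n3 : 2 * D ≤ R := by
    obtain ⟨p, hp, q, hq, h⟩ := hαd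
    have h1 : dist p x ≤ R := hαR hp
    have h2 : dist q x ≤ R := hαR hq
    nlinarith [dist_triangle_right p q x]
  have hR : 0 < R := by linarith
  have n4 : R ≤ lam * R := le_mul_of_one_le_left hR.le hl
  have st : ∀ p, dist p x ≤ (lam + 3) * R → p ∈ St ξ 7 := fun p h => hU h
  obtain ⟨Gd, hGd⟩ : ∃ Gd : Set (Vx P H), ∀ y, y ∈ Gd ↔
      ∃ v : P, y = bl v ∧ dist (v : Z) x ≤ (lam + 2) * R ∧ closedBall (v : Z) s ⊆ In :=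
    ⟨{y | _}, fun _ => Iff.rfl⟩
  obtain ⟨a₀, ha₀, -⟩ := id hαd
  obtain ⟨e₀, he₀, hx₀⟩ := hER
  obtain ⟨A₀, hA₀⟩ : ∃ A₀, A₀ = {y | Con A.Γ Gd (A.β a₀) y} := ⟨_, rfl⟩
  have sub : A₀ ⊆ Gd := fun y hy => by
    rw [hA₀] at hy
    exact Con.right_mem hy
  have g1 : ∀ p ∈ α, A.β p ∈ A₀ := fun p hp => by
    rw [hA₀]
    refine (A.S_cn α hα _ ⟨a₀, ha₀, A.β_mem _⟩ _ ⟨p, hp, A.β_mem _⟩).mono ?_
    rintro y ⟨q, hq, hy⟩
    have h1 : dist q x ≤ R := hαR hq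
    obtain ⟨v, rfl, hv⟩ := A.nc_blob (st q (by linarith)) hy
    refine (hGd _).2 ⟨v, rfl, by linarith [dist_triangle_left (v : Z) x q], fun w hw => ?_⟩
    refine hαI q hq (mem_closedBall.2 ?_)
    linarith [mem_closedBall.1 hw, dist_triangle w v q, dist_comm q v]
  have g2 : {y | ∃ p ∈ E, y ∈ A.S p} ⊆ A₀ᶜ := by
    rintro y ⟨p, hp, hy⟩ h
    obtain ⟨v, rfl, h1, h2⟩ := (hGd y).1 (sub h)
    rcases A.S_sub p _ hy with ⟨w, e, h3⟩ | ⟨b, e, -⟩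
    · obtain rfl : v = w := by simpa using e
      exact hEI p hp (by linarith [dist_triangle p v x]) (mem_closedBall'.2 h3)
        (h2 (mem_closedBall_self hs.le))
    · cases e
  obtain ⟨Y, hY⟩ : ∃ Y, Y = {v | Con A.Γ A₀ᶜ (A.β e₀) v ∧ ∃ a ∈ A₀, A.Γ.Adj a v} := ⟨_, rfl⟩
  have cY : Cn A.Γ Y := hY ▸ A.uc A₀ _ (hA₀ ▸ cn_reach _) (g2 ⟨e₀, he₀, A.β_mem _⟩)
  have g3 : ∀ (S : Set Z), ∀ e ∈ E, ∀ a ∈ α, JoinedIn S e a → ∃ p ∈ S, ∃ y ∈ A.S p, y ∈ Y := by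
    intro S e he a ha h
    obtain ⟨π, h1, h2, h3, h4⟩ := joined_set h
    obtain ⟨w, -, hw, h5⟩ := (A.S_cn π h2 _ ⟨e, h3, A.β_mem _⟩ _ ⟨a, h4, A.β_mem _⟩).exists_first
      (P := fun y => y ∈ A₀) (g1 a ha)
    rcases h5 with rfl | ⟨u, h5, h6⟩
    · exact absurd hw (g2 ⟨e, he, A.β_mem _⟩)
    · obtain ⟨p, hp, hu⟩ := h6.right_mem.1
      refine ⟨p, h1 hp, u, hu, ?_⟩
      rw [hY]
      exact ⟨((A.S_cn E hE _ ⟨e₀, he₀, A.β_mem _⟩ _ ⟨e, he, A.β_mem _⟩).mono g2).trans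
        (h6.mono inter_subset_right), w, hw, h5.symm⟩
  have g4 : ∀ z, .inr z ∉ Y := fun z h => by
    rw [hY] at h
    obtain ⟨-, a, ha, h⟩ := h
    obtain ⟨v, rfl, h1, -⟩ := (hGd a).1 (sub ha)
    exact A.nc_not_zone (st v (by linarith)) z h
  have g5 : ∀ w : P, bl w ∈ Y → dist (w : Z) x ≤ (lam + 2) * R → Xb In s (w : Z) := by
    intro w h hw
    rw [hY] at h
    obtain ⟨h1, a, ha, h⟩ := h
    obtain ⟨v, rfl, h2, h3⟩ := (hGd a).1 (sub ha)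
    refine ⟨⟨v, h3 (mem_closedBall_self hs.le), (dist_comm _ _).trans_le (A.adj v w h)⟩, ?_⟩
    by_contra hc
    refine h1.right_mem ?_
    have h4 := sub ha
    rw [hA₀] at ha ⊢
    refine KP2.Con.trans ha (Con.of_adj h h4 ((hGd _).2 ⟨w, rfl, hw, fun p hp => ?_⟩))
    exact by_contra fun k => hc ⟨p, k, mem_closedBall'.1 hp⟩
  have g6 : ∀ p, ∀ y ∈ A.S p, y ∈ Y → ∃ v : P, bl v ∈ Y ∧ dist p v ≤ s := fun p y hy h => by
    rcases A.S_sub p _ hy with ⟨w, rfl, h3⟩ | ⟨b, rfl, -⟩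
    · exact ⟨w, h, h3⟩
    · exact absurd h (g4 _)
  obtain ⟨b₀, hb₀, db₀⟩ : ∃ v : P, bl v ∈ Y ∧ dist (v : Z) x ≤ lam * R + s := by
    obtain ⟨p, hp, y, hy, h⟩ := g3 _ e₀ he₀ a₀ ha₀ (hL.l1 x R e₀ a₀ hR hx₀ (hαR ha₀))
    obtain ⟨v, h1, h2⟩ := g6 p y hy h
    exact ⟨v, h1, by linarith [mem_closedBall.1 hp, dist_triangle_left (v : Z) x p]⟩
  obtain ⟨b₁, hb₁, db₁⟩ : ∃ v : P, bl v ∈ Y ∧ D ≤ dist (b₀ : Z) v := by
    obtain ⟨e, he, h1⟩ := ncc_far hEd (b₀ : Z)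
    obtain ⟨a, ha, h2⟩ := ncc_far hαd (b₀ : Z)
    obtain ⟨p, hp, y, hy, h⟩ := g3 _ e he a ha
      (hL.l2 b₀ (2 * D) e a (by positivity) (by linarith) (by linarith))
    obtain ⟨v, h3, h4⟩ := g6 p y hy h
    have h5 : 2 * D < dist p b₀ := not_le.1 hp
    exact ⟨v, h3, by linarith [dist_triangle_right p b₀ v]⟩
  obtain ⟨Ch, hCh⟩ : ∃ Ch : P → Prop, ∀ w, Ch w ↔ dist (b₀ : Z) w < D ∧ ∃ (k : ℕ) (z : ℕ → Z),
      (∀ i ≤ k, Xb In s (z i) ∧ dist (z i) x ≤ (lam + 2) * R) ∧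
      (∀ i < k, dist (z i) (z (i + 1)) ≤ σ) ∧ z 0 = b₀ ∧ z k = w := ⟨_, fun _ => Iff.rfl⟩
  by_contra hc
  rw [not_or] at hc
  have ext : ∀ w w' : P, Ch w → bl w' ∈ Y → dist (w : Z) w' ≤ σ → Ch w' := by
    intro w w' h hw' hd'
    obtain ⟨h1, k, z, h2, h3, h4, h5⟩ := (hCh w).1 h
    have h6 : dist (w' : Z) x ≤ (lam + 2) * R := by
      linarith [dist_triangle4 (w' : Z) w b₀ x, dist_comm (w : Z) w', dist_comm (w : Z) b₀]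
    obtain ⟨z', k1, k2, k3, k4⟩ := ncc_ext (Q := fun p => Xb In s p ∧ dist p x ≤ (lam + 2) * R)
      h2 h3 ⟨g5 w' hw' h6, h6⟩ (h5 ▸ hd')
    refine (hCh w').2 ⟨not_le.1 fun h7 => hc.1 ⟨k + 1, z', k1, k2, ?_⟩,
      k + 1, z', k1, k2, k3.trans h4, k4⟩
    rwa [k3, h4, k4]
  have fin := (cY _ hb₀ _ hb₁).induction
    (P := fun y => ∃ w, Ch w ∧ (y = bl w ∨ ∃ h, y = ho h ∧ A.Γ.Adj (bl w) (ho h)))
    ⟨b₀, (hCh _).2 ⟨by rwa [dist_self], 0, fun _ => b₀,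
      fun _ _ => ⟨g5 _ hb₀ (by linarith), by linarith⟩, fun _ h => absurd h (Nat.not_lt_zero _),
      rfl, rfl⟩, Or.inl rfl⟩ (by
      rintro y - ((w' | h') | z) hy' hyy ⟨w, hw, rfl | ⟨h, rfl, hh⟩⟩
      · exact ⟨w', ext w w' hw hy' ((A.adj w w' hyy).trans (by linarith)), Or.inl rfl⟩
      · refine ⟨w', ext w w' hw hy' (le_of_not_ge fun k => hc.2 ?_), Or.inl rfl⟩
        obtain ⟨-, n, z, h2, -, -, h5⟩ := (hCh w).1 hw
        obtain ⟨h6, h7⟩ := h5 ▸ h2 n le_rfl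
        refine ⟨w, h6, h7, A.onF hL hs hh hyy.symm hσ k fun p hp => st p ?_⟩
        linarith [mem_closedBall.1 hp, dist_triangle p w x]
      · exact ⟨w, hw, Or.inr ⟨h', rfl, hyy⟩⟩
      · exact absurd hyy (A.hh h h')
      · exact absurd hy' (g4 z)
      · exact absurd hy' (g4 z))
  obtain ⟨w, hw, e | ⟨h, e, -⟩⟩ := fin
  · obtain rfl : b₁ = w := by simpa using e
    exact absurd ((hCh _).1 hw).1 (not_lt.2 db₁)
  · cases e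

end KCH
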