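import Pool.Agent.Lib.MP_e1e491_gt.CH.Defs
import Pool.Agent.Lib.MP_e1e491_gt.CC.TilD

/-! Definitions for the non-crossing estimate. -/

namespace KCH

open Set Metric KP2 KCC MeasureTheory Filter Topology
open scoped Classical

noncomputable section

/-- Two bilipschitz homeomorphisms. -/
structure Pr (Z : Type) [MetricSpace Z] (L : ℝ) where
  F : Bool → Z ≃ₜ Z
  one_le : 1 ≤ L
  le : ∀ j x y, dist (F j x) (F j y) ≤ L * dist x y
  ge : ∀ j x y, dist x y ≤ L * dist (F j x) (F j y)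

/-- The size of the region. -/
def Lam (lam L : ℝ) : ℝ := 20 * lam ^ 2 * L ^ 3

/-- Points in and outside `In` are near `w`. -/
def Xb {Z : Type} [MetricSpace Z] (In : Set Z) (s : ℝ) (w : Z) : Prop :=
  (∃ p ∈ In, dist w p ≤ s) ∧ ∃ p, p ∉ In ∧ dist w p ≤ s

/-- A long chain with short steps along the border of `In`. -/
def Chn {Z : Type} [MetricSpace Z] (In : Set Z) (s : ℝ) (x : Z) (R σ D : ℝ) : Prop :=
  ∃ (k : ℕ) (z : ℕ → Z), (∀ i ≤ k, Xb In s (z i) ∧ dist (z i) x ≤ R) ∧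
    (∀ i < k, dist (z i) (z (i + 1)) ≤ σ) ∧ D ≤ dist (z 0) (z k)

/-- `w` lies on a nearly flat set of size `σ`. -/
def OnF {Z : Type} [MetricSpace Z] (η σ : ℝ) (w : Z) : Prop :=
  ∃ α, NF η α ∧ w ∈ α ∧ α ⊆ closedBall w (2 * σ) ∧ ∃ q ∈ α, σ ≤ dist w q

/-- A gauge for the walks of extent `ρ` that start in the ball of radius `R` about `x`. -/
def LG {Z : Type} [MetricSpace Z] {P : Finset Z} (G : SimpleGraph P) (W : P → ℝ) (x : Z)
    (R ρ : ℝ) : Prop :=
  (∀ v, 0 ≤ W v) ∧ ∀ (S : Set P) (a b : P), Con G S a b → dist x a ≤ R → ρ ≤ dist (a : Z) b →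
    1 ≤ wt W S

namespace TH

variable {Z : Type} [MetricSpace Z] {ξ : Z → ℝ} {δ : ℝ} {P : Finset Z} {H : Type} [Fintype H]
  {B r lam L : ℝ} (T : TH ξ δ P H B r lam) (Q : Pr Z L)

/-- The pair of levels. -/
def Ψ (x : Z) : Pl := fun j => T.u (Q.F j x)

/-- The position of an atom. -/
def pos (i : Bool × P) : Pl := T.Ψ Q ((Q.F i.1).symm i.2)

/-- The weight near the other image. -/
def o (j : Bool) (v : P) : ℝ :=
  wt T.m {w | dist (Q.F (!j) ((Q.F j).symm v)) w ≤ (lam * L ^ 2 + 1) * (B * r)}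

/-- The mass of an atom. -/
def mass (i : Bool × P) : ℝ := (T.m i.2 ^ 2 + T.o Q i.1 i.2 ^ 2) / T.E

/-- The atoms in a box. -/
def Box (q : Pl) (s : ℝ) (j : Bool) : Set P := {v | dist (T.pos Q (j, v)) q ≤ s}

/-- The atoms in an annulus. -/
def Ann (q : Pl) (s : ℝ) (j : Bool) : Set P :=
  {v | s / 4 < dist (T.pos Q (j, v)) q ∧ dist (T.pos Q (j, v)) q ≤ 4 * s}

/-- The points over a box. -/
def In (q : Pl) (s : ℝ) : Set Z := {p | dist (T.Ψ Q p) q ≤ s}

/-- The local situation at the point `x` and the scale `ρ`. -/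
structure Loc (x : Z) (ρ e a : ℝ) : Prop where
  ρ_pos : 0 < ρ
  a_pos : 0 < a
  reg : closedBall x (Lam lam L * ρ) ⊆ St ξ 4
  regF : ∀ j, closedBall (Q.F j x) (Lam lam L * ρ) ⊆ St ξ 4
  δ_ge : Lam lam L * ρ ≤ δ
  nr : T.Nr e a
  fc : T.FC e a
  b_e : Lam lam L * (B * r) ≤ e
  b_ρ : Lam lam L * (B * r) ≤ ρ

end TH

/-- The plane as a product. -/
def pr (q : Pl) : ℝ × ℝ := (q false, q true)

theorem dist_pr (p q : Pl) : dist (pr p) (pr q) = dist p q := by
  refine eq_of_forall_ge_iff fun s => ?_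
  rcases lt_or_ge s 0 with h | h
  · exact iff_of_false (not_le.2 (h.trans_le dist_nonneg)) (not_le.2 (h.trans_le dist_nonneg))
  · rw [dist_pi_le_iff h, Prod.dist_eq, max_le_iff, Bool.forall_bool]
    rfl

end

end KCH
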