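import Pool.Agent.Lib.MP_e1e491_gt.CH.NcB
import Pool.Agent.Lib.MP_e1e491_gt.CH.NcC

/-! The chain around a box. -/

namespace KCH

open Set Metric KP2 KCC MeasureTheory Filter Topology
open scoped Classical

variable {Z : Type} [MetricSpace Z] {ξ : Z → ℝ} {δ : ℝ} {P : Finset Z} {H : Type} [Fintype H]
  {B r lam L : ℝ} {T : TH ξ δ P H B r lam} {Q : Pr Z L}
  {x : Z} {ρ e a : ℝ}

theorem nce_line (T : TH ξ δ P H B r lam) {lo hi : ℝ} (h0 : 0 ≤ lo) (h1 : lo < hi) (h2 : hi ≤ 1) :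
    ∃ t ∈ Ioo lo hi, T.Ln t := by
  obtain ⟨t, ht, h⟩ := Measure.exists_mem_of_measure_ne_zero_of_ae (μ := volume) (s := Ioo lo hi)
    (by simpa using h1) (ae_restrict_of_ae T.ht.line)
  have h3 : t ∈ Ioo (0 : ℝ) 1 := ⟨h0.trans_lt ht.1, ht.2.trans_le h2⟩
  exact ⟨t, ht, h3, h h3⟩

theorem nce_num {lam L : ℝ} (h1 : 1 ≤ lam) (h2 : 1 ≤ L) :
    1 ≤ L ∧ L ≤ lam * L ∧ lam ≤ lam * L ∧ lam * L ≤ lam * L ^ 2 ∧ lam * L ^ 2 ≤ lam ^ 2 * L ^ 2 ∧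
      lam ^ 2 * L ^ 2 ≤ lam ^ 2 * L ^ 3 := by
  have h3 : 0 ≤ lam := zero_le_one.trans h1
  have h4 : 0 ≤ L := zero_le_one.trans h2
  refine ⟨h2, le_mul_of_one_le_left h4 h1, le_mul_of_one_le_right h3 h2, ?_, ?_, ?_⟩
  · exact mul_le_mul_of_nonneg_left (le_self_pow₀ h2 two_ne_zero) h3
  · exact mul_le_mul_of_nonneg_right (le_self_pow₀ h1 two_ne_zero) (sq_nonneg L)
  · exact mul_le_mul_of_nonneg_left (pow_le_pow_right₀ h2 (by norm_num)) (sq_nonneg lam)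

theorem nce_mul {lam L t : ℝ} (h1 : 1 ≤ lam) (h2 : 1 ≤ L) (ht : 0 ≤ t) :
    t ≤ L * t ∧ L * t ≤ lam * L * t ∧ lam * t ≤ lam * L * t ∧ lam * L * t ≤ lam * L ^ 2 * t ∧
      lam * L ^ 2 * t ≤ lam ^ 2 * L ^ 2 * t ∧ lam ^ 2 * L ^ 2 * t ≤ lam ^ 2 * L ^ 3 * t ∧
      Lam lam L * t = 20 * (lam ^ 2 * L ^ 3 * t) := by
  obtain ⟨a1, a2, a3, a4, a5, a6⟩ := nce_num h1 h2
  exact ⟨le_mul_of_one_le_left ht a1, mul_le_mul_of_nonneg_right a2 ht,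
    mul_le_mul_of_nonneg_right a3 ht, mul_le_mul_of_nonneg_right a4 ht,
    mul_le_mul_of_nonneg_right a5 ht, mul_le_mul_of_nonneg_right a6 ht, by rw [Lam]; ring⟩

/-- A line that passes near the image of `x` and whose height is far from the level of `p`. -/
theorem nce_meet (h : T.Loc Q x ρ e a) {p o : Z} (hp : dist p x ≤ ρ) (ho : dist o x ≤ 2 * ρ)
    {ε : ℝ} (hε : 0 < ε) {j : Bool} (hd : ε / 2 < |T.u (Q.F j o) - T.u (Q.F j p)|) :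
    ∃ t, T.Ln t ∧ ε / 4 ≤ |t - T.u (Q.F j p)| ∧
      ∃ v ∈ T.V t, dist (v : Z) (Q.F j x) ≤ 2 * (lam * L * ρ) + B * r := by
  have hρ := h.ρ_pos
  have hL : 0 ≤ L := zero_le_one.trans Q.one_le
  obtain ⟨r1, r2, r3, r4, r5, r6, r7⟩ := nce_mul T.ll.one_le Q.one_le hρ.le
  have k1 : dist (Q.F j p) (Q.F j x) ≤ 2 * (L * ρ) := by
    have := (Q.le j p x).trans (mul_le_mul_of_nonneg_left hp hL)
    linarith
  have k2 : dist (Q.F j o) (Q.F j x) ≤ 2 * (L * ρ) := by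
    have := (Q.le j o x).trans (mul_le_mul_of_nonneg_left ho hL)
    linarith
  obtain ⟨E, e1, e2, e3, e4⟩ := joined_set (T.ll.l1 (Q.F j x) _ _ _ (by linarith) k1 k2)
  have e5 : lam * (2 * (L * ρ)) = 2 * (lam * L * ρ) := by ring
  rw [e5] at e1
  have e6 : E ⊆ St ξ 7 := e1.trans ((closedBall_subset_closedBall (by linarith)).trans
    ((h.regF j).trans (St.mono (by norm_num))))
  have key : ∀ t, (∃ v ∈ T.V t, ∃ z ∈ E, dist z v ≤ B * r) →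
      ∃ v ∈ T.V t, dist (v : Z) (Q.F j x) ≤ 2 * (lam * L * ρ) + B * r := by
    rintro t ⟨v, hv, z, hz, k⟩
    have k3 : dist z (Q.F j x) ≤ 2 * (lam * L * ρ) := e1 hz
    exact ⟨v, hv, by linarith [dist_triangle_left (v : Z) (Q.F j x) z]⟩
  have u1 := T.nc_u_mem (Q.F j p)
  have u2 := T.nc_u_mem (Q.F j o)
  rcases lt_abs.1 hd with k | k
  · obtain ⟨t, ht, hl⟩ := nce_line T (lo := T.u (Q.F j p) + ε / 4) (hi := T.u (Q.F j p) + ε / 2)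
      (by linarith [u1.1]) (by linarith) (by linarith [u2.2])
    exact ⟨t, hl, le_abs.2 (Or.inl (by linarith [ht.1])),
      key t (TH.nc_meet hl e6 e2 e3 e4 (by linarith [ht.1]) (by linarith [ht.2]))⟩
  · obtain ⟨t, ht, hl⟩ := nce_line T (lo := T.u (Q.F j p) - ε / 2) (hi := T.u (Q.F j p) - ε / 4)
      (by linarith [u2.1]) (by linarith) (by linarith [u1.2])
    exact ⟨t, hl, le_abs.2 (Or.inr (by linarith [ht.2])),
      key t (TH.nc_meet hl e6 e2 e4 e3 (by linarith [ht.1]) (by linarith [ht.2]))⟩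

/-- A long connected set near `x` whose levels are far from those of `p`. -/
theorem TH.Loc.far (h : T.Loc Q x ρ e a) {p o : Z} (hp : dist p x ≤ ρ) (ho : dist o x ≤ 2 * ρ)
    {ε : ℝ} (hε : 0 < ε) (hd : ε / 2 < dist (T.Ψ Q o) (T.Ψ Q p)) : ∃ E, IsPreconnected E ∧
      (∃ y ∈ E, ∃ y' ∈ E, ρ ≤ dist y y') ∧ (∃ y ∈ E, dist y x ≤ 3 * lam * L ^ 2 * ρ) ∧
      ∀ y ∈ E, dist y x ≤ 12 * lam ^ 2 * L ^ 2 * ρ → ∀ y', dist y' y ≤ B * r →
        ε / 4 - 2 * a ≤ dist (T.Ψ Q y') (T.Ψ Q p) := by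
  have hρ := h.ρ_pos
  have hb := T.nc_b_pos
  have hL : 0 < L := one_pos.trans_le Q.one_le
  obtain ⟨r1, r2, r3, r4, r5, r6, r7⟩ := nce_mul T.ll.one_le Q.one_le hρ.le
  obtain ⟨b1, b2, b3, b4, b5, b6, b7⟩ := nce_mul T.ll.one_le Q.one_le hb.le
  have d1 := h.δ_ge
  have d2 := h.b_e
  have d3 := h.b_ρ
  obtain ⟨j, hj⟩ : ∃ j, ε / 2 < |T.u (Q.F j o) - T.u (Q.F j p)| := by
    by_contra k
    refine hd.not_ge ((dist_pi_le_iff (by linarith)).2 fun j => ?_)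
    exact not_lt.1 fun k' => k ⟨j, k'⟩
  obtain ⟨t, hl, ht, v, hv, k1⟩ := nce_meet h hp ho hε hj
  refine ⟨(Q.F j).symm '' T.cl t, (TH.nc_cl_conn hl).image _ (Q.F j).symm.continuous.continuousOn,
    ?_, ⟨_, mem_image_of_mem _ (TH.nc_mem_cl hv), ?_⟩, ?_⟩
  · obtain ⟨v', hv', k2⟩ := TH.nc_long hl (v : Z)
    refine ⟨_, mem_image_of_mem _ (TH.nc_mem_cl hv), _, mem_image_of_mem _ (TH.nc_mem_cl hv'),
      le_of_mul_le_mul_left ?_ hL⟩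
    have k3 := Q.le j ((Q.F j).symm v) ((Q.F j).symm v')
    rw [Homeomorph.apply_symm_apply, Homeomorph.apply_symm_apply] at k3
    linarith
  · have k3 := Q.ge j ((Q.F j).symm v) x
    rw [Homeomorph.apply_symm_apply] at k3
    have k4 := mul_le_mul_of_nonneg_left k1 hL.le
    have k5 : L * (2 * (lam * L * ρ) + B * r) = 2 * (lam * L ^ 2 * ρ) + L * (B * r) := by ring
    linarith
  · rintro _ ⟨z, hz, rfl⟩ k2 y' k3
    obtain ⟨w, hw, k4⟩ := TH.nc_cl_near hz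
    have k5 := Q.le j y' ((Q.F j).symm z)
    rw [Homeomorph.apply_symm_apply] at k5
    have k6 := mul_le_mul_of_nonneg_left k3 hL.le
    have k7 := mul_le_mul_of_nonneg_left
      ((dist_triangle y' _ x).trans (add_le_add k3 k2)) hL.le
    have k8 : L * (B * r + 12 * lam ^ 2 * L ^ 2 * ρ) = L * (B * r) + 12 * (lam ^ 2 * L ^ 3 * ρ) := by
      ring
    have k9 := TH.nc_lev h.nr hl hw (St.mono (by norm_num) (h.mem (p := y') (by linarith) j))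
      (by linarith [dist_triangle (Q.F j y') z w])
    refine le_trans ?_ (dist_le_pi_dist _ _ j)
    have k10 := abs_sub_le t (T.u (Q.F j y')) (T.u (Q.F j p))
    rw [abs_sub_comm t (T.u (Q.F j y'))] at k10
    change _ ≤ |T.u (Q.F j y') - T.u (Q.F j p)|
    linarith

theorem TH.Loc.chn (h : T.Loc Q x ρ e a) {η c σ ε s : ℝ} {α : Set Z} (hα : NF η α)
    (hη : L * η ≤ e) (hx : α ⊆ closedBall x ρ) (hc : c ≤ 1)
    (hext : ∃ y ∈ α, ∃ y' ∈ α, c * ρ ≤ dist y y') {p o : Z} (hp : p ∈ α) (ho : dist o x ≤ 2 * ρ)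
    (hε : 0 < ε) (hd : ε / 2 < dist (T.Ψ Q o) (T.Ψ Q p)) (hσ : (lam + 1) * (B * r) ≤ σ)
    (hσ' : 4 * lam * σ ≤ c * ρ) {Y : Finset Pl}
    (hY : ∀ w, dist w x ≤ 9 * lam ^ 2 * L ^ 2 * ρ → OnF (2 * lam * (B * r)) σ w →
      ∃ q ∈ Y, dist (T.Ψ Q w) q ≤ 2 * a)
    (h1 : 2 * a ≤ s) (h2 : s + 2 * a < ε / 4) (h3 : ∀ q ∈ Y, 3 * a < |dist q (T.Ψ Q p) - s|) :
    Chn (T.In Q (T.Ψ Q p) s) (B * r) x (9 * lam ^ 2 * L ^ 2 * ρ) σ (c * ρ / (4 * lam)) := by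
  have hρ := h.ρ_pos
  have hb := T.nc_b_pos
  have hL : 0 < L := one_pos.trans_le Q.one_le
  obtain ⟨r1, r2, r3, r4, r5, r6, r7⟩ := nce_mul T.ll.one_le Q.one_le hρ.le
  obtain ⟨b1, b2, b3, b4, b5, b6, b7⟩ := nce_mul T.ll.one_le Q.one_le hb.le
  have d2 := h.b_e
  obtain ⟨E, e1, ⟨y, hy, y', hy', e2⟩, e3, e4⟩ := h.far (hx hp) ho hε hd
  have k1 : (lam + 3) * (3 * lam * L ^ 2 * ρ) ≤ 12 * lam ^ 2 * L ^ 2 * ρ := by linarith
  have k2 : (lam + 2) * (3 * lam * L ^ 2 * ρ) ≤ 9 * lam ^ 2 * L ^ 2 * ρ := by linarith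
  have k3 : ∀ q ∈ α, L * dist q x ≤ Lam lam L * ρ := fun q hq => by
    have := mul_le_mul_of_nonneg_left (mem_closedBall.1 (hx hq)) hL.le
    linarith
  rcases T.toHG.chain T.ll hb (In := T.In Q (T.Ψ Q p) s) (R := 3 * lam * L ^ 2 * ρ) hα.nc_conn e1
    (hx.trans (closedBall_subset_closedBall (by linarith))) hext
    ⟨y, hy, y', hy', (mul_le_of_le_one_left hρ.le hc).trans e2⟩ e3
    (fun q hq z hz => by
      have a1 := mul_le_mul_of_nonneg_left (mem_closedBall'.1 hz) hL.le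
      have a2 := h.near (p' := z) (k3 q hq) (by linarith)
      have a3 := h.nf hα hη k3 hq hp
      have a4 := dist_triangle_left (T.Ψ Q z) (T.Ψ Q p) (T.Ψ Q q)
      change dist (T.Ψ Q z) (T.Ψ Q p) ≤ s
      linarith)
    (fun q hq k z hz k' => by
      have a1 := e4 q hq (k.trans k1) z hz
      have a2 : dist (T.Ψ Q z) (T.Ψ Q p) ≤ s := k'
      linarith)
    ((closedBall_subset_closedBall (by linarith)).trans (h.reg.trans (St.mono (by norm_num))))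
    hσ hσ' with ⟨k, z, a1, a2⟩ | ⟨w, ⟨⟨p1, a1, a2⟩, p2, a3, a4⟩, a5, a6⟩
  · exact ⟨k, z, fun i hi => ⟨(a1 i hi).1, (a1 i hi).2.trans k2⟩, a2⟩
  · obtain ⟨q, hq, a7⟩ := hY w (a5.trans k2) a6
    have a8 := mul_le_mul_of_nonneg_left (a5.trans k2) hL.le
    have a9 : L * (9 * lam ^ 2 * L ^ 2 * ρ) = 9 * (lam ^ 2 * L ^ 3 * ρ) := by ring
    have c1 := h.near (p := w) (p' := p1) (by linarith)
      (by linarith [mul_le_mul_of_nonneg_left a2 hL.le])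
    have c2 := h.near (p := w) (p' := p2) (by linarith)
      (by linarith [mul_le_mul_of_nonneg_left a4 hL.le])
    have c3 : dist (T.Ψ Q p1) (T.Ψ Q p) ≤ s := a1
    have c4 : s < dist (T.Ψ Q p2) (T.Ψ Q p) := not_le.1 a3
    have c5 := dist_triangle_left q (T.Ψ Q p) (T.Ψ Q w)
    have c6 := dist_triangle (T.Ψ Q w) (T.Ψ Q p1) (T.Ψ Q p)
    have c7 := dist_triangle_left (T.Ψ Q p2) (T.Ψ Q p) (T.Ψ Q w)
    have c8 := dist_triangle (T.Ψ Q w) q (T.Ψ Q p)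
    exact absurd (h3 q hq) (not_lt.2 (abs_le.2 ⟨by linarith, by linarith⟩))

end KCH
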