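import Pool.Agent.Lib.MP_e1e491_gt.CH.NcD

/-! The neighbours of a hole. -/

namespace KCH

open Set Metric KP2 KCC MeasureTheory Filter Topology
open scoped Classical

variable {Z : Type} [MetricSpace Z] {ξ : Z → ℝ} {P : Finset Z} {H : Type} {s lam : ℝ}

theorem nch_arc {S : Set Z} {x y : Z} (h : JoinedIn S x y) :
    ∃ E, IsCompact E ∧ IsPathConnected E ∧ E ⊆ S ∧ x ∈ E ∧ y ∈ E :=
  ⟨range h.somePath, isCompact_range h.somePath.continuous,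
    h.somePath.extend_range ▸ isPathConnected_range h.somePath.continuous_extend,
    range_subset_iff.2 h.somePath_mem,
    h.somePath.source_mem_range, h.somePath.target_mem_range⟩

theorem nch_two (hL : LL Z lam) (hs : 0 < s) {x y z : Z} (hy : dist x y ≤ s) (hz : dist x z ≤ s) :
    ∃ E, IsCompact E ∧ IsPathConnected E ∧ E ⊆ closedBall x (lam * s) ∧ x ∈ E ∧ y ∈ E ∧ z ∈ E := by
  have h0 : dist x x ≤ s := by rw [dist_self]; exact hs.le
  obtain ⟨E, e1, e2, e3, e4, e5⟩ := nch_arc (hL.l1 x s x y hs h0 ((dist_comm _ _).trans_le hy))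
  obtain ⟨F, f1, f2, f3, f4, f5⟩ := nch_arc (hL.l1 x s x z hs h0 ((dist_comm _ _).trans_le hz))
  exact ⟨E ∪ F, e1.union f1, e2.union f2 ⟨x, e4, f4⟩, union_subset e3 f3, Or.inl e4, Or.inl e5,
    Or.inr f5⟩

/-- A chain of points near a flat set is followed by a nearly flat set. -/
theorem nf_of_chain (hL : LL Z lam) (hs : 0 < s) {A : Set Z} (hA : Flat A) (k : ℕ) (c : ℕ → Z)
    (h1 : ∀ i < k, dist (c i) (c (i + 1)) ≤ s) (h2 : ∀ i ≤ k, ∃ b ∈ A, dist (c i) b ≤ s) :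
    ∃ α, NF (2 * lam * s) α ∧ (∀ i ≤ k, c i ∈ α) ∧ ∀ p ∈ α, ∃ i ≤ k, dist p (c i) ≤ lam * s := by
  have key : ∀ i, ∃ E : Set Z, i ≤ k → IsCompact E ∧ IsPathConnected E ∧
      E ⊆ closedBall (c i) (lam * s) ∧ c i ∈ E ∧ (∃ b ∈ A, b ∈ E) ∧ (i < k → c (i + 1) ∈ E) := by
    intro i
    by_cases hi : i ≤ k
    · obtain ⟨b, hb, hd⟩ := h2 i hi
      by_cases hk : i < k
      · obtain ⟨E, e1, e2, e3, e4, e5, e6⟩ := nch_two hL hs hd (h1 i hk)
        exact ⟨E, fun _ => ⟨e1, e2, e3, e4, ⟨b, hb, e5⟩, fun _ => e6⟩⟩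
      · obtain ⟨E, e1, e2, e3, e4, e5, -⟩ := nch_two hL hs hd hd
        exact ⟨E, fun _ => ⟨e1, e2, e3, e4, ⟨b, hb, e5⟩, fun h => absurd h hk⟩⟩
    · exact ⟨∅, fun h => absurd h hi⟩
  choose E hE using key
  have sub : ∀ i ≤ k, E i ⊆ ⋃ i ∈ Iic k, E i := fun i hi => subset_biUnion_of_mem (u := E) hi
  have jn : ∀ i ≤ k, JoinedIn (⋃ i ∈ Iic k, E i) (c 0) (c i) := by
    intro i
    induction i with
    | zero => exact fun h => JoinedIn.refl (sub 0 h (hE 0 h).2.2.2.1)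
    | succ i ih =>
      intro h
      have h' : i ≤ k := Nat.le_of_succ_le h
      obtain ⟨-, e2, -, e4, -, e6⟩ := hE i h'
      exact (ih h').trans ((e2.joinedIn _ e4 _ (e6 h)).mono (sub i h'))
  have jp : ∀ x ∈ ⋃ i ∈ Iic k, E i, JoinedIn (⋃ i ∈ Iic k, E i) (c 0) x := by
    intro x hx
    obtain ⟨i, hi, hx⟩ := mem_iUnion₂.1 hx
    obtain ⟨-, e2, -, e4, -⟩ := hE i hi
    exact (jn i hi).trans ((e2.joinedIn _ e4 _ hx).mono (sub i hi))
  refine ⟨⋃ i ∈ Iic k, E i, ⟨(finite_Iic k).isCompact_biUnion fun i hi => (hE i hi).1,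
    fun x hx y hy => (jp x hx).symm.trans (jp y hy), A, hA, fun x hx => ?_⟩,
    fun i hi => sub i hi (hE i hi).2.2.2.1, fun p hp => ?_⟩
  · obtain ⟨i, hi, hx⟩ := mem_iUnion₂.1 hx
    obtain ⟨-, e2, e3, -, ⟨b, hb, e5⟩, -⟩ := hE i hi
    refine ⟨b, hb, (e2.joinedIn _ hx _ e5).mono fun p hp => ⟨sub i hi hp, ?_⟩⟩
    have a1 : dist p (c i) ≤ lam * s := e3 hp
    have a2 : dist x (c i) ≤ lam * s := e3 hx
    have a3 := dist_triangle_right p x (c i)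
    rw [mem_closedBall]
    linarith
  · obtain ⟨i, hi, hp⟩ := mem_iUnion₂.1 hp
    exact ⟨i, hi, (hE i hi).2.2.1 hp⟩

omit [MetricSpace Z] in
theorem nch_not_sd {x : Z} (hx : x ∈ St ξ 7) (b : Bool) : ¬ Sd ξ b x := by
  have h1 : |ξ x - 1 / 2| < 7 / 100 := hx
  rw [abs_lt] at h1
  cases b
  · intro h
    have h2 : ξ x ≤ 42 / 100 := h
    linarith [h1.1]
  · intro h
    have h2 : 58 / 100 ≤ ξ x := h
    linarith [h1.2]

/-- A blob in the middle strip is not adjacent to a zone. -/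
theorem HG.nc_not_zone (A : HG ξ P H s) {v : P} (hv : (v : Z) ∈ St ξ 7) (z : Bool × Bool) :
    ¬ A.Γ.Adj (bl v) (.inr z) := by
  obtain ⟨i, b⟩ := z
  cases i
  · exact fun h => nch_not_sd hv b (A.adjz v b h)
  · exact A.notT v b

theorem HG.nc_blob (A : HG ξ P H s) {x : Z} (hx : x ∈ St ξ 7) {y : Vx P H} (hy : y ∈ A.S x) :
    ∃ v : P, y = bl v ∧ dist x v ≤ s := by
  rcases A.S_sub x y hy with h | ⟨b, -, h⟩
  · exact h
  · exact absurd h (nch_not_sd hx b)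

theorem HG.onF (A : HG ξ P H s) (hL : LL Z lam) (hs : 0 < s) {h : H} {v w : P}
    (hv : A.Γ.Adj (bl v) (ho h)) (hw : A.Γ.Adj (bl w) (ho h)) {σ : ℝ} (hσ : (lam + 1) * s ≤ σ)
    (hd : σ ≤ dist (v : Z) w) (hU : closedBall (v : Z) σ ⊆ St ξ 7) : OnF (2 * lam * s) σ (v : Z) := by
  have hl := hL.one_le
  have hσ0 : 0 < σ := lt_of_lt_of_le (by positivity) hσ
  have := hL.preconnected
  have hY := A.uc {ho h} (bl v) (by
    rintro a rfl b rfl
    exact KP2.Con.refl rfl) (by simp)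
  have c1 : Con A.Γ ({ho h}ᶜ) (bl v) (bl w) := by
    obtain ⟨x, hx⟩ := A.surj v _ hv
    obtain ⟨x', hx'⟩ := A.surj w _ hw
    refine (A.S_cn univ isPreconnected_univ _ ⟨x, trivial, hx⟩ _ ⟨x', trivial, hx'⟩).mono ?_
    rintro y ⟨z, -, hz⟩ rfl
    rcases A.S_sub z _ hz with ⟨u, e, -⟩ | ⟨b, e, -⟩ <;> simp at e
  have c2 := hY (bl v) ⟨KP2.Con.refl c1.left_mem, _, rfl, hv.symm⟩ (bl w) ⟨c1, _, rfl, hw.symm⟩
  obtain ⟨y, hy, hP, h3⟩ := c2.exists_first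
    (P := fun y => ¬ ∃ v' : P, y = bl v' ∧ dist (v : Z) v' < σ) (by
      rintro ⟨v', e, h4⟩
      obtain rfl : w = v' := by simpa using e
      exact absurd h4 (not_lt.2 hd))
  rcases h3 with rfl | ⟨u, huy, c3⟩
  · exact absurd ⟨v, rfl, by rwa [dist_self]⟩ hP
  obtain ⟨u, rfl, hu⟩ := not_not.1 c3.right_mem.2
  obtain ⟨y, rfl⟩ : ∃ y' : P, y = bl y' := by
    rcases y with (y | y) | y
    · exact ⟨y, rfl⟩
    · obtain ⟨-, a, rfl, ha⟩ := hy
      exact absurd ha (A.hh _ _)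
    · exact absurd huy (A.nc_not_zone (hU (mem_closedBall'.2 hu.le)) y)
  have d1 : σ ≤ dist (v : Z) y := not_lt.1 fun h4 => hP ⟨y, rfl, h4⟩
  have d2 := A.adj u y huy
  have d3 := dist_triangle (v : Z) u y
  have c4 : Con A.Γ {t | ∃ v' : P, t = bl v' ∧ A.Γ.Adj (bl v') (ho h) ∧ dist (v : Z) v' ≤ σ + s}
      (bl v) (bl y) := by
    have sub : ∀ v' : P, (∃ a ∈ ({ho h} : Set (Vx P H)), A.Γ.Adj a (bl v')) →
        A.Γ.Adj (bl v') (ho h) := by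
      rintro v' ⟨a, rfl, ha⟩
      exact ha.symm
    refine (c3.mono ?_).trans (KP2.Con.of_adj huy ⟨u, rfl, sub u c3.right_mem.1.2, by linarith⟩
      ⟨y, rfl, sub y hy.2, by linarith⟩)
    rintro t ⟨h4, h5⟩
    obtain ⟨v', rfl, h6⟩ := not_not.1 h5
    exact ⟨v', rfl, sub v' h4.2, by linarith⟩
  obtain ⟨n, c, e0, en, hc, ha⟩ := con_chain c4
  let l : Vx P H → Z := Sum.elim (Sum.elim Subtype.val fun _ => v) fun _ => v
  obtain ⟨F, hF, hb⟩ := A.flat h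
  obtain ⟨α, a1, a2, a3⟩ := nf_of_chain hL hs hF n (fun i => l (c i)) (fun i hi => by
    obtain ⟨p, ep, -⟩ := hc i hi.le
    obtain ⟨q, eq, -⟩ := hc (i + 1) hi
    have h4 := ha i hi
    rw [ep, eq] at h4 ⊢
    exact A.adj p q h4) (fun i hi => by
    obtain ⟨p, ep, h4, -⟩ := hc i hi
    rw [ep]
    exact hb p h4)
  have m0 := a2 0 (Nat.zero_le n)
  have mn := a2 n le_rfl
  rw [e0] at m0
  rw [en] at mn
  refine ⟨α, a1, m0, fun p hp => ?_, y, mn, d1⟩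
  obtain ⟨i, hi, h4⟩ := a3 p hp
  obtain ⟨q, eq, -, h5⟩ := hc i hi
  rw [eq] at h4
  have h6 : dist p q ≤ lam * s := h4
  have h7 := dist_triangle_right p (v : Z) q
  rw [mem_closedBall]
  linarith

end KCH
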