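import Pool.Agent.Lib.MP_e1e491_gt.P2.Basic

/-! A set that sees a heavy square at every place and scale has small area. -/

namespace KCH

open Set Metric MeasureTheory KP2
open scoped ENNReal Classical

theorem por_cball (q : ℝ × ℝ) {s : ℝ} (hs : 0 ≤ s) :
    volume (closedBall q s) = ENNReal.ofReal (4 * s ^ 2) := by
  rw [show q = (q.1, q.2) from rfl, ← closedBall_prod_same, Measure.volume_eq_prod,
    Measure.prod_prod, Real.volume_closedBall, Real.volume_closedBall,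
    ← ENNReal.ofReal_mul (by positivity)]
  congr 1
  ring

theorem por_vit {ι : Type} (t : Set ι) (x : ι → ℝ × ℝ) (r : ι → ℝ) (R : ℝ)
    (hr : ∀ i ∈ t, 0 < r i ∧ r i ≤ R) (ν : Measure (ℝ × ℝ)) (c : ℝ≥0∞)
    (h : ∀ i ∈ t, ENNReal.ofReal (100 * r i ^ 2) ≤ c * ν (closedBall (x i) (r i))) :
    volume (⋃ i ∈ t, closedBall (x i) (r i)) ≤ c * ν univ := by
  obtain ⟨u, hu, hd, hc⟩ := Vitali.exists_disjoint_subfamily_covering_enlargement_closedBall t x r R
    (fun i hi => (hr i hi).2) 5 (by norm_num)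
  have hcount : u.Countable := hd.countable_of_nonempty_interior fun i hi =>
    ⟨x i, ball_subset_interior_closedBall (mem_ball_self (hr i (hu hi)).1)⟩
  calc volume (⋃ i ∈ t, closedBall (x i) (r i))
      ≤ volume (⋃ i ∈ u, closedBall (x i) (5 * r i)) := by
        refine measure_mono (iUnion₂_subset fun i hi => ?_)
        obtain ⟨j, hj, h1⟩ := hc i hi
        exact h1.trans (subset_biUnion_of_mem (u := fun i => closedBall (x i) (5 * r i)) hj)
    _ ≤ ∑' i : u, volume (closedBall (x i) (5 * r i)) := measure_biUnion_le _ hcount _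
    _ ≤ ∑' i : u, c * ν (closedBall (x i) (r i)) := by
        refine ENNReal.tsum_le_tsum fun i => ?_
        rw [por_cball _ (mul_nonneg (by norm_num) (hr i (hu i.2)).1.le)]
        refine le_trans (le_of_eq ?_) (h i (hu i.2))
        congr 1
        ring
    _ = c * ν (⋃ i ∈ u, closedBall (x i) (r i)) := by
        rw [ENNReal.tsum_mul_left, measure_biUnion hcount hd fun i _ => measurableSet_closedBall]
    _ ≤ c * ν univ := mul_le_mul_right (measure_mono (subset_univ _)) _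

/-- One step of the porosity argument. -/
theorem por_step {T : Set (ℝ × ℝ)} {θ e : ℝ} (hθ : 0 < θ) (hθ1 : θ ≤ 1) (he : 0 < e)
    (hT : volume (thickening (3 * e) T) ≠ ⊤)
    (h : ∀ p ∈ T, ∃ q s, dist p q ≤ 2 * e ∧ θ * e ≤ s ∧ s ≤ e ∧ Disjoint (closedBall q s) T) :
    (volume (thickening (θ * e / 2) T)).toReal ≤
      (1 - θ ^ 2 / 900) * (volume (thickening (3 * e) T)).toReal := by
  have hsub : thickening (θ * e / 2) T ⊆ thickening (3 * e) T :=
    thickening_mono (by nlinarith) T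
  have h1 := por_vit T id (fun _ => 3 * e) (3 * e) (fun _ _ => ⟨by positivity, le_rfl⟩)
    (volume.restrict (thickening (3 * e) T \ thickening (θ * e / 2) T))
    (ENNReal.ofReal (900 / θ ^ 2)) (fun p hp => by
      obtain ⟨q, s, k1, k2, k3, k4⟩ := h p hp
      have hs : 0 < s := (mul_pos hθ he).trans_le k2
      rw [Measure.restrict_apply measurableSet_closedBall]
      have k5 : closedBall q (θ * e / 2) ⊆ closedBall (id p) (3 * e) ∩
          (thickening (3 * e) T \ thickening (θ * e / 2) T) := by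
        intro w hw
        have k6 : dist w p < 3 * e := by
          have := dist_triangle_right w p q
          have := mem_closedBall.1 hw
          linarith
        refine ⟨k6.le, mem_thickening_iff.2 ⟨p, hp, k6⟩, fun k7 => ?_⟩
        obtain ⟨z, hz, k8⟩ := mem_thickening_iff.1 k7
        refine disjoint_left.1 k4 ?_ hz
        have := dist_triangle_left z q w
        have := mem_closedBall.1 hw
        rw [mem_closedBall]
        linarith
      refine le_trans (le_of_eq ?_) (mul_le_mul_right (measure_mono k5) _)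
      rw [por_cball _ (by positivity), ← ENNReal.ofReal_mul (by positivity)]
      congr 1
      field_simp
      ring)
  have h2 : thickening (3 * e) T ⊆ ⋃ p ∈ T, closedBall (id p) (3 * e) := fun w hw => by
    obtain ⟨p, hp, k⟩ := mem_thickening_iff.1 hw
    exact mem_biUnion hp k.le
  have hT' := ne_top_of_le_ne_top hT (measure_mono hsub)
  rw [Measure.restrict_apply_univ, measure_sdiff hsub isOpen_thickening.measurableSet.nullMeasurableSet
    hT'] at h1
  have h3 := ENNReal.toReal_mono (ENNReal.mul_ne_top ENNReal.ofReal_ne_top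
    (ENNReal.sub_ne_top hT)) ((measure_mono h2).trans h1)
  rw [ENNReal.toReal_mul, ENNReal.toReal_ofReal (by positivity),
    ENNReal.toReal_sub_of_le (measure_mono hsub) hT, div_mul_eq_mul_div,
    le_div_iff₀ (by positivity)] at h3
  linarith

/-- Porous sets have small area. -/
theorem por_small {θ γ e₀ : ℝ} (hθ : 0 < θ) (hγ : 0 < γ) (he : 0 < e₀) : ∃ e₁ > 0, e₁ ≤ e₀ ∧
    e₁ ≤ 1 ∧ ∀ T : Set (ℝ × ℝ), T ⊆ closedBall 0 2 → (∀ p ∈ T, ∀ e, e₁ ≤ e → e ≤ e₀ → ∃ q s,
      dist p q ≤ 2 * e ∧ θ * e ≤ s ∧ s ≤ e ∧ Disjoint (closedBall q s) T) →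
      volume T ≤ ENNReal.ofReal γ := by
  obtain ⟨ϑ, h0, h1, h2⟩ : ∃ ϑ : ℝ, 0 < ϑ ∧ ϑ ≤ 1 ∧ ϑ ≤ θ :=
    ⟨min 1 θ, lt_min one_pos hθ, min_le_left _ _, min_le_right _ _⟩
  obtain ⟨a, a0, a1, a2⟩ : ∃ a : ℝ, 0 < a ∧ a ≤ 1 ∧ a ≤ e₀ :=
    ⟨min 1 e₀, lt_min one_pos he, min_le_left _ _, min_le_right _ _⟩
  have hc : 0 ≤ 1 - ϑ ^ 2 / 900 := by nlinarith
  obtain ⟨m, hm⟩ := exists_pow_lt_of_lt_one (x := γ / 100) (y := 1 - ϑ ^ 2 / 900) (by positivity)
    (by have : 0 < ϑ ^ 2 / 900 := by positivity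
        linarith)
  have hp : ∀ j : ℕ, 0 < a * (ϑ / 6) ^ j := fun j => by positivity
  have hanti : ∀ {i j : ℕ}, i ≤ j → a * (ϑ / 6) ^ j ≤ a * (ϑ / 6) ^ i := fun h =>
    mul_le_mul_of_nonneg_left (pow_le_pow_of_le_one (by positivity) (by linarith) h) a0.le
  have ha : ∀ j : ℕ, a * (ϑ / 6) ^ j ≤ a := fun j => by simpa using hanti (Nat.zero_le j)
  refine ⟨a * (ϑ / 6) ^ m, hp m, (ha m).trans a2, (ha m).trans a1, fun T hT h => ?_⟩
  have hb : ∀ j : ℕ, volume (thickening (3 * (a * (ϑ / 6) ^ j)) T) ≤ ENNReal.ofReal 100 := by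
    intro j
    have : thickening (3 * (a * (ϑ / 6) ^ j)) T ⊆ closedBall 0 5 := fun w hw => by
      obtain ⟨p, hp', k⟩ := mem_thickening_iff.1 hw
      have := dist_triangle w p 0
      have := mem_closedBall.1 (hT hp')
      have := ha j
      rw [mem_closedBall]
      linarith
    refine (measure_mono this).trans (le_of_eq ?_)
    rw [por_cball _ (by norm_num)]
    norm_num
  have hf : ∀ j : ℕ, volume (thickening (3 * (a * (ϑ / 6) ^ j)) T) ≠ ⊤ := fun j =>
    ne_top_of_le_ne_top ENNReal.ofReal_ne_top (hb j)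
  have key : ∀ j ≤ m, (volume (thickening (3 * (a * (ϑ / 6) ^ j)) T)).toReal ≤
      (1 - ϑ ^ 2 / 900) ^ j * 100 := by
    intro j
    induction j with
    | zero =>
      intro _
      simpa using ENNReal.toReal_mono ENNReal.ofReal_ne_top (hb 0)
    | succ j ih =>
      intro hj
      have k := por_step h0 h1 (hp j) (hf j) fun p hp' => by
        obtain ⟨q, s, k1, k2, k3, k4⟩ := h p hp' _ (hanti (Nat.le_of_succ_le hj)) ((ha j).trans a2)
        exact ⟨q, s, k1, (mul_le_mul_of_nonneg_right h2 (hp j).le).trans k2, k3, k4⟩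
      rw [show 3 * (a * (ϑ / 6) ^ (j + 1)) = ϑ * (a * (ϑ / 6) ^ j) / 2 by ring, pow_succ']
      refine k.trans ?_
      rw [mul_assoc]
      exact mul_le_mul_of_nonneg_left (ih (Nat.le_of_succ_le hj)) hc
  refine (measure_mono (self_subset_thickening (mul_pos three_pos (hp m)) T)).trans ?_
  rw [← ENNReal.ofReal_toReal (hf m)]
  refine ENNReal.ofReal_le_ofReal ((key m le_rfl).trans ?_)
  rw [lt_div_iff₀ (by norm_num)] at hm
  exact hm.le

theorem por_vol : ∃ C > 0, ∀ θ γ e₀ : ℝ, 0 < θ → 0 < γ → 0 < e₀ → ∃ e₁ > 0, e₁ ≤ e₀ ∧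
    ∀ (I : Type) [Fintype I] (pos : I → ℝ × ℝ) (mass : I → ℝ) (K : ℝ) (S : Set (ℝ × ℝ)), 0 < K →
      (∀ i, 0 ≤ mass i) → S ⊆ Icc 0 1 ×ˢ Icc 0 1 → (∀ p ∈ S, ∀ e, e₁ ≤ e → e ≤ e₀ → ∃ q s,
        dist p q ≤ e ∧ θ * e ≤ s ∧ s ≤ e ∧ K * s ^ 2 ≤ wt mass {i | dist (pos i) q ≤ s}) →
      volume (thickening e₁ S) ≤ ENNReal.ofReal (C * (∑ i, mass i) / K + γ) := by
  refine ⟨100, by norm_num, fun θ γ e₀ hθ hγ he => ?_⟩
  obtain ⟨e₁, h0, h1, h2, h3⟩ := por_small hθ hγ he
  refine ⟨e₁, h0, h1, fun I _ pos mass K S hK hm hS h => ?_⟩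
  set t : Set ((ℝ × ℝ) × ℝ) := {b | 0 < b.2 ∧ b.2 ≤ e₀ ∧
    K * b.2 ^ 2 ≤ wt mass {i | dist (pos i) b.1 ≤ b.2}} with ht
  set ν : Measure (ℝ × ℝ) := ∑ i, ENNReal.ofReal (mass i) • Measure.dirac (pos i) with hν
  have hνa : ∀ A : Set (ℝ × ℝ), ν A = ENNReal.ofReal (wt mass {i | pos i ∈ A}) := by
    intro A
    rw [hν, Measure.finsetSum_apply, wt_eq_sum, ENNReal.ofReal_sum_of_nonneg fun i _ => by
      split_ifs
      exacts [hm i, le_rfl]]
    refine Finset.sum_congr rfl fun i _ => ?_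
    rw [Measure.smul_apply, Measure.dirac_apply, smul_eq_mul]
    by_cases hi : pos i ∈ A <;> simp [hi]
  have k1 := por_vit t Prod.fst Prod.snd e₀ (fun b hb => ⟨hb.1, hb.2.1⟩) ν
    (ENNReal.ofReal (100 / K)) fun b hb => by
      rw [hνa, ← ENNReal.ofReal_mul (by positivity)]
      refine ENNReal.ofReal_le_ofReal ?_
      rw [div_mul_eq_mul_div, le_div_iff₀ hK]
      have := hb.2.2
      simp only [mem_closedBall]
      linarith
  set A := ⋃ b ∈ t, closedBall b.1 b.2 with hA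
  have k2 := h3 (thickening e₁ S \ A) (fun w hw => by
    obtain ⟨p, hp, k⟩ := mem_thickening_iff.1 hw.1
    have := dist_triangle w p 0
    have : dist p 0 ≤ 1 := by
      obtain ⟨⟨a1, a2⟩, a3, a4⟩ := hS hp
      rw [dist_zero_right, Prod.norm_def, Real.norm_of_nonneg a1, Real.norm_of_nonneg a3]
      exact max_le a2 a4
    rw [mem_closedBall]
    linarith) fun w hw e e1 e2 => by
      obtain ⟨p, hp, k⟩ := mem_thickening_iff.1 hw.1
      obtain ⟨q, s, j1, j2, j3, j4⟩ := h p hp e e1 e2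
      refine ⟨q, s, by linarith [dist_triangle w p q], j2, j3, disjoint_left.2 fun z hz hz' => ?_⟩
      exact hz'.2 (mem_biUnion (show (q, s) ∈ t from
        ⟨(mul_pos hθ (h0.trans_le e1)).trans_le j2, j3.trans e2, j4⟩) hz)
  have k3 : wt mass {i | pos i ∈ (univ : Set (ℝ × ℝ))} = ∑ i, mass i := by simp [wt]
  have k4 : 0 ≤ ∑ i, mass i := Finset.sum_nonneg fun i _ => hm i
  rw [hνa, k3, ← ENNReal.ofReal_mul (by positivity)] at k1
  rw [ENNReal.ofReal_add (by positivity) hγ.le, ← div_mul_eq_mul_div]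
  exact (measure_mono (t := A ∪ (thickening e₁ S \ A)) fun w hw =>
    (em (w ∈ A)).imp_right fun h => ⟨hw, h⟩).trans
    ((measure_union_le _ _).trans (add_le_add k1 k2))

end KCH
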