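import Pool.Agent.Lib.MP_e1e491_gt.CH.NcAL
import Pool.Agent.Lib.MP_e1e491_gt.CH.Por

/-! The image of the pair of levels has small area. -/

namespace KCH

open Set Metric KP2 KCC MeasureTheory Filter Topology
open scoped Classical

variable {Z : Type} [MetricSpace Z] [CompactSpace Z]

/-- The points near which `Ψ` is almost constant have a small image. -/
theorem ncm_calm {ρ γ : ℝ} (hρ : 0 < ρ) (hγ : 0 < γ) : ∃ e₀ > 0, ∀ (Ψ : Z → Pl) (e₁ : ℝ),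
    e₁ ≤ e₀ → volume (thickening e₁ ((fun x => pr (Ψ x)) ''
      {x | ∀ y ∈ closedBall x ρ, ∀ y' ∈ closedBall x ρ, dist (Ψ y) (Ψ y') ≤ e₀})) ≤
        ENNReal.ofReal γ := by
  obtain ⟨N, -, -, hN⟩ := exists_net (univ : Set Z) (half_pos hρ)
  obtain ⟨e₀, h0, h1, h2⟩ : ∃ e₀ : ℝ, 0 < e₀ ∧ e₀ ≤ 1 ∧ e₀ ≤ γ / (16 * (N.card + 1)) :=
    ⟨min 1 _, lt_min one_pos (by positivity), min_le_left _ _, min_le_right _ _⟩
  refine ⟨e₀, h0, fun Ψ e₁ he => ?_⟩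
  have hq : ∀ c : Z, ∃ q : ℝ × ℝ, ∀ x, (∀ y ∈ closedBall x ρ, ∀ y' ∈ closedBall x ρ,
      dist (Ψ y) (Ψ y') ≤ e₀) → dist c x < ρ / 2 → dist (pr (Ψ x)) q ≤ e₀ := by
    intro c
    by_cases h : ∃ x, (∀ y ∈ closedBall x ρ, ∀ y' ∈ closedBall x ρ, dist (Ψ y) (Ψ y') ≤ e₀) ∧
        dist c x < ρ / 2
    · obtain ⟨x₀, a1, a2⟩ := h
      refine ⟨pr (Ψ x₀), fun x _ hx => ?_⟩
      rw [dist_pr]
      refine a1 x ?_ x₀ (mem_closedBall_self hρ.le)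
      have := dist_triangle_left x x₀ c
      rw [mem_closedBall]
      linarith
    · exact ⟨0, fun x a1 a2 => absurd ⟨x, a1, a2⟩ h⟩
  choose q hq using hq
  refine le_trans (measure_mono (t := ⋃ c ∈ N, closedBall (q c) (2 * e₀)) fun z hz => ?_)
    ((measure_biUnion_finset_le _ _).trans ?_)
  · obtain ⟨_, ⟨x, hx, rfl⟩, hz⟩ := mem_thickening_iff.mp hz
    obtain ⟨c, hc, hc'⟩ := hN x (mem_univ x)
    refine mem_iUnion₂.mpr ⟨c, hc, ?_⟩
    have := dist_triangle z (pr (Ψ x)) (q c)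
    have := hq c x hx hc'
    rw [mem_closedBall]
    linarith
  · simp only [por_cball _ (show 0 ≤ 2 * e₀ by positivity)]
    rw [Finset.sum_const, nsmul_eq_mul, ← ENNReal.ofReal_natCast,
      ← ENNReal.ofReal_mul (Nat.cast_nonneg _)]
    refine ENNReal.ofReal_le_ofReal ?_
    rw [le_div_iff₀ (by positivity)] at h2
    have : (0 : ℝ) ≤ N.card := Nat.cast_nonneg _
    nlinarith [mul_nonneg this (mul_nonneg h0.le (sub_nonneg.mpr h1))]

/-- The first dyadic scale at which a property holds. -/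
theorem ncm_scale {p : ℝ → Prop} {ρ t : ℝ} (hρ : 0 < ρ) (ht : 0 < t) (h0 : ¬ p ρ)
    (h1 : ∀ s, s ≤ t → p s) : ∃ s, t / 2 < s ∧ s ≤ ρ ∧ p s ∧ ¬ p (2 * s) := by
  have hex : ∃ i : ℕ, p (ρ / 2 ^ i) := by
    obtain ⟨i, hi⟩ := pow_unbounded_of_one_lt (ρ / t) (one_lt_two (α := ℝ))
    refine ⟨i, h1 _ ?_⟩
    rw [div_lt_iff₀ ht] at hi
    rw [div_le_iff₀ (by positivity)]
    linarith
  obtain ⟨k, hk⟩ : ∃ k, Nat.find hex = k + 1 := Nat.exists_eq_succ_of_ne_zero fun e => h0 (by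
    have := Nat.find_spec hex
    rwa [e, pow_zero, div_one] at this)
  have h2 : ¬ p (2 * (ρ / 2 ^ (k + 1))) := by
    have := Nat.find_min hex (m := k) (by omega)
    rwa [show 2 * (ρ / 2 ^ (k + 1)) = ρ / 2 ^ k by ring]
  refine ⟨ρ / 2 ^ (k + 1), ?_, div_le_self hρ.le (one_le_pow₀ one_le_two), hk ▸ Nat.find_spec hex,
    h2⟩
  by_contra h3
  exact h2 (h1 _ (by linarith [not_lt.mp h3]))

theorem nc_area (hD : Dbl Z) (hK : KN Z) {c : ℝ} (hc : 0 < c) (hN : NW Z c) {B δ lam K L : ℝ}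
    (hδ : 0 < δ) (hl : 1 ≤ lam) (hK0 : 0 < K) (hL : 1 ≤ L) {ε φ : ℝ → ℝ} (hε : Pos ε) (hφ : Pos φ)
    {γ : ℝ} (hγ : 0 < γ) : ∃ e₁ > 0, ∃ r₁ > 0, ∀ (ξ : Z → ℝ) (P : Finset Z) (H : Type) [Fintype H]
    (r r₂ : ℝ) (T : TH ξ δ P H B r lam) (Q : Pr Z L), r₂ ≤ r₁ → T.Ok K r₂ → T.Mod ε r₂ →
      (∀ a, 0 < a → r₂ ≤ φ a → T.FC (φ a) a) → volume (thickening e₁ ((fun x => pr (T.Ψ Q x)) ''
        {x | x ∈ St ξ 3 ∧ ∀ j, Q.F j x ∈ St ξ 3})) ≤ ENNReal.ofReal γ := by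
  obtain ⟨M, hM, hmass⟩ := exists_mass hD B lam L
  obtain ⟨C, hC, hpor⟩ := por_vol
  have hK' : 0 < 3 * C * M / γ := by positivity
  obtain ⟨θ, hθ, hheavy⟩ := heavy hD hK hl hL (lt_min hc one_pos) (min_le_right c 1) hK' hK0
  have hΛ : 1 ≤ Lam lam L := by
    have := one_le_mul_of_one_le_of_one_le (one_le_pow₀ (n := 2) hl) (one_le_pow₀ (n := 3) hL)
    rw [Lam]
    linarith
  have hΛ0 : 0 < Lam lam L := by linarith
  have hL0 : 0 < L := by linarith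
  have hρ : 0 < δ / Lam lam L := by positivity
  obtain ⟨e₀, he₀, hcalm⟩ := ncm_calm (Z := Z) hρ (show 0 < γ / 3 by positivity)
  obtain ⟨e₁, he₁, he₁₀, hpor⟩ := hpor θ (γ / 3) e₀ hθ (by positivity) he₀
  have ha : 0 < θ * e₁ := by positivity
  have hε₁ := hε _ (half_pos he₁)
  obtain ⟨e, he, e1, e2⟩ : ∃ e, 0 < e ∧ e ≤ ε (θ * e₁) ∧ e ≤ φ (θ * e₁) :=
    ⟨min _ _, lt_min (hε _ ha) (hφ _ ha), min_le_left _ _, min_le_right _ _⟩
  obtain ⟨r₁, hr₁, b1, b2, b3, b4⟩ : ∃ r₁, 0 < r₁ ∧ r₁ ≤ ε (e₁ / 2) ∧ r₁ ≤ e / Lam lam L ∧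
      r₁ ≤ ε (e₁ / 2) / L / 2 / Lam lam L ∧ r₁ ≤ θ * (ε (e₁ / 2) / L / 2) := by
    refine ⟨min (ε (e₁ / 2)) (min (e / Lam lam L) (min (ε (e₁ / 2) / L / 2 / Lam lam L)
      (θ * (ε (e₁ / 2) / L / 2)))), by positivity, ?_, ?_, ?_, ?_⟩ <;>
    simp only [min_le_iff, le_refl, true_or, or_true]
  refine ⟨e₁, he₁, r₁, hr₁, fun ξ P H _ r r₂ T Q hr hOk hMod hFC => ?_⟩
  set calm : Z → ℝ → ℝ → Prop := fun x t s => ∀ y ∈ closedBall x s, ∀ y' ∈ closedBall x s,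
    dist (T.Ψ Q y) (T.Ψ Q y') ≤ t with hcalmdef
  have hsub : (fun x => pr (T.Ψ Q x)) '' {x | x ∈ St ξ 3 ∧ ∀ j, Q.F j x ∈ St ξ 3} ⊆
      (fun x => pr (T.Ψ Q x)) '' {x | (x ∈ St ξ 3 ∧ ∀ j, Q.F j x ∈ St ξ 3) ∧
        ¬ calm x e₀ (δ / Lam lam L)} ∪
      (fun x => pr (T.Ψ Q x)) '' {x | calm x e₀ (δ / Lam lam L)} := by
    rintro _ ⟨x, hx, rfl⟩
    by_cases h : calm x e₀ (δ / Lam lam L)
    · exact Or.inr ⟨x, h, rfl⟩
    · exact Or.inl ⟨x, ⟨hx, h⟩, rfl⟩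
  have hre : r₂ ≤ e := (hr.trans b2).trans (div_le_self he.le hΛ)
  have hb : Lam lam L * (B * r) ≤ Lam lam L * r₁ :=
    mul_le_mul_of_nonneg_left (hOk.2.2.trans hr) hΛ0.le
  have hnr := hMod _ (half_pos he₁) (hr.trans b1)
  have h1 := hpor (Bool × P) (fun i => pr (T.pos Q i)) (T.mass Q) _
    ((fun x => pr (T.Ψ Q x)) '' {x | (x ∈ St ξ 3 ∧ ∀ j, Q.F j x ∈ St ξ 3) ∧
      ¬ calm x e₀ (δ / Lam lam L)}) hK' TH.nc_mass_nonneg
    (by
      rintro _ ⟨x, -, rfl⟩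
      exact ⟨T.nc_u_mem _, T.nc_u_mem _⟩)
    (by
      rintro _ ⟨x, ⟨⟨hx, hF⟩, hosc⟩, rfl⟩ e' c1 c2
      obtain ⟨ρ, d1, d2, d3, d4⟩ := ncm_scale (p := calm x e') (t := ε (e₁ / 2) / L) hρ
        (by positivity) (fun h => hosc fun y hy y' hy' => (h y hy y' hy').trans c2) (by
          intro s hs
          have key : ∀ y ∈ closedBall x s, dist (T.Ψ Q x) (T.Ψ Q y) ≤ e₁ / 2 := by
            intro y hy
            refine (dist_pi_le_iff (half_pos he₁).le).mpr fun j => ?_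
            refine hnr.uu _ (St.mono (by norm_num) (hF j)) _ ((Q.le j x y).trans ?_)
            rw [← le_div_iff₀' hL0]
            exact (mem_closedBall'.mp hy).trans hs
          intro y hy y' hy'
          have := dist_triangle_left (T.Ψ Q y) (T.Ψ Q y') (T.Ψ Q x)
          linarith [key y hy, key y' hy'])
      have hρ0 : 0 < ρ := lt_trans (by positivity) d1
      have d5 : Lam lam L * ρ ≤ δ := (le_div_iff₀' hΛ0).mp d2
      have hloc : T.Loc Q x ρ e (θ * e₁) :=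
        ⟨hρ0, ha, (closedBall_subset_closedBall d5).trans (T.fr.ball_sub hx),
          fun j => (closedBall_subset_closedBall d5).trans (T.fr.ball_sub (hF j)), d5,
          (hMod _ ha (hre.trans e1)).nc_mono e1, (hFC _ ha (hre.trans e2)).mono e2,
          hb.trans ((le_div_iff₀' hΛ0).mp b2), (hb.trans ((le_div_iff₀' hΛ0).mp b3)).trans d1.le⟩
      obtain ⟨α, a1, a2, p, hp, q, hq, a3⟩ := hN (e / L) x ρ (by positivity) hρ0
        ((d2.trans (div_le_self hδ.le hΛ)).trans T.fr.δ_le)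
      obtain ⟨o, o1, o2⟩ : ∃ o, dist o x ≤ 2 * ρ ∧ e' / 2 < dist (T.Ψ Q o) (T.Ψ Q p) := by
        by_contra hno
        push Not at hno
        refine d4 fun y hy y' hy' => ?_
        have := dist_triangle_right (T.Ψ Q y) (T.Ψ Q y') (T.Ψ Q p)
        linarith [hno y hy, hno y' hy']
      obtain ⟨s, s1, s2, s3⟩ := hheavy ξ δ P H B r T Q x p o ρ e _ r₂ e' (e / L) α hloc hOk
        ((hr.trans b4).trans (mul_le_mul_of_nonneg_left d1.le hθ.le))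
        (mul_le_mul_of_nonneg_left c1 hθ.le) a1 (mul_div_cancel₀ e hL0.ne').le a2
        ⟨p, hp, q, hq, (mul_le_mul_of_nonneg_right (min_le_left _ _) hρ0.le).trans a3⟩ hp o1 o2
      refine ⟨pr (T.Ψ Q p), s, ?_, s1, s2, ?_⟩
      · rw [dist_pr]
        exact d3 x (mem_closedBall_self hρ0.le) p (a2 hp)
      · simp only [dist_pr]
        exact s3)
  refine (measure_mono (thickening_subset_of_subset _ hsub)).trans ?_
  rw [thickening_union]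
  refine (measure_union_le _ _).trans ((add_le_add (h1.trans (ENNReal.ofReal_le_ofReal
    (q := γ / 3 + γ / 3) ?_)) (hcalm (T.Ψ Q) e₁ he₁₀)).trans ?_)
  · refine add_le_add_left ?_ _
    calc _ ≤ C * M / (3 * C * M / γ) := by
          gcongr
          exact hmass ξ δ P H r T Q
      _ = γ / 3 := by field_simp
  · rw [← ENNReal.ofReal_add (by positivity) (by positivity)]
    exact ENNReal.ofReal_le_ofReal (by linarith)

end KCH
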