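import Pool.Agent.Lib.MP_e1e491_gt.CH.TC
import Pool.Agent.Lib.MP_e1e491_gt.CH.Flat

/-! Nearly flat sets along holes. -/

namespace KCH

open Set Metric KP2 KCC MeasureTheory Filter Topology
open scoped Classical

variable {Z : Type} [MetricSpace Z] {ξ : Z → ℝ} {δ : ℝ} {P : Finset Z} {H : Type} [Fintype H]
  {B r lam : ℝ}

omit [Fintype H] in
/-- Along a hole runs a nearly flat set. -/
theorem HG.nf_hole {s : ℝ} (A : HG ξ P H s) (hL : LL Z lam) (hs : 0 < s) {v w : P} {h : H}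
    (hv : A.Γ.Adj (bl v) (ho h)) (hw : A.Γ.Adj (bl w) (ho h)) {σ : ℝ} (hσ : 0 < σ)
    (hd : σ ≤ dist (v : Z) w) (hU : closedBall (v : Z) σ ⊆ St ξ 8) :
    ∃ α, NF (2 * lam * s) α ∧ (v : Z) ∈ α ∧ (∃ q ∈ α, σ ≤ dist (v : Z) q) ∧ ∀ x ∈ α, ∃ v' : P,
      A.Γ.Adj (bl v') (ho h) ∧ dist x v' ≤ lam * s ∧ dist (v : Z) v' ≤ σ + s := by
  have := hL.preconnected
  have h1 := A.uc {ho h} (bl v) (fun a ha b hb => by
      rw [show a = ho h from ha, show b = ho h from hb]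
      exact KP2.Con.refl rfl) (by simp) (bl v) ⟨KP2.Con.refl (by simp), _, rfl, hv.symm⟩ (bl w)
    ⟨(A.used_con (A.used_of_adj hv) (A.used_of_adj hw)).mono
      fun y hy k => hy ⟨h, (show y = ho h from k).symm⟩, _, rfl, hw.symm⟩
  obtain ⟨y, ⟨-, _, rfl, hy⟩, hy', k | ⟨u, huy, hu⟩⟩ := h1.exists_first
    (P := fun y => ¬ ∃ u : P, y = bl u ∧ dist (v : Z) u < σ) (by
      rintro ⟨u, e, k⟩
      cases e
      exact not_lt.2 hd k)
  · exact absurd ⟨v, k, by simpa using hσ⟩ hy'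
  obtain ⟨u, rfl, hu'⟩ := not_not.1 hu.right_mem.2
  obtain (y | y) | y := y
  · set S : Set P := {u | A.Γ.Adj (bl u) (ho h) ∧ dist (v : Z) u ≤ σ + s} with hS
    have h2 : Con A.Γ (bl '' S) (bl v) (bl u) := hu.mono fun x hx => by
      obtain ⟨⟨-, _, rfl, k1⟩, k2⟩ := hx
      obtain ⟨x, rfl, k3⟩ := not_not.1 k2
      exact ⟨x, ⟨k1.symm, by linarith⟩, rfl⟩
    have h3 : Con A.Γ (bl '' S) (bl v) (bl y) := h2.trans (KP2.Con.of_adj huy h2.right_mem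
      ⟨y, ⟨hy.symm, by linarith [dist_triangle (v : Z) u y, A.adj u y huy]⟩, rfl⟩)
    have h4 : Con A.G S v y := (A.con_of_Γ h3 (image_subset_range _ _)).mono fun x hx => by
      obtain ⟨x', k, e⟩ := hx
      cases e
      exact k
    obtain ⟨F, hF, hF'⟩ := A.flat h
    obtain ⟨α, a1, a2, a3, a4⟩ := nf_of_con hL h4 Subtype.val hs (fun _ _ _ _ k => A.adjG k) hF
      fun x hx => by
        obtain ⟨b, hb, k⟩ := hF' x hx.1
        exact ⟨b, hb, dist_comm (x : Z) b ▸ k⟩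
    refine ⟨α, a1, a2, ⟨y, a3, not_lt.1 fun k => hy' ⟨y, rfl, k⟩⟩, fun x hx => ?_⟩
    obtain ⟨x', k1, k2⟩ := a4 x hx
    exact ⟨x', k1.1, k2, k1.2⟩
  · exact absurd hy (A.hh _ _)
  · exact absurd huy (A.not_adj_zone (hU (by rw [mem_closedBall, dist_comm]; exact hu'.le)) y)

theorem TH.jmp (T : TH ξ δ P H B r lam) {ε a η : ℝ} (hN : T.Nr ε a) (h1 : lam * (B * r) ≤ ε)
    (h2 : 2 * lam * (B * r) ≤ η) (h3 : 2 * a ≤ η) {v w : P} {h : H}
    (hv : T.Γ.Adj (bl v) (ho h)) (hw : T.Γ.Adj (bl w) (ho h)) (hne : 0 < dist (v : Z) w)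
    (hv' : closedBall (v : Z) (dist (v : Z) w / 8 + η) ⊆ St ξ 7)
    (hw' : closedBall (w : Z) (dist (v : Z) w / 8 + η) ⊆ St ξ 7) : Jmp T.u η v w := by
  have hs := T.s_pos
  have hs1 := T.s_le_ls
  have aux : ∀ v w : P, T.Γ.Adj (bl v) (ho h) → T.Γ.Adj (bl w) (ho h) → 0 < dist (v : Z) w →
      closedBall (v : Z) (dist (v : Z) w / 8 + η) ⊆ St ξ 7 → ∃ α, NF η α ∧ (v : Z) ∈ α ∧
      (∃ q ∈ α, dist (v : Z) w ≤ 8 * dist (v : Z) q) ∧ ∀ x ∈ α, |T.u x - T.y (.inr h)| ≤ η := by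
    intro v w hv hw hne hv'
    obtain ⟨α, a1, a2, ⟨q, hq, a3⟩, a4⟩ := T.nf_hole T.ll hs hv hw (σ := dist (v : Z) w / 8)
      (by positivity) (by linarith) (((closedBall_subset_closedBall (by linarith)).trans hv').trans
        (St_mono (by norm_num)))
    refine ⟨α, a1.mono h2, a2, ⟨q, hq, by linarith⟩, fun x hx => ?_⟩
    obtain ⟨v', k1, k2, k3⟩ := a4 x hx
    have k4 := hN.uY x (hv' (mem_closedBall.2 (by linarith [dist_triangle_right x v v']))) v'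
      (T.used_of_adj k1) (k2.trans h1)
    have k5 : |T.Y v' - T.y (.inr h)| ≤ a := hN.adj (v := .inl v') (w := .inr h) k1
    linarith [abs_sub_le (T.u x) (T.Y v') (T.y (.inr h))]
  refine ⟨T.y (.inr h), ?_⟩
  rintro _ (rfl | rfl)
  · exact aux v w hv hw hne hv'
  · rw [dist_comm] at hne hw' ⊢
    exact aux w v hw hv hne hw'

end KCH
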