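import Pool.Agent.Lib.MP_e1e491_gt.CH.Defs

/-! Strips and cells. -/

namespace KCH

open Set Metric KP2 KCC MeasureTheory Filter Topology
open scoped Classical

variable {Z : Type} [MetricSpace Z] {ξ : Z → ℝ} {δ lam : ℝ}

omit [MetricSpace Z] in
theorem St_mono {a b : ℝ} (h : a ≤ b) : St ξ a ⊆ St ξ b := by
  intro x hx
  have h1 : |ξ x - 1 / 2| < a / 100 := hx
  change |ξ x - 1 / 2| < b / 100
  linarith

theorem Fr.st (hF : Fr ξ δ) {a : ℝ} {x y : Z} (hx : x ∈ St ξ a) (h : dist x y ≤ δ) :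
    y ∈ St ξ (a + 1 / 10) := by
  have h1 : |ξ x - 1 / 2| < a / 100 := hx
  have h2 := abs_le.1 (hF.lip x y h)
  have h3 := abs_lt.1 h1
  change |ξ y - 1 / 2| < (a + 1 / 10) / 100
  exact abs_lt.2 ⟨by linarith [h2.2, h3.1], by linarith [h2.1, h3.2]⟩

theorem Fr.not_st (hF : Fr ξ δ) {a : ℝ} {x y : Z} (hx : x ∉ St ξ a) (h : dist x y ≤ δ) :
    y ∉ St ξ (a - 1 / 10) := by
  intro hy
  have h1 := hF.st hy (dist_comm x y ▸ h)
  rw [sub_add_cancel] at h1
  exact hx h1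

omit [MetricSpace Z] in
theorem Sd.not_st {b : Bool} {x : Z} (h : Sd ξ b x) : x ∉ St ξ 8 := by
  intro hx
  have h1 : |ξ x - 1 / 2| < 8 / 100 := hx
  have h2 := abs_lt.1 h1
  cases b
  · have h3 : ξ x ≤ 42 / 100 := h
    linarith [h2.1]
  · have h3 : 58 / 100 ≤ ξ x := h
    linarith [h2.2]

theorem Fr.far (hF : Fr ξ δ) {x y : Z} (hx : Sd ξ false x) (hy : Sd ξ true y) : δ < dist x y := by
  by_contra h
  have h1 : ξ x ≤ 42 / 100 := hx
  have h2 : 58 / 100 ≤ ξ y := hy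
  linarith [(abs_le.1 (hF.lip x y (not_lt.1 h))).1]

theorem pc_sub (x : Z) (ρ : ℝ) : pc x ρ ⊆ closedBall x ρ := by
  exact fun _ hp => JoinedIn.target_mem hp

theorem pc_joined {x p : Z} {ρ : ℝ} (h : p ∈ pc x ρ) : JoinedIn (pc x ρ) x p := by
  have h1 : p ∈ pathComponentIn (closedBall x ρ) x := h
  have h2 : x ∈ closedBall x ρ := JoinedIn.source_mem h
  exact (isPathConnected_pathComponentIn h2).joinedIn x (mem_pathComponentIn_self h2) p h1

theorem mem_pc (hL : LL Z lam) {x p : Z} {σ : ℝ} (hσ : 0 < σ) (h : dist p x ≤ σ) :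
    p ∈ pc x (lam * σ) := by
  exact hL.l1 x σ x p hσ (by rw [dist_self]; exact hσ.le) h

end KCH
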