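import Pool.Agent.Lib.MP_e1e491_gt.CH.St
import Pool.Agent.Lib.MP_e1e491_gt.CC.Zone
import Pool.Agent.Lib.MP_e1e491_gt.CC.TilC

/-! Shadows in the hole graph. -/

namespace KCH

open Set Metric KP2 KCC MeasureTheory Filter Topology
open scoped Classical

variable {Z : Type} [MetricSpace Z] {ξ : Z → ℝ} {P : Finset Z} {H : Type} {s : ℝ}

namespace HG

variable (A : HG ξ P H s)

theorem adj_iff {v w : P} : A.G.Adj v w ↔ A.Γ.Adj (bl v) (bl w) := Iff.rfl

theorem adjG {v w : P} (h : A.G.Adj v w) : dist (v : Z) w ≤ s := A.adj v w h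

theorem near {x : Z} {v : P} (h : bl v ∈ A.S x) : dist x v ≤ s := by
  rcases A.S_sub x _ h with ⟨w, e, hw⟩ | ⟨b, e, -⟩
  · obtain rfl : v = w := Sum.inl_injective (Sum.inl_injective e)
    exact hw
  · exact absurd e (by simp)

theorem sb_near {E : Set Z} {v : P} (h : v ∈ A.Sb E) : ∃ x ∈ E, dist x v ≤ s := by
  obtain ⟨x, hx, hv⟩ := h
  exact ⟨x, hx, A.near hv⟩

theorem sb_used {E : Set Z} {v : P} (h : v ∈ A.Sb E) : A.Used v := by
  obtain ⟨x, -, hv⟩ := h
  exact ⟨x, hv⟩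

theorem sb_mono {E E' : Set Z} (h : E ⊆ E') : A.Sb E ⊆ A.Sb E' := by
  rintro v ⟨x, hx, hv⟩
  exact ⟨x, h hx, hv⟩

theorem used_of_adj {v : P} {y : Vx P H} (h : A.Γ.Adj (bl v) y) : A.Used v := A.surj v y h

/-- Shadows contain no hole. -/
theorem ho_not_mem (x : Z) (h : H) : ho h ∉ A.S x := by
  intro hm
  rcases A.S_sub x _ hm with ⟨w, e, -⟩ | ⟨b, e, -⟩
  · exact absurd e (by simp)
  · exact absurd e (by simp)

/-- In the strip every point has a blob. -/
theorem β_blob {x : Z} (hx : x ∈ St ξ 8) : ∃ v : P, A.β x = bl v ∧ bl v ∈ A.S x := by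
  rcases A.S_sub x _ (A.β_mem x) with ⟨w, e, -⟩ | ⟨b, -, hb⟩
  · exact ⟨w, e, e ▸ A.β_mem x⟩
  · exact absurd hx hb.not_st

/-- Blobs in the strip are adjacent to no zone. -/
theorem not_adj_zone {v : P} (hv : (v : Z) ∈ St ξ 8) (z : Bool × Bool) :
    ¬ A.Γ.Adj (bl v) (.inr z) := by
  obtain ⟨i, b⟩ := z
  intro h
  cases i
  · exact (A.adjz v b h).not_st hv
  · exact A.notT v b h

theorem con_F {S : Set P} {v w : P} (h : Con A.G S v w) :
    Con A.F (Sum.inl '' S) (.inl v) (.inl w) := by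
  refine Con.induction (P := fun y => Con A.F (Sum.inl '' S) (.inl v) (.inl y)) h
    (KP2.Con.refl (mem_image_of_mem _ h.left_mem)) ?_
  intro x hx y hy hxy h1
  exact h1.trans (Con.of_adj hxy (mem_image_of_mem _ hx) (mem_image_of_mem _ hy))

theorem con_Γ {S : Set P} {v w : P} (h : Con A.G S v w) : Con A.Γ (bl '' S) (bl v) (bl w) := by
  refine Con.induction (P := fun y => Con A.Γ (bl '' S) (bl v) (bl y)) h
    (KP2.Con.refl (mem_image_of_mem _ h.left_mem)) ?_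
  intro x hx y hy hxy h1
  exact h1.trans (Con.of_adj hxy (mem_image_of_mem _ hx) (mem_image_of_mem _ hy))

theorem con_G {W : Set (P ⊕ H)} {v w : P} (h : Con A.F W (.inl v) (.inl w))
    (hW : ∀ h, .inr h ∉ W) : Con A.G {x | .inl x ∈ W} v w := by
  have key := Con.induction
    (P := fun y => ∃ u : P, y = .inl u ∧ Con A.G {x | .inl x ∈ W} v u) h
    ⟨v, rfl, KP2.Con.refl (by exact h.left_mem)⟩ (by
      rintro x hx y hy hxy ⟨u, rfl, hu⟩
      rcases y with y | y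
      · exact ⟨y, rfl, hu.trans (Con.of_adj hxy hx hy)⟩
      · exact absurd hy (hW y))
  obtain ⟨u, e, hu⟩ := key
  obtain rfl : w = u := Sum.inl_injective e
  exact hu

theorem con_of_Γ {W : Set (Vx P H)} {v w : P} (h : Con A.Γ W (bl v) (bl w))
    (hW : W ⊆ range bl) : Con A.G {x | bl x ∈ W} v w := by
  have key := Con.induction
    (P := fun y => ∃ u : P, y = bl u ∧ Con A.G {x | bl x ∈ W} v u) h
    ⟨v, rfl, KP2.Con.refl (by exact h.left_mem)⟩ (by
      rintro x hx y hy hxy ⟨u, rfl, hu⟩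
      obtain ⟨y, rfl⟩ := hW hy
      exact ⟨y, rfl, hu.trans (Con.of_adj hxy hx hy)⟩)
  obtain ⟨u, e, hu⟩ := key
  obtain rfl : w = u := Sum.inl_injective (Sum.inl_injective e)
  exact hu

theorem sb_cn {E : Set Z} (hE : IsPreconnected E) (hU : E ⊆ St ξ 8) : Cn A.G (A.Sb E) := by
  intro v hv w hw
  refine A.con_of_Γ (W := A.Sh E) (A.S_cn E hE _ hv _ hw) ?_
  rintro y ⟨x, hx, hy⟩
  rcases A.S_sub x y hy with ⟨u, e, -⟩ | ⟨b, -, hb⟩
  · exact ⟨u, e.symm⟩
  · exact absurd (hU hx) hb.not_st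

/-- Used blobs are joined outside the holes. -/
theorem used_con [PreconnectedSpace Z] {v w : P} (hv : A.Used v) (hw : A.Used w) :
    Con A.Γ (range ho)ᶜ (bl v) (bl w) := by
  obtain ⟨x, hx⟩ := hv
  obtain ⟨x', hx'⟩ := hw
  refine (A.S_cn univ isPreconnected_univ _ ⟨x, trivial, hx⟩ _ ⟨x', trivial, hx'⟩).mono ?_
  rintro y ⟨z, -, hz⟩ ⟨k, rfl⟩
  exact A.ho_not_mem z k hz

theorem cr_of_crs {E : Set Z} (h : Crs ξ E) : Cr A.F A.sd false (Sum.inl '' A.Sb E) := by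
  obtain ⟨hE, ⟨x, hx, hx1⟩, x', hx', hx2⟩ := h
  have h1 : (.inr (false, false) : Vx P H) ∈ A.Sh E :=
    ⟨x, hx, A.β_left x (by linarith) ▸ A.β_mem x⟩
  have h2 : (.inr (false, true) : Vx P H) ∈ A.Sh E :=
    ⟨x', hx', A.β_right x' (by linarith) ▸ A.β_mem x'⟩
  have h3 := cr_free (W := A.Sh E) (A.nadj false) (A.S_cn E hE _ h1 _ h2) (by
    rintro b ⟨z, -, hz⟩
    rcases A.S_sub z _ hz with ⟨u, e, -⟩ | ⟨c, e, -⟩
    · exact absurd e (by simp)
    · exact absurd e (by simp))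
  refine h3.mono ?_
  rintro (u | k) ⟨z, hz, hu⟩
  · exact mem_image_of_mem _ ⟨z, hz, hu⟩
  · exact absurd hu (A.ho_not_mem z k)

/-- A crossing without holes is a walk of blobs between the left and the right part. -/
theorem of_cr {W : Set (P ⊕ H)} (h : Cr A.F A.sd false W) (hW : ∀ h, .inr h ∉ W) :
    ∃ a b : P, A.Γ.Adj (bl a) (.inr (false, false)) ∧ A.Γ.Adj (bl b) (.inr (false, true)) ∧
      Con A.G {x | .inl x ∈ W} a b := by
  obtain ⟨a, ha, b, hb, hab⟩ := h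
  rcases a with a | a
  · rcases b with b | b
    · exact ⟨a, b, ha, hb, A.con_G hab hW⟩
    · exact absurd hab.right_mem (hW b)
  · exact absurd hab.left_mem (hW a)

theorem cr_of_con {S : Set P} {a b : P} (ha : A.Γ.Adj (bl a) (.inr (false, false)))
    (hb : A.Γ.Adj (bl b) (.inr (false, true))) (h : Con A.G S a b) :
    Cr A.F A.sd false (Sum.inl '' S) := by
  exact ⟨.inl a, ha, .inl b, hb, A.con_F h⟩

end HG

end KCH
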