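import Pool.Agent.Lib.MP_e1e491_gt.CH.TA
import Pool.Agent.Lib.MP_e1e491_gt.CH.HT
import Pool.Agent.Lib.MP_e1e491_gt.CH.HTB

/-! Levels and lines. -/

namespace KCH

open Set Metric KP2 KCC MeasureTheory Filter Topology
open scoped Classical

variable {Z : Type} [MetricSpace Z] {ξ : Z → ℝ} {δ : ℝ} {P : Finset Z} {H : Type} [Fintype H]
  {B r lam : ℝ}

theorem exists_th (A : HG ξ P H (B * r)) (hF : Fr ξ δ) (hL : LL Z lam) (hP : IsNet r P)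
    (hr : 0 < r) (hB : 1 ≤ B) (hs : 10 * lam ^ 2 * (B * r) ≤ δ) :
    Nonempty (TH ξ δ P H B r lam) := by
  obtain ⟨E₀, hE₀⟩ := hF.cross
  obtain ⟨n, y, E, hT⟩ := exists_ht (Hs := range Sum.inr) A.hc
    (W₀ := Sum.inl '' A.Sb E₀) (disjoint_left.2 (by rintro _ ⟨v, -, rfl⟩ ⟨h, hh⟩; cases hh))
    (A.cr_of_crs hE₀)
  have hBr : 0 < B * r := mul_pos (by linarith) hr
  choose D h1 h2 h3 h4 using fun x => hL.exists_D x hBr
  exact ⟨{ A with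
    n := n, y := y, E := E, D := D, ht := hT, D_closed := h1, D_conn := h2, D_sup := h3,
    D_sub := h4, net := hP, r_pos := hr, B_ge := hB, fr := hF, ll := hL, small := hs }⟩

namespace TH

variable (T : TH ξ δ P H B r lam)
include T

theorem s_pos : 0 < B * r := by
  exact mul_pos (one_pos.trans_le T.B_ge) T.r_pos

theorem s_le : 10 * (B * r) ≤ δ := by
  have h := le_mul_of_one_le_left T.s_pos.le (one_le_pow₀ (n := 2) T.ll.one_le)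
  linarith [T.small]

theorem ls_le : 10 * (lam * (B * r)) ≤ δ := by
  have h1 := T.ll.one_le
  have h2 : lam ≤ lam ^ 2 := by nlinarith
  have h := mul_le_mul_of_nonneg_right h2 T.s_pos.le
  linarith [T.small]

theorem s_le_ls : B * r ≤ lam * (B * r) := by
  exact le_mul_of_one_le_left T.s_pos.le T.ll.one_le

theorem m_nonneg (v : P) : 0 ≤ T.m v := T.ht.n_nonneg _

theorem Y_nonneg (v : P) : 0 ≤ T.Y v := T.ht.y_nonneg _

theorem Y_add_le (v : P) : T.Y v + T.m v ≤ 1 := T.ht.le_one _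

theorem n_ho (h : H) : T.n (.inr h) = 0 := T.ht.n_hole _ ⟨h, rfl⟩

theorem Y_adj {v w : P} (h : T.G.Adj v w) : T.Y w ≤ T.Y v + T.m v := T.ht.adj _ _ h

theorem u_blob {x : Z} {v : P} (h : T.β x = bl v) : T.u x = T.Y v := by
  rw [u, h]
  rfl

theorem u_mem (x : Z) : T.u x ∈ Icc (0 : ℝ) 1 := by
  rw [u]
  rcases T.β x with v | z
  · exact ⟨T.ht.y_nonneg v, T.ht.y_le v⟩
  · exact ⟨le_rfl, zero_le_one⟩

theorem area : ∑ v, T.m v ^ 2 = T.E := by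
  rw [← T.ht.area, Fintype.sum_sum_type]
  simp [T.n_ho, m]

theorem vl_eq (t : ℝ) : Vl T.n T.y t = Sum.inl '' T.V t := by
  ext v
  rcases v with v | h
  · exact ⟨fun hv => ⟨v, hv, rfl⟩, fun ⟨w, hw, e⟩ => Sum.inl_injective e ▸ hw⟩
  · refine ⟨fun hv => ?_, fun ⟨w, _, e⟩ => by cases e⟩
    have h1 : T.y (.inr h) < t := hv.1
    have h2 : t < T.y (.inr h) + T.n (.inr h) := hv.2
    rw [T.n_ho] at h2
    linarith

theorem tb_no (t : ℝ) (h : H) : .inr h ∉ Vl T.n T.y t := by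
  rw [T.vl_eq]
  rintro ⟨w, -, e⟩
  cases e

theorem ln_ne {t : ℝ} (h : T.Ln t) (v : P) : t ≠ T.Y v ∧ t ≠ T.Y v + T.m v := h.2.1 (.inl v)

theorem ln_cn {t : ℝ} (h : T.Ln t) : Cn T.G (T.V t) := by
  intro a ha b hb
  exact T.con_G (h.2.2.1 (.inl a) ha (.inl b) hb) (T.tb_no t)

theorem ln_cr {t : ℝ} (h : T.Ln t) : ∃ a ∈ T.V t, ∃ b ∈ T.V t,
    T.Γ.Adj (bl a) (.inr (false, false)) ∧ T.Γ.Adj (bl b) (.inr (false, true)) := by
  obtain ⟨a, b, ha, hb, hc⟩ := T.of_cr h.2.2.2 (T.tb_no t)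
  exact ⟨a, hc.left_mem, b, hc.right_mem, ha, hb⟩

theorem ln_side {t : ℝ} (h : T.Ln t) (b : Bool) : ∃ a ∈ T.V t, Sd ξ b a := by
  obtain ⟨a, ha, c, hc, h1, h2⟩ := T.ln_cr h
  cases b
  · exact ⟨a, ha, T.adjz a _ h1⟩
  · exact ⟨c, hc, T.adjz c _ h2⟩

theorem ln_far {t : ℝ} (h : T.Ln t) (x : Z) : ∃ a ∈ T.V t, δ / 2 ≤ dist x a := by
  obtain ⟨a, ha, h1⟩ := T.ln_side h false
  obtain ⟨b, hb, h2⟩ := T.ln_side h true
  have h3 := T.fr.far h1 h2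
  have h4 := dist_triangle_left (a : Z) b x
  by_cases k : δ / 2 ≤ dist x a
  · exact ⟨a, ha, k⟩
  · exact ⟨b, hb, by linarith⟩

theorem ln_used {t : ℝ} (h : T.Ln t) {v : P} (hv : v ∈ T.V t) : T.Used v := by
  obtain ⟨a, ha, -, -, h1, -⟩ := T.ln_cr h
  obtain ⟨w, -, hw, rfl | ⟨u, hu, -⟩⟩ := (T.ln_cn h a ha v hv).exists_first (P := fun y => y = v) rfl
  · exact hw ▸ T.used_of_adj h1
  · exact hw ▸ T.used_of_adj (T.adj_iff.1 hu.symm)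

theorem ae_ln : ∀ᵐ t : ℝ, t ∈ Ioo (0 : ℝ) 1 → T.Ln t := by
  exact T.ht.line.mono fun t h ht => ⟨ht, h ht⟩

theorem exists_ln {lo hi : ℝ} (h0 : 0 ≤ lo) (h1 : lo < hi) (h2 : hi ≤ 1) :
    ∃ t ∈ Ioo lo hi, T.Ln t := by
  obtain ⟨t, ht, h⟩ := T.ht.exists_lin h0 h1 h2
  exact ⟨t, ht, ⟨h0.trans_lt ht.1, ht.2.trans_le h2⟩, h⟩

end TH

end KCH
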