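import Pool.Agent.Lib.MP_e1e491_gt.CH.TM
import Pool.Agent.Lib.MP_e1e491_gt.CC.ShM

/-! Thickened lines, moduli and energy. -/

namespace KCH

open Set Metric KP2 KCC MeasureTheory Filter Topology
open scoped Classical

variable {Z : Type} [MetricSpace Z] {ξ : Z → ℝ} {δ : ℝ} {P : Finset Z} {H : Type} [Fintype H]
  {B r lam : ℝ}

namespace TH

variable (T : TH ξ δ P H B r lam)

theorem mem_cl {t : ℝ} {v : P} (hv : v ∈ T.V t) {x : Z} (h : dist x v ≤ B * r) : x ∈ T.cl t := by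
  exact mem_iUnion₂.2 ⟨v, hv, T.D_sup v h⟩

theorem cl_near {t : ℝ} {x : Z} (h : x ∈ T.cl t) : ∃ v ∈ T.V t, dist x v ≤ lam * (B * r) := by
  obtain ⟨v, hv, hx⟩ := mem_iUnion₂.1 h
  exact ⟨v, hv, T.D_sub v hx⟩

theorem cl_closed (t : ℝ) : IsClosed (T.cl t) := by
  exact (toFinite _).isClosed_biUnion fun v _ => T.D_closed v

theorem cl_conn {t : ℝ} (h : T.Ln t) : IsPreconnected (T.cl t) := by
  refine IsPreconnected.biUnion_of_reflTransGen (fun v _ => T.D_conn v) fun a ha b hb => ?_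
  refine (T.ln_cn h a ha b hb).induction Relation.ReflTransGen.refl fun v hv w _ hvw k => ?_
  refine k.tail ⟨⟨w, T.D_sup v (mem_closedBall'.2 (T.adjG hvw)), ?_⟩, hv⟩
  exact T.D_sup w (mem_closedBall_self T.s_pos.le)

theorem cl_side {t : ℝ} (h : T.Ln t) (b : Bool) : ∃ x ∈ T.cl t, Sd ξ b x := by
  obtain ⟨a, ha, h1⟩ := T.ln_side h b
  exact ⟨a, T.mem_cl ha ((dist_self _).trans_le T.s_pos.le), h1⟩

theorem cl_mid {t : ℝ} (h : T.Ln t) : ∃ x ∈ T.cl t, ξ x = 1 / 2 := by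
  obtain ⟨x, hx, h1⟩ := T.cl_side h false
  obtain ⟨y, hy, h2⟩ := T.cl_side h true
  have h3 : ξ x ≤ 42 / 100 := h1
  have h4 : 58 / 100 ≤ ξ y := h2
  exact (T.cl_conn h).intermediate_value hx hy T.fr.cont.continuousOn
    ⟨by linarith, by linarith⟩

theorem cl_sep {t : ℝ} (h : T.Ln t) {E : Set Z} (hE : IsPreconnected E) (hU : E ⊆ St ξ 8)
    {x y : Z} (hx : x ∈ E) (hy : y ∈ E) (h1 : T.u x < t) (h2 : t < T.u y) :
    (E ∩ T.cl t).Nonempty := by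
  obtain ⟨v, hv, hv'⟩ := T.meet_U (fun v => (T.ln_ne h v).1) hE hU hx hy h1 h2
  obtain ⟨p, hp, hpv⟩ := T.sb_near hv
  exact ⟨p, hp, T.mem_cl hv' hpv⟩

variable {T}

theorem Nr.mono {ε ε' a a' : ℝ} (h : T.Nr ε a) (h1 : ε' ≤ ε) (h2 : a ≤ a') : T.Nr ε' a' := by
  exact ⟨fun v => (h.n_le v).trans h2, fun x hx x' hd => (h.uu x hx x' (hd.trans h1)).trans h2,
    fun x hx v hv hd => (h.uY x hx v hv (hd.trans h1)).trans h2⟩

theorem Nr.m_le {ε a : ℝ} (h : T.Nr ε a) (v : P) : T.m v ≤ a := h.n_le _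

/-- Levels of adjacent vertices. -/
theorem Nr.adj {ε a : ℝ} (h : T.Nr ε a) {v w : P ⊕ H} (hvw : T.F.Adj v w) :
    |T.y v - T.y w| ≤ a := by
  have h1 := T.ht.adj v w hvw
  have h2 := T.ht.adj w v hvw.symm
  exact abs_le.2 ⟨by linarith [h.n_le v], by linarith [h.n_le w]⟩

theorem Nr.V_lev {ε a : ℝ} (h : T.Nr ε a) {t : ℝ} {v : P} (hv : v ∈ T.V t) : |T.Y v - t| ≤ a := by
  have h1 : T.Y v < t := hv.1
  have h2 : t < T.Y v + T.m v := hv.2
  exact abs_le.2 ⟨by linarith [h.m_le v], by linarith [h.m_le v]⟩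

/-- The level near a line. -/
theorem Nr.near_V {ε a : ℝ} (h : T.Nr ε a) {t : ℝ} (ht : T.Ln t) {v : P} (hv : v ∈ T.V t) {x : Z}
    (hx : x ∈ St ξ 7) (hd : dist x v ≤ ε) : |T.u x - t| ≤ 2 * a := by
  have h1 := h.uY x hx v (T.ln_used ht hv) hd
  linarith [abs_sub_le (T.u x) (T.Y v) t, h.V_lev hv]

theorem Nr.cl_lev {ε a : ℝ} (h : T.Nr ε a) (hε : lam * (B * r) ≤ ε) {t : ℝ} (ht : T.Ln t) {x : Z}
    (hx : x ∈ T.cl t) (hU : x ∈ St ξ 7) : |T.u x - t| ≤ 2 * a := by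
  obtain ⟨v, hv, hd⟩ := T.cl_near hx
  exact h.near_V ht hv hU (hd.trans hε)

theorem Ok.mono {K r₁ r₂ : ℝ} (h : T.Ok K r₁) (h1 : r₁ ≤ r₂) : T.Ok K r₂ := by
  exact ⟨h.1.mono le_rfl h1, h.2.1, h.2.2.trans h1⟩

theorem Ok.pos {K r₁ : ℝ} (h : T.Ok K r₁) : 0 < K := T.ht.E_pos.trans_le h.2.1

/-- The lines through a ball cross a shell. -/
theorem Ok.lines_sq {K r₁ : ℝ} (h : T.Ok K r₁) {x : Z} {ρ : ℝ} (h1 : 10 * (lam * r₁) ≤ ρ)
    (h2 : 6 * ρ ≤ δ) {A : Set ℝ} (hA : ∀ t ∈ A, T.Ln t ∧ (T.cl t ∩ ball x ρ).Nonempty) :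
    volume.real A ^ 2 ≤ 4 * K * (wt (fun v => T.m v ^ 2) {v | dist x v < 3 * ρ} / T.E) := by
  have k0 := T.s_pos
  have k1 := T.ll.one_le
  have k2 := h.2.2
  have k3 : r₁ ≤ lam * r₁ := le_mul_of_one_le_left (k0.le.trans k2) k1
  have k4 : lam * (B * r) ≤ lam * r₁ := mul_le_mul_of_nonneg_left k2 (by linarith)
  have k5 := T.fr.δ_le
  obtain ⟨W, a1, -, a3, a4⟩ := h.1 x (11 * ρ / 10) (by linarith) (by linarith)
  have b1 : ∀ v : P, 0 ≤ (if dist x v < 3 * ρ then W v else 0) := fun v => by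
    split_ifs
    exacts [a1 v, le_rfl]
  have b2 : A ⊆
      {t : ℝ | 1 / 2 < wt (fun v : P => if dist x v < 3 * ρ then W v else 0) (T.V t)} := by
    intro t ht
    obtain ⟨hl, p, hp, hpx⟩ := hA t ht
    obtain ⟨v, hv, hpv⟩ := T.cl_near hp
    obtain ⟨w, hw, hxw⟩ := T.ln_far hl x
    obtain ⟨a, b, c1, c2, c3⟩ := con_shell (T.ln_cn hl v hv w hw) (fun v => dist x v) k0.le
      (fun v w hvw => (abs_dist_sub_le _ _ _ |>.trans_eq' (by
        rw [dist_comm x v, dist_comm x w])).trans (T.adjG hvw)) (R₁ := 11 * ρ / 10)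
      (R₂ := 2 * (11 * ρ / 10)) (by linarith [dist_triangle_left x v p, mem_ball.1 hpx])
      (by linarith) (by linarith)
    refine lt_of_lt_of_le (by norm_num) ((a4 _ a b c1 c2 c3).trans ?_)
    rw [wt_eq_sum, wt_eq_sum]
    refine Finset.sum_le_sum fun u _ => ?_
    by_cases hu : u ∈ T.V t ∩ {v : P | 11 * ρ / 10 - B * r ≤ dist x v ∧
        dist x v ≤ 2 * (11 * ρ / 10) + B * r}
    · rw [if_pos hu, if_pos hu.1, if_pos (by linarith [hu.2.2])]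
    · rw [if_neg hu]
      split_ifs
      exacts [a1 u, le_rfl, le_rfl]
  have b3 := ENNReal.toReal_le_of_le_ofReal (div_nonneg (Finset.sum_nonneg fun v _ =>
    mul_nonneg (b1 v) (T.m_nonneg v)) (by norm_num))
    ((measure_mono b2).trans (T.vol_gt b1 (by norm_num)))
  have b4 : ∑ v : P, (if dist x v < 3 * ρ then W v else 0) * T.m v =
      ∑ v : P, W v * (if dist x v < 3 * ρ then T.m v else 0) :=
    Finset.sum_congr rfl fun v _ => by split_ifs <;> simp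
  have b5 : ∑ v : P, (if dist x v < 3 * ρ then T.m v else 0) ^ 2 =
      wt (fun v => T.m v ^ 2) {v : P | dist x v < 3 * ρ} := by
    rw [wt_eq_sum]
    exact Finset.sum_congr rfl fun v _ => by by_cases e : dist x v < 3 * ρ <;> simp [e]
  have b6 := Finset.sum_mul_sq_le_sq_mul_sq Finset.univ W
    fun v : P => if dist x v < 3 * ρ then T.m v else 0
  rw [b5, ← b4] at b6
  have b7 := mul_le_mul_of_nonneg_right a3
    (wt_nonneg (fun v => sq_nonneg (T.m v)) {v : P | dist x v < 3 * ρ})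
  refine (pow_le_pow_left₀ measureReal_nonneg b3 2).trans ?_
  rw [div_mul_eq_mul_div, mul_div_assoc] at b7
  nlinarith

end TH

end KCH
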