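import Pool.Agent.Lib.MP_e1e491_gt.CH.TB

/-! Walks meet lines. -/

namespace KCH

open Set Metric KP2 KCC MeasureTheory Filter Topology
open scoped Classical

variable {Z : Type} [MetricSpace Z] {ξ : Z → ℝ} {δ : ℝ} {P : Finset Z} {H : Type} [Fintype H]
  {B r lam : ℝ}

namespace TH

variable (T : TH ξ δ P H B r lam)

theorem meet {t : ℝ} (ht : ∀ v, t ≠ T.Y v) {S : Set P} {v w : P} (h : Con T.G S v w)
    (hv : T.Y v < t) (hw : t < T.Y w + T.m w) : (S ∩ T.V t).Nonempty := by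
  obtain ⟨x, hx, hP, h1⟩ := h.exists_first (P := fun v => t < T.Y v + T.m v) hw
  refine ⟨x, hx, ?_, hP⟩
  rcases h1 with rfl | ⟨u, hu, h2⟩
  · exact hv
  · exact lt_of_le_of_ne ((T.Y_adj hu).trans (not_lt.1 h2.right_mem.2)) (ht x).symm

/-- The blobs of two points of a connected set in the strip are joined in its shadow. -/
theorem tm_con {E : Set Z} (hE : IsPreconnected E) (hU : E ⊆ St ξ 8) {x y : Z} (hx : x ∈ E)
    (hy : y ∈ E) : ∃ v w : P, T.u x = T.Y v ∧ T.u y = T.Y w ∧ Con T.G (T.Sb E) v w := by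
  obtain ⟨v, h1, h2⟩ := T.β_blob (hU hx)
  obtain ⟨w, h3, h4⟩ := T.β_blob (hU hy)
  exact ⟨v, w, T.u_blob h1, T.u_blob h3, T.sb_cn hE hU v ⟨x, hx, h2⟩ w ⟨y, hy, h4⟩⟩

theorem meet_U {t : ℝ} (ht : ∀ v, t ≠ T.Y v) {E : Set Z} (hE : IsPreconnected E)
    (hU : E ⊆ St ξ 8) {x y : Z} (hx : x ∈ E) (hy : y ∈ E) (h1 : T.u x < t) (h2 : t < T.u y) :
    (T.Sb E ∩ T.V t).Nonempty := by
  obtain ⟨v, w, e1, e2, hc⟩ := T.tm_con hE hU hx hy
  rw [e1] at h1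
  rw [e2] at h2
  exact T.meet ht hc h1 (h2.trans_le (le_add_of_nonneg_right (T.m_nonneg w)))

theorem gap_le {W : P → ℝ} (hW : ∀ v, 0 ≤ W v) {lo hi c : ℝ} (h0 : 0 ≤ lo) (h1 : lo ≤ hi)
    (h2 : hi ≤ 1) (h : ∀ t ∈ Ioo lo hi, T.Ln t → c ≤ wt W (T.V t)) :
    c * (hi - lo) ≤ ∑ v, W v * T.m v := by
  have h3 := le_sum_ov (m := T.m) (X := fun _ => T.Y) (i := true) (c := c) (f := W) h1 (by
    filter_upwards [T.ae_ln] with t ht k using h t k (ht ⟨h0.trans_lt k.1, k.2.trans_le h2⟩))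
  exact h3.trans (Finset.sum_le_sum fun v _ =>
    mul_le_mul_of_nonneg_left (ov_le v (T.m_nonneg v)) (hW v))

theorem osc {S : Set P} {v w : P} (h : Con T.G S v w) : |T.Y v - T.Y w| ≤ wt T.m S := by
  have key : ∀ {a b : P}, Con T.G S a b → T.Y a ≤ T.Y b → T.Y b - T.Y a ≤ wt T.m S := by
    intro a b h hab
    have h0 : ∀ v : P, (0 : ℝ) ≤ if v ∈ S then 1 else 0 := fun v => by positivity
    have hb : T.Y b ≤ T.Y b + T.m b := le_add_of_nonneg_right (T.m_nonneg b)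
    have h1 := T.gap_le h0 (c := 1) (T.Y_nonneg a) hab (hb.trans (T.Y_add_le b)) ?_
    · rw [one_mul] at h1
      refine h1.trans (le_of_eq ?_)
      rw [wt_eq_sum]
      exact Finset.sum_congr rfl fun v _ => by simp
    · intro t ht hl
      obtain ⟨v, hv, hv'⟩ := T.meet (fun v => (T.ln_ne hl v).1) h ht.1 (ht.2.trans_le hb)
      have h2 := tila_le_wt h0 hv'
      rwa [if_pos hv] at h2
  rcases le_total (T.Y v) (T.Y w) with hab | hab
  · rw [abs_sub_comm, abs_of_nonneg (sub_nonneg.2 hab)]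
    exact key h hab
  · rw [abs_of_nonneg (sub_nonneg.2 hab)]
    exact key h.symm hab

theorem osc_U {E : Set Z} (hE : IsPreconnected E) (hU : E ⊆ St ξ 8) {x y : Z} (hx : x ∈ E)
    (hy : y ∈ E) : |T.u x - T.u y| ≤ wt T.m (T.Sb E) := by
  obtain ⟨v, w, e1, e2, hc⟩ := T.tm_con hE hU hx hy
  rw [e1, e2]
  exact T.osc hc

theorem vol_gt {W : P → ℝ} (hW : ∀ v, 0 ≤ W v) {c : ℝ} (hc : 0 < c) :
    volume {t : ℝ | c < wt W (T.V t)} ≤ ENNReal.ofReal ((∑ v, W v * T.m v) / c) :=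
  vol_wt_gt T.m_nonneg hW true hc

theorem crs_le {E : Set Z} (h : Crs ξ E) : T.E ≤ wt T.m (T.Sb E) := by
  refine (T.ht.cross (Sum.inl '' T.Sb E) ?_ (T.cr_of_crs h)).trans (le_of_eq ?_)
  · rw [Set.disjoint_left]
    rintro _ ⟨v, -, rfl⟩ ⟨k, hk⟩
    exact Sum.inr_ne_inl hk
  · rw [wt_eq_sum, wt_eq_sum, Fintype.sum_sum_type]
    simp [m]

/-- A connected set with a low and a high level completes a crossing from bottom to top. -/
theorem cr_near {a lo hi : ℝ} (hn : ∀ v, T.n v ≤ a) {E : Set Z} (hE : IsPreconnected E)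
    (hU : E ⊆ St ξ 8) {p q : Z} (hp : p ∈ E) (hq : q ∈ E) (h1 : T.u p ≤ lo) (h2 : lo ≤ hi)
    (h3 : hi + a < T.u q) :
    Cr T.F T.sd true ({v | T.y v ≤ lo} ∪ {v | hi ≤ T.y v} ∪ Sum.inl '' T.Sb E) := by
  obtain ⟨v, w, e1, e2, hc⟩ := T.tm_con hE hU hp hq
  rw [e1] at h1
  rw [e2] at h3
  exact T.ht.cr T.hc hn (T.con_F hc) h1 h2 h3

end TH

end KCH
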