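import Pool.Agent.Lib.MP_e1e491_gt.CH.Flat

/-! Among three nearly facial continua that are close at seven places two meet. -/

namespace KCH

open Set Metric KP2 KCC

variable {Z : Type} [MetricSpace Z] {η lam : ℝ}

/-- Inside `B` the set `M` lies between `P` and `Q`. -/
def Mid (B M P Q : Set Z) : Prop :=
  ∃ x ∈ M ∩ B, (∃ u ∈ P, JoinedIn (B \ Q) u x) ∧ ∃ u ∈ Q, JoinedIn (B \ P) u x

theorem Mid.symm {B M P Q : Set Z} (h : Mid B M P Q) : Mid B M Q P := by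
  obtain ⟨x, h1, h2, h3⟩ := h
  exact ⟨x, h1, h3, h2⟩

theorem three_seg {γ : ℝ → Z} (hγ : Continuous γ) {s t : ℝ} (h : s ≤ t) {E : Set Z}
    (hE : ∀ u ∈ Icc s t, γ u ∈ E) : JoinedIn E (γ s) (γ t) :=
  ((((convex_Icc s t).isPathConnected ⟨s, le_rfl, h⟩).image hγ).joinedIn _
    ⟨s, ⟨le_rfl, h⟩, rfl⟩ _ ⟨t, ⟨h, le_rfl⟩, rfl⟩).mono (image_subset_iff.2 hE)

theorem three_mid {γ : ℝ → Z} (hγ : Continuous γ) {B P Q R : Set Z} (hB : ∀ u, γ u ∈ B)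
    (hP : IsClosed P) (hQ : IsClosed Q) (hPQ : Disjoint P Q) (hPR : Disjoint P R)
    (hQR : Disjoint Q R) {T : ℝ} (h1 : ∃ s ∈ Icc 0 T, γ s ∈ P) (h2 : ∃ s ∈ Icc 0 T, γ s ∈ Q)
    (h3 : γ T ∈ R) (h4 : ∀ s ∈ Ico 0 T, γ s ∉ R) : Mid B Q P R ∨ Mid B P Q R := by
  have key : ∀ {P Q : Set Z} {a b : ℝ}, Disjoint Q R → IsGreatest (Icc 0 T ∩ γ ⁻¹' P) a →
      b ∈ Icc 0 T ∩ γ ⁻¹' Q → a < b → Mid B Q P R := by
    intro P Q a b hQR ha hb hab
    have hbT : b < T := lt_of_le_of_ne hb.1.2 fun e => disjoint_left.1 hQR hb.2 (e ▸ h3)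
    refine ⟨γ b, ⟨hb.2, hB b⟩, ⟨γ a, ha.1.2, three_seg hγ hab.le fun u hu =>
      ⟨hB u, h4 u ⟨ha.1.1.1.trans hu.1, hu.2.trans_lt hbT⟩⟩⟩,
      γ T, h3, JoinedIn.symm (three_seg hγ hbT.le fun u hu => ⟨hB u, fun k => ?_⟩)⟩
    exact not_lt.2 (ha.2 ⟨⟨hb.1.1.trans hu.1, hu.2⟩, k⟩) (hab.trans_le hu.1)
  obtain ⟨a, ha⟩ := (isCompact_Icc.inter_right (hP.preimage hγ)).exists_isGreatest h1
  obtain ⟨b, hb⟩ := (isCompact_Icc.inter_right (hQ.preimage hγ)).exists_isGreatest h2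
  rcases lt_trichotomy a b with h | h | h
  · exact Or.inl (key hQR ha hb.1 h)
  · exact absurd (h ▸ hb.1.2) (disjoint_left.1 hPQ ha.1.2)
  · exact Or.inr (key hPR hb ha.1 h)

theorem three_local {α : Fin 3 → Set Z} (hc : ∀ i, IsClosed (α i))
    (hd : ∀ i j, i ≠ j → Disjoint (α i) (α j)) {B : Set Z} {x : Fin 3 → Z} (hx : ∀ i, x i ∈ α i)
    (h1 : JoinedIn B (x 0) (x 1)) (h2 : JoinedIn B (x 1) (x 2)) :
    ∃ m, Mid B (α m) (α (m + 1)) (α (m + 2)) := by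
  obtain ⟨σ, hσ⟩ := h1
  obtain ⟨τ, hτ⟩ := h2
  have hr : range (σ.trans τ) ⊆ B := by
    rw [Path.trans_range]
    exact union_subset (range_subset_iff.2 hσ) (range_subset_iff.2 hτ)
  set γ : ℝ → Z := fun u => (σ.trans τ).extend u with hγ
  have hγc : Continuous γ := (σ.trans τ).continuous_extend
  have hB : ∀ u, γ u ∈ B := fun u => hr ((σ.trans τ).extend_range ▸ ⟨u, rfl⟩)
  have hit : ∀ i, (Icc 0 1 ∩ γ ⁻¹' α i).Nonempty := by
    intro i
    have : x i ∈ range (σ.trans τ) := by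
      rw [Path.trans_range]
      fin_cases i
      · exact Or.inl ⟨0, σ.source⟩
      · exact Or.inl ⟨1, σ.target⟩
      · exact Or.inr ⟨1, τ.target⟩
    obtain ⟨t, ht⟩ := this
    refine ⟨t, t.2, ?_⟩
    show (σ.trans τ).extend t ∈ α i
    rw [Path.extend_extends', ht]
    exact hx i
  choose T hT using fun i =>
    (isCompact_Icc.inter_right ((hc i).preimage hγc)).exists_isLeast (hit i)
  obtain ⟨j, hj⟩ := Finite.exists_max T
  have e1 : ∀ j : Fin 3, j + 1 ≠ j + 2 ∧ j + 1 ≠ j ∧ j + 2 ≠ j ∧ j + 2 + 1 = j ∧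
    j + 2 + 2 = j + 1 ∧ j + 1 + 1 = j + 2 ∧ j + 1 + 2 = j := by decide
  obtain ⟨a1, a2, a3, a4, a5, a6, a7⟩ := e1 j
  rcases three_mid hγc hB (hc (j + 1)) (hc (j + 2)) (hd _ _ a1) (hd _ _ a2) (hd _ _ a3)
    (T := T j) ⟨T (j + 1), ⟨(hT _).1.1.1, hj _⟩, (hT _).1.2⟩
    ⟨T (j + 2), ⟨(hT _).1.1.1, hj _⟩, (hT _).1.2⟩ (hT j).1.2
    (fun s hs k => not_lt.2 ((hT j).2 ⟨⟨hs.1, hs.2.le.trans (hT j).1.1.2⟩, k⟩) hs.2) with h | h
  · exact ⟨j + 2, by rw [a4, a5]; exact h.symm⟩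
  · exact ⟨j + 1, by rw [a6, a7]; exact h⟩

theorem three_meet (hl : LL Z lam) (α : Fin 3 → Set Z) (hα : ∀ i, NF η (α i)) (y : Fin 7 → Z)
    {ρ : ℝ} (hρ : 0 < ρ) (hy : ∀ t t', t ≠ t' → 2 * (lam * ρ + η) < dist (y t) (y t'))
    (hx : ∀ i t, ∃ x ∈ α i, dist x (y t) ≤ ρ) : ∃ i j, i ≠ j ∧ (α i ∩ α j).Nonempty := by
  classical
  by_contra hn
  have hd : ∀ i j, i ≠ j → Disjoint (α i) (α j) := fun i j h =>
    disjoint_iff_inter_eq_empty.2 (not_nonempty_iff_eq_empty.1 fun k => hn ⟨i, j, h, k⟩)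
  choose x hx hx' using hx
  choose μ hμ using fun t => three_local (fun i => (hα i).cpt.isClosed) hd (fun i => hx i t)
    (hl.l1 (y t) ρ _ _ hρ (hx' 0 t) (hx' 1 t)) (hl.l1 (y t) ρ _ _ hρ (hx' 1 t) (hx' 2 t))
  obtain ⟨m, hm⟩ := Fintype.exists_lt_card_fiber_of_mul_lt_card μ (n := 2) (by simp)
  set t := Finset.orderEmbOfCardLe _ (show 3 ≤ _ from hm) with ht
  have htm : ∀ k, μ (t k) = m := fun k =>
    (Finset.mem_filter.1 (Finset.orderEmbOfCardLe_mem _ (show 3 ≤ _ from hm) k)).2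
  have hM : ∀ k, Mid (closedBall (y (t k)) (lam * ρ)) (α m) (α (m + 1)) (α (m + 2)) :=
    fun k => htm k ▸ hμ (t k)
  choose z hz hz1 hz2 using hM
  choose u hu hu' using hz1
  choose v hv hv' using hz2
  obtain ⟨A, hA, hb⟩ := (hα m).fl
  choose b hb hb' using fun k => hb (z k) (hz k).1
  have hη : 0 ≤ η := by simpa using (hb' 0).source_mem.2
  have e1 : ∀ j : Fin 3, j + 1 ≠ j + 2 ∧ j ≠ j + 1 ∧ j ≠ j + 2 := by decide
  obtain ⟨a1, a2, a3⟩ := e1 m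
  set N : Fin 3 → Set Z := fun k => closedBall (y (t k)) (lam * ρ + η) with hN
  have hNd : ∀ k k', k ≠ k' → Disjoint (N k) (N k') := fun k k' h =>
    closedBall_disjoint_closedBall (by linarith [hy (t k) (t k') (t.injective.ne h)])
  have s1 : ∀ k, closedBall (y (t k)) (lam * ρ) ⊆ N k := fun k =>
    closedBall_subset_closedBall (by linarith)
  have s2 : ∀ k, α m ∩ closedBall (z k) η ⊆ N k := fun k w hw => by
    have h1 := mem_closedBall.1 hw.2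
    have h2 := mem_closedBall.1 (hz k).2
    exact mem_closedBall.2 (by linarith [dist_triangle w (z k) (y (t k))])
  refine hA b (fun s => if s then v 0 else u 0)
    (fun s k => if s then α (m + 2) ∪ (N k \ α (m + 1)) else α (m + 1) ∪ (N k \ α (m + 2))) hb
    (fun s k => ?_) (fun k k' h => ?_) fun s k k' h => ?_
  · cases s
    · show JoinedIn (α (m + 1) ∪ (N k \ α (m + 2))) (u 0) (b k)
      refine ((((hα _).pc _ (hu 0) _ (hu k)).mono subset_union_left).trans ((hu' k).mono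
        fun w hw => Or.inr ?_)).trans ((hb' k).mono fun w hw => Or.inr ?_)
      · exact ⟨s1 k hw.1, hw.2⟩
      · exact ⟨s2 k hw, disjoint_left.1 (hd _ _ a3) hw.1⟩
    · show JoinedIn (α (m + 2) ∪ (N k \ α (m + 1))) (v 0) (b k)
      refine ((((hα _).pc _ (hv 0) _ (hv k)).mono subset_union_left).trans ((hv' k).mono
        fun w hw => Or.inr ?_)).trans ((hb' k).mono fun w hw => Or.inr ?_)
      · exact ⟨s1 k hw.1, hw.2⟩
      · exact ⟨s2 k hw, disjoint_left.1 (hd _ _ a2) hw.1⟩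
  · rw [disjoint_left]
    rintro w (h1 | h1) (h2 | h2)
    · exact disjoint_left.1 (hd _ _ a1) h1 h2
    · exact h2.2 h1
    · exact h1.2 h2
    · exact disjoint_left.1 (hNd k k' h) h1.1 h2.1
  · have h1 := (hb' k).target_mem
    have h2 : b k ∉ N k' := disjoint_left.1 (hNd k k' h) (s2 k h1)
    cases s
    · exact fun w => w.elim (disjoint_left.1 (hd _ _ a2) h1.1) fun w => h2 w.1
    · exact fun w => w.elim (disjoint_left.1 (hd _ _ a3) h1.1) fun w => h2 w.1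

end KCH
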